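import Pool.Agent.Work.MP_408f4b_gt.A2.Stmts
import Pool.Agent.Work.MP_408f4b_gt.Q.I.Eqn

set_option autoImplicit false

namespace Pool.Agent.Work.MP_408f4b_gt.A2

open MeasureTheory Set Filter Topology Pool.Agent.Work.MP_408f4b_gt.Q

namespace JEqn

theorem sqr3 : (√3 : ℝ) * √3 = 3 := Real.mul_self_sqrt (by norm_num)

theorem one_lt : (1 : ℝ) < √3 := by
  rw [Real.lt_sqrt (by norm_num)]; norm_num

theorem x_eq (a b : ℝ) : (2 * √3) * a = (1 + √3) * d1 a b + (√3 - 1) * d3 a b := by
  unfold d1 d3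
  linear_combination (-a) * sqr3 + (a) * sqr3

theorem y_eq (a b : ℝ) : (2 * √3) * b = (√3 - 1) * d1 a b + (1 + √3) * d3 a b := by
  unfold d1 d3
  linear_combination (-b) * sqr3 + (b) * sqr3

end JEqn

theorem prfEqn : cEqn := by
  intro m α β x y hm hab hC s hs
  obtain ⟨hx, hy, hrest⟩ := hC
  obtain ⟨k, rfl⟩ : ∃ k, m = k + 1 := ⟨m - 1, by omega⟩
  obtain ⟨hD1, hD3, h1, h3⟩ := hrest s hs
  have h2 := Q.JEqn.orth hab hx hy (fun s hs => (hrest s hs).2.2.1) s hs
  have h3p : (0 : ℝ) < √3 := Real.sqrt_pos.2 (by norm_num)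
  have hX : 0 < x s := by
    have := JEqn.x_eq (x s) (y s)
    have h4 : 0 < (2 * √3) * x s := by
      rw [this]
      have := JEqn.one_lt
      have e1 : 0 < (1 + √3) * d1 (x s) (y s) := mul_pos (by linarith) hD1
      have e2 : 0 < (√3 - 1) * d3 (x s) (y s) := mul_pos (by linarith) hD3
      linarith
    exact (pos_iff_pos_of_mul_pos h4).1 (by linarith)
  have hY : 0 < y s := by
    have := JEqn.y_eq (x s) (y s)
    have h4 : 0 < (2 * √3) * y s := by
      rw [this]
      have := JEqn.one_lt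
      have e1 : 0 < (√3 - 1) * d1 (x s) (y s) := mul_pos (by linarith) hD1
      have e2 : 0 < (1 + √3) * d3 (x s) (y s) := mul_pos (by linarith) hD3
      linarith
    exact (pos_iff_pos_of_mul_pos h4).1 (by linarith)
  have hS : 0 < x s + y s := add_pos hX hY
  have hA : deriv (deriv x) s = -(k3 (k + 1) x y s) * deriv y s := by
    linear_combination (-deriv (deriv x) s) * h1 + deriv x s * h2 - deriv y s * h3
  have hB : deriv (deriv y) s = k3 (k + 1) x y s * deriv x s := by
    linear_combination (-deriv (deriv y) s) * h1 + deriv y s * h2 + deriv x s * h3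
  have dx := Q.JEqn.hasDeriv1 hx s
  have dy := Q.JEqn.hasDeriv1 hy s
  have ddx := Q.JEqn.hasDeriv2 hx s
  have ddy := Q.JEqn.hasDeriv2 hy s
  rw [hA] at ddx
  rw [hB] at ddy
  have hk3 : k3 (k + 1) x y s = ((k + 1 : ℕ) : ℝ) * ((deriv x s - deriv y s) / (x s + y s) +
    ((1 - √3) * deriv x s - (1 + √3) * deriv y s) / (2 * d1 (x s) (y s)) +
    ((1 + √3) * deriv x s - (1 - √3) * deriv y s) / (2 * d3 (x s) (y s))) := rfl
  have dd1 : HasDerivAt (fun t => d1 (x t) (y t)) (d1 (deriv x s) (deriv y s)) s := by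
    unfold d1
    exact ((dx.const_mul (1 + √3)).fun_add (dy.const_mul (1 - √3))).div_const 2
  have dd3 : HasDerivAt (fun t => d3 (x t) (y t)) (d3 (deriv x s) (deriv y s)) s := by
    unfold d3
    exact ((dx.const_mul (1 - √3)).fun_add (dy.const_mul (1 + √3))).div_const 2
  have dw : HasDerivAt (w3 (k + 1) x y) (w3 (k + 1) x y s * (((k + 1 : ℕ) : ℝ) *
      (d1 (deriv x s) (deriv y s) / d1 (x s) (y s) +
      (deriv x s + deriv y s) / (x s + y s) + d3 (deriv x s) (deriv y s) / d3 (x s) (y s)))) s := by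
    have e1 := (((dd1.fun_mul (dx.fun_add dy)).fun_mul dd3).fun_pow (k + 1))
    refine HasDerivAt.congr_deriv (f := w3 (k + 1) x y) e1 ?_
    unfold w3
    push_cast
    rw [pow_succ]
    generalize (d1 (x s) (y s) * (x s + y s) * d3 (x s) (y s)) ^ k = P
    generalize d1 (deriv x s) (deriv y s) = u
    generalize d3 (deriv x s) (deriv y s) = v
    field_simp
  have g1 : HasDerivAt (fun t => w3 (k + 1) x y t * deriv x t)
      (w3 (k + 1) x y s * (((k + 1 : ℕ) : ℝ) * (1 / (x s + y s) + (1 + √3) / (2 * d1 (x s) (y s)) +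
      (1 - √3) / (2 * d3 (x s) (y s))))) s := by
    refine (dw.fun_mul ddx).congr_deriv ?_
    rw [hk3]
    have eu : d1 (deriv x s) (deriv y s) =
      ((1 + √3) * deriv x s + (1 - √3) * deriv y s) / 2 := rfl
    have ev : d3 (deriv x s) (deriv y s) =
      ((1 - √3) * deriv x s + (1 + √3) * deriv y s) / 2 := rfl
    rw [eu, ev]
    generalize w3 (k + 1) x y s = W
    generalize (((k + 1 : ℕ) : ℝ)) = M
    generalize d1 (x s) (y s) = D1 at hD1 ⊢
    generalize d3 (x s) (y s) = D3 at hD3 ⊢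
    generalize x s + y s = S at hS ⊢
    have hD1' := hD1.ne'
    have hD3' := hD3.ne'
    have hS' := hS.ne'
    linear_combination (W * M * (1 / S + (1 + √3) / (2 * D1) + (1 - √3) / (2 * D3))) * h1
  have g2 : HasDerivAt (fun t => w3 (k + 1) x y t * deriv y t)
      (w3 (k + 1) x y s * (((k + 1 : ℕ) : ℝ) * (1 / (x s + y s) + (1 - √3) / (2 * d1 (x s) (y s)) +
      (1 + √3) / (2 * d3 (x s) (y s))))) s := by
    refine (dw.fun_mul ddy).congr_deriv ?_
    rw [hk3]
    have eu : d1 (deriv x s) (deriv y s) =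
      ((1 + √3) * deriv x s + (1 - √3) * deriv y s) / 2 := rfl
    have ev : d3 (deriv x s) (deriv y s) =
      ((1 - √3) * deriv x s + (1 + √3) * deriv y s) / 2 := rfl
    rw [eu, ev]
    generalize w3 (k + 1) x y s = W
    generalize (((k + 1 : ℕ) : ℝ)) = M
    generalize d1 (x s) (y s) = D1 at hD1 ⊢
    generalize d3 (x s) (y s) = D3 at hD3 ⊢
    generalize x s + y s = S at hS ⊢
    have hD1' := hD1.ne'
    have hD3' := hD3.ne'
    have hS' := hS.ne'
    linear_combination (W * M * (1 / S + (1 - √3) / (2 * D1) + (1 + √3) / (2 * D3))) * h1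
  have hwpos : 0 < w3 (k + 1) x y s := by
    unfold w3
    positivity
  refine ⟨hX, hY, hwpos, ddx, ddy, dw, g1, g2, ?_, ?_⟩
  · have e : (fun t => w3 (k + 1) x y t * (x t * deriv x t + y t * deriv y t)) =
        fun t => x t * (w3 (k + 1) x y t * deriv x t) +
          y t * (w3 (k + 1) x y t * deriv y t) := by
      funext t; ring
    rw [e]
    refine ((dx.fun_mul g1).fun_add (dy.fun_mul g2)).congr_deriv ?_
    have hu1 : ((1 + √3) * x s + (1 - √3) * y s) / (2 * d1 (x s) (y s)) = 1 := by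
      have : 2 * d1 (x s) (y s) = (1 + √3) * x s + (1 - √3) * y s := by unfold d1; ring
      rw [this]
      apply div_self
      rw [← this]; positivity
    have hu3 : ((1 - √3) * x s + (1 + √3) * y s) / (2 * d3 (x s) (y s)) = 1 := by
      have : 2 * d3 (x s) (y s) = (1 - √3) * x s + (1 + √3) * y s := by unfold d3; ring
      rw [this]
      apply div_self
      rw [← this]; positivity
    have hu2 : (x s + y s) / (x s + y s) = 1 := div_self hS.ne'
    generalize w3 (k + 1) x y s = W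
    generalize (((k + 1 : ℕ) : ℝ)) = M
    linear_combination W * h1 + (W * M) * hu1 + (W * M) * hu2 + (W * M) * hu3
  · refine ((dx.fun_mul ddy).fun_sub (dy.fun_mul ddx)).congr_deriv ?_
    ring

end Pool.Agent.Work.MP_408f4b_gt.A2
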