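import Pool.Agent.Work.MP_408f4b_gt.A2.Stmts
import Pool.Agent.Work.MP_408f4b_gt.A2.I.Eqn
import Pool.Agent.Work.MP_408f4b_gt.Q.I.Arm

set_option autoImplicit false

/-!
# Item Arm: half a profile curve gives an arm
-/

namespace Pool.Agent.Work.MP_408f4b_gt.A2

open MeasureTheory Set Filter Topology Pool.Agent.Work.MP_408f4b_gt.Q

namespace JArm

lemma s3 : (√3 : ℝ) * √3 = 3 := Real.mul_self_sqrt (by norm_num)

lemma d1d3 (X Y : ℝ) : 2 * (d1 X Y * d3 X Y) = 4 * X * Y - X ^ 2 - Y ^ 2 := by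
  unfold d1 d3
  linear_combination (-(X ^ 2) / 2 - Y ^ 2 / 2 + X * Y) * s3

/-- the curvature as a rational function -/
lemma k_alg (X Y X' Y' : ℝ) (hX : 0 < X) (hY : 0 < Y) (h1 : 0 < d1 X Y) (h3 : 0 < d3 X Y) :
    ((X' - Y') / (X + Y) + ((1 - √3) * X' - (1 + √3) * Y') / (2 * d1 X Y) +
      ((1 + √3) * X' - (1 - √3) * Y') / (2 * d3 X Y)) * (X ^ 2 + Y ^ 2) =
    3 * ((X * X' + Y * Y') * ((X - Y) * (X ^ 2 + 4 * X * Y + Y ^ 2) /
      ((X + Y) * (4 * X * Y - X ^ 2 - Y ^ 2))) - (X * Y' - Y * X')) := by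
  have hP : 0 < 4 * X * Y - X ^ 2 - Y ^ 2 := by
    rw [← d1d3]; positivity
  have hS : 0 < X + Y := by positivity
  have e1 : ((1 - √3) * X' - (1 + √3) * Y') / (2 * d1 X Y) +
      ((1 + √3) * X' - (1 - √3) * Y') / (2 * d3 X Y) =
      ((4 * X - 2 * Y) * X' + (2 * X - 4 * Y) * Y') / (4 * X * Y - X ^ 2 - Y ^ 2) := by
    rw [← d1d3, div_add_div _ _ (by positivity) (by positivity), div_eq_div_iff (by positivity)
      (by positivity)]
    have e2 : ((1 - √3) * X' - (1 + √3) * Y') * (2 * d3 X Y) +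
        2 * d1 X Y * ((1 + √3) * X' - (1 - √3) * Y') =
        2 * ((4 * X - 2 * Y) * X' + (2 * X - 4 * Y) * Y') := by
      unfold d1 d3
      linear_combination (2 * X * X' - 2 * Y * X' + 2 * X * Y' - 2 * Y * Y') * s3
    rw [e2]; ring
  rw [add_assoc, e1]
  generalize hPd : 4 * X * Y - X ^ 2 - Y ^ 2 = P at hP
  field_simp
  rw [← hPd]
  ring

lemma tan12 : Real.tan (Real.pi / 12) = 2 - √3 := by
  have h2p : (0 : ℝ) < √2 := Real.sqrt_pos.2 (by norm_num)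
  have hp3 : (0 : ℝ) < √3 := Real.sqrt_pos.2 (by norm_num)
  have hs3 := s3
  have e : Real.pi / 12 = Real.pi / 3 - Real.pi / 4 := by ring
  rw [Real.tan_eq_sin_div_cos, e, Real.sin_sub, Real.cos_sub, Real.cos_pi_div_three,
    Real.sin_pi_div_three, Real.cos_pi_div_four, Real.sin_pi_div_four,
    div_eq_iff (by positivity)]
  linear_combination (√2 / 4) * hs3

lemma range_phi {X Y : ℝ} (hX : 0 < X) (hY : 0 < Y) (h1 : 0 < d1 X Y) (h3 : 0 < d3 X Y) :
    3 / 2 * Real.arctan (Y / X) - Real.pi / 8 ∈ Ioo 0 (Real.pi / 2) := by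
  have hs3 := s3
  have hp3 : (0 : ℝ) < √3 := Real.sqrt_pos.2 (by norm_num)
  have ha : Real.pi / 12 < Real.arctan (Y / X) := by
    have e1 : Real.arctan (Real.tan (Real.pi / 12)) = Real.pi / 12 :=
      Real.arctan_tan (by linarith [Real.pi_pos]) (by linarith [Real.pi_pos])
    rw [← e1]
    apply Real.arctan_strictMono
    rw [tan12, lt_div_iff₀ hX]
    unfold d3 at h3
    nlinarith
  have hb : Real.arctan (X / Y) > Real.pi / 12 := by
    have e1 : Real.arctan (Real.tan (Real.pi / 12)) = Real.pi / 12 :=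
      Real.arctan_tan (by linarith [Real.pi_pos]) (by linarith [Real.pi_pos])
    rw [← e1]
    apply Real.arctan_strictMono
    rw [tan12, lt_div_iff₀ hY]
    unfold d1 at h1
    nlinarith
  have hc : Real.arctan (X / Y) = Real.pi / 2 - Real.arctan (Y / X) := by
    rw [← Real.arctan_inv_of_pos (by positivity : 0 < Y / X), inv_div]
  rw [hc] at hb
  constructor
  · linarith
  · linarith

/-- the angle `φ` -/
lemma kk_phi (m : ℕ) {X Y : ℝ} (hX : 0 < X) (hY : 0 < Y) (h1 : 0 < d1 X Y) (h3 : 0 < d3 X Y) :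
    kk (m + 1) (m + 1) (3 / 2 * Real.arctan (Y / X) - Real.pi / 8) =
      2 * (m : ℝ) * ((X - Y) * (X ^ 2 + 4 * X * Y + Y ^ 2) /
      ((X + Y) * (4 * X * Y - X ^ 2 - Y ^ 2))) := by
  have hP : 0 < 4 * X * Y - X ^ 2 - Y ^ 2 := by
    rw [← d1d3]; positivity
  set θ := Real.arctan (Y / X) with hθ
  have hc : 0 < Real.cos θ := Real.cos_arctan_pos _
  have hs : Real.sin θ = Y / X * Real.cos θ := by
    have := Real.tan_mul_cos hc.ne'
    rw [hθ, Real.tan_arctan] at this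
    exact this.symm
  have hr := range_phi hX hY h1 h3
  set u := 3 / 2 * θ - Real.pi / 8 with hu
  have hsu : 0 < Real.sin u := Real.sin_pos_of_pos_of_lt_pi hr.1 (by linarith [hr.2, Real.pi_pos])
  have hcu : 0 < Real.cos u := Real.cos_pos_of_mem_Ioo ⟨by linarith [hr.1, Real.pi_pos], hr.2⟩
  have e2 : 2 * u = 3 * θ - Real.pi / 4 := by rw [hu]; ring
  have h2s : 2 * Real.sin u * Real.cos u =
      √2 / 2 * (Real.sin (3 * θ) - Real.cos (3 * θ)) := by
    rw [← Real.sin_two_mul, e2, Real.sin_sub, Real.cos_pi_div_four, Real.sin_pi_div_four]; ring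
  have h2c : Real.cos u ^ 2 - Real.sin u ^ 2 =
      √2 / 2 * (Real.cos (3 * θ) + Real.sin (3 * θ)) := by
    rw [← Real.cos_two_mul', e2, Real.cos_sub, Real.cos_pi_div_four, Real.sin_pi_div_four]; ring
  have h3s : Real.sin (3 * θ) = (3 * (Y / X) - (Y / X) ^ 3) * Real.cos θ ^ 3 := by
    have h4 := Real.sin_sq_add_cos_sq θ
    rw [Real.sin_three_mul]
    have : Real.sin θ = Real.sin θ * (Real.sin θ ^ 2 + Real.cos θ ^ 2) := by rw [h4, mul_one]
    calc 3 * Real.sin θ - 4 * Real.sin θ ^ 3 =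
          3 * (Real.sin θ * (Real.sin θ ^ 2 + Real.cos θ ^ 2)) - 4 * Real.sin θ ^ 3 := by
            rw [← this]
      _ = 3 * Real.sin θ * Real.cos θ ^ 2 - Real.sin θ ^ 3 := by ring
      _ = _ := by rw [hs]; ring
  have h3c : Real.cos (3 * θ) = (1 - 3 * (Y / X) ^ 2) * Real.cos θ ^ 3 := by
    have h4 := Real.sin_sq_add_cos_sq θ
    rw [Real.cos_three_mul]
    have : Real.cos θ = Real.cos θ * (Real.sin θ ^ 2 + Real.cos θ ^ 2) := by rw [h4, mul_one]
    calc 4 * Real.cos θ ^ 3 - 3 * Real.cos θ =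
          4 * Real.cos θ ^ 3 - 3 * (Real.cos θ * (Real.sin θ ^ 2 + Real.cos θ ^ 2)) := by
            rw [← this]
      _ = Real.cos θ ^ 3 - 3 * Real.cos θ * Real.sin θ ^ 2 := by ring
      _ = _ := by rw [hs]; ring
  have h2p : (0 : ℝ) < √2 := Real.sqrt_pos.2 (by norm_num)
  have e5 : kk (m + 1) (m + 1) u =
      2 * (m : ℝ) * ((Real.cos u ^ 2 - Real.sin u ^ 2) / (2 * Real.sin u * Real.cos u)) := by
    unfold kk
    push_cast
    field_simp
    ring
  have hD : 0 < 2 * Real.sin u * Real.cos u := by positivity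
  rw [e5]
  congr 1
  rw [h2c, h2s, h3s, h3c] at *
  rw [div_eq_div_iff hD.ne' (by positivity)]
  field_simp
  ring


end JArm

open Q.JArm A2.JArm in
theorem prfArm (hcEqn : cEqn) : cArm := by
  intro e ℓ ε x y he hℓ hε hC h0 hpos hm0
  have hEq := hcEqn e 0 ℓ x y he hℓ hC
  obtain ⟨hx2, hy2, hcur⟩ := hC
  have hxd : ∀ s, HasDerivAt x (deriv x s) s := fun s =>
    (hx2.differentiable (by norm_num)).differentiableAt.hasDerivAt
  have hyd : ∀ s, HasDerivAt y (deriv y s) s := fun s =>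
    (hy2.differentiable (by norm_num)).differentiableAt.hasDerivAt
  have hx'c : Continuous (deriv x) := hx2.continuous_deriv (by norm_num)
  have hy'c : Continuous (deriv y) := hy2.continuous_deriv (by norm_num)
  have hxc : Continuous x := hx2.continuous
  have hyc : Continuous y := hy2.continuous
  set c : ℝ → ℝ := fun s => x s * deriv x s + y s * deriv y s with hcdef
  set m : ℝ → ℝ := fun s => x s * deriv y s - y s * deriv x s with hmdef
  have hcc : Continuous c := (hxc.mul hx'c).add (hyc.mul hy'c)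
  have hmc : Continuous m := (hxc.mul hy'c).sub (hyc.mul hx'c)
  have hRc : Continuous (rad x y) := ((hxc.pow 2).add (hyc.pow 2)).sqrt
  -- extension of the interval
  obtain ⟨l', hl', hext⟩ : ∃ l' > ℓ, ∀ s ∈ Icc ℓ l', 0 < y s ∧ 0 < x s ∧ 0 < c s := by
    have hl := hEq ℓ ⟨hℓ.le, le_rfl⟩
    have h1 : ∀ᶠ s in 𝓝 ℓ, 0 < y s ∧ 0 < x s ∧ 0 < c s :=
      (hyc.continuousAt.eventually (lt_mem_nhds hl.2.1)).and
        ((hxc.continuousAt.eventually (lt_mem_nhds hl.1)).and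
          (hcc.continuousAt.eventually (lt_mem_nhds (hpos ℓ ⟨hℓ, le_rfl⟩))))
    obtain ⟨δ, hδ, hball⟩ := Metric.eventually_nhds_iff.mp h1
    refine ⟨ℓ + δ / 2, by linarith, fun s hs => hball ?_⟩
    rw [Real.dist_eq, abs_lt]
    constructor
    · linarith [hs.1]
    · linarith [hs.2]
  have hl0 : 0 < l' := hℓ.trans hl'
  have hyp : ∀ s ∈ Icc 0 l', 0 < y s := by
    intro s hs
    rcases le_total s ℓ with h | h
    · exact (hEq s ⟨hs.1, h⟩).2.1
    · exact (hext s ⟨h, hs.2⟩).1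
  have hxp : ∀ s ∈ Icc 0 l', 0 < x s := by
    intro s hs
    rcases le_total s ℓ with h | h
    · exact (hEq s ⟨hs.1, h⟩).1
    · exact (hext s ⟨h, hs.2⟩).2.1
  have hcp : ∀ s ∈ Ioc 0 l', 0 < c s := by
    intro s hs
    rcases le_total s ℓ with h | h
    · exact hpos s ⟨hs.1, h⟩
    · exact (hext s ⟨h, hs.2⟩).2.2
  have hR0 : 0 < rad x y 0 := rad_pos (hxp 0 ⟨le_rfl, hl0.le⟩)
  have hRp : ∀ s ∈ Icc 0 l', 0 < rad x y s := fun s hs => rad_pos (hxp s hs)
  set τ : ℝ → ℝ := fun s => Real.log (rad x y s / rad x y 0) with hτdef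
  have hτd : ∀ s ∈ Icc 0 l', HasDerivAt τ (c s / rad x y s ^ 2) s := fun s hs =>
    hasDerivAt_tau (hxd s) (hyd s) (hxp s hs) hR0
  have hτc : ContinuousOn τ (Icc 0 l') := fun s hs =>
    (hτd s hs).continuousAt.continuousWithinAt
  have hτm : StrictMonoOn τ (Icc 0 l') := by
    apply strictMonoOn_of_deriv_pos (convex_Icc 0 l') hτc
    intro s hs
    rw [interior_Icc] at hs
    rw [(hτd s ⟨hs.1.le, hs.2.le⟩).deriv]
    have h1 := hcp s ⟨hs.1, hs.2.le⟩
    have h2 := hRp s ⟨hs.1.le, hs.2.le⟩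
    positivity
  have hτ0 : τ 0 = 0 := by
    simp only [hτdef]
    rw [div_self hR0.ne', Real.log_one]
  obtain ⟨g, hgc, hgm, hg1, hg2⟩ := exists_inverse τ l' hl0 hτc hτm hτ0
  have hTpos : 0 < τ ℓ := by
    rw [← hτ0]; exact hτm ⟨le_rfl, hl0.le⟩ ⟨hℓ.le, hl'.le⟩ hℓ
  have hTlt : τ ℓ < τ l' := hτm ⟨hℓ.le, hl'.le⟩ ⟨hl0.le, le_rfl⟩ hl'
  have hg0 : g 0 = 0 := by
    have := hg1 0 ⟨le_rfl, hl0.le⟩
    rwa [hτ0] at this
  have hgl : g (τ ℓ) = ℓ := hg1 ℓ ⟨hℓ.le, hl'.le⟩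
  have hgI : ∀ t ∈ Icc 0 (τ ℓ), g t ∈ Icc 0 ℓ := by
    intro t ht
    constructor
    · rw [← hg0]; exact hgm.monotone ht.1
    · rw [← hgl]; exact hgm.monotone ht.2
  have hgI' : ∀ t ∈ Ioc 0 (τ ℓ), g t ∈ Ioc 0 ℓ := by
    intro t ht
    constructor
    · rw [← hg0]; exact hgm ht.1
    · rw [← hgl]; exact hgm.monotone ht.2
  have hIl : ∀ s ∈ Icc 0 ℓ, s ∈ Icc 0 l' := fun s hs => ⟨hs.1, hs.2.trans hl'.le⟩
  have hgd : ∀ t ∈ Ioc 0 (τ ℓ), HasDerivAt g (c (g t) / rad x y (g t) ^ 2)⁻¹ t := by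
    intro t ht
    have h1 := hgI' t ht
    have h2 : g t ∈ Icc 0 l' := hIl _ ⟨h1.1.le, h1.2⟩
    apply HasDerivAt.of_local_left_inverse hgc.continuousAt (hτd _ h2)
    · have h3 := hcp (g t) ⟨h1.1, h2.2⟩
      have h4 := hRp _ h2
      positivity
    · filter_upwards [Ioo_mem_nhds ht.1 (ht.2.trans_lt hTlt)] with t' ht'
      exact (hg2 t' ⟨ht'.1.le, ht'.2.le⟩).2
  have hcm : ∀ s ∈ Icc 0 ℓ, c s ^ 2 + m s ^ 2 = rad x y s ^ 2 := by
    intro s hs
    rw [rad_sq]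
    exact cm _ _ _ _ (hcur s hs).2.2.1
  have hRle : ∀ s ∈ Icc 0 ℓ, -1 ≤ m s / rad x y s ∧ m s / rad x y s ≤ 1 := by
    intro s hs
    have hR := hRp s (hIl s hs)
    have h1 : |m s| ≤ rad x y s := by
      apply abs_le_of_sq_le_sq _ hR.le
      have := hcm s hs
      nlinarith [sq_nonneg (c s)]
    rw [abs_le] at h1
    constructor
    · rw [le_div_iff₀ hR]; linarith
    · rw [div_le_one hR]; exact h1.2
  -- rescaled time
  have hhc : Icc 0 (3 / 2 * τ ℓ) ⊆ (fun t : ℝ => 2 / 3 * t) ⁻¹' Icc 0 (τ ℓ) := by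
    intro t ht
    exact ⟨by show 0 ≤ 2 / 3 * t; linarith [ht.1], by show 2 / 3 * t ≤ τ ℓ; linarith [ht.2]⟩
  have hho : Ioc 0 (3 / 2 * τ ℓ) ⊆ (fun t : ℝ => 2 / 3 * t) ⁻¹' Ioc 0 (τ ℓ) := by
    intro t ht
    exact ⟨by show 0 < 2 / 3 * t; linarith [ht.1], by show 2 / 3 * t ≤ τ ℓ; linarith [ht.2]⟩
  have hGc : Continuous (fun t : ℝ => g (2 / 3 * t)) := hgc.comp (continuous_const.mul continuous_id)
  have hGd : ∀ t ∈ Ioc 0 (3 / 2 * τ ℓ), HasDerivAt (fun t : ℝ => g (2 / 3 * t))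
      ((c (g (2 / 3 * t)) / rad x y (g (2 / 3 * t)) ^ 2)⁻¹ * (2 / 3 * 1)) t := by
    intro t ht
    exact (hgd (2 / 3 * t) (hho ht)).comp t ((hasDerivAt_id t).const_mul (2 / 3))
  have hPhi : ∀ σ ∈ Icc 0 ℓ, HasDerivAt (fun s => 3 / 2 * Real.arctan (y s / x s) - Real.pi / 8)
      (3 / 2 * (m σ / rad x y σ ^ 2)) σ := by
    intro σ hσ
    have hX := hxp _ (hIl _ hσ)
    have hY := hyp _ (hIl _ hσ)
    have h4 := ((((hyd σ).fun_div (hxd σ) hX.ne').arctan).const_mul (3 / 2)).sub_const (Real.pi / 8)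
    refine h4.congr_deriv ?_
    rw [rad_sq]
    simp only [hmdef]
    field_simp
  have hPsi : ∀ σ ∈ Ioc 0 ℓ, HasDerivAt (fun s => Real.arcsin (m s / rad x y s))
      (k3 e x y σ - m σ / rad x y σ ^ 2) σ := by
    intro σ h1
    have h2 : σ ∈ Icc 0 ℓ := ⟨h1.1.le, h1.2⟩
    have hX := hxp _ (hIl _ h2)
    have hc := hcp σ ⟨h1.1, h1.2.trans hl'.le⟩
    have hR := hRp _ (hIl _ h2)
    have hcm' := hcm _ h2
    have hb' := abs_mR hc hR hcm'
    have hm' : HasDerivAt m (k3 e x y σ * c σ) σ := (hEq σ h2).2.2.2.2.2.2.2.2.2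
    have hR' : HasDerivAt (rad x y) (c σ / rad x y σ) σ := hasDerivAt_rad (hxd _) (hyd _) hX
    have h3 := (Real.hasDerivAt_arcsin hb'.1.ne' hb'.2.ne).comp σ (hm'.fun_div hR' hR.ne')
    refine h3.congr_deriv ?_
    rw [sqrt_c hc hR hcm']
    generalize k3 e x y σ = κ
    generalize c σ = cc at hc
    generalize m σ = mm
    generalize rad x y σ = RR at hR
    field_simp
  refine ⟨fun t => 3 / 2 * Real.arctan (y (g (2 / 3 * t)) / x (g (2 / 3 * t))) - Real.pi / 8,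
    fun t => Real.arcsin (m (g (2 / 3 * t)) / rad x y (g (2 / 3 * t))),
    hTpos, ⟨?_, ?_, ?_, ?_, ?_, ?_⟩, ?_, ?_⟩
  · -- continuity of `φ`
    apply ContinuousOn.sub _ continuousOn_const
    apply ContinuousOn.mul continuousOn_const
    apply Real.continuous_arctan.comp_continuousOn
    apply ContinuousOn.div (hyc.comp hGc).continuousOn (hxc.comp hGc).continuousOn
    intro t ht
    exact (hxp _ (hIl _ (hgI _ (hhc ht)))).ne'
  · -- continuity of `ψ`
    apply Real.continuous_arcsin.comp_continuousOn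
    apply ContinuousOn.div (hmc.comp hGc).continuousOn (hRc.comp hGc).continuousOn
    intro t ht
    exact (hRp _ (hIl _ (hgI _ (hhc ht)))).ne'
  · -- range of `φ`
    intro t ht
    have hI := hgI _ (hhc ht)
    exact range_phi (hxp _ (hIl _ hI)) (hyp _ (hIl _ hI)) (hcur _ hI).1 (hcur _ hI).2.1
  · -- range of `ψ`
    intro t ht
    have h1 := hgI' _ (hho ht)
    have h2 : g (2 / 3 * t) ∈ Icc 0 ℓ := ⟨h1.1.le, h1.2⟩
    have h3 := abs_mR (hcp (g (2 / 3 * t)) ⟨h1.1, h1.2.trans hl'.le⟩) (hRp _ (hIl _ h2)) (hcm _ h2)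
    exact ⟨Real.neg_pi_div_two_lt_arcsin.mpr h3.1, Real.arcsin_lt_pi_div_two.mpr h3.2⟩
  · -- derivative of `φ`
    intro t ht
    have h1 : g (2 / 3 * t) ∈ Ioc 0 ℓ := hgI' _ (hho ht)
    have h5 := (hPhi _ ⟨h1.1.le, h1.2⟩).comp t (hGd t ht)
    refine h5.congr_deriv ?_
    have h2 : g (2 / 3 * t) ∈ Icc 0 ℓ := ⟨h1.1.le, h1.2⟩
    have hc := hcp (g (2 / 3 * t)) ⟨h1.1, h1.2.trans hl'.le⟩
    have hR := hRp _ (hIl _ h2)
    rw [Real.tan_arcsin, sqrt_c hc hR (hcm _ h2)]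
    generalize g (2 / 3 * t) = σ at *
    generalize c σ = cc at hc
    generalize m σ = mm
    generalize rad x y σ = RR at hR
    field_simp
  · -- derivative of `ψ`
    intro t ht
    have h1 : g (2 / 3 * t) ∈ Ioc 0 ℓ := hgI' _ (hho ht)
    have h4 := (hPsi _ h1).comp t (hGd t ht)
    refine h4.congr_deriv ?_
    have h2 : g (2 / 3 * t) ∈ Icc 0 ℓ := ⟨h1.1.le, h1.2⟩
    have hX := hxp _ (hIl _ h2)
    have hY := hyp _ (hIl _ h2)
    have hd1 := (hcur _ h2).1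
    have hd3 := (hcur _ h2).2.1
    have hc := hcp (g (2 / 3 * t)) ⟨h1.1, h1.2.trans hl'.le⟩
    have hR := hRp _ (hIl _ h2)
    have hcm' := hcm _ h2
    rw [Real.tan_arcsin, sqrt_c hc hR hcm']
    clear h4 h1
    generalize g (2 / 3 * t) = σ at *
    rw [kk_phi e hX hY hd1 hd3]
    have h5 := k_alg (x σ) (y σ) (deriv x σ) (deriv y σ) hX hY hd1 hd3
    have h6 : k3 e x y σ * rad x y σ ^ 2 = e * (3 * (c σ * ((x σ - y σ) * (x σ ^ 2 +
        4 * x σ * y σ + y σ ^ 2) / ((x σ + y σ) * (4 * x σ * y σ - x σ ^ 2 - y σ ^ 2))) -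
        m σ)) := by
      rw [rad_sq]
      simp only [hcdef, hmdef]
      rw [← h5]
      unfold k3
      ring
    generalize (x σ - y σ) * (x σ ^ 2 + 4 * x σ * y σ + y σ ^ 2) /
      ((x σ + y σ) * (4 * x σ * y σ - x σ ^ 2 - y σ ^ 2)) = Q at *
    generalize k3 e x y σ = κ at *
    generalize c σ = cc at *
    generalize m σ = mm at *
    generalize rad x y σ = RR at *
    field_simp
    linear_combination h6
  · -- `ψ 0`
    show Real.arcsin (m (g (2 / 3 * 0)) / rad x y (g (2 / 3 * 0))) = ε * (Real.pi / 2)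
    rw [mul_zero, hg0]
    have h1 := hcm 0 ⟨le_rfl, hℓ.le⟩
    have h2 : c 0 = 0 := h0
    rw [h2] at h1
    have h3 : m 0 ^ 2 = rad x y 0 ^ 2 := by linarith
    have hm0' : 0 < ε * m 0 := hm0
    rcases hε with rfl | rfl
    · have h4 : 0 < m 0 := by linarith
      have h5 : m 0 = rad x y 0 := by
        rcases sq_eq_sq_iff_eq_or_eq_neg.mp h3 with h | h
        · exact h
        · linarith
      rw [h5, div_self hR0.ne', Real.arcsin_one]
      ring
    · have h4 : m 0 < 0 := by linarith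
      have h5 : m 0 = - rad x y 0 := by
        rcases sq_eq_sq_iff_eq_or_eq_neg.mp h3 with h | h
        · linarith
        · exact h
      rw [h5, neg_div, div_self hR0.ne', Real.arcsin_neg_one]
      ring
  · intro s hs
    have hs' := hIl s hs
    have h1 : g (τ s) = s := hg1 s hs'
    have h2 : 2 / 3 * (3 / 2 * τ s) = τ s := by ring
    refine ⟨⟨?_, hτm.monotoneOn hs' ⟨hℓ.le, hl'.le⟩ hs.2⟩, ?_, ?_⟩
    · have h2 := hτm.monotoneOn ⟨le_rfl, hl0.le⟩ hs' hs.1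
      rwa [hτ0] at h2
    · show 3 / 2 * Real.arctan (y (g (2 / 3 * (3 / 2 * τ s))) / x (g (2 / 3 * (3 / 2 * τ s)))) -
        Real.pi / 8 = _
      rw [h2, h1]
    · show rad x y s * Real.sin (Real.arcsin (m (g (2 / 3 * (3 / 2 * τ s))) /
        rad x y (g (2 / 3 * (3 / 2 * τ s))))) = _
      rw [h2, h1, Real.sin_arcsin (hRle s hs).1 (hRle s hs).2, mul_div_cancel₀ _ (hRp s hs').ne']

end Pool.Agent.Work.MP_408f4b_gt.A2
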