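import Pool.Agent.Work.MP_408f4b_gt.A2.Stmts

set_option autoImplicit false

/-!
# Averages over the triples
-/

namespace Pool.Agent.Work.MP_408f4b_gt.A2

open MeasureTheory Set Filter Topology Pool.Agent.Work.MP_408f4b_gt.Q

namespace JAv

variable {V : Type} [NormedAddCommGroup V] [InnerProductSpace ℝ V] [CompleteSpace V] {e : ℕ}

theorem cont_tri (Ψ : Fr3 V e) (u v w : V) :
    Continuous fun g : Ψ.fr.G => ((Ψ.fr.A g u, Ψ.fr.A g v, Ψ.fr.A g w) : V × V × V) :=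
  (Ψ.fr.cont.comp (continuous_id.prodMk continuous_const)).prodMk
    ((Ψ.fr.cont.comp (continuous_id.prodMk continuous_const)).prodMk
      (Ψ.fr.cont.comp (continuous_id.prodMk continuous_const)))

theorem cont_param (Ψ : Fr3 V e) {X : Type} [TopologicalSpace X] {F : X → V → V → V → ℝ}
    (hF : Continuous (fun z : X × V × V × V => F z.1 z.2.1 z.2.2.1 z.2.2.2)) :
    Continuous fun z : X × Ψ.fr.G => F z.1 (Ψ.fr.A z.2 Ψ.fr.a) (Ψ.fr.A z.2 Ψ.fr.b)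
      (Ψ.fr.A z.2 Ψ.c) := by
  have h1 : Continuous fun z : X × Ψ.fr.G =>
      ((z.1, (Ψ.fr.A z.2 Ψ.fr.a, Ψ.fr.A z.2 Ψ.fr.b, Ψ.fr.A z.2 Ψ.c)) : X × V × V × V) :=
    continuous_fst.prodMk ((cont_tri Ψ Ψ.fr.a Ψ.fr.b Ψ.c).comp continuous_snd)
  exact hF.comp h1

theorem int_of_cont (Ψ : Fr3 V e) {f : Ψ.fr.G → ℝ} (hf : Continuous f) : Integrable f Ψ.fr.μ :=
  hf.integrable_of_hasCompactSupport (HasCompactSupport.of_compactSpace f)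

theorem cont_int (Ψ : Fr3 V e) : Continuous fun φ : C(Ψ.fr.G, ℝ) => ∫ g, φ g ∂Ψ.fr.μ := by
  rw [Metric.continuous_iff]
  intro φ ε hε
  refine ⟨ε, hε, fun ψ hψ => ?_⟩
  rw [Real.dist_eq, ← integral_sub (int_of_cont Ψ ψ.continuous) (int_of_cont Ψ φ.continuous)]
  have h1 : ‖∫ g, (ψ g - φ g) ∂Ψ.fr.μ‖ ≤ dist ψ φ * (Ψ.fr.μ.real Set.univ) := by
    refine norm_integral_le_of_norm_le_const (Eventually.of_forall fun g => ?_)
    have h2 := ContinuousMap.dist_apply_le_dist (f := ψ) (g := φ) g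
    rw [Real.dist_eq] at h2
    rw [Real.norm_eq_abs]
    exact h2
  rw [probReal_univ, mul_one] at h1
  exact lt_of_le_of_lt h1 hψ

theorem cont_base (Ψ : Fr3 V e) {F : V → V → V → ℝ} (hF : Co3 F) :
    Continuous fun g : Ψ.fr.G => F (Ψ.fr.A g Ψ.fr.a) (Ψ.fr.A g Ψ.fr.b) (Ψ.fr.A g Ψ.c) :=
  Continuous.comp (g := fun z : V × V × V => F z.1 z.2.1 z.2.2) hF
    (cont_tri Ψ Ψ.fr.a Ψ.fr.b Ψ.c)

end JAv

open JAv in
theorem prfAv (hclPair : clPair) (hclAv : clAv) (hcTri : cTri) : cAv := by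
  intro V _ _ _ e Ψ
  obtain ⟨t1, t2, t3, -, -⟩ := hcTri V e Ψ
  obtain ⟨p1, p2, p3, p4, p5⟩ := t2 _ _ _ t1
  have hinv : ∀ F : V → V → V → ℝ, Co3 F → ∀ u v w, Ψ.Tri u v w →
      ∫ g, F (Ψ.fr.A g u) (Ψ.fr.A g v) (Ψ.fr.A g w) ∂Ψ.fr.μ = Ψ.av F := fun F hF u v w h =>
    Ψ.inv3 u v w h.1 h.2.1 h.2.2 F hF
  refine ⟨fun F hF => ⟨cont_base Ψ hF, hinv F hF, hinv F hF _ _ _ p1, hinv F hF _ _ _ p2,
    hinv F hF _ _ _ p3, hinv F hF _ _ _ p4, hinv F hF _ _ _ p5⟩, ?_, ?_, fun k => rfl, ?_⟩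
  · intro F G hF hG
    have iF := int_of_cont Ψ (cont_base Ψ hF)
    have iG := int_of_cont Ψ (cont_base Ψ hG)
    refine ⟨fun c d => ?_, fun h => ?_, fun h => ?_⟩
    · change ∫ g, (c * F (Ψ.fr.A g Ψ.fr.a) (Ψ.fr.A g Ψ.fr.b) (Ψ.fr.A g Ψ.c) +
        d * G (Ψ.fr.A g Ψ.fr.a) (Ψ.fr.A g Ψ.fr.b) (Ψ.fr.A g Ψ.c)) ∂Ψ.fr.μ = _
      rw [integral_add (iF.const_mul c) (iG.const_mul d), integral_const_mul, integral_const_mul]
      rfl
    · exact integral_mono iF iG fun g => h _ _ _ (t3 _ _ _ t1 g)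
    · exact integral_congr_ae (Eventually.of_forall fun g => h _ _ _ (t3 _ _ _ t1 g))
  · intro c
    change ∫ _g, c ∂Ψ.fr.μ = c
    rw [integral_const, probReal_univ, one_smul]
  · intro X _ _ F hF
    have h1 := cont_param Ψ hF
    let f : C(X × Ψ.fr.G, ℝ) := ⟨_, h1⟩
    exact (cont_int Ψ).comp f.curry.continuous

end Pool.Agent.Work.MP_408f4b_gt.A2
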