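import Pool.Agent.Work.MP_408f4b_gt.A2.Stmts

set_option autoImplicit false

/-!
# Item B: elementary facts on the map `B`
-/

namespace Pool.Agent.Work.MP_408f4b_gt.A2

open MeasureTheory Set Filter Topology Pool.Agent.Work.MP_408f4b_gt.Q

namespace JB

variable {V : Type} [NormedAddCommGroup V] [InnerProductSpace ℝ V] [CompleteSpace V] {e : ℕ}
  {Ψ : Fr3 V e} {M : Type} [NormedAddCommGroup M] [InnerProductSpace ℝ M] (T : Hrm Ψ M)

theorem add_r (v w w' : V) : T.B v (w + w') = T.B v w + T.B v w' := by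
  rw [T.symm v (w + w'), T.add_l, T.symm w v, T.symm w' v]

theorem smul_r (r : ℝ) (v w : V) : T.B v (r • w) = r • T.B v w := by
  rw [T.symm v (r • w), T.smul_l, T.symm w v]

theorem neg_l (v w : V) : T.B (-v) w = -T.B v w := by
  have := T.smul_l (-1) v w
  simpa using this

theorem neg_r (v w : V) : T.B v (-w) = -T.B v w := by
  rw [T.symm, neg_l, T.symm]

/-- `B` as a linear map. -/
noncomputable def lin : V →ₗ[ℝ] V →ₗ[ℝ] M :=
  LinearMap.mk₂ ℝ T.B T.add_l T.smul_l (add_r T) (smul_r T)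

theorem fd (Ψ : Fr3 V e) : FiniteDimensional ℝ V :=
  LinearEquiv.finiteDimensional Ψ.fr.L.toLinearEquiv

theorem smooth : ContDiff ℝ 1 (fun z : V × V => T.B z.1 z.2) := by
  have : FiniteDimensional ℝ V := fd Ψ
  let L1 : V →ₗ[ℝ] V →L[ℝ] M :=
    { toFun := fun v => LinearMap.toContinuousLinearMap (lin T v)
      map_add' := fun v v' => by
        ext w
        simp
      map_smul' := fun r v => by
        ext w
        simp }
  let L2 : V →L[ℝ] V →L[ℝ] M := LinearMap.toContinuousLinearMap L1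
  have h : ContDiff ℝ 1 (fun z : V × V => L2 z.1 z.2) :=
    (L2.isBoundedBilinearMap).contDiff
  exact h

theorem sq (v w : V) : T.B (v + w) (v + w) = T.B v v + (2 : ℝ) • T.B v w + T.B w w := by
  rw [T.add_l, add_r, add_r, T.symm w v, two_smul]
  abel

theorem jj' (q : Fin (e + 1)) (v : V) : T.B (Ψ.fr.J q v) (Ψ.fr.J q v) = T.B v v := by
  rw [T.jj, if_pos rfl]

theorem JJ (q : Fin (e + 1)) (v w : V) : T.B (Ψ.fr.J q v) (Ψ.fr.J q w) = T.B v w := by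
  have h := jj' T q (v + w)
  rw [map_add, sq, sq, jj', jj'] at h
  have h2 : (2 : ℝ) • T.B (Ψ.fr.J q v) (Ψ.fr.J q w) = (2 : ℝ) • T.B v w := by
    simpa using h
  exact smul_right_injective M (two_ne_zero) h2

theorem inn2 (u v w : V) : (inner ℝ (T.B u v) (T.B w w) : ℝ) =
    ∑ q, inner ℝ u (Ψ.fr.J q w) * inner ℝ v (Ψ.fr.J q w) := by
  have h := T.inn (u + v) w
  rw [sq, inner_add_left, inner_add_left, inner_smul_left, T.inn u w, T.inn v w] at h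
  have e1 : ∑ q, (inner ℝ (u + v) (Ψ.fr.J q w) : ℝ) ^ 2 =
      ∑ q, (inner ℝ u (Ψ.fr.J q w) : ℝ) ^ 2 +
      2 * ∑ q, (inner ℝ u (Ψ.fr.J q w) : ℝ) * inner ℝ v (Ψ.fr.J q w) +
      ∑ q, (inner ℝ v (Ψ.fr.J q w) : ℝ) ^ 2 := by
    rw [Finset.mul_sum, ← Finset.sum_add_distrib, ← Finset.sum_add_distrib]
    refine Finset.sum_congr rfl fun q _ => ?_
    rw [inner_add_left]
    ring
  rw [e1] at h
  simp only [conj_trivial] at h
  linarith

theorem inn4 (u v w z : V) : (inner ℝ (T.B u v) (T.B w z) : ℝ) =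
    (∑ q, (inner ℝ u (Ψ.fr.J q w) * inner ℝ v (Ψ.fr.J q z) +
      inner ℝ u (Ψ.fr.J q z) * inner ℝ v (Ψ.fr.J q w))) / 2 := by
  have h := inn2 T u v (w + z)
  rw [sq, inner_add_right, inner_add_right, inner_smul_right, inn2 T u v w, inn2 T u v z] at h
  have e1 : ∑ q, (inner ℝ u (Ψ.fr.J q (w + z)) : ℝ) * inner ℝ v (Ψ.fr.J q (w + z)) =
      ∑ q, (inner ℝ u (Ψ.fr.J q w) : ℝ) * inner ℝ v (Ψ.fr.J q w) +
      ∑ q, ((inner ℝ u (Ψ.fr.J q w) : ℝ) * inner ℝ v (Ψ.fr.J q z) +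
        inner ℝ u (Ψ.fr.J q z) * inner ℝ v (Ψ.fr.J q w)) +
      ∑ q, (inner ℝ u (Ψ.fr.J q z) : ℝ) * inner ℝ v (Ψ.fr.J q z) := by
    rw [← Finset.sum_add_distrib, ← Finset.sum_add_distrib]
    refine Finset.sum_congr rfl fun q _ => ?_
    rw [map_add, inner_add_right, inner_add_right]
    ring
  rw [e1] at h
  linarith

theorem self_in (v : V) (q : Fin (e + 1)) (hq : q ≠ 0) : (inner ℝ v (Ψ.fr.J q v) : ℝ) = 0 := by
  have h := Ψ.fr.Jorth v 0 q (Ne.symm hq)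
  rwa [Ψ.fr.J0] at h

theorem sum_self (v : V) (hv : ‖v‖ = 1) (c : Fin (e + 1) → ℝ) :
    ∑ q, (inner ℝ v (Ψ.fr.J q v) : ℝ) * c q = c 0 := by
  rw [Finset.sum_eq_single (0 : Fin (e + 1))]
  · rw [Ψ.fr.J0, real_inner_self_eq_norm_sq, hv]
    ring
  · intro q _ hq
    rw [self_in v q hq]
    ring
  · intro h
    exact absurd (Finset.mem_univ _) h

end JB

open JB in
theorem prfB (hclPair : clPair) : cB := by
  intro V _ _ _ e Ψ M _ _ _ T
  obtain ⟨-, hP2, hP3, -⟩ := hclPair V (3 * (e + 1)) e Ψ.fr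
  have hJs : ∀ q v w, T.B v (Ψ.fr.J q w) = T.B (Ψ.fr.Js q v) w := by
    intro q v w
    conv_lhs => rw [← (hP2 q v).1]
    rw [JJ]
  refine ⟨smooth T, add_r T, smul_r T, JJ T, hJs, ?_, ?_, jj' T, inn4 T, ?_⟩
  · intro q hq v
    have h := T.jj 0 q v
    rw [if_neg (Ne.symm hq), Ψ.fr.J0] at h
    exact h
  · intro v
    rw [neg_l, neg_r, neg_neg]
  · intro u v w hT
    obtain ⟨huv, huw, hvw⟩ := hT
    obtain ⟨nu, nv, ouv⟩ := huv
    obtain ⟨-, nw, ouw⟩ := huw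
    have hwv : ∀ q, (inner ℝ w (Ψ.fr.J q v) : ℝ) = 0 := (hP3 v w hvw).1.2.2
    obtain ⟨-, -, ovw⟩ := hvw
    refine ⟨?_, ?_, ?_, ?_, ?_, ?_⟩
    · have h : (inner ℝ (T.B u u) (T.B u u) : ℝ) = 1 := by
        rw [T.inn]
        have h2 := sum_self (Ψ := Ψ) u nu (fun q => (inner ℝ u (Ψ.fr.J q u) : ℝ))
        rw [Ψ.fr.J0, real_inner_self_eq_norm_sq, nu] at h2
        refine Eq.trans ?_ (h2.trans (one_pow 2))
        exact Finset.sum_congr rfl fun q _ => pow_two _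
      rw [real_inner_self_eq_norm_sq] at h
      nlinarith [norm_nonneg (T.B u u)]
    · rw [T.inn]
      exact Finset.sum_eq_zero fun q _ => by rw [ouv]; ring
    · intro q
      rw [inn4, Finset.sum_eq_zero fun p _ => by rw [ouv]; ring, zero_div]
    · intro q
      rw [inn4]
      have h1 := sum_self (Ψ := Ψ) v nv (fun p => (inner ℝ v (Ψ.fr.J p (Ψ.fr.J q w)) : ℝ))
      rw [Ψ.fr.J0, ovw] at h1
      have h2 : ∑ p, ((inner ℝ v (Ψ.fr.J p v) : ℝ) * inner ℝ v (Ψ.fr.J p (Ψ.fr.J q w)) +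
          inner ℝ v (Ψ.fr.J p (Ψ.fr.J q w)) * inner ℝ v (Ψ.fr.J p v)) =
          2 * ∑ p, (inner ℝ v (Ψ.fr.J p v) : ℝ) * inner ℝ v (Ψ.fr.J p (Ψ.fr.J q w)) := by
        rw [Finset.mul_sum]
        exact Finset.sum_congr rfl fun p _ => by ring
      rw [h2, h1]
      ring
    · intro q
      rw [inn4, Finset.sum_eq_zero fun p _ => by rw [hwv]; ring, zero_div]
    · intro p q
      rw [inn4]
      have h0 : ∀ r, (inner ℝ (Ψ.fr.J p w) (Ψ.fr.J r v) : ℝ) = 0 := fun r =>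
        Ψ.fr.orthC w v hwv p r
      have h1 := sum_self (Ψ := Ψ) v nv
        (fun r => (inner ℝ (Ψ.fr.J p w) (Ψ.fr.J r (Ψ.fr.J q w)) : ℝ))
      rw [Ψ.fr.J0] at h1
      have h2 : ∑ r, ((inner ℝ v (Ψ.fr.J r v) : ℝ) * inner ℝ (Ψ.fr.J p w) (Ψ.fr.J r (Ψ.fr.J q w)) +
          inner ℝ v (Ψ.fr.J r (Ψ.fr.J q w)) * inner ℝ (Ψ.fr.J p w) (Ψ.fr.J r v)) =
          ∑ r, (inner ℝ v (Ψ.fr.J r v) : ℝ) * inner ℝ (Ψ.fr.J p w) (Ψ.fr.J r (Ψ.fr.J q w)) :=
        Finset.sum_congr rfl fun r _ => by rw [h0]; ring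
      rw [h2, h1]
      split_ifs with hpq
      · subst hpq
        rw [real_inner_self_eq_norm_sq, LinearIsometry.norm_map, nw]
        norm_num
      · rw [Ψ.fr.Jorth w p q hpq, zero_div]

end Pool.Agent.Work.MP_408f4b_gt.A2
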