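import Pool.Agent.Work.MP_408f4b_gt.A2.Stmts
import Pool.Agent.Work.MP_408f4b_gt.Q.I.Gee

set_option autoImplicit false
set_option linter.unusedSectionVars false
set_option linter.unusedVariables false

/-!
# Poincaré inequality for the average over the second vector
-/

namespace Pool.Agent.Work.MP_408f4b_gt.A2

open MeasureTheory Set Filter Topology Pool.Agent.Work.MP_408f4b_gt.Q

theorem prfB2 (hclAv : clAv) (hclPair : clPair) (hclFib : clFib) (hclUnif : clUnif)
    (hclESph : clESph) (hclP2C : clP2C) (hclP2F : clP2F) (hclP2D : clP2D) : cB2 := by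
  intro V _ _ _ n e Φ g hg hev1 hev2
  have hle := Φ.le
  have hn : 1 ≤ n := by omega
  have hgc : Continuous (fun z : V × V => g z.1 z.2) := hg.continuous
  obtain ⟨-, hPg, -, hav, -⟩ := hclP2F V n e Φ g hgc
  obtain ⟨-, hPF, -, havF, -⟩ := hclP2F V n e Φ
    (fun v w => Φ.n1 g v w + ∑ q, Φ.om q g v w ^ 2) (JGee.continuous_FF Φ hg)
  have h5 : 2 * (n : ℝ) * (Φ.av (fun v _ => Φ.P2 g v ^ 2) - Φ.av g ^ 2) ≤
      Φ.av (fun v w => Φ.n1 g v w + ∑ q, Φ.om q g v w ^ 2) := by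
    have h6 := JGee.base Φ hclESph hclP2D hg hev1 (hclP2C V n e Φ g hg) hPF
    rw [hav, havF, hclUnif V n e Φ (fun v => Φ.P2 g v ^ 2) (hPg.pow 2),
      hclUnif V n e Φ (Φ.P2 g) hPg, hclUnif V n e Φ _ hPF]
    have h7 : 0 ≤ ((sig n).real univ)⁻¹ := by positivity
    have h8 := mul_le_mul_of_nonneg_left h6 h7
    refine le_trans (le_of_eq ?_) h8
    unfold VV
    rw [div_eq_mul_inv]
    ring
  have hp : (0 : ℝ) < 2 * (n : ℝ) := by
    have : (1 : ℝ) ≤ (n : ℝ) := by exact_mod_cast hn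
    linarith
  rw [le_div_iff₀ hp]
  linarith

end Pool.Agent.Work.MP_408f4b_gt.A2
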