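import Pool.Agent.Work.MP_408f4b_gt.A2.Stmts

set_option autoImplicit false

/-!
# Block A2, item Bt: the boundary terms at an end on the unit circle
-/

namespace Pool.Agent.Work.MP_408f4b_gt.A2

open MeasureTheory Set Filter Topology Pool.Agent.Work.MP_408f4b_gt.Q

theorem prfBt (hcPar : cPar) (hcPt : cPt) : cBt := by
  intro V _ _ _ e Ψ M _ _ _ T f κ s x y hf hx hy h1 hdx hdy
  have hC : Co3 (Us f x y s) := ((hcPt V e Ψ M T f hf).1 _ _ _).continuous
  obtain ⟨hp, -⟩ := hcPar V e Ψ M T (Us f x y s) hC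
  have a1 : κ * x s / x s = κ := mul_div_cancel_right₀ κ hx.ne'
  have a2 : κ * y s / y s = κ := mul_div_cancel_right₀ κ hy.ne'
  have a3 : (κ * x s + κ * y s) / (x s + y s) = κ := by
    rw [← mul_add]
    exact mul_div_cancel_right₀ κ (add_pos hx hy).ne'
  have a4 : (x s * (κ * x s) + y s * (κ * y s)) / (x s ^ 2 + y s ^ 2) = κ := by
    rw [h1, div_one]
    linear_combination κ * h1
  unfold Bt3
  rw [hp, hdx, hdy, a1, a2, a3, a4]
  ring

end Pool.Agent.Work.MP_408f4b_gt.A2
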