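import Pool.Agent.Work.MP_408f4b_gt.A2.Stmts
import Pool.Agent.Work.MP_408f4b_gt.Q.I.Cross

/-!
# Block A2: a chord meets the cone at most once
-/

set_option autoImplicit false

namespace Pool.Agent.Work.MP_408f4b_gt.A2

open MeasureTheory Set Filter Topology Pool.Agent.Work.MP_408f4b_gt.Q

namespace JCross

/-- The conclusion. -/
def Con (L : ℝ) (x y : ℝ → ℝ) : Prop :=
  Q3 x y 0 ≠ 0 ∧ Q3 x y L ≠ 0 ∧
  ∀ s ∈ Icc 0 L, ∀ s' ∈ Icc 0 L, Q3 x y s = 0 → Q3 x y s' = 0 → s = s'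

theorem coords {a b : ℝ} (h1 : 0 < d1 a b) (h3 : 0 < d3 a b) : 0 < a ∧ 0 < b := by
  unfold d1 at h1
  unfold d3 at h3
  have hs : √3 * √3 = 3 := Real.mul_self_sqrt (by norm_num)
  have h1s : 1 < √3 := by
    rw [Real.lt_sqrt (by norm_num)]
    norm_num
  have h2 : 0 < (1 + √3) * (((1 + √3) * a + (1 - √3) * b) / 2) +
      (√3 - 1) * (((1 - √3) * a + (1 + √3) * b) / 2) := by
    have := mul_pos (by linarith : 0 < 1 + √3) h1
    have := mul_pos (by linarith : 0 < √3 - 1) h3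
    linarith
  have h4 : 0 < (√3 - 1) * (((1 + √3) * a + (1 - √3) * b) / 2) +
      (1 + √3) * (((1 - √3) * a + (1 + √3) * b) / 2) := by
    have := mul_pos (by linarith : 0 < √3 - 1) h1
    have := mul_pos (by linarith : 0 < 1 + √3) h3
    linarith
  have e2 : (1 + √3) * (((1 + √3) * a + (1 - √3) * b) / 2) +
      (√3 - 1) * (((1 - √3) * a + (1 + √3) * b) / 2) = 2 * √3 * a := by ring
  have e4 : (√3 - 1) * (((1 + √3) * a + (1 - √3) * b) / 2) +
      (1 + √3) * (((1 - √3) * a + (1 + √3) * b) / 2) = 2 * √3 * b := by ring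
  rw [e2] at h2
  rw [e4] at h4
  have hp : 0 < 2 * √3 := by linarith
  exact ⟨(mul_pos_iff_of_pos_left hp).1 h2, (mul_pos_iff_of_pos_left hp).1 h4⟩

theorem ang_eq (m : ℕ) (hm : 1 ≤ m) : ang (m + 1) (m + 1) = Real.pi / 4 := by
  have h : (0 : ℝ) < m := by exact_mod_cast hm
  unfold ang
  push_cast
  rw [div_self (by simp; omega), Real.sqrt_one, Real.arctan_one]

theorem zero_iff' {x y : ℝ → ℝ} {s : ℝ} (hx : 0 < x s) (hy : 0 < y s) :
    Q3 x y s = 0 ↔ 3 / 2 * Real.arctan (y s / x s) - Real.pi / 8 = Real.pi / 4 := by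
  have hp : 0 < x s ^ 2 + 4 * x s * y s + y s ^ 2 := by positivity
  unfold Q3
  rw [mul_eq_zero, or_iff_left hp.ne']
  constructor
  · intro h
    have : y s = x s := by linarith
    rw [this, div_self hx.ne', Real.arctan_one]
    ring
  · intro h
    have h1 : Real.arctan (y s / x s) = Real.arctan 1 := by
      rw [Real.arctan_one]
      linarith
    have h2 := Real.arctan_injective h1
    rw [div_eq_one_iff_eq hx.ne'] at h2
    linarith

/-- One half of the chord. -/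
theorem half (hArm : cArm) {m : ℕ} {ℓ ε : ℝ} {X Y : ℝ → ℝ} (hm1 : 1 ≤ m)
    (hℓ : 0 < ℓ) (hε : ε = 1 ∨ ε = -1) (hC : Crv3 m 0 ℓ X Y)
    (h0 : X 0 * deriv X 0 + Y 0 * deriv Y 0 = 0)
    (hc : ∀ s ∈ Ioc 0 ℓ, 0 < X s * deriv X s + Y s * deriv Y s)
    (hm : 0 < ε * (X 0 * deriv Y 0 - Y 0 * deriv X 0))
    (hf : X ℓ * deriv Y ℓ - Y ℓ * deriv X ℓ = 0) (hr : rad X Y ℓ = 1) :
    ∃ φ ψ g : ℝ → ℝ, StrictMonoOn g (Icc 0 ℓ) ∧ ContinuousOn g (Icc 0 ℓ) ∧ g 0 = 0 ∧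
      g ℓ = 3 / 2 * Real.log (1 / rad X Y 0) ∧ 0 < 3 / 2 * Real.log (1 / rad X Y 0) ∧
      Arm (kk (m + 1) (m + 1)) (2 * (m : ℝ) + 2 / 3) (3 / 2 * Real.log (1 / rad X Y 0)) φ ψ ∧
      ψ 0 = ε * (Real.pi / 2) ∧ ψ (3 / 2 * Real.log (1 / rad X Y 0)) = 0 ∧
      (∀ s ∈ Icc 0 ℓ, φ (g s) = 3 / 2 * Real.arctan (Y s / X s) - Real.pi / 8) ∧
      ∀ s, g s = 3 / 2 * Real.log (rad X Y s / rad X Y 0) := by
  obtain ⟨φ, ψ, hT, hA, hψ0, hs⟩ := hArm m ℓ ε X Y hm1 hℓ hε hC h0 hc hm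
  rw [hr] at hT hA hs
  obtain ⟨hX, hY, hCur⟩ := hC
  have hXc : Continuous X := hX.continuous
  have hYc : Continuous Y := hY.continuous
  have hXp : ∀ s ∈ Icc 0 ℓ, 0 < X s := fun s hs' => (coords (hCur s hs').1 (hCur s hs').2.1).1
  have hpos : ∀ s ∈ Icc 0 ℓ, 0 < rad X Y s := fun s hs' => Q.JCross.rad_pos (hXp s hs')
  have hr0 : 0 < rad X Y 0 := hpos 0 ⟨le_refl _, hℓ.le⟩
  have hradc : Continuous (rad X Y) := by
    unfold rad
    exact Real.continuous_sqrt.comp ((hXc.pow 2).add (hYc.pow 2))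
  have hmono : StrictMonoOn (fun s => X s ^ 2 + Y s ^ 2) (Icc 0 ℓ) := by
    refine strictMonoOn_of_deriv_pos (convex_Icc 0 ℓ)
      ((hXc.pow 2).add (hYc.pow 2)).continuousOn fun s hs' => ?_
    rw [interior_Icc] at hs'
    have hdX : HasDerivAt X (deriv X s) s :=
      (hX.differentiable (by norm_num) s).hasDerivAt
    have hdY : HasDerivAt Y (deriv Y s) s :=
      (hY.differentiable (by norm_num) s).hasDerivAt
    have hd : HasDerivAt (fun s => X s ^ 2 + Y s ^ 2) (2 * X s * deriv X s + 2 * Y s * deriv Y s)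
        s := by
      refine ((hdX.fun_pow 2).fun_add (hdY.fun_pow 2)).congr_deriv ?_
      norm_num
    rw [hd.deriv]
    have := hc s ⟨hs'.1, hs'.2.le⟩
    linarith
  have hrmono : StrictMonoOn (rad X Y) (Icc 0 ℓ) := by
    intro a ha b hb hab
    have h1 := hmono ha hb hab
    unfold rad
    exact Real.sqrt_lt_sqrt (by positivity) h1
  refine ⟨φ, ψ, fun s => 3 / 2 * Real.log (rad X Y s / rad X Y 0), ?_, ?_, ?_, ?_, by linarith, hA,
    hψ0, ?_, ?_, fun s => rfl⟩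
  · intro a ha b hb hab
    have h1 := hrmono ha hb hab
    have h2 := Real.log_lt_log (div_pos (hpos a ha) hr0) (div_lt_div_of_pos_right h1 hr0)
    show 3 / 2 * Real.log (rad X Y a / rad X Y 0) < 3 / 2 * Real.log (rad X Y b / rad X Y 0)
    linarith
  · refine continuousOn_const.mul
      (ContinuousOn.log (hradc.continuousOn.div_const _) fun s hs' => ?_)
    exact (div_pos (hpos s hs') hr0).ne'
  · show 3 / 2 * Real.log (rad X Y 0 / rad X Y 0) = 0
    rw [div_self hr0.ne', Real.log_one, mul_zero]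
  · show 3 / 2 * Real.log (rad X Y ℓ / rad X Y 0) = _
    rw [hr]
  · have h1 := (hs ℓ ⟨hℓ.le, le_refl _⟩).2.2
    rw [hr, hf, one_mul] at h1
    have h2 := hA.rψ (3 / 2 * Real.log (1 / rad X Y 0)) ⟨by linarith, le_refl _⟩
    refine (Real.sin_eq_zero_iff_of_lt_of_lt ?_ ?_).1 h1
    · linarith [h2.1, Real.pi_pos]
    · linarith [h2.2, Real.pi_pos]
  · intro s hs'
    exact (hs s hs').2.1

theorem pos_case (hArm : cArm) (hR : clRefl) {m : ℕ} {L : ℝ} {x y : ℝ → ℝ}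
    {s₀ : ℝ} (hm1 : 1 ≤ m) (hch : Chd3 m L x y) (hDat : Q.JCross.Dat L x y s₀)
    (hm : 0 < x s₀ * deriv y s₀ - y s₀ * deriv x s₀) : Con L x y := by
  obtain ⟨hs₀, hc0, hneg, hpos⟩ := hDat
  obtain ⟨hx2, hy2, hcur⟩ := hch.curve
  have hs₀0 := hs₀.1
  have hs₀L := hs₀.2
  have hL := hch.L_pos
  have hxp : ∀ s ∈ Icc 0 L, 0 < x s := fun s hs => (coords (hcur s hs).1 (hcur s hs).2.1).1
  have hyp : ∀ s ∈ Icc 0 L, 0 < y s := fun s hs => (coords (hcur s hs).1 (hcur s hs).2.1).2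
  have dA : ∀ (f : ℝ → ℝ) (s : ℝ), deriv (fun s => f (s₀ + s)) s = deriv f (s₀ + s) := by
    intro f s
    exact deriv_comp_const_add s₀ s (f := f)
  have dB : ∀ (f : ℝ → ℝ) (s : ℝ), deriv (fun s => f (s₀ - s)) s = -deriv f (s₀ - s) := by
    intro f s
    exact deriv_comp_const_sub s₀ s (f := f)
  have dA2 : ∀ (f : ℝ → ℝ) (s : ℝ), deriv (deriv (fun s => f (s₀ + s))) s =
      deriv (deriv f) (s₀ + s) := by
    intro f s
    have : deriv (fun s => f (s₀ + s)) = fun s => deriv f (s₀ + s) := funext (dA f)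
    rw [this, dA]
  have dB2 : ∀ (f : ℝ → ℝ) (s : ℝ), deriv (deriv (fun s => f (s₀ - s))) s =
      deriv (deriv f) (s₀ - s) := by
    intro f s
    have : deriv (fun s => f (s₀ - s)) = fun s => -deriv f (s₀ - s) := funext (dB f)
    rw [this]
    have h2 := dB (fun s => deriv f s) s
    rw [deriv.fun_neg, h2, neg_neg]
  have hrL : rad x y L = 1 := by
    unfold rad
    rw [hch.final.1, Real.sqrt_one]
  have hr0 : rad x y 0 = 1 := by
    unfold rad
    rw [hch.initial.1, Real.sqrt_one]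
  obtain ⟨φA, ψA, gA, mA, cA, gA0, gAT, hT, armA, ψA0, ψAT, vA, gAe⟩ := half hArm
    (m := m) (ℓ := L - s₀) (ε := 1)
    (X := fun s => x (s₀ + s)) (Y := fun s => y (s₀ + s)) hm1 (by linarith) (Or.inl rfl)
    (by
      refine ⟨hx2.comp (contDiff_const.add contDiff_id), hy2.comp (contDiff_const.add contDiff_id),
        fun s hs => ?_⟩
      obtain ⟨h1, h2, h3, h4⟩ := hcur (s₀ + s) ⟨by linarith [hs.1], by linarith [hs.2]⟩
      unfold k3
      rw [dA, dA, dA2, dA2]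
      exact ⟨h1, h2, h3, h4⟩)
    (by rw [dA, dA, add_zero]; exact hc0)
    (fun s hs => by
      rw [dA, dA]
      exact hpos _ ⟨by linarith [hs.1], by linarith [hs.2]⟩)
    (by rw [dA, dA, add_zero, one_mul]; exact hm)
    (by
      rw [dA, dA, add_sub_cancel, hch.final.2.1, hch.final.2.2]
      ring)
    (by
      have : rad (fun s => x (s₀ + s)) (fun s => y (s₀ + s)) (L - s₀) = rad x y (s₀ + (L - s₀)) :=
        rfl
      rw [this, add_sub_cancel, hrL])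
  obtain ⟨φB, ψB, gB, mB, cB, gB0, gBT, hT', armB, ψB0, ψBT, vB, gBe⟩ := half hArm
    (m := m) (ℓ := s₀) (ε := -1)
    (X := fun s => x (s₀ - s)) (Y := fun s => y (s₀ - s)) hm1 hs₀0 (Or.inr rfl)
    (by
      refine ⟨hx2.comp (contDiff_const.sub contDiff_id), hy2.comp (contDiff_const.sub contDiff_id),
        fun s hs => ?_⟩
      obtain ⟨h1, h2, h3, h4⟩ := hcur (s₀ - s) ⟨by linarith [hs.2], by linarith [hs.1]⟩
      unfold k3 at h4 ⊢
      rw [dB, dB, dB2, dB2]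
      refine ⟨h1, h2, by rw [neg_sq, neg_sq]; exact h3, ?_⟩
      have e1 : -(deriv x (s₀ - s)) * deriv (deriv y) (s₀ - s) -
          -(deriv y (s₀ - s)) * deriv (deriv x) (s₀ - s) =
          -(deriv x (s₀ - s) * deriv (deriv y) (s₀ - s) -
          deriv y (s₀ - s) * deriv (deriv x) (s₀ - s)) := by ring
      rw [e1, h4]
      ring)
    (by
      rw [dB, dB, sub_zero]
      linarith)
    (fun s hs => by
      rw [dB, dB]
      have := hneg (s₀ - s) ⟨by linarith [hs.2], by linarith [hs.1]⟩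
      linarith)
    (by
      rw [dB, dB, sub_zero]
      linarith)
    (by
      rw [dB, dB, sub_self, hch.initial.2.1, hch.initial.2.2]
      ring)
    (by
      have : rad (fun s => x (s₀ - s)) (fun s => y (s₀ - s)) s₀ = rad x y (s₀ - s₀) := rfl
      rw [this, sub_self, hr0])
  have eA0 : rad (fun s => x (s₀ + s)) (fun s => y (s₀ + s)) 0 = rad x y s₀ := by
    have : rad (fun s => x (s₀ + s)) (fun s => y (s₀ + s)) 0 = rad x y (s₀ + 0) := rfl
    rw [this, add_zero]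
  have eB0 : rad (fun s => x (s₀ - s)) (fun s => y (s₀ - s)) 0 = rad x y s₀ := by
    have : rad (fun s => x (s₀ - s)) (fun s => y (s₀ - s)) 0 = rad x y (s₀ - 0) := rfl
    rw [this, sub_zero]
  rw [eA0] at gAT hT armA ψAT gAe
  rw [eB0] at gBT hT' armB ψBT gBe
  obtain ⟨T, hTe⟩ : ∃ T : ℝ, T = 3 / 2 * Real.log (1 / rad x y s₀) := ⟨_, rfl⟩
  rw [← hTe] at gAT hT armA ψAT gBT hT' armB ψBT
  rw [one_mul] at ψA0
  rw [neg_one_mul] at ψB0
  have hrs : 0 < rad x y s₀ := Q.JCross.rad_pos (hxp s₀ ⟨hs₀0.le, hs₀L.le⟩)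
  have hd : (0 : ℝ) < 2 * (m : ℝ) + 2 / 3 := by positivity
  have vA' : ∀ s ∈ Icc s₀ L, φA (gA (s - s₀)) = 3 / 2 * Real.arctan (y s / x s) - Real.pi / 8 := by
    intro s hs
    have := vA (s - s₀) ⟨by linarith [hs.1], by linarith [hs.2]⟩
    simp only [add_sub_cancel] at this
    exact this
  have vB' : ∀ s ∈ Icc 0 s₀, φB (gB (s₀ - s)) = 3 / 2 * Real.arctan (y s / x s) - Real.pi / 8 := by
    intro s hs
    have := vB (s₀ - s) ⟨by linarith [hs.2], by linarith [hs.1]⟩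
    simp only [sub_sub_cancel] at this
    exact this
  have hφ0 : φA 0 = 3 / 2 * Real.arctan (y s₀ / x s₀) - Real.pi / 8 := by
    have := vA' s₀ ⟨le_refl _, hs₀L.le⟩
    rwa [sub_self, gA0] at this
  have hφ0' : φB 0 = 3 / 2 * Real.arctan (y s₀ / x s₀) - Real.pi / 8 := by
    have := vB' s₀ ⟨hs₀0.le, le_refl _⟩
    rwa [sub_self, gB0] at this
  have hne : ∀ t ∈ Ioc 0 T, φA t ≠ φB t := by
    intro t ht heq
    obtain ⟨s, hs, hst⟩ : t ∈ gA '' Icc 0 (L - s₀) := by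
      have := intermediate_value_Icc (by linarith : (0 : ℝ) ≤ L - s₀) cA
      rw [gA0, gAT] at this
      exact this ⟨ht.1.le, ht.2⟩
    obtain ⟨s', hs', hst'⟩ : t ∈ gB '' Icc 0 s₀ := by
      have := intermediate_value_Icc hs₀0.le cB
      rw [gB0, gBT] at this
      exact this ⟨ht.1.le, ht.2⟩
    have h1 := vA s hs
    have h2 := vB s' hs'
    rw [hst] at h1
    rw [hst', ← heq, h1] at h2
    have h2' : Real.arctan (y (s₀ + s) / x (s₀ + s)) = Real.arctan (y (s₀ - s') / x (s₀ - s')) := by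
      linarith
    have c1 := hxp (s₀ + s) ⟨by linarith [hs.1], by linarith [hs.2]⟩
    have c2 := hxp (s₀ - s') ⟨by linarith [hs'.2], by linarith [hs'.1]⟩
    have h3 : 3 / 2 * Real.log (rad (fun s => x (s₀ + s)) (fun s => y (s₀ + s)) s / rad x y s₀) =
        3 / 2 * Real.log (rad (fun s => x (s₀ - s)) (fun s => y (s₀ - s)) s' / rad x y s₀) := by
      rw [← gAe, ← gBe, hst, hst']
    have h4 := Q.JCross.rad_eq_of_log hrs (Q.JCross.rad_pos (X := fun s => x (s₀ + s)) c1)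
      (Q.JCross.rad_pos (X := fun s => x (s₀ - s)) c2) (by linarith)
    obtain ⟨h5, h6⟩ := Q.JCross.pt_eq c1 c2 h2' h4
    have h7 := hch.injOn (x₁ := s₀ + s) ⟨by linarith [hs.1], by linarith [hs.2]⟩
      (x₂ := s₀ - s') ⟨by linarith [hs'.2], by linarith [hs'.1]⟩ (Prod.ext h5 h6)
    have h8 : s = 0 := by linarith [hs.1, hs'.1]
    rw [h8, gA0] at hst
    linarith [ht.1]
  obtain ⟨r1, r2, r3, r4, r5⟩ := Q.JCross.ac_all hR (p := m + 1) (q := m + 1) (by omega) (by omega) hd hT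
    armA armB (hφ0.trans hφ0'.symm) ψA0 ψB0 hne ψAT ψBT
  rw [ang_eq m hm1] at r1 r2 r3 r4 r5
  have zero_iff : ∀ s ∈ Icc 0 L, (Q3 x y s = 0 ↔
      3 / 2 * Real.arctan (y s / x s) - Real.pi / 8 = Real.pi / 4) := by
    intro s hs
    exact zero_iff' (hxp s hs) (hyp s hs)
  have gBmem : ∀ s ∈ Icc 0 s₀, gB (s₀ - s) ∈ Icc 0 T := by
    intro s hs
    constructor
    · rw [← gB0]
      exact mB.monotoneOn ⟨le_refl _, hs₀0.le⟩ ⟨by linarith [hs.2], by linarith [hs.1]⟩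
        (by linarith [hs.2])
    · rw [← gBT]
      exact mB.monotoneOn ⟨by linarith [hs.2], by linarith [hs.1]⟩ ⟨hs₀0.le, le_refl _⟩
        (by linarith [hs.1])
  have gAmem : ∀ s ∈ Icc s₀ L, gA (s - s₀) ∈ Icc 0 T := by
    intro s hs
    constructor
    · rw [← gA0]
      exact mA.monotoneOn ⟨le_refl _, by linarith⟩ ⟨by linarith [hs.1], by linarith [hs.2]⟩
        (by linarith [hs.1])
    · rw [← gAT]
      exact mA.monotoneOn ⟨by linarith [hs.1], by linarith [hs.2]⟩ ⟨by linarith, le_refl _⟩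
        (by linarith [hs.2])
  -- the case of two points on different sides
  have mixed : ∀ s ∈ Icc 0 s₀, ∀ s' ∈ Icc s₀ L, Q3 x y s = 0 → Q3 x y s' = 0 →
      s = s' := by
    intro s hs s' hs' e e'
    rw [zero_iff s ⟨hs.1, by linarith [hs.2]⟩, ← vB' s hs] at e
    rw [zero_iff s' ⟨by linarith [hs'.1], hs'.2⟩, ← vA' s' hs'] at e'
    obtain ⟨h1, h2⟩ := r5 _ (gAmem s' hs') _ (gBmem s hs) e' e
    rw [← gA0] at h1
    rw [← gB0] at h2
    have h3 := mA.injOn (x₁ := s' - s₀) ⟨by linarith [hs'.1], by linarith [hs'.2]⟩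
      (x₂ := 0) ⟨le_rfl, by linarith⟩ h1
    have h4 := mB.injOn (x₁ := s₀ - s) ⟨by linarith [hs.2], by linarith [hs.1]⟩
      (x₂ := 0) ⟨le_rfl, hs₀0.le⟩ h2
    linarith
  refine ⟨?_, ?_, ?_⟩
  · intro h
    rw [zero_iff 0 ⟨le_rfl, hL.le⟩, ← vB' 0 ⟨le_rfl, hs₀0.le⟩, sub_zero, gBT] at h
    exact r2 h
  · intro h
    rw [zero_iff L ⟨hL.le, le_rfl⟩, ← vA' L ⟨hs₀L.le, le_rfl⟩, gAT] at h
    exact r1 h
  · intro s hs s' hs' e e'
    rcases le_total s s₀ with h | h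
    · rcases le_total s' s₀ with h' | h'
      · rw [zero_iff s hs, ← vB' s ⟨hs.1, h⟩] at e
        rw [zero_iff s' hs', ← vB' s' ⟨hs'.1, h'⟩] at e'
        have h1 := r4 _ (gBmem s ⟨hs.1, h⟩) _ (gBmem s' ⟨hs'.1, h'⟩) e e'
        have h2 := mB.injOn (x₁ := s₀ - s) ⟨by linarith, by linarith [hs.1]⟩
          (x₂ := s₀ - s') ⟨by linarith, by linarith [hs'.1]⟩ h1
        linarith
      · exact mixed s ⟨hs.1, h⟩ s' ⟨h', hs'.2⟩ e e'
    · rcases le_total s' s₀ with h' | h'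
      · exact (mixed s' ⟨hs'.1, h'⟩ s ⟨h, hs.2⟩ e' e).symm
      · rw [zero_iff s hs, ← vA' s ⟨h, hs.2⟩] at e
        rw [zero_iff s' hs', ← vA' s' ⟨h', hs'.2⟩] at e'
        have h1 := r3 _ (gAmem s ⟨h, hs.2⟩) _ (gAmem s' ⟨h', hs'.2⟩) e e'
        have h2 := mA.injOn (x₁ := s - s₀) ⟨by linarith, by linarith [hs.2]⟩
          (x₂ := s' - s₀) ⟨by linarith, by linarith [hs'.2]⟩ h1
        linarith

theorem Q3_rev (L : ℝ) (x y : ℝ → ℝ) (s : ℝ) :
    Q3 (fun s => x (L - s)) (fun s => y (L - s)) s = Q3 x y (L - s) := rfl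

theorem con_of_rev {L : ℝ} {x y : ℝ → ℝ}
    (h : Con L (fun s => x (L - s)) (fun s => y (L - s))) : Con L x y := by
  obtain ⟨h1, h2, h3⟩ := h
  simp only [Q3_rev, sub_zero, sub_self] at h1 h2 h3
  refine ⟨h2, h1, ?_⟩
  intro s hs s' hs' e e'
  have := h3 (L - s) ⟨by linarith [hs.2], by linarith [hs.1]⟩ (L - s')
    ⟨by linarith [hs'.2], by linarith [hs'.1]⟩ (by rwa [sub_sub_cancel]) (by rwa [sub_sub_cancel])
  linarith

end JCross

theorem prfCross (hclRefl : clRefl) (hcArm : cArm) (hcNear : cNear) : cCross := by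
  intro m L x y hm1 hC
  obtain ⟨s₀, hs₀, h1, h2, h3, h4⟩ := hcNear.1 m L x y hm1 hC
  have hD : Q.JCross.Dat L x y s₀ := ⟨hs₀, h1, h2, h3⟩
  have hc := hC.curve.2.2 s₀ ⟨hs₀.1.le, hs₀.2.le⟩
  have hx : 0 < x s₀ := (JCross.coords hc.1 hc.2.1).1
  have hm : x s₀ * deriv y s₀ - y s₀ * deriv x s₀ ≠ 0 := by
    intro h
    rw [h] at h4
    have : 0 < x s₀ ^ 2 + y s₀ ^ 2 := by positivity
    norm_num at h4
    linarith
  rcases lt_or_gt_of_ne hm with hm | hm
  · apply JCross.con_of_rev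
    refine JCross.pos_case hcArm hclRefl hm1 (hcNear.2 m L x y hC) (Q.JCross.dat_rev hD) ?_
    simp only [deriv_comp_const_sub, sub_sub_cancel]
    linarith
  · exact JCross.pos_case hcArm hclRefl hm1 hC hD hm

end Pool.Agent.Work.MP_408f4b_gt.A2
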