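import Pool.Agent.Work.MP_408f4b_gt.A2.Stmts

set_option autoImplicit false

namespace Pool.Agent.Work.MP_408f4b_gt.A2

open MeasureTheory Set Filter Topology Pool.Agent.Work.MP_408f4b_gt.Q

namespace JEb

section lin

variable {M : Type} [NormedAddCommGroup M] [InnerProductSpace ℝ M] [CompleteSpace M]

theorem diff2 {Θ : M → M → M → ℝ} (h : Ci3 Θ) (X Y Z : M) :
    DifferentiableAt ℝ (fun Y' => Θ X Y' Z) Y := by
  have h1 : ContDiff ℝ 1 (fun Y' : M => Θ X Y' Z) :=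
    h.comp (g := fun z : M × M × M => Θ z.1 z.2.1 z.2.2) (f := fun Y' : M => (X, Y', Z))
      (contDiff_const.prodMk (contDiff_id.prodMk contDiff_const))
  exact (h1.differentiable one_ne_zero) Y

theorem diff3 {Θ : M → M → M → ℝ} (h : Ci3 Θ) (X Y Z : M) :
    DifferentiableAt ℝ (fun Z' => Θ X Y Z') Z := by
  have h1 : ContDiff ℝ 1 (fun Z' : M => Θ X Y Z') :=
    h.comp (g := fun z : M × M × M => Θ z.1 z.2.1 z.2.2) (f := fun Z' : M => (X, Y, Z'))
      (contDiff_const.prodMk (contDiff_const.prodMk contDiff_id))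
  exact (h1.differentiable one_ne_zero) Z

theorem grad_lin {f g : M → ℝ} {x : M} (hf : DifferentiableAt ℝ f x) (hg : DifferentiableAt ℝ g x)
    (c d : ℝ) : gradient (fun y => c * f y + d * g y) x = c • gradient f x + d • gradient g x := by
  unfold gradient
  have h1 : fderiv ℝ (fun y => c * f y + d * g y) x = c • fderiv ℝ f x + d • fderiv ℝ g x := by
    have := ((hf.hasFDerivAt.const_mul c).add (hg.hasFDerivAt.const_mul d)).fderiv
    exact this
  rw [h1, map_add]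
  simp only [map_smulₛₗ, RingHom.id_apply, conj_trivial]

theorem pg2_lin {Θ Θ' : M → M → M → ℝ} (h : Ci3 Θ) (h' : Ci3 Θ') (c d : ℝ) (X Y Z : M) :
    pg2 (fun X Y Z => c * Θ X Y Z + d * Θ' X Y Z) X Y Z = c • pg2 Θ X Y Z + d • pg2 Θ' X Y Z := by
  unfold pg2
  exact grad_lin (diff2 h X Y Z) (diff2 h' X Y Z) c d

theorem pg3_lin {Θ Θ' : M → M → M → ℝ} (h : Ci3 Θ) (h' : Ci3 Θ') (c d : ℝ) (X Y Z : M) :
    pg3 (fun X Y Z => c * Θ X Y Z + d * Θ' X Y Z) X Y Z = c • pg3 Θ X Y Z + d • pg3 Θ' X Y Z := by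
  unfold pg3
  exact grad_lin (diff3 h X Y Z) (diff3 h' X Y Z) c d

end lin

section main

variable {V : Type} [NormedAddCommGroup V] [InnerProductSpace ℝ V] [CompleteSpace V]
  {e : ℕ} {Ψ : Fr3 V e} {M : Type} [NormedAddCommGroup M] [InnerProductSpace ℝ M]
  [CompleteSpace M] (T : Hrm Ψ M)

theorem dd_lin {Θ Θ' : M → M → M → ℝ} (h : Ci3 Θ) (h' : Ci3 Θ') (c d : ℝ) (q : Fin (e + 1))
    (u v w : V) : T.dd q (fun X Y Z => c * Θ X Y Z + d * Θ' X Y Z) u v w =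
      c * T.dd q Θ u v w + d * T.dd q Θ' u v w := by
  unfold Hrm.dd
  rw [pg2_lin h h', pg3_lin h h']
  simp only [inner_sub_left, inner_add_left, real_inner_smul_left]
  ring

theorem dd_const (q : Fin (e + 1)) (c : ℝ) (u v w : V) :
    T.dd q (fun _ _ _ => c) u v w = 0 := by
  unfold Hrm.dd pg2 pg3
  simp [gradient]

theorem swapB (hB : ∀ q v w, T.B v (Ψ.fr.J q w) = T.B (Ψ.fr.Js q v) w)
    (hs : ∀ (r : ℝ) (v w : V), T.B v (r • w) = r • T.B v w) (q : Fin (e + 1)) (v w : V) :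
    ∃ ε : ℝ, ε * ε = 1 ∧ T.B v (Ψ.fr.J q w) = ε • T.B w (Ψ.fr.J q v) := by
  by_cases hq : q = 0
  · refine ⟨1, by norm_num, ?_⟩
    subst hq
    rw [Ψ.fr.J0, Ψ.fr.J0, one_smul, T.symm]
  · refine ⟨-1, by norm_num, ?_⟩
    rw [hB, T.symm]
    unfold Frm.Js
    rw [if_neg hq]
    have : -(Ψ.fr.J q v) = (-1 : ℝ) • Ψ.fr.J q v := by simp
    rw [this, hs]

theorem dd_swap (hB : ∀ q v w, T.B v (Ψ.fr.J q w) = T.B (Ψ.fr.Js q v) w)
    (hs : ∀ (r : ℝ) (v w : V), T.B v (r • w) = r • T.B v w) (q : Fin (e + 1))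
    (Θ Ξ : M → M → M → ℝ) (u v w : V) :
    T.dd q (s23 Θ) u v w * T.dd q (s23 Ξ) u v w = T.dd q Θ u w v * T.dd q Ξ u w v := by
  obtain ⟨ε, hε, hBv⟩ := swapB T hB hs q v w
  have key : ∀ Θ : M → M → M → ℝ, T.dd q (s23 Θ) u v w = -ε * T.dd q Θ u w v := by
    intro Θ
    have h2 : pg2 (s23 Θ) (T.B u u) (T.B v v) (T.B w w) =
        pg3 Θ (T.B u u) (T.B w w) (T.B v v) := rfl
    have h3 : pg3 (s23 Θ) (T.B u u) (T.B v v) (T.B w w) =
        pg2 Θ (T.B u u) (T.B w w) (T.B v v) := rfl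
    unfold Hrm.dd
    rw [h2, h3, hBv, inner_sub_left, inner_sub_left, real_inner_smul_right, real_inner_smul_right]
    ring
  rw [key, key]
  linear_combination (T.dd q Θ u w v * T.dd q Ξ u w v) * hε

theorem co_sum (hN : ∀ Θ : M → M → M → ℝ, Ci3 Θ → ∀ q, Co3 (T.dd q Θ))
    {Θ Ξ : M → M → M → ℝ} (h : Ci3 Θ) (h' : Ci3 Ξ) :
    Co3 (fun u v w => ∑ q, T.dd q Θ u v w * T.dd q Ξ u v w) := by
  unfold Co3
  refine continuous_finsetSum _ fun q _ => ?_
  exact (hN Θ h q).mul (hN Ξ h' q)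

end main

end JEb

open JEb in
theorem prfEb (_hclPair : clPair) (_hcTri : cTri) (hcAv : cAv) (hcB : cB) (hcN : cN) : cEb := by
  intro V _ _ _ e Ψ M _ _ _ T
  obtain ⟨-, -, hs, -, hB, -⟩ := hcB V e Ψ M T
  have hN : ∀ Θ : M → M → M → ℝ, Ci3 Θ → ∀ q, Co3 (T.dd q Θ) := fun Θ h =>
    (hcN V e Ψ M T Θ h).2.2.2.1
  obtain ⟨hA1, hA2, hA3, -⟩ := hcAv V e Ψ
  refine ⟨?_, ?_, ?_⟩
  · intro Θ Ξ h h'
    refine ⟨?_, ?_, ?_⟩
    · unfold Hrm.Eb
      congr 1
      funext u v w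
      exact Finset.sum_congr rfl fun q _ => mul_comm _ _
    · have h1 := (hA1 _ (co_sum T hN h h')).2.2.1
      unfold Hrm.Eb
      rw [← h1]
      congr 1
      funext u v w
      unfold s23
      exact Finset.sum_congr rfl fun q _ => dd_swap T hB hs q Θ Ξ u v w
    · unfold Hrm.Eb Fr3.av
      exact integral_nonneg fun g => Finset.sum_nonneg fun q _ => mul_self_nonneg _
  · intro Θ Θ' Ξ h h' h'' c d
    have h1 := (hA2 _ _ (co_sum T hN h h'') (co_sum T hN h' h'')).1 c d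
    unfold Hrm.Eb
    rw [← h1]
    congr 1
    funext u v w
    rw [Finset.mul_sum, Finset.mul_sum, ← Finset.sum_add_distrib]
    refine Finset.sum_congr rfl fun q _ => ?_
    rw [dd_lin T h h']
    ring
  · intro Θ c _
    unfold Hrm.Eb Fr3.av
    simp only [dd_const, mul_zero, Finset.sum_const_zero, integral_zero]

end Pool.Agent.Work.MP_408f4b_gt.A2
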