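import Pool.Agent.Work.MP_408f4b_gt.A2.Stmts
import Pool.Agent.Work.MP_408f4b_gt.Q.I.Sig
import Pool.Agent.Work.MP_408f4b_gt.Q.I.Unif

set_option autoImplicit false
set_option linter.unusedSectionVars false

/-!
# Block A2, item Fib: Poincare inequalities on the spheres in the orbits
-/

namespace Pool.Agent.Work.MP_408f4b_gt.A2

open MeasureTheory Set Filter Topology Pool.Agent.Work.MP_408f4b_gt.Q

namespace JFib

section equi

variable {V : Type} [NormedAddCommGroup V] [InnerProductSpace ℝ V] [CompleteSpace V] {e : ℕ}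
  {Ψ : Fr3 V e} {M : Type} [NormedAddCommGroup M] [InnerProductSpace ℝ M] [CompleteSpace M]
  (T : Hrm Ψ M)

/-- The inner products of the values of `B`. -/
def Inn : Prop := ∀ u v w z : V, (inner ℝ (T.B u v) (T.B w z) : ℝ) =
    (∑ q, (inner ℝ u (Ψ.fr.J q w) * inner ℝ v (Ψ.fr.J q z) +
      inner ℝ u (Ψ.fr.J q z) * inner ℝ v (Ψ.fr.J q w))) / 2

theorem inv4 (hin : Inn T) (g : Ψ.fr.G) (u v w z : V) :
    (inner ℝ (T.B (Ψ.fr.A g u) (Ψ.fr.A g v)) (T.B (Ψ.fr.A g w) (Ψ.fr.A g z)) : ℝ) =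
      inner ℝ (T.B u v) (T.B w z) := by
  rw [hin, hin]
  simp only [← Ψ.fr.comm, LinearIsometry.inner_map_map]

theorem equi (hin : Inn T) (g : Ψ.fr.G) {ι : Type} [Fintype ι] (l : ι → ℝ) (x y : ι → V)
    (h : ∑ i, l i • T.B (x i) (y i) = 0) :
    ∑ i, l i • T.B (Ψ.fr.A g (x i)) (Ψ.fr.A g (y i)) = 0 := by
  rw [← inner_self_eq_zero (𝕜 := ℝ)] at h ⊢
  rw [← h]
  simp only [sum_inner, inner_sum, real_inner_smul_left, real_inner_smul_right, inv4 T hin]

theorem rotg (hin : Inn T) (g : Ψ.fr.G) (s : ℝ) (b c p : V) (θ : E (e + 2))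
    (h : T.B p p = (1 / 2 : ℝ) • (T.B b b + T.B c c + s • T.sg b c θ)) :
    T.B (Ψ.fr.A g p) (Ψ.fr.A g p) = (1 / 2 : ℝ) • (T.B (Ψ.fr.A g b) (Ψ.fr.A g b) +
      T.B (Ψ.fr.A g c) (Ψ.fr.A g c) + s • T.sg (Ψ.fr.A g b) (Ψ.fr.A g c) θ) := by
  let l : Fin 3 ⊕ Fin (e + 1) → ℝ := Sum.elim ![1, -(1 + s * θ 0) / 2, -(1 - s * θ 0) / 2]
    (fun q => -(s * θ q.succ))
  let x : Fin 3 ⊕ Fin (e + 1) → V := Sum.elim ![p, b, c] (fun _ => b)
  let y : Fin 3 ⊕ Fin (e + 1) → V := Sum.elim ![p, b, c] (fun q => Ψ.fr.J q c)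
  have key : ∀ (X Y Z : M) (D : Fin (e + 1) → M),
      X = (1 / 2 : ℝ) • (Y + Z + s • (θ 0 • (Y - Z) + (2 : ℝ) • ∑ q, θ q.succ • D q)) ↔
      (1 : ℝ) • X + (-(1 + s * θ 0) / 2) • Y + (-(1 - s * θ 0) / 2) • Z +
        ∑ q, (-(s * θ q.succ)) • D q = 0 := by
    intro X Y Z D
    have h1 : ∑ q, (-(s * θ q.succ)) • D q = -(s • ∑ q, θ q.succ • D q) := by
      rw [Finset.smul_sum, ← Finset.sum_neg_distrib]
      refine Finset.sum_congr rfl fun q _ => ?_
      rw [neg_smul, mul_smul]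
    rw [h1]
    generalize (∑ q, θ q.succ • D q) = W
    rw [← sub_eq_zero]
    have h2 : X - (1 / 2 : ℝ) • (Y + Z + s • (θ 0 • (Y - Z) + (2 : ℝ) • W)) =
        (1 : ℝ) • X + (-(1 + s * θ 0) / 2) • Y + (-(1 - s * θ 0) / 2) • Z + -(s • W) := by
      module
    rw [h2]
  have h0 : ∑ i, l i • T.B (x i) (y i) = 0 := by
    have := (key _ _ _ (fun q => T.B b (Ψ.fr.J q c))).1 h
    simpa [l, x, y, Fintype.sum_sum_type, Fin.sum_univ_three] using this
  have h1 := equi T hin g l x y h0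
  refine (key _ _ _ (fun q => T.B (Ψ.fr.A g b) (Ψ.fr.J q (Ψ.fr.A g c)))).2 ?_
  simpa [l, x, y, Fintype.sum_sum_type, Fin.sum_univ_three, Ψ.fr.comm] using h1

end equi

section grad

variable {M : Type} [NormedAddCommGroup M] [InnerProductSpace ℝ M] [CompleteSpace M]

/-- the function of three matrices as a function on the product -/
def th (Θ : M → M → M → ℝ) : M × M × M → ℝ := fun z => Θ z.1 z.2.1 z.2.2

theorem pg2_eq {Θ : M → M → M → ℝ} (h : Ci3 Θ) (X Y Z : M) :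
    pg2 Θ X Y Z = (InnerProductSpace.toDual ℝ M).symm ((fderiv ℝ (th Θ) (X, Y, Z)).comp
      ((0 : M →L[ℝ] M).prod ((ContinuousLinearMap.id ℝ M).prod 0))) := by
  have h1 : HasFDerivAt (th Θ) (fderiv ℝ (th Θ) (X, Y, Z)) (X, Y, Z) :=
    ((h.differentiable one_ne_zero) (X, Y, Z)).hasFDerivAt
  have h2 : HasFDerivAt (fun Y' : M => ((X, Y', Z) : M × M × M))
      ((0 : M →L[ℝ] M).prod ((ContinuousLinearMap.id ℝ M).prod 0)) Y :=
    (hasFDerivAt_const X Y).prodMk ((hasFDerivAt_id Y).prodMk (hasFDerivAt_const Z Y))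
  have h3 := HasFDerivAt.comp Y (g := th Θ) (f := fun Y' : M => ((X, Y', Z) : M × M × M)) h1 h2
  unfold pg2 gradient
  exact congrArg _ h3.fderiv

theorem pg3_eq {Θ : M → M → M → ℝ} (h : Ci3 Θ) (X Y Z : M) :
    pg3 Θ X Y Z = (InnerProductSpace.toDual ℝ M).symm ((fderiv ℝ (th Θ) (X, Y, Z)).comp
      ((0 : M →L[ℝ] M).prod ((0 : M →L[ℝ] M).prod (ContinuousLinearMap.id ℝ M)))) := by
  have h1 : HasFDerivAt (th Θ) (fderiv ℝ (th Θ) (X, Y, Z)) (X, Y, Z) :=
    ((h.differentiable one_ne_zero) (X, Y, Z)).hasFDerivAt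
  have h2 : HasFDerivAt (fun Z' : M => ((X, Y, Z') : M × M × M))
      ((0 : M →L[ℝ] M).prod ((0 : M →L[ℝ] M).prod (ContinuousLinearMap.id ℝ M))) Z :=
    (hasFDerivAt_const X Z).prodMk ((hasFDerivAt_const Y Z).prodMk (hasFDerivAt_id Z))
  have h3 := HasFDerivAt.comp Z (g := th Θ) (f := fun Z' : M => ((X, Y, Z') : M × M × M)) h1 h2
  unfold pg3 gradient
  exact congrArg _ h3.fderiv

theorem pg2_inner {Θ : M → M → M → ℝ} (h : Ci3 Θ) (X Y Z k : M) :
    (inner ℝ (pg2 Θ X Y Z) k : ℝ) = fderiv ℝ (th Θ) (X, Y, Z) (0, k, 0) := by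
  rw [pg2_eq h, InnerProductSpace.toDual_symm_apply]
  rfl

theorem pg3_inner {Θ : M → M → M → ℝ} (h : Ci3 Θ) (X Y Z k : M) :
    (inner ℝ (pg3 Θ X Y Z) k : ℝ) = fderiv ℝ (th Θ) (X, Y, Z) (0, 0, k) := by
  rw [pg3_eq h, InnerProductSpace.toDual_symm_apply]
  rfl

theorem pg2_cont {Θ : M → M → M → ℝ} (h : Ci3 Θ) :
    Continuous (fun z : M × M × M => pg2 Θ z.1 z.2.1 z.2.2) := by
  have h1 : Continuous (fderiv ℝ (th Θ)) := ContDiff.continuous_fderiv h one_ne_zero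
  have h2 : (fun z : M × M × M => pg2 Θ z.1 z.2.1 z.2.2) = fun z =>
      (InnerProductSpace.toDual ℝ M).symm ((fderiv ℝ (th Θ) z).comp
      ((0 : M →L[ℝ] M).prod ((ContinuousLinearMap.id ℝ M).prod 0))) := by
    funext z
    exact pg2_eq h z.1 z.2.1 z.2.2
  rw [h2]
  exact (InnerProductSpace.toDual ℝ M).symm.continuous.comp (h1.clm_comp continuous_const)

theorem pg3_cont {Θ : M → M → M → ℝ} (h : Ci3 Θ) :
    Continuous (fun z : M × M × M => pg3 Θ z.1 z.2.1 z.2.2) := by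
  have h1 : Continuous (fderiv ℝ (th Θ)) := ContDiff.continuous_fderiv h one_ne_zero
  have h2 : (fun z : M × M × M => pg3 Θ z.1 z.2.1 z.2.2) = fun z =>
      (InnerProductSpace.toDual ℝ M).symm ((fderiv ℝ (th Θ) z).comp
      ((0 : M →L[ℝ] M).prod ((0 : M →L[ℝ] M).prod (ContinuousLinearMap.id ℝ M)))) := by
    funext z
    exact pg3_eq h z.1 z.2.1 z.2.2
  rw [h2]
  exact (InnerProductSpace.toDual ℝ M).symm.continuous.comp (h1.clm_comp continuous_const)

end grad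

section sphere

variable {V : Type} [NormedAddCommGroup V] [InnerProductSpace ℝ V] [CompleteSpace V] {e : ℕ}
  {Ψ : Fr3 V e} {M : Type} [NormedAddCommGroup M] [InnerProductSpace ℝ M] [CompleteSpace M]
  (T : Hrm Ψ M)

/-- `sg` as a linear map -/
noncomputable def sgL (v w : V) : E (e + 2) →L[ℝ] M :=
  LinearMap.toContinuousLinearMap
    { toFun := T.sg v w
      map_add' := by
        intro c c'
        unfold Hrm.sg
        simp only [PiLp.add_apply, add_smul, Finset.sum_add_distrib, smul_add]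
        abel
      map_smul' := by
        intro r c
        unfold Hrm.sg
        simp only [PiLp.smul_apply, smul_eq_mul, mul_smul, RingHom.id_apply, smul_add,
          Finset.smul_sum]
        simp only [smul_comm (2 : ℝ) r] }

theorem sgL_apply (v w : V) (c : E (e + 2)) : sgL T v w c = T.sg v w c := rfl

/-- The difference of the partial gradients at the point `c` of the sphere. -/
noncomputable def gG (Θ : M → M → M → ℝ) (u v w : V) (c : E (e + 2)) : M :=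
  pg2 Θ (T.B u u) ((1 / 2 : ℝ) • (T.B v v + T.B w w + T.sg v w c))
    ((1 / 2 : ℝ) • (T.B v v + T.B w w - T.sg v w c)) -
  pg3 Θ (T.B u u) ((1 / 2 : ℝ) • (T.B v v + T.B w w + T.sg v w c))
    ((1 / 2 : ℝ) • (T.B v v + T.B w w - T.sg v w c))

theorem at_contDiff {Θ : M → M → M → ℝ} (h : Ci3 Θ) (u v w : V) :
    ContDiff ℝ 1 (T.at' Θ u v w) := by
  have h1 : ContDiff ℝ 1 (fun c : E (e + 2) => ((T.B u u,
      (1 / 2 : ℝ) • (T.B v v + T.B w w + sgL T v w c),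
      (1 / 2 : ℝ) • (T.B v v + T.B w w - sgL T v w c)) : M × M × M)) := by
    have h0 : ContDiff ℝ 1 (sgL T v w) := (sgL T v w).contDiff
    exact contDiff_const.prodMk (((contDiff_const.add h0).const_smul _).prodMk
      ((contDiff_const.sub h0).const_smul _))
  exact ContDiff.comp (g := th Θ) h h1

theorem grad_at {Θ : M → M → M → ℝ} (h : Ci3 Θ) (u v w : V) (c k : E (e + 2)) :
    (inner ℝ (gradient (T.at' Θ u v w) c) k : ℝ) = 1 / 2 * inner ℝ (gG T Θ u v w c) (T.sg v w k) := by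
  set Y : M := (1 / 2 : ℝ) • (T.B v v + T.B w w + T.sg v w c) with hY
  set Z : M := (1 / 2 : ℝ) • (T.B v v + T.B w w - T.sg v w c) with hZ
  have h1 : HasFDerivAt (th Θ) (fderiv ℝ (th Θ) (T.B u u, Y, Z)) (T.B u u, Y, Z) :=
    ((h.differentiable one_ne_zero) (T.B u u, Y, Z)).hasFDerivAt
  have h2 : HasFDerivAt (fun c : E (e + 2) => ((T.B u u,
      (1 / 2 : ℝ) • (T.B v v + T.B w w + sgL T v w c),
      (1 / 2 : ℝ) • (T.B v v + T.B w w - sgL T v w c)) : M × M × M))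
      ((0 : E (e + 2) →L[ℝ] M).prod (((1 / 2 : ℝ) • sgL T v w).prod
        ((1 / 2 : ℝ) • -(sgL T v w)))) c := by
    have h0 : HasFDerivAt (fun c : E (e + 2) => sgL T v w c) (sgL T v w) c :=
      (sgL T v w).hasFDerivAt
    exact (hasFDerivAt_const _ c).prodMk (((h0.const_add _).const_smul _).prodMk
      ((h0.const_sub _).const_smul _))
  have h3 := HasFDerivAt.comp c (g := th Θ) (f := fun c : E (e + 2) => ((T.B u u,
      (1 / 2 : ℝ) • (T.B v v + T.B w w + sgL T v w c),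
      (1 / 2 : ℝ) • (T.B v v + T.B w w - sgL T v w c)) : M × M × M)) h1 h2
  have h4 : fderiv ℝ (T.at' Θ u v w) c = (fderiv ℝ (th Θ) (T.B u u, Y, Z)).comp
      ((0 : E (e + 2) →L[ℝ] M).prod (((1 / 2 : ℝ) • sgL T v w).prod
        ((1 / 2 : ℝ) • -(sgL T v w)))) := h3.fderiv
  unfold gradient
  rw [InnerProductSpace.toDual_symm_apply, h4]
  unfold gG
  rw [← hY, ← hZ, inner_sub_left, pg2_inner h, pg3_inner h]
  have h5 : (((0 : E (e + 2) →L[ℝ] M).prod (((1 / 2 : ℝ) • sgL T v w).prod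
        ((1 / 2 : ℝ) • -(sgL T v w)))) k) =
      (1 / 2 : ℝ) • (((0, T.sg v w k, 0) : M × M × M) - (0, 0, T.sg v w k)) := by
    simp [sgL_apply]
  rw [ContinuousLinearMap.comp_apply, h5, map_smul, map_sub, smul_eq_mul]

/-- The square of the spherical gradient. -/
noncomputable def dS (Θ : M → M → M → ℝ) (u v w : V) (c : E (e + 2)) : ℝ :=
  ‖gradient (T.at' Θ u v w) c‖ ^ 2 - (inner ℝ (gradient (T.at' Θ u v w) c) c) ^ 2

theorem sum_sq (x : E (e + 2)) (O : E (e + 2) →ₗᵢ[ℝ] E (e + 2)) :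
    ‖x‖ ^ 2 = ∑ i : Fin (e + 2), (inner ℝ x (O (EuclideanSpace.single i (1 : ℝ)))) ^ 2 := by
  let b : OrthonormalBasis (Fin (e + 2)) ℝ (E (e + 2)) :=
    (EuclideanSpace.basisFun (Fin (e + 2)) ℝ).map (O.toLinearIsometryEquiv rfl)
  have h := b.sum_sq_norm_inner_left x
  rw [← h]
  refine Finset.sum_congr rfl fun i _ => ?_
  have h1 : b i = O (EuclideanSpace.single i (1 : ℝ)) := by
    simp [b]
  rw [h1, Real.norm_eq_abs, sq_abs]

theorem dS_eq {Θ : M → M → M → ℝ} (h : Ci3 Θ) (u v w : V) (c : E (e + 2)) :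
    dS T Θ u v w c = 1 / 4 * (∑ i : Fin (e + 2),
      (inner ℝ (gG T Θ u v w c) (T.sg v w (EuclideanSpace.single i (1 : ℝ)))) ^ 2 -
      (inner ℝ (gG T Θ u v w c) (T.sg v w c)) ^ 2) := by
  unfold dS
  rw [sum_sq (gradient (T.at' Θ u v w) c) LinearIsometry.id]
  simp only [LinearIsometry.id_apply, grad_at T h, mul_pow]
  rw [← Finset.mul_sum]
  ring

theorem gG_cont {Θ : M → M → M → ℝ} (h : Ci3 Θ)
    (hB : Continuous (fun z : V × V => T.B z.1 z.2))
    (hR : Continuous (fun z : V × V × E (e + 2) => T.sg z.1 z.2.1 z.2.2)) :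
    Continuous (fun z : V × V × V × E (e + 2) => gG T Θ z.1 z.2.1 z.2.2.1 z.2.2.2) := by
  have b1 : Continuous (fun z : V × V × V × E (e + 2) => T.B z.1 z.1) :=
    hB.comp (continuous_fst.prodMk continuous_fst)
  have b2 : Continuous (fun z : V × V × V × E (e + 2) => T.B z.2.1 z.2.1) :=
    hB.comp ((continuous_fst.comp continuous_snd).prodMk (continuous_fst.comp continuous_snd))
  have b3 : Continuous (fun z : V × V × V × E (e + 2) => T.B z.2.2.1 z.2.2.1) :=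
    hB.comp ((continuous_fst.comp (continuous_snd.comp continuous_snd)).prodMk
      (continuous_fst.comp (continuous_snd.comp continuous_snd)))
  have b4 : Continuous (fun z : V × V × V × E (e + 2) => T.sg z.2.1 z.2.2.1 z.2.2.2) :=
    hR.comp continuous_snd
  have b5 : Continuous (fun z : V × V × V × E (e + 2) => ((T.B z.1 z.1,
      (1 / 2 : ℝ) • (T.B z.2.1 z.2.1 + T.B z.2.2.1 z.2.2.1 + T.sg z.2.1 z.2.2.1 z.2.2.2),
      (1 / 2 : ℝ) • (T.B z.2.1 z.2.1 + T.B z.2.2.1 z.2.2.1 - T.sg z.2.1 z.2.2.1 z.2.2.2)) :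
      M × M × M)) :=
    b1.prodMk ((((b2.add b3).add b4).const_smul _).prodMk (((b2.add b3).sub b4).const_smul _))
  exact ((pg2_cont h).comp b5).sub ((pg3_cont h).comp b5)

theorem at_cont {Θ : M → M → M → ℝ} (h : Ci3 Θ)
    (hB : Continuous (fun z : V × V => T.B z.1 z.2))
    (hR : Continuous (fun z : V × V × E (e + 2) => T.sg z.1 z.2.1 z.2.2)) :
    Continuous (fun z : V × V × V × E (e + 2) => T.at' Θ z.1 z.2.1 z.2.2.1 z.2.2.2) := by
  have b1 : Continuous (fun z : V × V × V × E (e + 2) => T.B z.1 z.1) :=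
    hB.comp (continuous_fst.prodMk continuous_fst)
  have b2 : Continuous (fun z : V × V × V × E (e + 2) => T.B z.2.1 z.2.1) :=
    hB.comp ((continuous_fst.comp continuous_snd).prodMk (continuous_fst.comp continuous_snd))
  have b3 : Continuous (fun z : V × V × V × E (e + 2) => T.B z.2.2.1 z.2.2.1) :=
    hB.comp ((continuous_fst.comp (continuous_snd.comp continuous_snd)).prodMk
      (continuous_fst.comp (continuous_snd.comp continuous_snd)))
  have b4 : Continuous (fun z : V × V × V × E (e + 2) => T.sg z.2.1 z.2.2.1 z.2.2.2) :=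
    hR.comp continuous_snd
  have b5 : Continuous (fun z : V × V × V × E (e + 2) => ((T.B z.1 z.1,
      (1 / 2 : ℝ) • (T.B z.2.1 z.2.1 + T.B z.2.2.1 z.2.2.1 + T.sg z.2.1 z.2.2.1 z.2.2.2),
      (1 / 2 : ℝ) • (T.B z.2.1 z.2.1 + T.B z.2.2.1 z.2.2.1 - T.sg z.2.1 z.2.2.1 z.2.2.2)) :
      M × M × M)) :=
    b1.prodMk ((((b2.add b3).add b4).const_smul _).prodMk (((b2.add b3).sub b4).const_smul _))
  exact (ContDiff.continuous (𝕜 := ℝ) (f := th Θ) h).comp b5

theorem dS_cont {Θ : M → M → M → ℝ} (h : Ci3 Θ)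
    (hB : Continuous (fun z : V × V => T.B z.1 z.2))
    (hR : Continuous (fun z : V × V × E (e + 2) => T.sg z.1 z.2.1 z.2.2)) :
    Continuous (fun z : V × V × V × E (e + 2) => dS T Θ z.1 z.2.1 z.2.2.1 z.2.2.2) := by
  simp only [dS_eq T h]
  have g1 := gG_cont T h hB hR
  have b4 : ∀ f : V × V × V × E (e + 2) → E (e + 2), Continuous f →
      Continuous (fun z : V × V × V × E (e + 2) => T.sg z.2.1 z.2.2.1 (f z)) := fun f hf =>
    hR.comp ((continuous_fst.comp continuous_snd).prodMk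
      ((continuous_fst.comp (continuous_snd.comp continuous_snd)).prodMk hf))
  refine continuous_const.mul (Continuous.sub ?_ ?_)
  · refine continuous_finsetSum _ fun i _ => (Continuous.inner g1 (b4 _ continuous_const)).pow 2
  · exact (Continuous.inner g1
      (b4 _ (continuous_snd.comp (continuous_snd.comp continuous_snd)))).pow 2

/-- The spherical gradient at the point `c` in terms of the rotated frame. -/
theorem dS_rot {Θ : M → M → M → ℝ} (h : Ci3 Θ) (u v w v' w' : V) (c : E (e + 2))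
    (hn : ∀ c : E (e + 2), ‖T.sg v w c‖ ^ 2 = 2 * ‖c‖ ^ 2)
    (h1 : T.B v' v' = (1 / 2 : ℝ) • (T.B v v + T.B w w + T.sg v w c))
    (h2 : T.B w' w' = (1 / 2 : ℝ) • (T.B v v + T.B w w - T.sg v w c))
    (O : E (e + 2) →ₗᵢ[ℝ] E (e + 2)) (hO : ∀ c, T.sg v' w' c = T.sg v w (O c)) :
    dS T Θ u v w c = 1 / 4 * ∑ q, T.dd q Θ u v' w' * T.dd q Θ u v' w' := by
  have h3 : T.sg v' w' (EuclideanSpace.single 0 (1 : ℝ)) = T.sg v w c := by
    have h4 : T.sg v' w' (EuclideanSpace.single 0 (1 : ℝ)) = T.B v' v' - T.B w' w' := by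
      unfold Hrm.sg
      simp
    rw [h4, h1, h2]
    module
  have h5 : O (EuclideanSpace.single 0 (1 : ℝ)) = c := by
    have h6 : sgL T v w (O (EuclideanSpace.single 0 (1 : ℝ)) - c) = 0 := by
      rw [map_sub, sgL_apply, sgL_apply, ← hO, h3, sub_self]
    have h7 := hn (O (EuclideanSpace.single 0 (1 : ℝ)) - c)
    rw [← sgL_apply, h6] at h7
    simp at h7
    exact sub_eq_zero.1 h7
  have h9 : ∀ q : Fin (e + 1), T.sg v' w' (EuclideanSpace.single q.succ (1 : ℝ)) =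
      (2 : ℝ) • T.B v' (Ψ.fr.J q w') := by
    intro q
    unfold Hrm.sg
    rw [Finset.sum_eq_single q]
    · simp
    · intro p _ hp
      have : (EuclideanSpace.single q.succ (1 : ℝ) : E (e + 2)) p.succ = 0 := by
        simp [hp]
      rw [this, zero_smul]
    · intro hq
      exact absurd (Finset.mem_univ q) hq
  have h10 : ∀ q : Fin (e + 1), T.dd q Θ u v' w' =
      2 * inner ℝ (gradient (T.at' Θ u v w) c) (O (EuclideanSpace.single q.succ (1 : ℝ))) := by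
    intro q
    rw [grad_at T h, ← hO, h9, real_inner_smul_right]
    unfold Hrm.dd gG
    rw [h1, h2]
    ring
  unfold dS
  rw [sum_sq (gradient (T.at' Θ u v w) c) O, Fin.sum_univ_succ, h5]
  simp only [h10]
  rw [Finset.mul_sum, add_sub_cancel_left]
  refine Finset.sum_congr rfl fun q _ => ?_
  ring

end sphere

section meas

variable {V : Type} [NormedAddCommGroup V] [InnerProductSpace ℝ V] [CompleteSpace V] {e : ℕ}
  (Ψ : Fr3 V e)

instance finS (N : ℕ) : IsFiniteMeasure (sig N) := by unfold sig; infer_instance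

theorem cont_intS (N : ℕ) : Continuous fun φ : C(Sph N, ℝ) => ∫ c, φ c ∂sig N := by
  have hi : ∀ φ : C(Sph N, ℝ), Integrable (fun c => φ c) (sig N) := fun φ =>
    φ.continuous.integrable_of_hasCompactSupport (HasCompactSupport.of_compactSpace _)
  refine (LipschitzWith.of_dist_le_mul (K := Real.toNNReal ((sig N).real univ))
    fun φ ψ => ?_).continuous
  rw [Real.dist_eq, ← integral_sub (hi φ) (hi ψ)]
  have h1 : ‖∫ c, (φ c - ψ c) ∂sig N‖ ≤ dist φ ψ * (sig N).real univ := by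
    refine norm_integral_le_of_norm_le_const (Eventually.of_forall fun c => ?_)
    have h2 := ContinuousMap.dist_apply_le_dist (f := φ) (g := ψ) c
    rw [Real.dist_eq] at h2
    rw [Real.norm_eq_abs]
    exact h2
  rw [Real.coe_toNNReal _ measureReal_nonneg, mul_comm]
  exact h1

theorem cont_paramS {X : Type} [TopologicalSpace X] (N : ℕ) {f : X → Sph N → ℝ}
    (hf : Continuous (Function.uncurry f)) : Continuous fun x => ∫ c, f x c ∂sig N := by
  let F : C(X × Sph N, ℝ) := ⟨_, hf⟩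
  exact (cont_intS N).comp F.curry.continuous

theorem int_of_cont {f : Ψ.fr.G → ℝ} (hf : Continuous f) : Integrable f Ψ.fr.μ :=
  hf.integrable_of_hasCompactSupport (HasCompactSupport.of_compactSpace f)

theorem avg_ineq (N : ℕ) (hN : 1 ≤ N) (γ D : Ψ.fr.G → Sph N → ℝ)
    (hγ : Continuous (Function.uncurry γ)) (hD : Continuous (Function.uncurry D)) (K I J : ℝ)
    (h1 : ∀ g, K * (∫ c, γ g c ^ 2 ∂sig N - (∫ c, γ g c ∂sig N) ^ 2 / (sig N).real univ) ≤
      ∫ c, D g c ∂sig N)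
    (h2 : ∀ c, ∫ g, γ g c ^ 2 ∂Ψ.fr.μ = I) (h3 : ∀ c, ∫ g, D g c ∂Ψ.fr.μ = J) :
    K * (I - ∫ g, (((sig N).real univ)⁻¹ * ∫ c, γ g c ∂sig N) ^ 2 ∂Ψ.fr.μ) ≤ J := by
  have hσ : 0 < (sig N).real univ := JUnif.mass_pos N hN
  set σ : ℝ := (sig N).real univ with hσd
  have hγ2 : Continuous (Function.uncurry fun g c => γ g c ^ 2) := hγ.pow 2
  have c1 : Continuous fun g => ∫ c, γ g c ^ 2 ∂sig N := cont_paramS N hγ2
  have c2 : Continuous fun g => ∫ c, γ g c ∂sig N := cont_paramS N hγ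
  have c3 : Continuous fun g => ∫ c, D g c ∂sig N := cont_paramS N hD
  have e1 : ∫ g, (∫ c, γ g c ^ 2 ∂sig N) ∂Ψ.fr.μ = σ * I := by
    rw [integral_integral_swap (hγ2.integrable_of_hasCompactSupport
      (HasCompactSupport.of_compactSpace _))]
    simp_rw [h2]
    rw [integral_const, smul_eq_mul]
  have e3 : ∫ g, (∫ c, D g c ∂sig N) ∂Ψ.fr.μ = σ * J := by
    rw [integral_integral_swap (hD.integrable_of_hasCompactSupport
      (HasCompactSupport.of_compactSpace _))]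
    simp_rw [h3]
    rw [integral_const, smul_eq_mul]
  have e2 : ∀ g, (∫ c, γ g c ∂sig N) ^ 2 / σ = σ * (σ⁻¹ * ∫ c, γ g c ∂sig N) ^ 2 := by
    intro g
    field_simp
  have c4 : Continuous fun g => σ * (σ⁻¹ * ∫ c, γ g c ∂sig N) ^ 2 :=
    continuous_const.mul ((continuous_const.mul c2).pow 2)
  have h4 : ∫ g, K * ((∫ c, γ g c ^ 2 ∂sig N) - σ * (σ⁻¹ * ∫ c, γ g c ∂sig N) ^ 2) ∂Ψ.fr.μ ≤
      ∫ g, (∫ c, D g c ∂sig N) ∂Ψ.fr.μ := by
    refine integral_mono (int_of_cont Ψ (continuous_const.mul (c1.sub c4)))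
      (int_of_cont Ψ c3) fun g => ?_
    have := h1 g
    rw [e2 g] at this
    exact this
  rw [integral_const_mul, integral_sub (int_of_cont Ψ c1) (int_of_cont Ψ c4), e1, e3,
    integral_const_mul] at h4
  have h5 : σ * (K * (I - ∫ g, (σ⁻¹ * ∫ c, γ g c ∂sig N) ^ 2 ∂Ψ.fr.μ)) ≤ σ * J := by
    linarith
  exact le_of_mul_le_mul_left h5 hσ

theorem contF {F : V × V × V × E (e + 2) → ℝ} (hF : Continuous F) :
    Continuous (Function.uncurry fun (g : Ψ.fr.G) (c : Sph (e + 2)) =>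
      F (Ψ.fr.A g Ψ.fr.a, Ψ.fr.A g Ψ.fr.b, Ψ.fr.A g Ψ.c, (c : E (e + 2)))) := by
  have hA : ∀ v : V, Continuous (fun g : Ψ.fr.G => Ψ.fr.A g v) := fun v =>
    Ψ.fr.cont.comp (Continuous.prodMk continuous_id continuous_const)
  have h1 : Continuous (fun z : Ψ.fr.G × Sph (e + 2) => ((Ψ.fr.A z.1 Ψ.fr.a, Ψ.fr.A z.1 Ψ.fr.b,
      Ψ.fr.A z.1 Ψ.c, (z.2 : E (e + 2))) : V × V × V × E (e + 2))) :=
    ((hA _).comp continuous_fst).prodMk (((hA _).comp continuous_fst).prodMk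
      (((hA _).comp continuous_fst).prodMk (continuous_subtype_val.comp continuous_snd)))
  exact hF.comp h1

variable {Ψ} {M : Type} [NormedAddCommGroup M] [InnerProductSpace ℝ M] [CompleteSpace M]
  (T : Hrm Ψ M)

/-- the function on the sphere, at the frame `g` -/
noncomputable def gam (Θ : M → M → M → ℝ) (g : Ψ.fr.G) (c : Sph (e + 2)) : ℝ :=
  T.at' Θ (Ψ.fr.A g Ψ.fr.a) (Ψ.fr.A g Ψ.fr.b) (Ψ.fr.A g Ψ.c) c

/-- the square of its spherical gradient -/
noncomputable def gaD (Θ : M → M → M → ℝ) (g : Ψ.fr.G) (c : Sph (e + 2)) : ℝ :=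
  dS T Θ (Ψ.fr.A g Ψ.fr.a) (Ψ.fr.A g Ψ.fr.b) (Ψ.fr.A g Ψ.c) c

end meas

end JFib

open JFib in
theorem prfFib (hclaimPoin : claimPoin) (hclESph : clESph) (_hclPair : clPair) (hcTri : cTri)
    (hcAv : cAv) (hcB : cB) (hcRot : cRot) (hcKF : cKF) (hcN : cN) (_hcEb : cEb) : cFib := by
  intro V _ _ _ e Ψ M _ _ _ T Θ hΘ
  obtain ⟨hB1, -, -, -, -, -, -, -, hBin, -⟩ := hcB V e Ψ M T
  obtain ⟨hR1, -, hR3, hR4⟩ := hcRot V e Ψ M T
  obtain ⟨-, -, -, hdd, -⟩ := hcN V e Ψ M T Θ hΘ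
  obtain ⟨t1, -, t3, -, -⟩ := hcTri V e Ψ
  obtain ⟨hav, -, -, -, -⟩ := hcAv V e Ψ
  have hBc : Continuous (fun z : V × V => T.B z.1 z.2) := hB1.continuous
  have hin : Inn T := hBin
  have hσ : 0 < (sig (e + 2)).real univ := JUnif.mass_pos (e + 2) (by omega)
  have hγ : Continuous (Function.uncurry (gam T Θ)) := contF Ψ (at_cont T hΘ hBc hR1)
  have hD : Continuous (Function.uncurry (gaD T Θ)) := contF Ψ (dS_cont T hΘ hBc hR1)
  -- the rotated frames
  have hrot : ∀ c : Sph (e + 2), ∃ b' c', Ψ.Tri Ψ.fr.a b' c' ∧ ∀ g,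
      T.B (Ψ.fr.A g b') (Ψ.fr.A g b') = (1 / 2 : ℝ) • (T.B (Ψ.fr.A g Ψ.fr.b) (Ψ.fr.A g Ψ.fr.b) +
        T.B (Ψ.fr.A g Ψ.c) (Ψ.fr.A g Ψ.c) + T.sg (Ψ.fr.A g Ψ.fr.b) (Ψ.fr.A g Ψ.c) c) ∧
      T.B (Ψ.fr.A g c') (Ψ.fr.A g c') = (1 / 2 : ℝ) • (T.B (Ψ.fr.A g Ψ.fr.b) (Ψ.fr.A g Ψ.fr.b) +
        T.B (Ψ.fr.A g Ψ.c) (Ψ.fr.A g Ψ.c) - T.sg (Ψ.fr.A g Ψ.fr.b) (Ψ.fr.A g Ψ.c) c) := by
    intro c
    obtain ⟨b', c', hT, h1, h2, -⟩ := hR4 _ _ _ t1 c (by simp)
    refine ⟨b', c', hT, fun g => ⟨?_, ?_⟩⟩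
    · have := rotg T hin g 1 Ψ.fr.b Ψ.c b' c (by rw [h1, one_smul])
      rw [this, one_smul]
    · have := rotg T hin g (-1) Ψ.fr.b Ψ.c c' c (by rw [h2, neg_one_smul, sub_eq_add_neg])
      rw [this, neg_one_smul, sub_eq_add_neg]
  -- the averages for a fixed point of the sphere
  have hev : Co3 (T.ev (fun X Y Z => Θ X Y Z ^ 2)) := by
    have h1 : Continuous (fun z : V × V × V => ((T.B z.1 z.1, T.B z.2.1 z.2.1, T.B z.2.2 z.2.2) :
        M × M × M)) :=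
      (hBc.comp (continuous_fst.prodMk continuous_fst)).prodMk
        ((hBc.comp ((continuous_fst.comp continuous_snd).prodMk
          (continuous_fst.comp continuous_snd))).prodMk
        (hBc.comp ((continuous_snd.comp continuous_snd).prodMk
          (continuous_snd.comp continuous_snd))))
    exact ((ContDiff.continuous (𝕜 := ℝ) (f := th Θ) hΘ).comp h1).pow 2
  have hE1 : ∀ c : Sph (e + 2), ∫ g, gam T Θ g c ^ 2 ∂Ψ.fr.μ = T.Ex (fun X Y Z => Θ X Y Z ^ 2) := by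
    intro c
    obtain ⟨b', c', hT, hg⟩ := hrot c
    have h1 := (hav (T.ev (fun X Y Z => Θ X Y Z ^ 2)) hev).2.1 _ _ _ hT
    unfold Hrm.Ex
    rw [← h1]
    refine integral_congr_ae (Eventually.of_forall fun g => ?_)
    show T.at' Θ _ _ _ _ ^ 2 = T.ev _ _ _ _
    unfold Hrm.at' Hrm.ev
    rw [(hg g).1, (hg g).2]
  have hcd : Co3 (fun u v w => ∑ q, T.dd q Θ u v w * T.dd q Θ u v w) := by
    refine continuous_finsetSum _ fun q _ => ?_
    exact (hdd q).mul (hdd q)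
  have hE2 : ∀ c : Sph (e + 2), ∫ g, gaD T Θ g c ∂Ψ.fr.μ = T.Eb Θ Θ / 4 := by
    intro c
    obtain ⟨b', c', hT, hg⟩ := hrot c
    have h1 := (hav _ hcd).2.1 _ _ _ hT
    have h2 : T.Eb Θ Θ / 4 = ∫ g, 1 / 4 * ∑ q, T.dd q Θ (Ψ.fr.A g Ψ.fr.a) (Ψ.fr.A g b')
        (Ψ.fr.A g c') * T.dd q Θ (Ψ.fr.A g Ψ.fr.a) (Ψ.fr.A g b') (Ψ.fr.A g c') ∂Ψ.fr.μ := by
      rw [integral_const_mul, h1]
      unfold Hrm.Eb
      ring
    rw [h2]
    refine integral_congr_ae (Eventually.of_forall fun g => ?_)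
    have t4 := t3 _ _ _ t1 g
    obtain ⟨O, hO⟩ := hcKF V e Ψ M T _ _ _ _ _ t4 (t3 _ _ _ hT g)
    exact dS_rot T hΘ _ _ _ _ _ _ (hR3 _ _ _ t4) (hg g).1 (hg g).2 O hO
  refine ⟨?_, ?_, ?_, ?_⟩
  · -- continuity of the average over the sphere
    have h1 : Continuous (Function.uncurry fun (z : V × V × V) (c : Sph (e + 2)) =>
        T.at' Θ z.1 z.2.1 z.2.2 c) := by
      refine (at_cont T hΘ hBc hR1).comp (g := fun z : V × V × V × E (e + 2) => T.at' Θ z.1 z.2.1 z.2.2.1 z.2.2.2)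
        (f := fun z : (V × V × V) × Sph (e + 2) => (z.1.1, z.1.2.1, z.1.2.2, (z.2 : E (e + 2)))) ?_
      fun_prop
    exact continuous_const.mul (cont_paramS (e + 2) h1)
  · have h1 := avg_ineq Ψ (e + 2) (by omega) (gam T Θ) (gaD T Θ) hγ hD ((e : ℝ) + 1) _ _ (fun g => ?_) hE1 hE2
    · have h2 : Ψ.av (fun u v w => T.CC Θ u v w ^ 2) =
          ∫ g, (((sig (e + 2)).real univ)⁻¹ * ∫ c, gam T Θ g c ∂sig (e + 2)) ^ 2 ∂Ψ.fr.μ := rfl
      rw [h2]
      linarith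
    · have h2 := hclaimPoin (e + 2) (T.at' Θ (Ψ.fr.A g Ψ.fr.a) (Ψ.fr.A g Ψ.fr.b) (Ψ.fr.A g Ψ.c))
        (by omega) (at_contDiff T hΘ _ _ _)
      have h3 : (((e + 2 : ℕ) : ℝ) - 1) = (e : ℝ) + 1 := by push_cast; ring
      rw [h3] at h2
      exact h2
  · intro hsym
    have h1 := avg_ineq Ψ (e + 2) (by omega) (gam T Θ) (gaD T Θ) hγ hD (2 * ((e : ℝ) + 2)) _ _ (fun g => ?_) hE1 hE2
    · have h2 : Ψ.av (fun u v w => T.CC Θ u v w ^ 2) =
          ∫ g, (((sig (e + 2)).real univ)⁻¹ * ∫ c, gam T Θ g c ∂sig (e + 2)) ^ 2 ∂Ψ.fr.μ := rfl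
      rw [h2]
      linarith
    · have h2 := hclESph (e + 2) (T.at' Θ (Ψ.fr.A g Ψ.fr.a) (Ψ.fr.A g Ψ.fr.b) (Ψ.fr.A g Ψ.c))
        (by omega) (at_contDiff T hΘ _ _ _) (fun c _ => by
          unfold Hrm.at'
          rw [← sgL_apply, ← sgL_apply, map_neg, hsym, sub_neg_eq_add, ← sub_eq_add_neg])
      have h3 : 2 * (((e + 2 : ℕ) : ℝ)) = 2 * ((e : ℝ) + 2) := by push_cast; ring
      rw [h3] at h2
      exact h2
  · intro hodd u v w
    have h1 := prfSig (e + 2) (LinearIsometryEquiv.neg ℝ).toLinearIsometry (T.at' Θ u v w)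
      (at_contDiff T hΘ u v w).continuous
    have h2 : ∀ c : Sph (e + 2), T.at' Θ u v w
        ((LinearIsometryEquiv.neg ℝ).toLinearIsometry (c : E (e + 2))) = -T.at' Θ u v w c := by
      intro c
      have h3 : (LinearIsometryEquiv.neg ℝ).toLinearIsometry (c : E (e + 2)) = -(c : E (e + 2)) :=
        rfl
      rw [h3]
      unfold Hrm.at'
      rw [← sgL_apply, ← sgL_apply, map_neg, hodd, sub_neg_eq_add, ← sub_eq_add_neg]
    simp_rw [h2] at h1
    rw [integral_neg] at h1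
    unfold Hrm.CC
    have h4 : ∫ c : Sph (e + 2), T.at' Θ u v w c ∂sig (e + 2) = 0 := by linarith
    rw [h4, mul_zero]

end Pool.Agent.Work.MP_408f4b_gt.A2
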