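import Pool.Agent.Work.MP_408f4b_gt.A2.Stmts

set_option autoImplicit false

namespace Pool.Agent.Work.MP_408f4b_gt.A2

open MeasureTheory Set Filter Topology Pool.Agent.Work.MP_408f4b_gt.Q

namespace JFix

section reg

variable {M : Type} [NormedAddCommGroup M] [InnerProductSpace ℝ M] [CompleteSpace M]

theorem ci_s23 {Θ : M → M → M → ℝ} (h : Ci3 Θ) : Ci3 (s23 Θ) := by
  have h1 : ContDiff ℝ 1 (fun z : M × M × M => (z.1, z.2.2, z.2.1)) := by fun_prop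
  exact ContDiff.comp h h1

theorem ci_s12 {Θ : M → M → M → ℝ} (h : Ci3 Θ) : Ci3 (s12 Θ) := by
  have h1 : ContDiff ℝ 1 (fun z : M × M × M => (z.2.1, z.1, z.2.2)) := by fun_prop
  exact ContDiff.comp h h1

theorem ci_s13 {Θ : M → M → M → ℝ} (h : Ci3 Θ) : Ci3 (s13 Θ) := by
  have h1 : ContDiff ℝ 1 (fun z : M × M × M => (z.2.2, z.2.1, z.1)) := by fun_prop
  exact ContDiff.comp h h1

theorem ci_lin {Θ Ξ : M → M → M → ℝ} (h : Ci3 Θ) (h' : Ci3 Ξ) (c d : ℝ) :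
    Ci3 (fun X Y Z => c * Θ X Y Z + d * Ξ X Y Z) := by
  have h1 : ContDiff ℝ 1 (fun z : M × M × M => Θ z.1 z.2.1 z.2.2) := h
  have h2 : ContDiff ℝ 1 (fun z : M × M × M => Ξ z.1 z.2.1 z.2.2) := h'
  exact (contDiff_const.mul h1).add (contDiff_const.mul h2)

theorem ci_sq {Θ : M → M → M → ℝ} (h : Ci3 Θ) : Ci3 (fun X Y Z => Θ X Y Z ^ 2) := by
  have h1 : ContDiff ℝ 1 (fun z : M × M × M => Θ z.1 z.2.1 z.2.2) := h
  exact h1.pow 2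

end reg

section form

variable {V : Type} [NormedAddCommGroup V] [InnerProductSpace ℝ V] [CompleteSpace V] {e : ℕ}
  {Ψ : Fr3 V e} {M : Type} [NormedAddCommGroup M] [InnerProductSpace ℝ M] [CompleteSpace M]
  {T : Hrm Ψ M}

/-- the form is bilinear -/
theorem lin_l (hcEb : cEb) {Θ Ξ S : M → M → M → ℝ} (h : Ci3 Θ) (h' : Ci3 Ξ) (hS : Ci3 S)
    (c d : ℝ) : T.Eb (fun X Y Z => c * Θ X Y Z + d * Ξ X Y Z) S = c * T.Eb Θ S + d * T.Eb Ξ S :=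
  (hcEb V e Ψ M T).2.1 Θ Ξ S h h' hS c d

theorem sym (hcEb : cEb) {Θ Ξ : M → M → M → ℝ} (h : Ci3 Θ) (h' : Ci3 Ξ) :
    T.Eb Θ Ξ = T.Eb Ξ Θ := ((hcEb V e Ψ M T).1 Θ Ξ h h').1

theorem inv23 (hcEb : cEb) {Θ Ξ : M → M → M → ℝ} (h : Ci3 Θ) (h' : Ci3 Ξ) :
    T.Eb (s23 Θ) (s23 Ξ) = T.Eb Θ Ξ := ((hcEb V e Ψ M T).1 Θ Ξ h h').2.1

theorem nonneg (hcEb : cEb) {Θ : M → M → M → ℝ} (h : Ci3 Θ) : 0 ≤ T.Eb Θ Θ :=
  ((hcEb V e Ψ M T).1 Θ Θ h h).2.2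

theorem quad (hcEb : cEb) {Θ Ξ : M → M → M → ℝ} (h : Ci3 Θ) (h' : Ci3 Ξ) (c d : ℝ) :
    T.Eb (fun X Y Z => c * Θ X Y Z + d * Ξ X Y Z) (fun X Y Z => c * Θ X Y Z + d * Ξ X Y Z) =
      c ^ 2 * T.Eb Θ Θ + 2 * c * d * T.Eb Θ Ξ + d ^ 2 * T.Eb Ξ Ξ := by
  have h1 := ci_lin h h' c d
  rw [lin_l hcEb h h' h1, sym hcEb h h1, sym hcEb h' h1, lin_l hcEb h h' h, lin_l hcEb h h' h',
    sym hcEb h' h]
  ring

/-- the main inequality for one pair -/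
theorem one (hcEb : cEb) (hcFib : cFib) {Φ S : M → M → M → ℝ} (h : Ci3 Φ) (hS : Ci3 S)
    (hsS : s23 S = S) (t : ℝ) :
    4 * ((e : ℝ) + 1) * T.Ex (fun X Y Z => ((Φ X Y Z - Φ X Z Y) / 2) ^ 2) +
      2 * t * T.Eb Φ S - t ^ 2 * T.Eb S S ≤ T.Eb Φ Φ := by
  have hs := ci_s23 h
  set O : M → M → M → ℝ := fun X Y Z => (1 / 2) * Φ X Y Z + (-1 / 2) * s23 Φ X Y Z with hO
  set A : M → M → M → ℝ := fun X Y Z => (1 / 2) * Φ X Y Z + (1 / 2) * s23 Φ X Y Z with hA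
  have hOc : Ci3 O := ci_lin h hs _ _
  have hAc : Ci3 A := ci_lin h hs _ _
  have e1 : T.Eb O O = (1 / 2) ^ 2 * T.Eb Φ Φ + 2 * (1 / 2) * (-1 / 2) * T.Eb Φ (s23 Φ) +
      (-1 / 2) ^ 2 * T.Eb (s23 Φ) (s23 Φ) := quad hcEb h hs _ _
  have e2 : T.Eb A A = (1 / 2) ^ 2 * T.Eb Φ Φ + 2 * (1 / 2) * (1 / 2) * T.Eb Φ (s23 Φ) +
      (1 / 2) ^ 2 * T.Eb (s23 Φ) (s23 Φ) := quad hcEb h hs _ _
  have e3 : T.Eb (s23 Φ) (s23 Φ) = T.Eb Φ Φ := inv23 hcEb h h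
  have e4 : T.Eb (s23 Φ) S = T.Eb Φ S := by
    conv_lhs => rw [← hsS]
    exact inv23 hcEb h hS
  have e5 : T.Eb A S = (1 / 2) * T.Eb Φ S + (1 / 2) * T.Eb (s23 Φ) S := lin_l hcEb h hs hS _ _
  have e6 := nonneg (T := T) hcEb (ci_lin hAc hS 1 (-t))
  rw [quad hcEb hAc hS] at e6
  obtain ⟨-, f1, -, f3⟩ := hcFib V e Ψ M T O hOc
  have f4 : ∀ u v w, T.CC O u v w = 0 := by
    refine f3 fun X Y Z => ?_
    simp only [hO, s23]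
    ring
  have f5 : Ψ.av (fun u v w => T.CC O u v w ^ 2) = 0 := by
    have : (fun u v w => T.CC O u v w ^ 2) = fun (_ _ _ : V) => (0 : ℝ) := by
      funext u v w
      rw [f4]
      ring
    rw [this]
    simp [Fr3.av]
  have f6 : (fun X Y Z => O X Y Z ^ 2) = fun X Y Z => ((Φ X Y Z - Φ X Z Y) / 2) ^ 2 := by
    funext X Y Z
    simp only [hO, s23]
    ring
  rw [f5, f6] at f1
  rw [e5, e4] at e6
  rw [e3] at e1 e2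
  linarith

end form

end JFix

open JFix in
theorem prfFix (hcAv : cAv) (_hcB : cB) (hcN : cN) (hcEb : cEb) (hcFib : cFib) (hcPar : cPar)
    (hcSym : cSym) : cFix := by
  intro V _ _ _ e Ψ M _ _ _ T Θ a b c hΘ ha hc hb
  have hb0 : 0 < b := by rw [hb]; positivity
  set S : M → M → M → ℝ := pS Θ with hSdef
  have h12 := ci_s12 hΘ
  have h13 := ci_s13 hΘ
  have h23 := ci_s23 hΘ
  have h312 := ci_s23 h12
  have h313 := ci_s23 h13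
  have hS1 : S = fun X Y Z => 1 * (fun X Y Z => 1 * (fun X Y Z => (1 / 6) * Θ X Y Z +
      (1 / 6) * s23 Θ X Y Z) X Y Z + 1 * (fun X Y Z => (1 / 6) * s12 Θ X Y Z +
      (1 / 6) * s23 (s12 Θ) X Y Z) X Y Z) X Y Z + 1 * (fun X Y Z => (1 / 6) * s13 Θ X Y Z +
      (1 / 6) * s23 (s13 Θ) X Y Z) X Y Z := by
    funext X Y Z
    simp only [hSdef, pS, s23, s12, s13]
    ring
  have hSc : Ci3 S := by
    rw [hS1]
    exact ci_lin (ci_lin (ci_lin hΘ h23 _ _) (ci_lin h12 h312 _ _) _ _) (ci_lin h13 h313 _ _) _ _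
  have hsS : s23 S = S := by
    funext X Y Z
    simp only [hSdef, pS, s23]
    ring
  have k1 : T.Eb (s23 Θ) S = T.Eb Θ S := by
    conv_lhs => rw [← hsS]
    exact inv23 hcEb hΘ hSc
  have k2 : T.Eb (s23 (s12 Θ)) S = T.Eb (s12 Θ) S := by
    conv_lhs => rw [← hsS]
    exact inv23 hcEb h12 hSc
  have k3 : T.Eb (s23 (s13 Θ)) S = T.Eb (s13 Θ) S := by
    conv_lhs => rw [← hsS]
    exact inv23 hcEb h13 hSc
  have kS : 3 * T.Eb S S = T.Eb Θ S + T.Eb (s12 Θ) S + T.Eb (s13 Θ) S := by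
    have e0 : T.Eb S S = 1 * (1 * ((1 / 6) * T.Eb Θ S + (1 / 6) * T.Eb (s23 Θ) S) +
        1 * ((1 / 6) * T.Eb (s12 Θ) S + (1 / 6) * T.Eb (s23 (s12 Θ)) S)) +
        1 * ((1 / 6) * T.Eb (s13 Θ) S + (1 / 6) * T.Eb (s23 (s13 Θ)) S) := by
      rw [← lin_l hcEb hΘ h23 hSc, ← lin_l hcEb h12 h312 hSc, ← lin_l hcEb h13 h313 hSc,
        ← lin_l hcEb (ci_lin hΘ h23 _ _) (ci_lin h12 h312 _ _) hSc,
        ← lin_l hcEb (ci_lin (ci_lin hΘ h23 _ _) (ci_lin h12 h312 _ _) _ _)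
          (ci_lin h13 h313 _ _) hSc, ← hS1]
    rw [k1, k2, k3] at e0
    linarith
  -- symmetric part
  have hsym := hcSym V e Ψ M T S hSc (fun X Y Z => by simp only [hSdef, pS]; ring)
    (fun X Y Z => by simp only [hSdef, pS]; ring)
  -- invariance of the averages
  have hav : ∀ Ξ : M → M → M → ℝ, Ci3 Ξ → T.Ex (s12 Ξ) = T.Ex Ξ ∧ T.Ex (s13 Ξ) = T.Ex Ξ := by
    intro Ξ hΞ
    have h1 : Co3 (T.ev Ξ) := (hcN V e Ψ M T Ξ hΞ).2.2.1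
    obtain ⟨-, -, -, h2, h3, -⟩ := (hcAv V e Ψ).1 _ h1
    exact ⟨h2, h3⟩
  have hExS : T.Ex S = T.Ex Θ := (hcPar V e Ψ M T Θ hΘ.continuous).2.1
  rw [hExS] at hsym
  set ρ : ℝ := (a ^ 2 + b ^ 2 + c ^ 2) / 3 with hρ
  have hρ0 : 0 < ρ := by positivity
  have m3 := one (T := T) hcEb hcFib hΘ hSc hsS (c ^ 2 / ρ)
  have m2 := one (T := T) hcEb hcFib h12 hSc hsS (b ^ 2 / ρ)
  have m1 := one (T := T) hcEb hcFib h13 hSc hsS (a ^ 2 / ρ)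
  have o2 : T.Ex (fun X Y Z => ((s12 Θ X Y Z - s12 Θ X Z Y) / 2) ^ 2) =
      T.Ex (fun X Y Z => ((Θ X Y Z - Θ Z Y X) / 2) ^ 2) := by
    have h1 : Ci3 (fun X Y Z => ((Θ X Y Z - Θ Z Y X) / 2) ^ 2) := by
      have h2 : (fun X Y Z => ((Θ X Y Z - Θ Z Y X) / 2) ^ 2) =
          fun X Y Z => (fun X Y Z => (1 / 2) * Θ X Y Z + (-1 / 2) * s13 Θ X Y Z) X Y Z ^ 2 := by
        funext X Y Z
        simp only [s13]
        ring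
      rw [h2]
      exact ci_sq (ci_lin hΘ h13 _ _)
    exact (hav _ h1).1
  have o1 : T.Ex (fun X Y Z => ((s13 Θ X Y Z - s13 Θ X Z Y) / 2) ^ 2) =
      T.Ex (fun X Y Z => ((Θ X Y Z - Θ Y X Z) / 2) ^ 2) := by
    have h1 : Ci3 (fun X Y Z => ((Θ X Y Z - Θ Y X Z) / 2) ^ 2) := by
      have h2 : (fun X Y Z => ((Θ X Y Z - Θ Y X Z) / 2) ^ 2) =
          fun X Y Z => (fun X Y Z => (1 / 2) * Θ X Y Z + (-1 / 2) * s12 Θ X Y Z) X Y Z ^ 2 := by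
        funext X Y Z
        simp only [s12]
        ring
      rw [h2]
      exact ci_sq (ci_lin hΘ h12 _ _)
    exact (hav _ h1).2
  rw [o2] at m2
  rw [o1] at m1
  unfold Hrm.Orb
  generalize T.Ex (fun X Y Z => ((Θ X Y Z - Θ X Z Y) / 2) ^ 2) = O3 at *
  generalize T.Ex (fun X Y Z => ((Θ X Y Z - Θ Z Y X) / 2) ^ 2) = O2 at *
  generalize T.Ex (fun X Y Z => ((Θ X Y Z - Θ Y X Z) / 2) ^ 2) = O1 at *
  generalize T.Ex (fun X Y Z => S X Y Z ^ 2) - T.Ex Θ ^ 2 = W at *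
  generalize T.Eb S S = E0 at *
  generalize T.Eb Θ S = F3 at *
  generalize T.Eb (s12 Θ) S = F2 at *
  generalize T.Eb (s13 Θ) S = F1 at *
  generalize T.Eb Θ Θ = G3 at *
  generalize T.Eb (s12 Θ) (s12 Θ) = G2 at *
  generalize T.Eb (s13 Θ) (s13 Θ) = G1 at *
  have q : ∀ (x O F G : ℝ), 0 < x → 4 * ((e : ℝ) + 1) * O + 2 * (x ^ 2 / ρ) * F -
      (x ^ 2 / ρ) ^ 2 * E0 ≤ G →
      2 * ((e : ℝ) + 1) / x ^ 2 * O + F / ρ - x ^ 2 * E0 / (2 * ρ ^ 2) ≤ G / (2 * x ^ 2) := by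
    intro x O F G hx h
    rw [le_div_iff₀ (by positivity)]
    refine le_trans (le_of_eq ?_) h
    field_simp
    ring
  have q1 := q a O1 F1 G1 ha m1
  have q2 := q b O2 F2 G2 hb0 m2
  have q3 := q c O3 F3 G3 hc m3
  have q4 : F1 / ρ + F2 / ρ + F3 / ρ - a ^ 2 * E0 / (2 * ρ ^ 2) - b ^ 2 * E0 / (2 * ρ ^ 2) -
      c ^ 2 * E0 / (2 * ρ ^ 2) = 3 / 2 * E0 / ρ := by
    have h1 : a ^ 2 + b ^ 2 + c ^ 2 = 3 * ρ := by rw [hρ]; ring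
    have h2 : F1 / ρ + F2 / ρ + F3 / ρ = 3 * E0 / ρ := by
      rw [kS]; ring
    have h3 : a ^ 2 * E0 / (2 * ρ ^ 2) + b ^ 2 * E0 / (2 * ρ ^ 2) + c ^ 2 * E0 / (2 * ρ ^ 2) =
        3 / 2 * E0 / ρ := by
      have : a ^ 2 * E0 / (2 * ρ ^ 2) + b ^ 2 * E0 / (2 * ρ ^ 2) + c ^ 2 * E0 / (2 * ρ ^ 2) =
          (a ^ 2 + b ^ 2 + c ^ 2) * E0 / (2 * ρ ^ 2) := by ring
      rw [this, h1]
      field_simp
    have h4 : 3 * E0 / ρ = 2 * (3 / 2 * E0 / ρ) := by ring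
    linarith
  have q5 : (3 * ((e : ℝ) + 1) + 1) / ρ * W ≤ 3 / 2 * E0 / ρ := by
    rw [div_mul_eq_mul_div]
    refine (div_le_div_iff_of_pos_right hρ0).2 ?_
    linarith
  linarith

end Pool.Agent.Work.MP_408f4b_gt.A2
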