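import Pool.Agent.Work.MP_408f4b_gt.A2.Stmts
import Pool.Agent.Work.MP_408f4b_gt.Q.I.Frm

set_option autoImplicit false

/-!
# Item Fr: the frames of `F^3`
-/

namespace Pool.Agent.Work.MP_408f4b_gt.A2

open MeasureTheory Set Filter Topology Pool.Agent.Work.MP_408f4b_gt.Q

namespace JFr

open Pool.Agent.Work.MP_408f4b_gt.Q.JFrm

section

variable {F : Type} [NormedRing F] [InnerProductSpace ℝ F] [StarRing F] [IsDA F] {k : ℕ}

/-- orthogonality over the division algebra -/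
def Or (v w : Vec F k) : Prop := ∀ x : F, inner ℝ v (rmul x w) = 0

theorem bv_or {i j : ℕ} (hij : i ≠ j) : Or (bv F k i) (bv F k j) := by
  intro x
  rw [inner_vec]
  apply Finset.sum_eq_zero
  intro l _
  by_cases h : (l : ℕ) = i
  · simp [bv, rmul, h, hij]
  · simp [bv, rmul, h]

theorem act_one (hA : clAct) (w : Vec F k) : act (1 : Un F k) w = w := by
  obtain ⟨a1, a2, a3, a4, a5, a6, a7, a8, a9, a10, a11, a12⟩ := hA F k
  have h3 := a4 (1 : Un F k) 1 w
  rw [mul_one] at h3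
  let A : Vec F k →ₗᵢ[ℝ] Vec F k :=
    { toFun := fun v => act (1 : Un F k) v
      map_add' := fun v w => a1 _ v w
      map_smul' := fun c v => a2 _ c v
      norm_map' := fun v => a3 _ v }
  have h4 : A (act 1 w) = A w := h3.symm
  exact A.injective h4

theorem act_inner (hA : clAct) (B : Un F k) (v w : Vec F k) :
    inner ℝ (act B v) (act B w) = inner ℝ v w := by
  obtain ⟨a1, a2, a3, a4, a5, a6, a7, a8, a9, a10, a11, a12⟩ := hA F k
  let A : Vec F k →ₗᵢ[ℝ] Vec F k :=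
    { toFun := fun v => act B v
      map_add' := fun v w => a1 _ v w
      map_smul' := fun c v => a2 _ c v
      norm_map' := fun v => a3 _ v }
  exact A.inner_map_map v w

theorem step (hA : clAct) (hT : clTrans) (B : Un F k) (c w : Vec F k) (hc : ‖c‖ = 1)
    (hw : ‖w‖ = 1) : ∃ C : Un F k, act C c = w ∧
      ∀ z, Or z c → Or (act B z) w → act C z = act B z := by
  obtain ⟨a1, a2, a3, a4, a5, a6, a7, a8, a9, a10, a11, a12⟩ := hA F k
  set w1 : Vec F k := act B⁻¹ w with hw1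
  have hB1w : act B w1 = w := by
    rw [hw1, ← a4, mul_inv_cancel, act_one hA]
  have hnw1 : ‖w1‖ = 1 := by rw [← a3 B w1, hB1w, hw]
  obtain ⟨B2, hB2, hB2z⟩ := hT F k c w1 hc hnw1
  refine ⟨B * B2, ?_, ?_⟩
  · rw [a4, hB2, hB1w]
  · intro z hz hz'
    have h1 : Or z w1 := by
      intro x
      rw [← act_inner hA B, a5, hB1w]
      exact hz' x
    rw [a4, hB2z z ((a11 _ _).1 hz) ((a11 _ _).1 h1)]

theorem key3 (hA : clAct) (hT : clTrans) (h3 : 3 ≤ k) (u v w : Vec F k) (hu : ‖u‖ = 1)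
    (hv : ‖v‖ = 1) (hw : ‖w‖ = 1) (huv : Or u v) (huw : Or u w) (hvw : Or v w) :
    ∃ C : Un F k, act C (bv F k 0) = u ∧ act C (bv F k 1) = v ∧ act C (bv F k 2) = w := by
  obtain ⟨C1, h1, -⟩ := step hA hT 1 (bv F k 0) u (norm_bv (by omega)) hu
  obtain ⟨C2, h2, h2z⟩ := step hA hT C1 (bv F k 1) v (norm_bv (by omega)) hv
  obtain ⟨C3, h3', h3z⟩ := step hA hT C2 (bv F k 2) w (norm_bv (by omega)) hw
  have e1 : act C2 (bv F k 0) = u := by
    rw [h2z _ (bv_or (by omega)) (by rw [h1]; exact huv), h1]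
  have e2 : act C3 (bv F k 0) = u := by
    rw [h3z _ (bv_or (by omega)) (by rw [e1]; exact huw), e1]
  have e3 : act C3 (bv F k 1) = v := by
    rw [h3z _ (bv_or (by omega)) (by rw [h2]; exact hvw), h2]
  exact ⟨C3, e2, e3, h3'⟩

theorem key2 (hA : clAct) (hT : clTrans) (h3 : 2 ≤ k) (u v : Vec F k) (hu : ‖u‖ = 1)
    (hv : ‖v‖ = 1) (huv : Or u v) :
    ∃ C : Un F k, act C (bv F k 0) = u ∧ act C (bv F k 1) = v := by
  obtain ⟨C1, h1, -⟩ := step hA hT 1 (bv F k 0) u (norm_bv (by omega)) hu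
  obtain ⟨C2, h2, h2z⟩ := step hA hT C1 (bv F k 1) v (norm_bv (by omega)) hv
  have e1 : act C2 (bv F k 0) = u := by
    rw [h2z _ (bv_or (by omega)) (by rw [h1]; exact huv), h1]
  exact ⟨C2, e1, h2⟩

end

end JFr

open Pool.Agent.Work.MP_408f4b_gt.Q.JFrm JFr in
theorem prfFr (hclIn : clIn) (hclAct : clAct) (hclTrans : clTrans) (hclHaar : clHaar) : cFr := by
  intro F _ _ _ _ _ e u hu0
  obtain ⟨a1, a2, a3, a4, a5, a6, a7, a8, a9, a10, a11, a12⟩ := hclAct F 3
  obtain ⟨hp, hinv⟩ := hclHaar F 3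
  have hun : ∀ q, ‖u q‖ = 1 := fun q => u.orthonormal.1 q
  have huo : ∀ p q, p ≠ q → inner ℝ (u p) (u q) = 0 := fun p q hpq => u.orthonormal.2 hpq
  have hfd : FiniteDimensional ℝ (Vec F 3) := inferInstance
  have hfr : Module.finrank ℝ (Vec F 3) = 3 * (e + 1) := finrank_vec u
  let J : Fin (e + 1) → Vec F 3 →ₗᵢ[ℝ] Vec F 3 := fun q =>
    { toFun := fun v => rmul (u q) v
      map_add' := fun v w => (a8 (u q) v w 0).1
      map_smul' := fun c v => (a8 (u q) v v c).2
      norm_map' := fun v => a7 (u q) (hun q) v }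
  let A : Un F 3 → Vec F 3 →ₗᵢ[ℝ] Vec F 3 := fun g =>
    { toFun := fun v => act g v
      map_add' := fun v w => a1 g v w
      map_smul' := fun c v => a2 g c v
      norm_map' := fun v => a3 g v }
  have hJ : ∀ q v, J q v = rmul (u q) v := fun q v => rfl
  have hAa : ∀ g v, A g v = act g v := fun g v => rfl
  have hna : ‖bv F 3 0‖ = 1 := norm_bv (by omega)
  have hnb : ‖bv F 3 1‖ = 1 := norm_bv (by omega)
  have hnc : ‖bv F 3 2‖ = 1 := norm_bv (by omega)
  have hJon : Orthonormal ℝ (fun q => J q (bv F 3 0)) := by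
    refine ⟨fun q => ?_, fun p q hpq => ?_⟩
    · rw [LinearIsometry.norm_map, hna]
    · exact a10 (u p) (u q) (huo p q hpq) _
  obtain ⟨ι, hι⟩ := ex_iota hfr _ hJon
  obtain ⟨L⟩ := ex_iso hfr
  have hone : ∀ v : Vec F 3, rmul (1 : F) v = v := rmul_one
  have hcj : ∀ j : ℕ, Continuous (fun g : Un F 3 => act g (bv F 3 j)) := fun j =>
    a6.comp (continuous_id.prodMk continuous_const)
  let Φ : Frm (Vec F 3) (3 * (e + 1)) e := {
    J := J
    G := Un F 3
    top := inferInstance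
    cpt := inferInstance
    scd := inferInstance
    ms := inferInstance
    bor := inferInstance
    μ := hm F 3
    prob := hp
    A := A
    a := bv F 3 0
    b := bv F 3 1
    L := L
    ι := ι
    cont := a6
    le := Nat.mul_le_mul_right _ (by norm_num)
    J0 := fun v => by rw [hJ, hu0, hone]
    Jsq := fun q hq v => by
      rw [hJ, hJ]
      apply a9 (u q) _ (hun q) v
      rw [← hu0]
      exact huo q 0 hq
    Jorth := fun v p q hpq => a10 (u p) (u q) (huo p q hpq) v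
    orthC := fun v w h p q => a12 v w (all_of_basis u v w h) (u p) (u q)
    comm := fun g q v => a5 g v (u q)
    ha := hna
    hb := hnb
    hab := fun q => bv_orth (u q)
    hι := hι
    inv := by
      intro v w hv hw hvw f hf
      obtain ⟨B, hBa, hBb⟩ := key2 hclAct hclTrans (by norm_num : 2 ≤ 3) v w hv hw
        (all_of_basis u v w hvw)
      have hc : Continuous (fun g : Un F 3 => f (act g (bv F 3 0)) (act g (bv F 3 1))) :=
        hf.comp ((hcj 0).prodMk (hcj 1))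
      have h3 := hinv B _ hc
      have h4 : ∀ g : Un F 3, f (A g v) (A g w) =
          f (act (g * B) (bv F 3 0)) (act (g * B) (bv F 3 1)) := by
        intro g
        rw [a4, a4, hBa, hBb, hAa, hAa]
      calc ∫ g, f (A g v) (A g w) ∂hm F 3
          = ∫ g, f (act (g * B) (bv F 3 0)) (act (g * B) (bv F 3 1)) ∂hm F 3 := by
            simp only [h4]
        _ = _ := h3 }
  have hac : Φ.Pair Φ.a (bv F 3 2) := ⟨hna, hnc, fun q => bv_or (by omega) (u q)⟩
  have hbc : Φ.Pair Φ.b (bv F 3 2) := ⟨hnb, hnc, fun q => bv_or (by omega) (u q)⟩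
  have hinv3 : ∀ u' v w : Vec F 3, Φ.Pair u' v → Φ.Pair u' w → Φ.Pair v w →
      ∀ f : Vec F 3 → Vec F 3 → Vec F 3 → ℝ,
        Continuous (fun z : Vec F 3 × Vec F 3 × Vec F 3 => f z.1 z.2.1 z.2.2) →
        ∫ g, f (Φ.A g u') (Φ.A g v) (Φ.A g w) ∂Φ.μ =
          ∫ g, f (Φ.A g Φ.a) (Φ.A g Φ.b) (Φ.A g (bv F 3 2)) ∂Φ.μ := by
    intro u' v w huv huw hvw f hf
    obtain ⟨B, hBa, hBb, hBc⟩ := key3 hclAct hclTrans le_rfl u' v w huv.1 huv.2.1 huw.2.1
      (all_of_basis u _ _ huv.2.2) (all_of_basis u _ _ huw.2.2) (all_of_basis u _ _ hvw.2.2)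
    have hc : Continuous (fun g : Un F 3 =>
        f (act g (bv F 3 0)) (act g (bv F 3 1)) (act g (bv F 3 2))) :=
      hf.comp ((hcj 0).prodMk ((hcj 1).prodMk (hcj 2)))
    have h3 := hinv B _ hc
    have h4 : ∀ g : Un F 3, f (A g u') (A g v) (A g w) =
        f (act (g * B) (bv F 3 0)) (act (g * B) (bv F 3 1)) (act (g * B) (bv F 3 2)) := by
      intro g
      rw [a4, a4, a4, hBa, hBb, hBc, hAa, hAa, hAa]
    calc ∫ g, f (A g u') (A g v) (A g w) ∂hm F 3
        = ∫ g, f (act (g * B) (bv F 3 0)) (act (g * B) (bv F 3 1))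
            (act (g * B) (bv F 3 2)) ∂hm F 3 := by
          simp only [h4]
      _ = _ := h3
  exact ⟨⟨Φ, bv F 3 2, hac, hbc, hinv3⟩, fun q v => rfl, fun f hf => rfl⟩

end Pool.Agent.Work.MP_408f4b_gt.A2
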