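import Pool.Agent.Work.MP_408f4b_gt.A2.Stmts
import Pool.Agent.Work.MP_408f4b_gt.Q.I.In

set_option autoImplicit false
set_option linter.unusedSectionVars false

/-!
# Item Hm: the map `B` for the Hermitian matrices
-/

namespace Pool.Agent.Work.MP_408f4b_gt.A2

open MeasureTheory Set Filter Topology Pool.Agent.Work.MP_408f4b_gt.Q

namespace JHm

section basic

variable {F : Type} [NormedRing F] [InnerProductSpace ℝ F] [StarRing F] [IsDA F]

/-- The matrix `a b*`. -/
def tt (a b : Vec F 3) : Mat3 F := WithLp.toLp 2 fun ij : Fin 3 × Fin 3 => a ij.1 * star (b ij.2)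

/-- The Hermitian product `a* b`. -/
def hp (a b : Vec F 3) : F := ∑ i, star (a i) * b i

/-- The unit matrix. -/
def uno (F : Type) [NormedRing F] : Mat3 F :=
  WithLp.toLp 2 fun ij : Fin 3 × Fin 3 => if ij.1 = ij.2 then 1 else 0

lemma tt_apply (a b : Vec F 3) (ij : Fin 3 × Fin 3) : tt a b ij = a ij.1 * star (b ij.2) := rfl

lemma uno_apply (ij : Fin 3 × Fin 3) : uno F ij = if ij.1 = ij.2 then 1 else 0 := rfl

lemma rmul_apply (a : F) (v : Vec F 3) (i : Fin 3) : rmul a v i = v i * a := rfl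

lemma tt_add_l (a a' b : Vec F 3) : tt (a + a') b = tt a b + tt a' b := by
  ext ij
  change (a ij.1 + a' ij.1) * star (b ij.2) = a ij.1 * star (b ij.2) + a' ij.1 * star (b ij.2)
  rw [add_mul]

lemma tt_smul_l (c : ℝ) (a b : Vec F 3) : tt (c • a) b = c • tt a b := by
  ext ij
  change (c • a ij.1) * star (b ij.2) = c • (a ij.1 * star (b ij.2))
  rw [IsDA.smul_mul']

lemma tt_add_r (a b b' : Vec F 3) : tt a (b + b') = tt a b + tt a b' := by
  ext ij
  change a ij.1 * star (b ij.2 + b' ij.2) = a ij.1 * star (b ij.2) + a ij.1 * star (b' ij.2)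
  rw [star_add, mul_add]

lemma tt_smul_r (c : ℝ) (a b : Vec F 3) : tt a (c • b) = c • tt a b := by
  ext ij
  change a ij.1 * star (c • b ij.2) = c • (a ij.1 * star (b ij.2))
  rw [JIn.star_smul', IsDA.mul_smul']

lemma star_hp (a b : Vec F 3) : star (hp a b) = hp b a := by
  simp only [hp, star_sum, star_mul, star_star]

lemma hp_rmul_r (x : F) (a b : Vec F 3) : hp a (rmul x b) = hp a b * x := by
  simp only [hp, rmul_apply, Finset.sum_mul, mul_assoc]

lemma hp_rmul_l (x : F) (a b : Vec F 3) : hp (rmul x a) b = star x * hp a b := by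
  simp only [hp, rmul_apply, Finset.mul_sum, star_mul, mul_assoc]

lemma hp_self (a : Vec F 3) : hp a a = (‖a‖ ^ 2) • (1 : F) := by
  rw [PiLp.norm_sq_eq_of_L2, Finset.sum_smul]
  exact Finset.sum_congr rfl fun i _ => star_mul_self' F (a i)

lemma inner_rmul (x : F) (v w : Vec F 3) : (inner ℝ v (rmul x w) : ℝ) = inner ℝ x (hp w v) := by
  rw [PiLp.inner_apply, hp, inner_sum]
  refine Finset.sum_congr rfl fun i _ => ?_
  rw [rmul_apply, real_inner_comm]
  exact JIn.adj_left F (w i) x (v i)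

lemma rmul_one (v : Vec F 3) : rmul (1 : F) v = v := by
  ext i
  rw [rmul_apply, mul_one]

lemma inner_tt (a b a' b' : Vec F 3) :
    (inner ℝ (tt a b) (tt a' b') : ℝ) = inner ℝ (hp a a') (hp b b') := by
  rw [PiLp.inner_apply, Fintype.sum_prod_type, hp, hp, sum_inner]
  refine Finset.sum_congr rfl fun i _ => ?_
  rw [inner_sum]
  refine Finset.sum_congr rfl fun j _ => ?_
  rw [tt_apply, tt_apply, JIn.adj_left, ← mul_assoc, real_inner_comm, JIn.adj_right, star_star]

lemma tt_star (a b : Vec F 3) (i j : Fin 3) : tt b a (j, i) = star (tt a b (i, j)) := by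
  rw [tt_apply, tt_apply, star_mul, star_star]

lemma mul_star_add (a b : F) : a * star b + b * star a = (2 * inner ℝ a b) • (1 : F) := by
  have h := IsDA.star_add_star (star a) (star b)
  rw [star_star, star_star, JIn.inner_star] at h
  exact h

/-- The symmetric bilinear map. -/
noncomputable def BB (v w : Vec F 3) : Mat3 F := (1 / 2 : ℝ) • (tt v w + tt w v)

lemma BB_self (v : Vec F 3) : BB v v = tt v v := by
  rw [BB, ← two_smul ℝ, smul_smul]
  norm_num

lemma BB_add_l (v v' w : Vec F 3) : BB (v + v') w = BB v w + BB v' w := by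
  rw [BB, BB, BB, tt_add_l, tt_add_r, ← smul_add]
  congr 1
  abel

lemma BB_smul_l (r : ℝ) (v w : Vec F 3) : BB (r • v) w = r • BB v w := by
  rw [BB, BB, tt_smul_l, tt_smul_r, ← smul_add, smul_comm]

lemma BB_symm (v w : Vec F 3) : BB v w = BB w v := by
  rw [BB, BB, add_comm]

lemma tt_rmul_rmul (x y : F) (v : Vec F 3) :
    tt (rmul x v) (rmul y v) + tt (rmul y v) (rmul x v) = (2 * inner ℝ x y) • tt v v := by
  ext ij
  change (v ij.1 * x) * star (v ij.2 * y) + (v ij.1 * y) * star (v ij.2 * x) =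
    (2 * inner ℝ x y) • (v ij.1 * star (v ij.2))
  have h : (v ij.1 * x) * star (v ij.2 * y) + (v ij.1 * y) * star (v ij.2 * x) =
      v ij.1 * ((x * star y + y * star x) * star (v ij.2)) := by
    rw [star_mul, star_mul]
    noncomm_ring
  rw [h, mul_star_add, IsDA.smul_mul', one_mul, IsDA.mul_smul']

lemma BB_rmul (x y : F) (v : Vec F 3) :
    BB (rmul x v) (rmul y v) = (inner ℝ x y : ℝ) • BB v v := by
  rw [BB, tt_rmul_rmul, smul_smul, BB_self]
  congr 1
  ring

lemma tt_rmul_l (x : F) (v w : Vec F 3) : tt (rmul x v) w = tt v (rmul (star x) w) := by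
  ext ij
  change (v ij.1 * x) * star (w ij.2) = v ij.1 * star (w ij.2 * star x)
  rw [star_mul, star_star, mul_assoc]

lemma tt_neg_r (v w : Vec F 3) : tt v (-w) = -tt v w := by
  have h := tt_smul_r (-1) v w
  rwa [neg_one_smul, neg_one_smul] at h

lemma tt_neg_l (v w : Vec F 3) : tt (-v) w = -tt v w := by
  have h := tt_smul_l (-1) v w
  rwa [neg_one_smul, neg_one_smul] at h

lemma rmul_neg (x : F) (v : Vec F 3) : rmul (-x) v = -rmul x v := by
  ext i
  change v i * (-x) = -(v i * x)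
  rw [mul_neg]

lemma BB_rmul_l (x : F) (v w : Vec F 3) : BB (rmul x v) w = BB v (rmul (star x) w) := by
  have h : tt w (rmul x v) = tt (rmul (star x) w) v := by
    rw [tt_rmul_l, star_star]
  rw [BB, BB, tt_rmul_l, h]

lemma BB_neg_r (v w : Vec F 3) : BB v (-w) = -BB v w := by
  rw [BB, BB, tt_neg_l, tt_neg_r, ← smul_neg, neg_add]

lemma exists_onb {W ι : Type} [NormedAddCommGroup W] [InnerProductSpace ℝ W]
    [FiniteDimensional ℝ W] [Fintype ι] [Nonempty ι] (f : ι → W) (hf : Orthonormal ℝ f)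
    (hc : Fintype.card ι = Module.finrank ℝ W) : ∃ b : OrthonormalBasis ι ℝ W, ∀ i, b i = f i := by
  have h : ⇑(basisOfOrthonormalOfCardEqFinrank hf hc) = f :=
    coe_basisOfOrthonormalOfCardEqFinrank hf hc
  refine ⟨(basisOfOrthonormalOfCardEqFinrank hf hc).toOrthonormalBasis (by rw [h]; exact hf), ?_⟩
  intro i
  rw [Module.Basis.coe_toOrthonormalBasis, h]

lemma finrank_Vec3 {e : ℕ} (u : OrthonormalBasis (Fin (e + 1)) ℝ F) :
    Module.finrank ℝ (Vec F 3) = 3 * (e + 1) := by
  have h1 : Module.finrank ℝ F = e + 1 := by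
    rw [Module.finrank_eq_card_basis u.toBasis, Fintype.card_fin]
  rw [(WithLp.linearEquiv 2 ℝ (Fin 3 → F)).finrank_eq, Module.finrank_pi_fintype]
  simp [h1]

lemma finrank_Mat3 {e : ℕ} (u : OrthonormalBasis (Fin (e + 1)) ℝ F) :
    Module.finrank ℝ (Mat3 F) = 9 * (e + 1) := by
  have h1 : Module.finrank ℝ F = e + 1 := by
    rw [Module.finrank_eq_card_basis u.toBasis, Fintype.card_fin]
  rw [(WithLp.linearEquiv 2 ℝ (Fin 3 × Fin 3 → F)).finrank_eq, Module.finrank_pi_fintype]
  simp [h1]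

/-- A unitary triple. -/
def UT (t : Fin 3 → Vec F 3) : Prop := ∀ i j, hp (t i) (t j) = if i = j then 1 else 0

lemma inner_one_star_mul (x y : F) : (inner ℝ (star x * y) 1 : ℝ) = inner ℝ x y := by
  rw [JIn.adj_left, star_star, mul_one, real_inner_comm]

section triple

variable {e : ℕ} (u : OrthonormalBasis (Fin (e + 1)) ℝ F) {t : Fin 3 → Vec F 3} (ht : UT t)

include u ht

lemma on1 : Orthonormal ℝ (fun p : Fin 3 × Fin (e + 1) => rmul (u p.2) (t p.1)) := by
  rw [orthonormal_iff_ite]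
  rintro ⟨i, p⟩ ⟨j, q⟩
  have h := orthonormal_iff_ite.1 u.orthonormal p q
  rw [inner_rmul, hp_rmul_r, ht j i]
  by_cases hij : j = i
  · subst hij
    simp only [if_true, one_mul, Prod.mk.injEq, true_and]
    rw [real_inner_comm, h]
  · have h2 : ¬ (i = j) := fun h => hij h.symm
    simp [hij, h2]

lemma on2 : Orthonormal ℝ (fun p : (Fin 3 × Fin 3) × Fin (e + 1) =>
    tt (rmul (u p.2) (t p.1.1)) (t p.1.2)) := by
  rw [orthonormal_iff_ite]
  rintro ⟨⟨i, j⟩, p⟩ ⟨⟨k, l⟩, q⟩
  have h := orthonormal_iff_ite.1 u.orthonormal p q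
  rw [inner_tt, hp_rmul_r, hp_rmul_l, ht i k, ht j l]
  by_cases hik : i = k
  · subst hik
    by_cases hjl : j = l
    · subst hjl
      simp only [if_true, mul_one, Prod.mk.injEq, true_and]
      rw [inner_one_star_mul, h]
    · simp [hjl]
  · simp [hik]

lemma comp1 (z : Vec F 3) : ∑ i, rmul (hp (t i) z) (t i) = z := by
  obtain ⟨b, hb⟩ := exists_onb _ (on1 u ht) (by
    rw [finrank_Vec3 u, Fintype.card_prod, Fintype.card_fin, Fintype.card_fin])
  have h := b.sum_repr' z
  rw [Fintype.sum_prod_type] at h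
  conv_rhs => rw [← h]
  refine Finset.sum_congr rfl fun i _ => ?_
  have h1 : hp (t i) z = ∑ q, (inner ℝ (u q) (hp (t i) z) : ℝ) • u q := (u.sum_repr' _).symm
  ext k
  rw [rmul_apply, h1, Finset.mul_sum]
  simp only [hb]
  rw [WithLp.ofLp_sum, Finset.sum_apply]
  refine Finset.sum_congr rfl fun q _ => ?_
  rw [PiLp.smul_apply, rmul_apply, IsDA.mul_smul', ← inner_rmul, real_inner_comm]

lemma sum_tt : ∑ i, tt (t i) (t i) = uno F := by
  ext ⟨k, l⟩
  have h := comp1 u ht (bv F 3 l)
  have h1 := congrArg (fun z : Vec F 3 => z k) h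
  simp only at h1
  rw [WithLp.ofLp_sum, Finset.sum_apply] at h1 ⊢
  rw [uno_apply]
  have h2 : ∀ i, hp (t i) (bv F 3 l) = star (t i l) := by
    intro i
    rw [hp, Finset.sum_eq_single l]
    · simp [bv]
    · intro m _ hm
      have : ¬ ((m : ℕ) = (l : ℕ)) := fun h => hm (Fin.ext h)
      simp [bv, this]
    · intro h
      exact absurd (Finset.mem_univ _) h
  have h3 : bv F 3 l k = if k = l then 1 else 0 := by
    simp [bv, Fin.ext_iff]
  rw [← h3, ← h1]
  refine Finset.sum_congr rfl fun i _ => ?_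
  rw [tt_apply, rmul_apply, h2]


lemma inner_uno_tt (v w : Vec F 3) : (inner ℝ (uno F) (tt v w) : ℝ) = inner ℝ w v := by
  rw [PiLp.inner_apply, Fintype.sum_prod_type, PiLp.inner_apply]
  refine Finset.sum_congr rfl fun i _ => ?_
  rw [Finset.sum_eq_single i]
  · rw [uno_apply, tt_apply]
    simp only [if_true]
    rw [real_inner_comm, JIn.adj_right, star_star, one_mul, real_inner_comm]
  · intro j _ hj
    rw [uno_apply]
    simp [Ne.symm hj]
  · intro h
    exact absurd (Finset.mem_univ _) h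

end triple

/-! ### Hermitian matrices -/

lemma mem_iff (X : Mat3 F) [CompleteSpace F] : X ∈ herm0 F ↔
    (∀ i j, X (j, i) = star (X (i, j))) ∧ ∑ i, X (i, i) = 0 := Iff.rfl

lemma inner_herm {X : Mat3 F} (hX : ∀ i j, X (j, i) = star (X (i, j))) (a b : Vec F 3) :
    (inner ℝ (tt a b) X : ℝ) = inner ℝ (tt b a) X := by
  rw [PiLp.inner_apply, PiLp.inner_apply, Fintype.sum_prod_type, Fintype.sum_prod_type_right]
  refine Finset.sum_congr rfl fun i _ => ?_
  refine Finset.sum_congr rfl fun j _ => ?_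
  rw [tt_star a b i j, hX i j, JIn.inner_star]

lemma inner_BB {X : Mat3 F} (hX : ∀ i j, X (j, i) = star (X (i, j))) (a b : Vec F 3) :
    (inner ℝ (tt a b) X : ℝ) = inner ℝ (BB a b) X := by
  rw [BB, real_inner_smul_left, inner_add_left, ← inner_herm hX a b]
  ring

lemma herm_BB (a b : Vec F 3) (i j : Fin 3) : BB a b (j, i) = star (BB a b (i, j)) := by
  change (1 / 2 : ℝ) • (tt a b (j, i) + tt b a (j, i)) =
    star ((1 / 2 : ℝ) • (tt a b (i, j) + tt b a (i, j)))
  rw [JIn.star_smul', star_add, ← tt_star, ← tt_star, add_comm]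

lemma trace_BB (a b : Vec F 3) : ∑ i, BB a b (i, i) = (inner ℝ a b : ℝ) • (1 : F) := by
  rw [PiLp.inner_apply, Finset.sum_smul]
  refine Finset.sum_congr rfl fun i _ => ?_
  change (1 / 2 : ℝ) • (a i * star (b i) + b i * star (a i)) = _
  rw [mul_star_add, smul_smul]
  congr 1
  ring

lemma BB_mem [CompleteSpace F] (a b : Vec F 3) (h : (inner ℝ a b : ℝ) = 0) :
    BB a b ∈ herm0 F := by
  rw [mem_iff]
  refine ⟨herm_BB a b, ?_⟩
  rw [trace_BB, h, zero_smul]

lemma BB_sub_mem [CompleteSpace F] (a : Vec F 3) (h : ‖a‖ = 1) :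
    BB a a - (1 / 3 : ℝ) • uno F ∈ herm0 F := by
  rw [mem_iff]
  constructor
  · intro i j
    change BB a a (j, i) - (1 / 3 : ℝ) • uno F (j, i) =
      star (BB a a (i, j) - (1 / 3 : ℝ) • uno F (i, j))
    rw [star_sub, JIn.star_smul', ← herm_BB, uno_apply, uno_apply]
    by_cases hij : i = j
    · simp [hij]
    · simp [hij, Ne.symm hij]
  · change ∑ i, (BB a a (i, i) - (1 / 3 : ℝ) • uno F (i, i)) = 0
    rw [Finset.sum_sub_distrib, trace_BB, real_inner_self_eq_norm_sq, h]
    simp only [uno_apply, if_true, one_pow, one_smul, Finset.sum_const, Finset.card_univ,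
      Fintype.card_fin]
    rw [← Nat.cast_smul_eq_nsmul ℝ, smul_smul]
    norm_num

lemma inner_uno_herm [CompleteSpace F] {X : Mat3 F} (hX : X ∈ herm0 F) :
    (inner ℝ (uno F) X : ℝ) = 0 := by
  have h : (inner ℝ (uno F) X : ℝ) = inner ℝ (1 : F) (∑ i, X (i, i)) := by
    rw [PiLp.inner_apply, Fintype.sum_prod_type, inner_sum]
    refine Finset.sum_congr rfl fun i _ => ?_
    rw [Finset.sum_eq_single i]
    · rw [uno_apply]
      simp only [if_true]
    · intro j _ hj
      rw [uno_apply]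
      simp [Ne.symm hj]
    · intro h
      exact absurd (Finset.mem_univ _) h
  rw [h, ((mem_iff X).1 hX).2, inner_zero_right]

lemma pr_BB [CompleteSpace F] (a b : Vec F 3) (h : (inner ℝ a b : ℝ) = 0) :
    (herm0 F).starProjection (BB a b) = BB a b :=
  Submodule.starProjection_eq_self_iff.2 (BB_mem a b h)

lemma pr_BB_self [CompleteSpace F] (a : Vec F 3) (h : ‖a‖ = 1) :
    (herm0 F).starProjection (BB a a) = BB a a - (1 / 3 : ℝ) • uno F := by
  refine (Submodule.eq_starProjection_of_mem_orthogonal (BB_sub_mem a h) ?_)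
  rw [sub_sub_cancel, Submodule.mem_orthogonal]
  intro X hX
  rw [real_inner_smul_right, real_inner_comm, inner_uno_herm hX, mul_zero]

section pars

variable [CompleteSpace F] {e : ℕ} (u : OrthonormalBasis (Fin (e + 1)) ℝ F) (hu : u 0 = 1)
  {t : Fin 3 → Vec F 3} (ht : UT t)

include u ht

lemma ut_norm (i : Fin 3) : ‖t i‖ = 1 := by
  have h := ht i i
  rw [hp_self] at h
  simp only [if_true] at h
  have h1 := congrArg norm h
  rw [norm_smul, IsDA.norm_one', mul_one, Real.norm_eq_abs, abs_of_nonneg (sq_nonneg _)] at h1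
  nlinarith [norm_nonneg (t i)]

lemma parseval (Y : Mat3 F) : ‖(herm0 F).starProjection Y‖ ^ 2 =
    ∑ i, ∑ j, ∑ q, (inner ℝ ((herm0 F).starProjection (BB (rmul (u q) (t i)) (t j))) Y) ^ 2 := by
  obtain ⟨b, hb⟩ := exists_onb _ (on2 u ht) (by
    rw [finrank_Mat3 u, Fintype.card_prod, Fintype.card_prod, Fintype.card_fin, Fintype.card_fin])
  have h := b.sum_sq_inner_right ((herm0 F).starProjection Y)
  rw [← h, Fintype.sum_prod_type, Fintype.sum_prod_type]
  refine Finset.sum_congr rfl fun i _ => ?_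
  refine Finset.sum_congr rfl fun j _ => ?_
  refine Finset.sum_congr rfl fun q _ => ?_
  have hmem : (herm0 F).starProjection Y ∈ herm0 F := Submodule.starProjection_apply_mem _ Y
  rw [hb, inner_BB ((mem_iff _).1 hmem).1, Submodule.inner_starProjection_left_eq_right]

include hu

lemma diag (Y : Mat3 F) (i : Fin 3) :
    ∑ q, (inner ℝ ((herm0 F).starProjection (BB (rmul (u q) (t i)) (t i))) Y) ^ 2 =
      ((inner ℝ Y (BB (t i) (t i)) : ℝ) - (inner ℝ Y (uno F) : ℝ) / 3) ^ 2 := by
  rw [Finset.sum_eq_single 0]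
  · rw [hu, rmul_one, pr_BB_self (t i) (ut_norm u ht i), real_inner_comm, inner_sub_right,
      real_inner_smul_right]
    ring
  · intro q _ hq
    have h1 : BB (rmul (u q) (t i)) (t i) = 0 := by
      have h2 := BB_rmul (u q) (u 0) (t i)
      rw [u.orthonormal.2 hq, zero_smul, hu, rmul_one] at h2
      exact h2
    rw [h1, map_zero, inner_zero_left]
    norm_num
  · intro h
    exact absurd (Finset.mem_univ _) h

lemma offd (Y : Mat3 F) (i j : Fin 3) (hij : i ≠ j) :
    (∑ q, (inner ℝ ((herm0 F).starProjection (BB (rmul (u q) (t i)) (t j))) Y : ℝ) ^ 2 =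
      ∑ q, (inner ℝ Y (BB (t i) (rmul (u q) (t j))) : ℝ) ^ 2) ∧
    ∑ q, (inner ℝ ((herm0 F).starProjection (BB (rmul (u q) (t j)) (t i))) Y : ℝ) ^ 2 =
      ∑ q, (inner ℝ Y (BB (t i) (rmul (u q) (t j))) : ℝ) ^ 2 := by
  have hz : ∀ k l, k ≠ l → ∀ q, (inner ℝ (rmul (u q) (t k)) (t l) : ℝ) = 0 := by
    intro k l hkl q
    rw [real_inner_comm, inner_rmul, ht k l, if_neg hkl, inner_zero_right]
  constructor
  · refine Finset.sum_congr rfl fun q _ => ?_
    rw [pr_BB _ _ (hz i j hij q), real_inner_comm, BB_rmul_l]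
    by_cases hq : q = 0
    · rw [hq, hu, star_one]
    · have h1 : star (u q) = -u q := (JIn.imag F (u q) (by rw [← hu]; exact u.orthonormal.2 hq)
        (u.orthonormal.1 q)).2
      rw [h1, rmul_neg, BB_neg_r, inner_neg_right, neg_sq]
  · refine Finset.sum_congr rfl fun q _ => ?_
    rw [pr_BB _ _ (hz j i hij.symm q), real_inner_comm, BB_symm]

end pars

end basic

end JHm

open JHm in
theorem prfHm (_hclIn : clIn) (_hclAct : clAct) (_hclPair : clPair) : cHm := by
  intro F _ _ _ _ _ e u hu Ψ hJ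
  have hpair : ∀ v w, Ψ.fr.Pair v w → hp v v = 1 ∧ hp w w = 1 ∧ hp v w = 0 ∧ hp w v = 0 := by
    intro v w h
    have h1 : hp w v = 0 := by
      apply u.repr.injective
      rw [map_zero]
      ext q
      rw [u.repr_apply_apply, ← inner_rmul, ← hJ]
      exact h.2.2 q
    refine ⟨?_, ?_, ?_, h1⟩
    · rw [hp_self, h.1, one_pow, one_smul]
    · rw [hp_self, h.2.1, one_pow, one_smul]
    · rw [← star_hp, h1, star_zero]
  have hUT : ∀ a b c, Ψ.Tri a b c → UT ![a, b, c] := by
    intro a b c h i j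
    obtain ⟨h1, h2, h3⟩ := h
    obtain ⟨p1, p2, p3, p4⟩ := hpair a b h1
    obtain ⟨q1, q2, q3, q4⟩ := hpair a c h2
    obtain ⟨r1, r2, r3, r4⟩ := hpair b c h3
    fin_cases i <;> fin_cases j <;> simp [p1, p2, p3, p4, q2, q3, q4, r3, r4]
  have hsum : ∀ a b c, Ψ.Tri a b c → BB a a + BB b b + BB c c = uno F := by
    intro a b c h
    have h1 := sum_tt u (hUT a b c h)
    rw [Fin.sum_univ_three] at h1
    rw [BB_self, BB_self, BB_self]
    exact h1
  refine ⟨{
    B := BB
    add_l := BB_add_l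
    smul_l := BB_smul_l
    symm := BB_symm
    jj := ?_
    one := uno F
    sum := hsum
    inn := ?_
    pr := (herm0 F).starProjection
    pars := ?_ }, ?_, fun _ => rfl⟩
  · intro p q v
    rw [hJ, hJ, BB_rmul, orthonormal_iff_ite.1 u.orthonormal p q]
    by_cases hpq : p = q
    · rw [if_pos hpq, if_pos hpq, one_smul]
    · rw [if_neg hpq, if_neg hpq, zero_smul]
  · intro v w
    rw [BB_self, BB_self, inner_tt, real_inner_self_eq_norm_sq, ← star_hp w v, JIn.norm_star',
      ← u.sum_sq_inner_right]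
    refine Finset.sum_congr rfl fun q _ => ?_
    rw [hJ, inner_rmul]
  · intro a b c h Y
    have hU := hUT a b c h
    have hS : (inner ℝ Y (uno F) : ℝ) = inner ℝ Y (BB a a) + inner ℝ Y (BB b b) +
        inner ℝ Y (BB c c) := by
      rw [← hsum a b c h, inner_add_right, inner_add_right]
    rw [parseval u hU Y, Fin.sum_univ_three, Fin.sum_univ_three, Fin.sum_univ_three,
      Fin.sum_univ_three, diag u hu hU Y 0, diag u hu hU Y 1, diag u hu hU Y 2,
      (offd u hu hU Y 0 1 (by decide)).1, (offd u hu hU Y 0 1 (by decide)).2,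
      (offd u hu hU Y 0 2 (by decide)).1, (offd u hu hU Y 0 2 (by decide)).2,
      (offd u hu hU Y 1 2 (by decide)).1, (offd u hu hU Y 1 2 (by decide)).2, hS]
    simp only [hJ, Finset.sum_add_distrib, Matrix.cons_val_zero, Matrix.cons_val_one,
      Matrix.cons_val]
    ring
  · intro v
    change BB v v = prj v
    rw [BB_self]
    rfl

end Pool.Agent.Work.MP_408f4b_gt.A2
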