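import Pool.Agent.Work.MP_408f4b_gt.A2.Stmts

/-! Item Int: integration of the one dimensional inequalities, differentiation under the
average. -/

set_option autoImplicit false

namespace Pool.Agent.Work.MP_408f4b_gt.A2

open MeasureTheory Set Filter Topology Pool.Agent.Work.MP_408f4b_gt.Q

namespace JInt

set_option linter.unusedSectionVars false

/-- Continuous extension of a function on an interval. -/
noncomputable def ext (α β : ℝ) (p : ℝ → ℝ) (s : ℝ) : ℝ := p (max α (min s β))

lemma ext_cont {α β : ℝ} (h : α < β) {p : ℝ → ℝ} (hp : ContinuousOn p (Icc α β)) :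
    Continuous (ext α β p) :=
  hp.comp_continuous (f := fun s => max α (min s β)) (by fun_prop)
    (fun s => ⟨le_max_left _ _, max_le h.le (min_le_right _ _)⟩)

lemma ext_eq {α β : ℝ} (p : ℝ → ℝ) {s : ℝ} (hs : s ∈ Icc α β) : ext α β p s = p s := by
  unfold ext
  rw [min_eq_left hs.2, max_eq_right hs.1]

section gen

variable {X : Type} [TopologicalSpace X] [CompactSpace X] [SecondCountableTopology X]
  [MeasurableSpace X] [OpensMeasurableSpace X] (μ : Measure X) [IsProbabilityMeasure μ]

theorem intg {f : X → ℝ} (hf : Continuous f) : Integrable f μ :=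
  hf.integrable_of_hasCompactSupport (HasCompactSupport.of_compactSpace _)

theorem swap {k : ℝ → X → ℝ} (hk : Continuous (Function.uncurry k)) (α β : ℝ) :
    ∫ s in α..β, (∫ x, k s x ∂μ) = ∫ x, (∫ s in α..β, k s x) ∂μ := by
  apply intervalIntegral_integral_swap
  obtain ⟨C, hC⟩ := (isCompact_uIcc.prod isCompact_univ :
    IsCompact (uIcc α β ×ˢ (univ : Set X))).exists_bound_of_continuousOn hk.continuousOn
  have h2 : IntegrableOn (Function.uncurry k) (uIoc α β ×ˢ (univ : Set X))
      ((volume : Measure ℝ).prod μ) := by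
    refine Measure.integrableOn_of_bounded (M := C) ?_ hk.aestronglyMeasurable ?_
    · rw [Measure.prod_prod, measure_univ, mul_one]
      exact ((measure_mono uIoc_subset_uIcc).trans_lt isCompact_uIcc.measure_lt_top).ne
    · refine (ae_restrict_iff' (measurableSet_uIoc.prod MeasurableSet.univ)).2 ?_
      exact Eventually.of_forall fun z hz => hC z ⟨uIoc_subset_uIcc hz.1, mem_univ _⟩
  rwa [IntegrableOn, ← Measure.prod_restrict, Measure.restrict_univ] at h2

theorem der {k k' : ℝ → X → ℝ} (hk : Continuous (Function.uncurry k))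
    (hk' : Continuous (Function.uncurry k'))
    (hd : ∀ s x, HasDerivAt (fun t => k t x) (k' s x) s) (s : ℝ) :
    HasDerivAt (fun t => ∫ x, k t x ∂μ) (∫ x, k' s x ∂μ) s := by
  obtain ⟨C, hC⟩ := (isCompact_Icc.prod isCompact_univ :
    IsCompact (Icc (s - 1) (s + 1) ×ˢ (univ : Set X))).exists_bound_of_continuousOn
      hk'.continuousOn
  have hc : ∀ t, Continuous (k t) := fun t => hk.comp (continuous_const.prodMk continuous_id)
  have hc' : ∀ t, Continuous (k' t) := fun t => hk'.comp (continuous_const.prodMk continuous_id)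
  refine (hasDerivAt_integral_of_dominated_loc_of_deriv_le (μ := μ) (F := k) (F' := k')
    (s := Icc (s - 1) (s + 1)) (bound := fun _ => C)
    (Icc_mem_nhds (by linarith) (by linarith)) ?_ ?_ ?_ ?_ ?_ ?_).2
  · exact Eventually.of_forall fun t => (hc t).aestronglyMeasurable
  · exact intg μ (hc s)
  · exact (hc' s).aestronglyMeasurable
  · exact Eventually.of_forall fun x t ht => hC (t, x) ⟨ht, mem_univ _⟩
  · exact integrable_const C
  · exact Eventually.of_forall fun x t _ => hd t x

/-- Integration of a pointwise inequality. -/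
theorem key {G : ℝ → X → ℝ} (hG : Continuous (Function.uncurry G)) {L : X → ℝ}
    (hL : Continuous L) (α β : ℝ) (h : ∀ x, L x ≤ ∫ s in α..β, G s x) :
    ∫ x, L x ∂μ ≤ ∫ s in α..β, (∫ x, G s x ∂μ) := by
  rw [swap μ hG]
  have h4 : Continuous (Function.uncurry fun (z : X) (s : ℝ) => G s z) :=
    hG.comp (continuous_snd.prodMk continuous_fst)
  have h3 : Continuous (fun z : X => ∫ s in α..β, G s z) :=
    intervalIntegral.continuous_parametric_intervalIntegral_of_continuous' h4 α β
  exact integral_mono (intg μ hL) (intg μ h3) h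

theorem slice {k : ℝ → X → ℝ} (hk : Continuous (Function.uncurry k)) (s : ℝ) :
    Continuous (k s) := hk.comp (continuous_const.prodMk continuous_id)

theorem slice' {k : ℝ → X → ℝ} (hk : Continuous (Function.uncurry k)) (x : X) :
    Continuous (fun s => k s x) := hk.comp (continuous_id.prodMk continuous_const)

theorem int1 {k k' : ℝ → X → ℝ} (hk : Continuous (Function.uncurry k))
    (hk' : Continuous (Function.uncurry k'))
    (hd : ∀ s x, HasDerivAt (fun t => k t x) (k' s x) s) (α β : ℝ) (wt pot : ℝ → ℝ) (cα cβ : ℝ)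
    (hαβ : α < β) (hw : ContinuousOn wt (Icc α β)) (hp : ContinuousOn pot (Icc α β))
    (hI : Ineq1 α β wt pot cα cβ) :
    (∫ x, k β x ^ 2 ∂μ) * cβ - (∫ x, k α x ^ 2 ∂μ) * cα ≤
      ∫ s in α..β, ((∫ x, k' s x ^ 2 ∂μ) + pot s * ∫ x, k s x ^ 2 ∂μ) * wt s := by
  have hwe := ext_cont hαβ hw
  have hpe := ext_cont hαβ hp
  have huI : uIcc α β = Icc α β := uIcc_of_le hαβ.le
  have hG : Continuous (Function.uncurry fun (s : ℝ) (x : X) =>
      (k' s x ^ 2 + ext α β pot s * k s x ^ 2) * ext α β wt s) := by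
    have e1 : Continuous (fun z : ℝ × X => ext α β pot z.1) := hpe.comp continuous_fst
    have e2 : Continuous (fun z : ℝ × X => ext α β wt z.1) := hwe.comp continuous_fst
    exact ((hk'.pow 2).add (e1.mul (hk.pow 2))).mul e2
  have hL : Continuous (fun x => k β x ^ 2 * cβ - k α x ^ 2 * cα) :=
    (((slice hk β).pow 2).mul continuous_const).sub (((slice hk α).pow 2).mul continuous_const)
  have h0 := key μ hG hL α β (by
    intro x
    have h1 := hI (fun s => k s x) (fun s => k' s x) (fun s _ => hd s x)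
      (slice' hk' x).continuousOn
    have h2 : ∫ s in α..β, (k' s x ^ 2 + ext α β pot s * k s x ^ 2) * ext α β wt s =
        ∫ s in α..β, (k' s x ^ 2 + pot s * k s x ^ 2) * wt s := by
      refine intervalIntegral.integral_congr ?_
      intro s hs
      rw [huI] at hs
      simp only [ext_eq _ hs]
    rw [h2]
    exact h1)
  have h5 : ∫ x, (k β x ^ 2 * cβ - k α x ^ 2 * cα) ∂μ =
      (∫ x, k β x ^ 2 ∂μ) * cβ - (∫ x, k α x ^ 2 ∂μ) * cα := by
    have i1 : Integrable (fun x => k β x ^ 2 * cβ) μ :=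
      intg μ (((slice hk β).pow 2).mul continuous_const)
    have i2 : Integrable (fun x => k α x ^ 2 * cα) μ :=
      intg μ (((slice hk α).pow 2).mul continuous_const)
    rw [integral_sub i1 i2, integral_mul_const, integral_mul_const]
  have h6 : ∫ s in α..β, (∫ x, (k' s x ^ 2 + ext α β pot s * k s x ^ 2) * ext α β wt s ∂μ) =
      ∫ s in α..β, ((∫ x, k' s x ^ 2 ∂μ) + pot s * ∫ x, k s x ^ 2 ∂μ) * wt s := by
    refine intervalIntegral.integral_congr ?_
    intro s hs
    rw [huI] at hs
    simp only [ext_eq _ hs]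
    have i1 : Integrable (fun x => k' s x ^ 2) μ := intg μ ((slice hk' s).pow 2)
    have i2 : Integrable (fun x => pot s * k s x ^ 2) μ :=
      intg μ (continuous_const.mul ((slice hk s).pow 2))
    rw [integral_mul_const, integral_add i1 i2, integral_const_mul]
  rw [h5, h6] at h0
  exact h0

theorem int2 {h h' k k' : ℝ → X → ℝ} (hh : Continuous (Function.uncurry h))
    (hh' : Continuous (Function.uncurry h')) (hk : Continuous (Function.uncurry k))
    (hk' : Continuous (Function.uncurry k'))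
    (hd : ∀ s x, HasDerivAt (fun t => h t x) (h' s x) s)
    (hd2 : ∀ s x, HasDerivAt (fun t => k t x) (k' s x) s) (α β : ℝ) (wt q11 q12 q22 : ℝ → ℝ)
    (cα dα cβ dβ : ℝ) (hαβ : α < β) (hw : ContinuousOn wt (Icc α β))
    (h11 : ContinuousOn q11 (Icc α β)) (h12 : ContinuousOn q12 (Icc α β))
    (h22 : ContinuousOn q22 (Icc α β)) (hI : Ineq2 α β wt q11 q12 q22 cα dα cβ dβ) :
    ((∫ x, h β x ^ 2 ∂μ) * cβ + (∫ x, k β x ^ 2 ∂μ) * dβ) -
      ((∫ x, h α x ^ 2 ∂μ) * cα + (∫ x, k α x ^ 2 ∂μ) * dα) ≤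
      ∫ s in α..β, ((∫ x, h' s x ^ 2 ∂μ) + (∫ x, k' s x ^ 2 ∂μ) +
        ∫ x, (q11 s * h s x ^ 2 + 2 * q12 s * (h s x * k s x) + q22 s * k s x ^ 2) ∂μ) * wt s := by
  have hwe := ext_cont hαβ hw
  have e11 := ext_cont hαβ h11
  have e12 := ext_cont hαβ h12
  have e22 := ext_cont hαβ h22
  have huI : uIcc α β = Icc α β := uIcc_of_le hαβ.le
  have hG : Continuous (Function.uncurry fun (s : ℝ) (x : X) =>
      (h' s x ^ 2 + k' s x ^ 2 + (ext α β q11 s * h s x ^ 2 +
        2 * ext α β q12 s * (h s x * k s x) + ext α β q22 s * k s x ^ 2)) * ext α β wt s) := by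
    have a1 : Continuous (fun z : ℝ × X => ext α β q11 z.1) := e11.comp continuous_fst
    have a2 : Continuous (fun z : ℝ × X => ext α β q12 z.1) := e12.comp continuous_fst
    have a3 : Continuous (fun z : ℝ × X => ext α β q22 z.1) := e22.comp continuous_fst
    have a4 : Continuous (fun z : ℝ × X => ext α β wt z.1) := hwe.comp continuous_fst
    exact (((hh'.pow 2).add (hk'.pow 2)).add (((a1.mul (hh.pow 2)).add
      ((continuous_const.mul a2).mul (hh.mul hk))).add (a3.mul (hk.pow 2)))).mul a4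
  have c1 : Continuous (fun x => h β x ^ 2 * cβ) := ((slice hh β).pow 2).mul continuous_const
  have c2 : Continuous (fun x => k β x ^ 2 * dβ) := ((slice hk β).pow 2).mul continuous_const
  have c3 : Continuous (fun x => h α x ^ 2 * cα) := ((slice hh α).pow 2).mul continuous_const
  have c4 : Continuous (fun x => k α x ^ 2 * dα) := ((slice hk α).pow 2).mul continuous_const
  have c5 : Continuous (fun x => h β x ^ 2 * cβ + k β x ^ 2 * dβ) := c1.add c2
  have c6 : Continuous (fun x => h α x ^ 2 * cα + k α x ^ 2 * dα) := c3.add c4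
  have c7 : Continuous (fun x => h β x ^ 2 * cβ + k β x ^ 2 * dβ -
      (h α x ^ 2 * cα + k α x ^ 2 * dα)) := c5.sub c6
  have h0 := key μ hG c7 α β (by
    intro x
    have h1 := hI (fun s => h s x) (fun s => h' s x) (fun s => k s x) (fun s => k' s x)
      (fun s _ => hd s x) (slice' hh' x).continuousOn (fun s _ => hd2 s x)
      (slice' hk' x).continuousOn
    have h2 : ∫ s in α..β, (h' s x ^ 2 + k' s x ^ 2 + (ext α β q11 s * h s x ^ 2 +
        2 * ext α β q12 s * (h s x * k s x) + ext α β q22 s * k s x ^ 2)) * ext α β wt s =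
        ∫ s in α..β, (h' s x ^ 2 + k' s x ^ 2 + q11 s * h s x ^ 2 +
          2 * q12 s * (h s x * k s x) + q22 s * k s x ^ 2) * wt s := by
      refine intervalIntegral.integral_congr ?_
      intro s hs
      rw [huI] at hs
      simp only [ext_eq _ hs]
      ring
    rw [h2]
    exact h1)
  have h5 : ∫ x, (h β x ^ 2 * cβ + k β x ^ 2 * dβ - (h α x ^ 2 * cα + k α x ^ 2 * dα)) ∂μ =
      ((∫ x, h β x ^ 2 ∂μ) * cβ + (∫ x, k β x ^ 2 ∂μ) * dβ) -
      ((∫ x, h α x ^ 2 ∂μ) * cα + (∫ x, k α x ^ 2 ∂μ) * dα) := by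
    rw [integral_sub (intg μ c5) (intg μ c6),
      integral_add (intg μ c1) (intg μ c2), integral_add (intg μ c3) (intg μ c4),
      integral_mul_const, integral_mul_const, integral_mul_const, integral_mul_const]
  have h6 : ∫ s in α..β, (∫ x, (h' s x ^ 2 + k' s x ^ 2 + (ext α β q11 s * h s x ^ 2 +
        2 * ext α β q12 s * (h s x * k s x) + ext α β q22 s * k s x ^ 2)) * ext α β wt s ∂μ) =
      ∫ s in α..β, ((∫ x, h' s x ^ 2 ∂μ) + (∫ x, k' s x ^ 2 ∂μ) +
        ∫ x, (q11 s * h s x ^ 2 + 2 * q12 s * (h s x * k s x) + q22 s * k s x ^ 2) ∂μ) *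
          wt s := by
    refine intervalIntegral.integral_congr ?_
    intro s hs
    rw [huI] at hs
    simp only [ext_eq _ hs]
    have b1 : Continuous (fun x => h' s x ^ 2) := (slice hh' s).pow 2
    have b2 : Continuous (fun x => k' s x ^ 2) := (slice hk' s).pow 2
    have b3 : Continuous (fun x => q11 s * h s x ^ 2 + 2 * q12 s * (h s x * k s x) +
        q22 s * k s x ^ 2) :=
      ((continuous_const.mul ((slice hh s).pow 2)).add
        (continuous_const.mul ((slice hh s).mul (slice hk s)))).add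
        (continuous_const.mul ((slice hk s).pow 2))
    have b4 : Continuous (fun x => h' s x ^ 2 + k' s x ^ 2) := b1.add b2
    rw [integral_mul_const, integral_add (intg μ b4) (intg μ b3),
      integral_add (intg μ b1) (intg μ b2)]
  rw [h5, h6] at h0
  exact h0

end gen

section frame

variable {V : Type} [NormedAddCommGroup V] [InnerProductSpace ℝ V] [CompleteSpace V] {e : ℕ}
  (Ψ : Fr3 V e)

/-- The integrand as a function on the group. -/
noncomputable def kf (h : ℝ → V → V → V → ℝ) (s : ℝ) (g : Ψ.fr.G) : ℝ :=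
  h s (Ψ.fr.A g Ψ.fr.a) (Ψ.fr.A g Ψ.fr.b) (Ψ.fr.A g Ψ.c)

theorem kf_cont {h : ℝ → V → V → V → ℝ}
    (hh : Continuous (fun z : ℝ × V × V × V => h z.1 z.2.1 z.2.2.1 z.2.2.2)) :
    Continuous (Function.uncurry (kf Ψ h)) := by
  have h1 : ∀ v : V, Continuous (fun p : ℝ × Ψ.fr.G => Ψ.fr.A p.2 v) := fun v =>
    Ψ.fr.cont.comp (continuous_snd.prodMk continuous_const)
  exact hh.comp (continuous_fst.prodMk ((h1 Ψ.fr.a).prodMk ((h1 Ψ.fr.b).prodMk (h1 Ψ.c))))

end frame

end JInt

open JInt in
theorem prfInt (_hcAv : cAv) : cInt := by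
  intro V _ _ _ e Ψ h h' hh hh' hd
  have k1 := kf_cont Ψ hh
  have k2 := kf_cont Ψ hh'
  refine ⟨fun s => ?_, fun α β wt pot cα cβ hαβ hw hp hI => ?_,
    fun k k' hk hk' hdk α β wt q11 q12 q22 cα dα cβ dβ hαβ hw h11 h12 h22 hI => ?_⟩
  · exact der Ψ.fr.μ k1 k2 (fun t g => hd t _ _ _) s
  · exact int1 Ψ.fr.μ k1 k2 (fun t g => hd t _ _ _) α β wt pot cα cβ hαβ hw hp hI
  · exact int2 Ψ.fr.μ k1 k2 (kf_cont Ψ hk) (kf_cont Ψ hk') (fun t g => hd t _ _ _)
      (fun t g => hdk t _ _ _) α β wt q11 q12 q22 cα dα cβ dβ hαβ hw h11 h12 h22 hI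

end Pool.Agent.Work.MP_408f4b_gt.A2
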