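import Pool.Agent.Work.MP_408f4b_gt.A2.Stmts

set_option autoImplicit false

/-!
# The sector of the invariant functions
-/

namespace Pool.Agent.Work.MP_408f4b_gt.A2

open MeasureTheory Set Filter Topology Pool.Agent.Work.MP_408f4b_gt.Q

namespace JInv

lemma cont_Q3 {x y : ℝ → ℝ} (hx : Continuous x) (hy : Continuous y) :
    Continuous (Q3 x y) := by
  have : Q3 x y = fun s => (x s - y s) * (x s ^ 2 + 4 * x s * y s + y s ^ 2) := rfl
  rw [this]
  fun_prop

lemma cont_w3 {m : ℕ} {x y : ℝ → ℝ} (hx : Continuous x) (hy : Continuous y) :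
    Continuous (w3 m x y) := by
  have : w3 m x y = fun s => (((1 + √3) * x s + (1 - √3) * y s) / 2 * (x s + y s) *
      (((1 - √3) * x s + (1 + √3) * y s) / 2)) ^ m := rfl
  rw [this]
  fun_prop

lemma w3_pos {m : ℕ} {x y : ℝ → ℝ} {s : ℝ} (h1 : 0 < d1 (x s) (y s)) (h3 : 0 < d3 (x s) (y s)) :
    0 < w3 m x y s := by
  have h2 : d1 (x s) (y s) + d3 (x s) (y s) = x s + y s := by
    unfold d1 d3
    ring
  have h4 : 0 < x s + y s := by linarith
  exact pow_pos (mul_pos (mul_pos h1 h4) h3) _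

/-- A continuous function without zeros on a preconnected set has a constant sign. -/
lemma sign_const {f : ℝ → ℝ} (hf : Continuous f) {S : Set ℝ} (hS : IsPreconnected S)
    (hne : ∀ s ∈ S, f s ≠ 0) : (∀ s ∈ S, 0 < f s) ∨ ∀ s ∈ S, f s < 0 := by
  by_contra hcon
  push Not at hcon
  obtain ⟨⟨a, ha, hfa⟩, b, hb, hfb⟩ := hcon
  have := hS.intermediate_value ha hb hf.continuousOn
  obtain ⟨c, hc, hfc⟩ := this ⟨hfa, hfb⟩
  exact hne c hc hfc

lemma half (hSu : cSuper) {m : ℕ} {L : ℝ} {x y : ℝ → ℝ} {s₁ : ℝ}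
    (hm : 1 ≤ m) (h : Chd3 m L x y) (h0 : 0 ≤ s₁) (h1 : s₁ < L)
    (hne : ∀ s ∈ Ioc s₁ L, Q3 x y s ≠ 0) :
    ∫ s in s₁..L, (w3 m x y s)⁻¹ ≤ (w3 m x y L)⁻¹ := by
  obtain ⟨hx, hy, hc⟩ := h.curve
  have hcD : Continuous (Q3 x y) := cont_Q3 hx.continuous hy.continuous
  have hcur : Crv3 m s₁ L x y := ⟨hx, hy, fun s hs => hc s ⟨h0.trans hs.1, hs.2⟩⟩
  rcases sign_const hcD isPreconnected_Ioc hne with h2 | h2
  · exact (hSu m s₁ L 1 x y hm h1 (Or.inl rfl) hcur
      (fun s hs => by rw [one_mul]; exact h2 s hs) h.final.2.1 h.final.2.2).2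
  · exact (hSu m s₁ L (-1) x y hm h1 (Or.inr rfl) hcur
      (fun s hs => by have := h2 s hs; linarith) h.final.2.1 h.final.2.2).2

end JInv

open JInv in
theorem prfInv (_hcEqn : cEqn) (hcNear : cNear) (hcCross : cCross) (hcSuper : cSuper) :
    cInv := by
  intro m L x y hm h
  obtain ⟨hc0, hcL, hcu⟩ := hcCross m L x y hm h
  have hL := h.L_pos
  have hwpos : ∀ s ∈ Icc 0 L, 0 < w3 m x y s := fun s hs => by
    have := h.curve.2.2 s hs
    exact w3_pos this.1 this.2.1
  have hcw : Continuous (w3 m x y) := cont_w3 h.curve.1.continuous h.curve.2.1.continuous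
  by_cases hz : ∃ s ∈ Icc 0 L, Q3 x y s = 0
  · obtain ⟨s₁, hs₁, hz⟩ := hz
    have hpos0 : 0 < s₁ := lt_of_le_of_ne hs₁.1 (fun he => hc0 (he ▸ hz))
    have hltL : s₁ < L := lt_of_le_of_ne hs₁.2 (fun he => hcL (he ▸ hz))
    have hcont : ContinuousOn (fun s => (w3 m x y s)⁻¹) (Icc 0 L) :=
      hcw.continuousOn.inv₀ (fun s hs => (hwpos s hs).ne')
    have hright := half hcSuper hm h hpos0.le hltL (fun s hs he => by
      have := hcu s ⟨hpos0.le.trans hs.1.le, hs.2⟩ s₁ hs₁ he hz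
      exact absurd this hs.1.ne')
    have hrev := hcNear.2 m L x y h
    have hleft := half hcSuper hm hrev (s₁ := L - s₁) (by linarith) (by linarith)
      (fun s hs he => by
        have h1 : L - s ∈ Icc 0 L := ⟨by linarith [hs.2], by linarith [hs.1, hs₁.2]⟩
        have h2 : Q3 x y (L - s) = 0 := he
        have := hcu (L - s) h1 s₁ hs₁ h2 hz
        linarith [hs.1])
    have hleft' : ∫ s in (0 : ℝ)..s₁, (w3 m x y s)⁻¹ ≤ (w3 m x y 0)⁻¹ := by
      have e1 : ∫ s in (L - s₁)..L, (w3 m (fun s => x (L - s)) (fun s => y (L - s)) s)⁻¹ =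
          ∫ s in (0 : ℝ)..s₁, (w3 m x y s)⁻¹ := by
        have := intervalIntegral.integral_comp_sub_left (fun s => (w3 m x y s)⁻¹) L
          (a := L - s₁) (b := L)
        simp only [sub_self, sub_sub_cancel] at this
        exact this
      have e2 : w3 m (fun s => x (L - s)) (fun s => y (L - s)) L = w3 m x y 0 := by
        unfold w3
        simp
      rw [e1, e2] at hleft
      exact hleft
    have hi1 : IntervalIntegrable (fun s => (w3 m x y s)⁻¹) volume 0 s₁ := by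
      refine ContinuousOn.intervalIntegrable ?_
      rw [uIcc_of_le hpos0.le]
      exact hcont.mono (Icc_subset_Icc le_rfl hs₁.2)
    have hi2 : IntervalIntegrable (fun s => (w3 m x y s)⁻¹) volume s₁ L := by
      refine ContinuousOn.intervalIntegrable ?_
      rw [uIcc_of_le hltL.le]
      exact hcont.mono (Icc_subset_Icc hs₁.1 le_rfl)
    rw [← intervalIntegral.integral_add_adjacent_intervals hi1 hi2]
    linarith
  · have h1 := half hcSuper hm h le_rfl hL (fun s hs he => hz ⟨s, ⟨hs.1.le, hs.2⟩, he⟩)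
    have h2 : 0 < (w3 m x y 0)⁻¹ := inv_pos.2 (hwpos 0 ⟨le_rfl, hL.le⟩)
    linarith

end Pool.Agent.Work.MP_408f4b_gt.A2
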