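import Pool.Agent.Work.MP_408f4b_gt.A2.Stmts

set_option autoImplicit false

/-!
# Item KF
-/

namespace Pool.Agent.Work.MP_408f4b_gt.A2

open MeasureTheory Set Filter Topology Pool.Agent.Work.MP_408f4b_gt.Q

namespace JKF

/-- Parseval for the basis of all `J q u`, `J q v`, `J q w`. -/
theorem parseval {V : Type} [NormedAddCommGroup V] [InnerProductSpace ℝ V] [CompleteSpace V]
    {e : ℕ} (Ψ : Fr3 V e) {u v w : V} (h : Ψ.Tri u v w) (g : V) :
    ‖g‖ ^ 2 = ∑ q, (inner ℝ g (Ψ.fr.J q u)) ^ 2 + (∑ q, (inner ℝ g (Ψ.fr.J q v)) ^ 2 +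
      ∑ q, (inner ℝ g (Ψ.fr.J q w)) ^ 2) := by
  classical
  obtain ⟨huv, huw, hvw⟩ := h
  have nu : ‖u‖ = 1 := huv.1
  have nv : ‖v‖ = 1 := huv.2.1
  have nw : ‖w‖ = 1 := huw.2.1
  have cuv := Ψ.fr.orthC u v huv.2.2
  have cuw := Ψ.fr.orthC u w huw.2.2
  have cvw := Ψ.fr.orthC v w hvw.2.2
  set f : Fin (e + 1) ⊕ (Fin (e + 1) ⊕ Fin (e + 1)) → V :=
    Sum.elim (fun q => Ψ.fr.J q u) (Sum.elim (fun q => Ψ.fr.J q v) (fun q => Ψ.fr.J q w)) with hf
  have hon : Orthonormal ℝ f := by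
    constructor
    · rintro (q | q | q)
      · simp [hf, nu]
      · simp [hf, nv]
      · simp [hf, nw]
    · rintro (p | p | p) (q | q | q) hpq
      · exact Ψ.fr.Jorth u p q (fun h => hpq (by rw [h]))
      · exact cuv p q
      · exact cuw p q
      · show (inner ℝ (Ψ.fr.J p v) (Ψ.fr.J q u) : ℝ) = 0
        rw [real_inner_comm]; exact cuv q p
      · exact Ψ.fr.Jorth v p q (fun h => hpq (by rw [h]))
      · exact cvw p q
      · show (inner ℝ (Ψ.fr.J p w) (Ψ.fr.J q u) : ℝ) = 0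
        rw [real_inner_comm]; exact cuw q p
      · show (inner ℝ (Ψ.fr.J p w) (Ψ.fr.J q v) : ℝ) = 0
        rw [real_inner_comm]; exact cvw q p
      · exact Ψ.fr.Jorth w p q (fun h => hpq (by rw [h]))
  have hfin : FiniteDimensional ℝ V := Ψ.fr.L.toLinearEquiv.finiteDimensional
  have hcard : Module.finrank ℝ V =
      Fintype.card (Fin (e + 1) ⊕ (Fin (e + 1) ⊕ Fin (e + 1))) := by
    rw [← Ψ.fr.L.toLinearEquiv.finrank_eq]
    simp
    ring
  have hon' : Orthonormal ℝ ((Set.univ : Set (Fin (e + 1) ⊕ (Fin (e + 1) ⊕ Fin (e + 1)))).domRestrict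
      f) := by
    have := hon.comp (fun x : (Set.univ : Set (Fin (e + 1) ⊕ (Fin (e + 1) ⊕ Fin (e + 1)))) => x.1)
      Subtype.val_injective
    exact this
  obtain ⟨b, hb⟩ := hon'.exists_orthonormalBasis_extension_of_card_eq hcard
  have hsum := b.sum_sq_inner_left g
  rw [← hsum]
  rw [Fintype.sum_sum_type, Fintype.sum_sum_type]
  have e1 : ∀ i, b i = f i := fun i => hb i (Set.mem_univ i)
  simp only [e1]
  rfl

/-- The quadratic form of a frame. -/
theorem sumB {V : Type} [NormedAddCommGroup V] [InnerProductSpace ℝ V] [CompleteSpace V]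
    {e : ℕ} (Ψ : Fr3 V e) {M : Type} [NormedAddCommGroup M] [InnerProductSpace ℝ M]
    [CompleteSpace M] (T : Hrm Ψ M) (hB : cB) {u v w v' w' : V} (h : Ψ.Tri u v w)
    (h' : Ψ.Tri u v' w') (Y : M) :
    ∑ q, (inner ℝ Y (T.B u (Ψ.fr.J q v))) ^ 2 + ∑ q, (inner ℝ Y (T.B u (Ψ.fr.J q w))) ^ 2 =
    ∑ q, (inner ℝ Y (T.B u (Ψ.fr.J q v'))) ^ 2 + ∑ q, (inner ℝ Y (T.B u (Ψ.fr.J q w'))) ^ 2 := by
  obtain ⟨-, hadd, hsmul, -⟩ := hB V e Ψ M T
  have hfin : FiniteDimensional ℝ V := Ψ.fr.L.toLinearEquiv.finiteDimensional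
  let ℓ : V →ₗ[ℝ] ℝ :=
    { toFun := fun z => inner ℝ Y (T.B u z)
      map_add' := fun x y => by rw [hadd, inner_add_right]
      map_smul' := fun r x => by rw [hsmul, inner_smul_right]; rfl }
  let ℓ' : V →L[ℝ] ℝ := LinearMap.toContinuousLinearMap ℓ
  set g : V := (InnerProductSpace.toDual ℝ V).symm ℓ' with hg
  have hgz : ∀ z, (inner ℝ g z : ℝ) = inner ℝ Y (T.B u z) := fun z => by
    rw [hg, InnerProductSpace.toDual_symm_apply]
    rfl
  have p1 := parseval Ψ h g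
  have p2 := parseval Ψ h' g
  simp only [hgz] at p1 p2
  linarith

/-- The two quadratic forms agree. -/
theorem kappa {V : Type} [NormedAddCommGroup V] [InnerProductSpace ℝ V] [CompleteSpace V]
    {e : ℕ} (Ψ : Fr3 V e) {M : Type} [NormedAddCommGroup M] [InnerProductSpace ℝ M]
    [CompleteSpace M] (T : Hrm Ψ M) (hB : cB) {u v w v' w' : V} (h : Ψ.Tri u v w)
    (h' : Ψ.Tri u v' w') (Y : M) :
    (inner ℝ Y (T.B v v - T.B w w)) ^ 2 / 2 + 2 * ∑ q, (inner ℝ Y (T.B v (Ψ.fr.J q w))) ^ 2 =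
    (inner ℝ Y (T.B v' v' - T.B w' w')) ^ 2 / 2 +
      2 * ∑ q, (inner ℝ Y (T.B v' (Ψ.fr.J q w'))) ^ 2 := by
  have q1 := T.pars u v w h Y
  have q2 := T.pars u v' w' h' Y
  have q3 := sumB Ψ T hB h h' Y
  have s1 := T.sum u v w h
  have s2 := T.sum u v' w' h'
  have s3 : (inner ℝ Y (T.B u u) : ℝ) + inner ℝ Y (T.B v v) + inner ℝ Y (T.B w w) =
      inner ℝ Y (T.B u u) + inner ℝ Y (T.B v' v') + inner ℝ Y (T.B w' w') := by
    rw [← inner_add_right, ← inner_add_right, s1, ← inner_add_right, ← inner_add_right, s2]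
  rw [Finset.sum_add_distrib, Finset.sum_add_distrib] at q1 q2
  rw [inner_sub_right, inner_sub_right]
  set a := (inner ℝ Y (T.B u u) : ℝ)
  set b := (inner ℝ Y (T.B v v) : ℝ)
  set c := (inner ℝ Y (T.B w w) : ℝ)
  set b' := (inner ℝ Y (T.B v' v') : ℝ)
  set c' := (inner ℝ Y (T.B w' w') : ℝ)
  have s4 : b + c = b' + c' := by linarith
  have s5 : (b + c) ^ 2 = (b' + c') ^ 2 := by rw [s4]
  have s6 : (a + b + c) ^ 2 = (a + b' + c') ^ 2 := by rw [s3]
  nlinarith [q1, q2, q3, s5, s6]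

theorem prf {V : Type} [NormedAddCommGroup V] [InnerProductSpace ℝ V] [CompleteSpace V]
    {e : ℕ} (Ψ : Fr3 V e) {M : Type} [NormedAddCommGroup M] [InnerProductSpace ℝ M]
    [CompleteSpace M] (T : Hrm Ψ M) (hB : cB) (hR : cRot) {u v w v' w' : V} (h : Ψ.Tri u v w)
    (h' : Ψ.Tri u v' w') : ∃ O : E (e + 2) →ₗᵢ[ℝ] E (e + 2), ∀ c, T.sg v' w' c = T.sg v w (O c) := by
  obtain ⟨-, hlin, hnorm, -⟩ := hR V e Ψ M T
  have h0 : ∀ x y : V, T.sg x y 0 = 0 := by
    intro x y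
    simp [Hrm.sg]
  have hadd : ∀ (x y : V) (c c' : E (e + 2)), T.sg x y (c + c') = T.sg x y c + T.sg x y c' := by
    intro x y c c'
    have := hlin x y c c' 1
    rwa [one_smul, one_smul] at this
  have hsm : ∀ (x y : V) (r : ℝ) (c : E (e + 2)), T.sg x y (r • c) = r • T.sg x y c := by
    intro x y r c
    have := hlin x y 0 c r
    rwa [zero_add, h0, zero_add] at this
  have hsub : ∀ (x y : V) (c c' : E (e + 2)), T.sg x y (c - c') = T.sg x y c - T.sg x y c' := by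
    intro x y c c'
    have := hlin x y c c' (-1)
    rw [neg_smul, neg_smul, one_smul, one_smul] at this
    rw [sub_eq_add_neg, this, sub_eq_add_neg]
  -- inner products
  have hinn : ∀ c c' : E (e + 2), (inner ℝ (T.sg v' w' c) (T.sg v' w' c') : ℝ) =
      2 * inner ℝ c c' := by
    intro c c'
    have n1 := hnorm u v' w' h' (c + c')
    have n2 := hnorm u v' w' h' c
    have n3 := hnorm u v' w' h' c'
    rw [hadd, norm_add_sq_real, n2, n3, norm_add_sq_real] at n1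
    linarith
  -- the evaluation of sg
  have hev : ∀ (x y : V) (Y : M) (c : E (e + 2)), (inner ℝ Y (T.sg x y c) : ℝ) =
      c 0 * inner ℝ Y (T.B x x - T.B y y) +
        2 * ∑ q : Fin (e + 1), c q.succ * inner ℝ Y (T.B x (Ψ.fr.J q y)) := by
    intro x y Y c
    unfold Hrm.sg
    rw [inner_add_right, inner_smul_right, inner_smul_right, inner_sum]
    simp only [inner_smul_right]
  have hns : ∀ c : E (e + 2), ‖c‖ ^ 2 = c 0 ^ 2 + ∑ q : Fin (e + 1), c q.succ ^ 2 := by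
    intro c
    rw [EuclideanSpace.norm_sq_eq, Fin.sum_univ_succ]
    simp
  have hsurj : ∀ c, ∃ d, T.sg v w d = T.sg v' w' c := by
    intro c
    set Y := T.sg v' w' c with hY
    have hk := kappa Ψ T hB h h' Y
    -- the primed form
    have e0 : (inner ℝ Y (T.B v' v' - T.B w' w') : ℝ) = 2 * c 0 := by
      have a1 := hinn c (EuclideanSpace.single 0 1)
      rw [← hY, hev] at a1
      have a2 : ∀ q : Fin (e + 1), (EuclideanSpace.single (0 : Fin (e + 2)) (1 : ℝ)) q.succ = 0 := by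
        intro q
        simp
      simp only [a2, zero_mul, Finset.sum_const_zero, mul_zero, add_zero] at a1
      simp only [EuclideanSpace.inner_single_right, PiLp.single_apply, if_true, one_mul] at a1
      simpa using a1
    have e1 : ∀ q : Fin (e + 1), (inner ℝ Y (T.B v' (Ψ.fr.J q w')) : ℝ) = c q.succ := by
      intro q
      have a1 := hinn c (EuclideanSpace.single q.succ 1)
      rw [← hY, hev] at a1
      have a2 : ∀ p : Fin (e + 1), (EuclideanSpace.single q.succ (1 : ℝ)) p.succ =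
          if p = q then 1 else 0 := by
        intro p
        simp [Fin.succ_inj]
      simp only [a2, EuclideanSpace.inner_single_right] at a1
      simpa using a1
    have hkY : (inner ℝ Y (T.B v v - T.B w w)) ^ 2 / 2 +
        2 * ∑ q, (inner ℝ Y (T.B v (Ψ.fr.J q w))) ^ 2 = ‖Y‖ ^ 2 := by
      rw [hk, e0]
      simp only [e1]
      rw [hY, hnorm u v' w' h' c, hns]
      ring
    set d : E (e + 2) := WithLp.toLp 2 (Fin.cons ((inner ℝ Y (T.B v v - T.B w w) : ℝ) / 2)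
      (fun q : Fin (e + 1) => (inner ℝ Y (T.B v (Ψ.fr.J q w)) : ℝ))) with hd
    have d0 : d 0 = (inner ℝ Y (T.B v v - T.B w w) : ℝ) / 2 := rfl
    have d1 : ∀ q : Fin (e + 1), d q.succ = (inner ℝ Y (T.B v (Ψ.fr.J q w)) : ℝ) := fun q => rfl
    refine ⟨d, ?_⟩
    have i1 : (inner ℝ Y (T.sg v w d) : ℝ) = 2 * ‖d‖ ^ 2 := by
      rw [hev, hns]
      simp only [d0, d1, ← sq]
      ring
    have i2 := hnorm u v w h d
    have i3 : ‖Y‖ ^ 2 = 2 * ‖d‖ ^ 2 := by
      rw [← hkY, hns]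
      simp only [d0, d1]
      ring
    have i4 : ‖T.sg v w d - Y‖ ^ 2 = 0 := by
      rw [norm_sub_sq_real, i2, real_inner_comm, i1, i3]
      ring
    have i5 : ‖T.sg v w d - Y‖ = 0 := by
      exact pow_eq_zero_iff (two_ne_zero) |>.1 i4
    exact sub_eq_zero.1 (norm_eq_zero.1 i5)
  choose O hO using hsurj
  have hinj : ∀ c c' : E (e + 2), T.sg v w c = T.sg v w c' → c = c' := by
    intro c c' hc
    have n1 := hnorm u v w h (c - c')
    rw [hsub, hc, sub_self, norm_zero] at n1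
    have n2 : ‖c - c'‖ ^ 2 = 0 := by nlinarith
    have n3 : ‖c - c'‖ = 0 := pow_eq_zero_iff (two_ne_zero) |>.1 n2
    exact sub_eq_zero.1 (norm_eq_zero.1 n3)
  refine ⟨⟨⟨⟨O, ?_⟩, ?_⟩, ?_⟩, fun c => (hO c).symm⟩
  · intro x y
    apply hinj
    rw [hO, hadd, hadd, hO, hO]
  · intro r x
    apply hinj
    simp only [RingHom.id_apply]
    rw [hsm, hO]
    erw [hO]
    rw [hsm]
  · intro c
    have n1 := hnorm u v w h (O c)
    rw [hO, hnorm u v' w' h' c] at n1
    have n2 : ‖O c‖ ^ 2 = ‖c‖ ^ 2 := by linarith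
    show ‖O c‖ = ‖c‖
    exact (sq_eq_sq₀ (norm_nonneg _) (norm_nonneg _)).1 n2

end JKF

theorem prfKF (_hclPair : clPair) (_hcTri : cTri) (hcB : cB) (hcRot : cRot) : cKF := by
  intro V _ _ _ e Ψ M _ _ _ T u v w v' w' h h'
  exact JKF.prf Ψ T hcB hcRot h h'

end Pool.Agent.Work.MP_408f4b_gt.A2
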