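import Pool.Agent.Work.MP_408f4b_gt.A2.Stmts

set_option autoImplicit false

/-!
# Some linear function realises equality
-/

namespace Pool.Agent.Work.MP_408f4b_gt.A2

open MeasureTheory Set Filter Topology Pool.Agent.Work.MP_408f4b_gt.Q

namespace JLin

section alg

variable {V : Type} [NormedAddCommGroup V] [InnerProductSpace ℝ V] [CompleteSpace V] {e : ℕ}
  {Ψ : Fr3 V e} {M : Type} [NormedAddCommGroup M] [InnerProductSpace ℝ M] [CompleteSpace M]
  (T : Hrm Ψ M)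

theorem facts1 (hcTri : cTri) (hcB : cB) (u v w : V) (h : Ψ.Tri u v w) :
    (inner ℝ (T.B u u) (T.B u u) : ℝ) = 1 ∧ (inner ℝ (T.B v v) (T.B v v) : ℝ) = 1 ∧
    (inner ℝ (T.B w w) (T.B w w) : ℝ) = 1 ∧ (inner ℝ (T.B u u) (T.B v v) : ℝ) = 0 ∧
    (inner ℝ (T.B u u) (T.B w w) : ℝ) = 0 ∧ (inner ℝ (T.B v v) (T.B w w) : ℝ) = 0 := by
  obtain ⟨-, h1, -⟩ := hcTri V e Ψ
  obtain ⟨h2, h3, h4, h5, h6⟩ := h1 u v w h
  obtain ⟨-, -, -, -, -, -, -, -, -, h7⟩ := hcB V e Ψ M T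
  refine ⟨?_, ?_, ?_, (h7 u v w h).2.1, (h7 u w v h2).2.1, (h7 v w u h5).2.1⟩
  · rw [real_inner_self_eq_norm_sq, (h7 u v w h).1]; norm_num
  · rw [real_inner_self_eq_norm_sq, (h7 v u w h3).1]; norm_num
  · rw [real_inner_self_eq_norm_sq, (h7 w v u h4).1]; norm_num

theorem facts2 (hcTri : cTri) (hcB : cB) (u v w : V) (h : Ψ.Tri u v w) (q : Fin (e + 1)) :
    ((inner ℝ (T.B u u) (T.B u (Ψ.fr.J q v)) : ℝ) = 0 ∧
      (inner ℝ (T.B v v) (T.B u (Ψ.fr.J q v)) : ℝ) = 0 ∧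
      (inner ℝ (T.B w w) (T.B u (Ψ.fr.J q v)) : ℝ) = 0) ∧
    ((inner ℝ (T.B u u) (T.B u (Ψ.fr.J q w)) : ℝ) = 0 ∧
      (inner ℝ (T.B v v) (T.B u (Ψ.fr.J q w)) : ℝ) = 0 ∧
      (inner ℝ (T.B w w) (T.B u (Ψ.fr.J q w)) : ℝ) = 0) ∧
    ((inner ℝ (T.B u u) (T.B v (Ψ.fr.J q w)) : ℝ) = 0 ∧
      (inner ℝ (T.B v v) (T.B v (Ψ.fr.J q w)) : ℝ) = 0 ∧
      (inner ℝ (T.B w w) (T.B v (Ψ.fr.J q w)) : ℝ) = 0) := by
  obtain ⟨-, h1, -⟩ := hcTri V e Ψ
  obtain ⟨h2, h3, h4, h5, h6⟩ := h1 u v w h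
  obtain ⟨-, -, -, -, -, -, -, -, -, h7⟩ := hcB V e Ψ M T
  obtain ⟨-, -, a1, a2, a3, -⟩ := h7 w u v h6
  obtain ⟨-, -, b1, b2, b3, -⟩ := h7 v u w h3
  obtain ⟨-, -, c1, c2, c3, -⟩ := h7 u v w h
  exact ⟨⟨a2 q, a3 q, a1 q⟩, ⟨b2 q, b1 q, b3 q⟩, ⟨c1 q, c2 q, c3 q⟩⟩

theorem facts3 (hcTri : cTri) (hcB : cB) (u v w : V) (h : Ψ.Tri u v w) (p q : Fin (e + 1)) :
    (inner ℝ (T.B u (Ψ.fr.J p v)) (T.B u (Ψ.fr.J q v)) : ℝ) = (if p = q then 1 / 2 else 0) ∧
    (inner ℝ (T.B u (Ψ.fr.J p w)) (T.B u (Ψ.fr.J q w)) : ℝ) = (if p = q then 1 / 2 else 0) ∧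
    (inner ℝ (T.B v (Ψ.fr.J p w)) (T.B v (Ψ.fr.J q w)) : ℝ) = (if p = q then 1 / 2 else 0) := by
  obtain ⟨-, h1, -⟩ := hcTri V e Ψ
  obtain ⟨h2, h3, h4, h5, h6⟩ := h1 u v w h
  obtain ⟨-, -, -, -, -, -, -, -, -, h7⟩ := hcB V e Ψ M T
  exact ⟨(h7 w u v h6).2.2.2.2.2 p q, (h7 v u w h3).2.2.2.2.2 p q, (h7 u v w h).2.2.2.2.2 p q⟩

theorem facts4 (hcTri : cTri) (hcB : cB) (u v w : V) (h : Ψ.Tri u v w) (p q : Fin (e + 1)) :
    (inner ℝ (T.B u (Ψ.fr.J p v)) (T.B u (Ψ.fr.J q w)) : ℝ) = 0 ∧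
    (inner ℝ (T.B u (Ψ.fr.J p v)) (T.B v (Ψ.fr.J q w)) : ℝ) = 0 ∧
    (inner ℝ (T.B u (Ψ.fr.J p w)) (T.B v (Ψ.fr.J q w)) : ℝ) = 0 := by
  obtain ⟨-, h1, -⟩ := hcTri V e Ψ
  obtain ⟨h2, h3, h4, h5, h6⟩ := h1 u v w h
  obtain ⟨-, -, -, -, k1, -, -, -, k2, -⟩ := hcB V e Ψ M T
  have huw : ∀ r, (inner ℝ u (Ψ.fr.J r w) : ℝ) = 0 := h.2.1.2.2
  have huv : ∀ r, (inner ℝ u (Ψ.fr.J r v) : ℝ) = 0 := h.1.2.2
  have hvw : ∀ p r, (inner ℝ (Ψ.fr.J p v) (Ψ.fr.J r w) : ℝ) = 0 := Ψ.fr.orthC v w h.2.2.2.2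
  have hwv : ∀ p r, (inner ℝ (Ψ.fr.J p w) (Ψ.fr.J r v) : ℝ) = 0 := Ψ.fr.orthC w v h4.1.2.2
  refine ⟨?_, ?_, ?_⟩
  · rw [k1 q u w, k2, Finset.sum_eq_zero, zero_div]
    intro r _
    rw [hvw p r, huw r]
    ring
  · rw [k1 q v w, k2, Finset.sum_eq_zero, zero_div]
    intro r _
    rw [hvw p r, huw r]
    ring
  · rw [k2, Finset.sum_eq_zero, zero_div]
    intro r _
    rw [huv r, hwv p r]
    ring

/-- The square of the norm of the projection of a point. -/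
theorem prX (hcTri : cTri) (hcB : cB) (u v w : V) (h : Ψ.Tri u v w) (x y z : ℝ)
    (hs : x + y + z = 0) : ‖T.pr (T.X x y z u v w)‖ ^ 2 = x ^ 2 + y ^ 2 + z ^ 2 := by
  obtain ⟨a1, a2, a3, a4, a5, a6⟩ := facts1 T hcTri hcB u v w h
  have a4' : (inner ℝ (T.B v v) (T.B u u) : ℝ) = 0 := by rw [real_inner_comm]; exact a4
  have a5' : (inner ℝ (T.B w w) (T.B u u) : ℝ) = 0 := by rw [real_inner_comm]; exact a5
  have a6' : (inner ℝ (T.B w w) (T.B v v) : ℝ) = 0 := by rw [real_inner_comm]; exact a6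
  have hX : ∀ Y : M, (inner ℝ (T.X x y z u v w) Y : ℝ) =
      x * inner ℝ (T.B u u) Y + y * inner ℝ (T.B v v) Y + z * inner ℝ (T.B w w) Y := by
    intro Y
    unfold Hrm.X
    rw [inner_add_left, inner_add_left, real_inner_smul_left, real_inner_smul_left,
      real_inner_smul_left]
  rw [T.pars u v w h, hX, hX, hX, a1, a2, a3, a4, a5, a6, a4', a5', a6', Finset.sum_eq_zero]
  · have h1 : x * 1 + y * 0 + z * 0 + (x * 0 + y * 1 + z * 0) + (x * 0 + y * 0 + z * 1) = 0 := by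
      linarith
    rw [h1]
    ring
  · intro q _
    obtain ⟨⟨b1, b2, b3⟩, ⟨b4, b5, b6⟩, ⟨b7, b8, b9⟩⟩ := facts2 T hcTri hcB u v w h q
    rw [hX, hX, hX, b1, b2, b3, b4, b5, b6, b7, b8, b9]
    ring

/-- The orthonormal family. -/
noncomputable def Yv (u v w : V) : Fin 2 ⊕ (Fin 3 × Fin (e + 1)) → M
  | Sum.inl i => if i = 0 then (1 / √2) • (T.B u u - T.B w w)
      else (1 / √6) • (T.B u u - (2 : ℝ) • T.B v v + T.B w w)
  | Sum.inr (j, q) => if j = 0 then √2 • T.B u (Ψ.fr.J q v)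
      else if j = 1 then √2 • T.B u (Ψ.fr.J q w) else √2 • T.B v (Ψ.fr.J q w)

omit [CompleteSpace M] in
theorem sumY (u v w : V) (h : Ψ.Tri u v w) (Y : M) :
    ∑ i, (inner ℝ (Yv T u v w i) Y : ℝ) ^ 2 = ‖T.pr Y‖ ^ 2 := by
  have h2 : (1 / √2 : ℝ) ^ 2 = 1 / 2 := by rw [div_pow, Real.sq_sqrt (by norm_num)]; norm_num
  have h6 : (1 / √6 : ℝ) ^ 2 = 1 / 6 := by rw [div_pow, Real.sq_sqrt (by norm_num)]; norm_num
  have h2' : (√2 : ℝ) ^ 2 = 2 := Real.sq_sqrt (by norm_num)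
  rw [T.pars u v w h Y, Fintype.sum_sum_type, Fintype.sum_prod_type, Fin.sum_univ_two,
    Fin.sum_univ_three]
  have e0 : (inner ℝ (Yv T u v w (Sum.inl 0)) Y : ℝ) =
      1 / √2 * (inner ℝ Y (T.B u u) - inner ℝ Y (T.B w w)) := by
    simp only [Yv, if_true]
    rw [real_inner_smul_left, inner_sub_left, real_inner_comm Y, real_inner_comm Y]
  have e1 : (inner ℝ (Yv T u v w (Sum.inl 1)) Y : ℝ) =
      1 / √6 * (inner ℝ Y (T.B u u) - 2 * inner ℝ Y (T.B v v) + inner ℝ Y (T.B w w)) := by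
    simp only [Yv, Fin.one_eq_zero_iff, if_false, OfNat.ofNat_ne_one]
    rw [real_inner_smul_left, inner_add_left, inner_sub_left, real_inner_smul_left,
      real_inner_comm Y, real_inner_comm Y, real_inner_comm Y]
  have f0 : ∀ q, (inner ℝ (Yv T u v w (Sum.inr (0, q))) Y : ℝ) ^ 2 =
      2 * (inner ℝ Y (T.B u (Ψ.fr.J q v))) ^ 2 := by
    intro q
    simp only [Yv, if_true]
    rw [real_inner_smul_left, real_inner_comm Y, mul_pow, h2']
  have f1 : ∀ q, (inner ℝ (Yv T u v w (Sum.inr (1, q))) Y : ℝ) ^ 2 =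
      2 * (inner ℝ Y (T.B u (Ψ.fr.J q w))) ^ 2 := by
    intro q
    have : ((1 : Fin 3) = 0) = False := by simp
    simp only [Yv, this, if_true, if_false]
    rw [real_inner_smul_left, real_inner_comm Y, mul_pow, h2']
  have f2 : ∀ q, (inner ℝ (Yv T u v w (Sum.inr (2, q))) Y : ℝ) ^ 2 =
      2 * (inner ℝ Y (T.B v (Ψ.fr.J q w))) ^ 2 := by
    intro q
    have h1 : ((2 : Fin 3) = 0) = False := by simp
    have h2 : ((2 : Fin 3) = 1) = False := by simp
    simp only [Yv, h1, h2, if_false]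
    rw [real_inner_smul_left, real_inner_comm Y, mul_pow, h2']
  rw [e0, e1, mul_pow, mul_pow, h2, h6]
  simp only [f0, f1, f2]
  rw [← Finset.sum_add_distrib, ← Finset.sum_add_distrib, Finset.mul_sum]
  have hs : ∀ q, 2 * (inner ℝ Y (T.B u (Ψ.fr.J q v)) : ℝ) ^ 2 +
      2 * (inner ℝ Y (T.B u (Ψ.fr.J q w)) : ℝ) ^ 2 + 2 * (inner ℝ Y (T.B v (Ψ.fr.J q w)) : ℝ) ^ 2 =
      2 * ((inner ℝ Y (T.B u (Ψ.fr.J q v)) : ℝ) ^ 2 + (inner ℝ Y (T.B u (Ψ.fr.J q w)) : ℝ) ^ 2 +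
        (inner ℝ Y (T.B v (Ψ.fr.J q w)) : ℝ) ^ 2) := fun q => by ring
  simp only [hs]
  ring

theorem prY (hcTri : cTri) (hcB : cB) (u v w : V) (h : Ψ.Tri u v w)
    (i : Fin 2 ⊕ (Fin 3 × Fin (e + 1))) : ‖T.pr (Yv T u v w i)‖ ^ 2 = 1 := by
  have h2 : (1 / √2 : ℝ) ^ 2 = 1 / 2 := by rw [div_pow, Real.sq_sqrt (by norm_num)]; norm_num
  have h6 : (1 / √6 : ℝ) ^ 2 = 1 / 6 := by rw [div_pow, Real.sq_sqrt (by norm_num)]; norm_num
  have h2' : (√2 : ℝ) ^ 2 = 2 := Real.sq_sqrt (by norm_num)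
  rcases i with i | ⟨j, p⟩
  · have hc : Yv T u v w (Sum.inl i) = T.X (1 / √2) 0 (-(1 / √2)) u v w ∨
        Yv T u v w (Sum.inl i) = T.X (1 / √6) (-2 * (1 / √6)) (1 / √6) u v w := by
      by_cases hi : i = 0
      · left
        simp only [Yv, hi, if_true, Hrm.X]
        rw [smul_sub, zero_smul, neg_smul]
        abel
      · right
        simp only [Yv, hi, if_false, Hrm.X]
        rw [smul_add, smul_sub, smul_smul]
        have : (-2 * (1 / √6) : ℝ) • T.B v v = -((1 / √6 * 2 : ℝ) • T.B v v) := by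
          rw [← neg_smul]
          congr 1
          ring
        rw [this]
        abel
    rcases hc with hc | hc
    · rw [hc, prX T hcTri hcB u v w h _ _ _ (by ring), neg_sq, h2]
      norm_num
    · rw [hc, prX T hcTri hcB u v w h _ _ _ (by ring), mul_pow, h6]
      norm_num
  · have hd : ∀ c : ℝ, (∑ q : Fin (e + 1), (√2 * (if p = q then (1 / 2 : ℝ) else 0)) ^ 2) = 1 / 2 := by
      intro _
      have : ∀ q : Fin (e + 1), (√2 * (if p = q then (1 / 2 : ℝ) else 0)) ^ 2 =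
          if p = q then 1 / 2 else 0 := by
        intro q
        split_ifs
        · rw [mul_pow, h2']; norm_num
        · ring
      simp only [this]
      rw [Finset.sum_ite_eq Finset.univ p (fun _ => (1 / 2 : ℝ))]
      simp
    obtain ⟨⟨b1, b2, b3⟩, ⟨b4, b5, b6⟩, ⟨b7, b8, b9⟩⟩ := facts2 T hcTri hcB u v w h p
    have g1 := fun q => (facts3 T hcTri hcB u v w h p q)
    have g2 := fun q => (facts4 T hcTri hcB u v w h p q)
    have g3 := fun q => (facts4 T hcTri hcB u v w h q p)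
    rw [T.pars u v w h]
    by_cases h0 : j = 0
    · subst h0
      simp only [Yv, if_true, real_inner_smul_left]
      rw [real_inner_comm (T.B u u), real_inner_comm (T.B v v), real_inner_comm (T.B w w), b1, b2,
        b3]
      simp only [(g1 _).1, (g2 _).1, (g2 _).2.1, mul_zero, ne_eq, OfNat.ofNat_ne_zero,
        not_false_eq_true, zero_pow, add_zero]
      rw [hd 0]
      norm_num
    · by_cases hj1 : j = 1
      · subst hj1
        simp only [Yv, h0, if_true, if_false, real_inner_smul_left]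
        rw [real_inner_comm (T.B u u), real_inner_comm (T.B v v), real_inner_comm (T.B w w), b4, b5,
          b6]
        have g4 : ∀ q, (inner ℝ (T.B u (Ψ.fr.J p w)) (T.B u (Ψ.fr.J q v)) : ℝ) = 0 := by
          intro q
          rw [real_inner_comm]
          exact (g3 q).1
        simp only [(g1 _).2.1, g4, (g2 _).2.2, mul_zero, ne_eq, OfNat.ofNat_ne_zero,
          not_false_eq_true, zero_pow, add_zero, zero_add]
        rw [hd 0]
        norm_num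
      · simp only [Yv, h0, hj1, if_false, real_inner_smul_left]
        rw [real_inner_comm (T.B u u), real_inner_comm (T.B v v), real_inner_comm (T.B w w), b7, b8,
          b9]
        have g4 : ∀ q, (inner ℝ (T.B v (Ψ.fr.J p w)) (T.B u (Ψ.fr.J q v)) : ℝ) = 0 := by
          intro q
          rw [real_inner_comm]
          exact (g3 q).2.1
        have g5 : ∀ q, (inner ℝ (T.B v (Ψ.fr.J p w)) (T.B u (Ψ.fr.J q w)) : ℝ) = 0 := by
          intro q
          rw [real_inner_comm]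
          exact (g3 q).2.2
        simp only [(g1 _).2.2, g4, g5, mul_zero, ne_eq, OfNat.ofNat_ne_zero,
          not_false_eq_true, zero_pow, add_zero, zero_add]
        rw [hd 0]
        norm_num

/-- Linear functions. -/
noncomputable def lf (Y : M) (X : M) : ℝ := inner ℝ Y X

omit [CompleteSpace M] in
theorem lf_C1 (Y : M) : ContDiff ℝ 1 (lf Y) := contDiff_const.inner ℝ contDiff_id

theorem lf_grad (Y X : M) : gradient (lf Y) X = Y := by
  have h1 : HasFDerivAt (lf Y) (innerSL ℝ Y) X := (innerSL ℝ Y).hasFDerivAt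
  have h2 : HasGradientAt (lf Y) Y X := by
    rw [hasGradientAt_iff_hasFDerivAt]
    exact h1
  exact h2.gradient

/-- The sum of the squares of the tangential gradients. -/
theorem sum_gS (hcTri : cTri) (hcB : cB) (a b c u v w : V) (ht : Ψ.Tri a b c) (h : Ψ.Tri u v w)
    (x y z x' y' z' : ℝ) (hs : x' + y' + z' = 0) (hq : x' ^ 2 + y' ^ 2 + z' ^ 2 = 1) :
    ∑ i, T.gS (lf (Yv T a b c i)) x y z x' y' z' u v w = 3 * ((e : ℝ) + 1) + 1 := by
  have h3 : (√3 : ℝ) ^ 2 = 3 := Real.sq_sqrt (by norm_num)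
  have h3' : (√3 : ℝ) ≠ 0 := by positivity
  unfold Hrm.gS
  simp only [lf_grad, prY T hcTri hcB a b c ht]
  rw [Finset.sum_sub_distrib, sumY T a b c ht, prX T hcTri hcB u v w h]
  · rw [div_pow, div_pow, div_pow, h3]
    simp only [Finset.sum_const, Finset.card_univ, Fintype.card_sum, Fintype.card_prod,
      Fintype.card_fin, nsmul_eq_mul, mul_one]
    push_cast
    have h4 : z' = -x' - y' := by linarith
    subst h4
    nlinarith
  · field_simp
    ring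

end alg

section an

variable {V : Type} [NormedAddCommGroup V] [InnerProductSpace ℝ V] [CompleteSpace V] {e : ℕ}
  {Ψ : Fr3 V e}

theorem av_sum (hcAv : cAv) {ι : Type} (F : ι → V → V → V → ℝ) (hF : ∀ i, Co3 (F i))
    (s : Finset ι) : Co3 (fun u v w => ∑ i ∈ s, F i u v w) ∧
      Ψ.av (fun u v w => ∑ i ∈ s, F i u v w) = ∑ i ∈ s, Ψ.av (F i) := by
  classical
  obtain ⟨-, h2, h3, -⟩ := hcAv V e Ψ
  induction s using Finset.induction_on with
  | empty =>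
    refine ⟨?_, ?_⟩
    · simp only [Finset.sum_empty]
      exact continuous_const
    · simp only [Finset.sum_empty]
      exact h3 0
  | insert i s hi ih =>
    obtain ⟨ih1, ih2⟩ := ih
    have h4 : (fun u v w => ∑ i ∈ insert i s, F i u v w) =
        fun u v w => 1 * F i u v w + 1 * ∑ i ∈ s, F i u v w := by
      funext u v w
      rw [Finset.sum_insert hi, one_mul, one_mul]
    refine ⟨?_, ?_⟩
    · unfold Co3 at ih1 ⊢
      simp only [Finset.sum_insert hi]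
      exact (hF i).add ih1
    · rw [h4, (h2 _ _ (hF i) ih1).1 1 1, ih2, Finset.sum_insert hi]
      ring

variable {M : Type} [NormedAddCommGroup M] [InnerProductSpace ℝ M] [CompleteSpace M]
  (T : Hrm Ψ M)

theorem X_cont (hcB : cB) (x y z : ℝ) :
    Continuous (fun p : V × V × V => T.X x y z p.1 p.2.1 p.2.2) := by
  have hB : Continuous (fun z : V × V => T.B z.1 z.2) := (hcB V e Ψ M T).1.continuous
  unfold Hrm.X
  have h1 : Continuous (fun p : V × V × V => T.B p.1 p.1) :=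
    hB.comp (continuous_fst.prodMk continuous_fst)
  have h2 : Continuous (fun p : V × V × V => T.B p.2.1 p.2.1) :=
    hB.comp ((continuous_fst.comp continuous_snd).prodMk (continuous_fst.comp continuous_snd))
  have h3 : Continuous (fun p : V × V × V => T.B p.2.2 p.2.2) :=
    hB.comp ((continuous_snd.comp continuous_snd).prodMk (continuous_snd.comp continuous_snd))
  exact ((h1.const_smul x).add (h2.const_smul y)).add (h3.const_smul z)

theorem av_lf (hcAv : cAv) (hcB : cB) (Y : M) (x y z : ℝ) (hs : x + y + z = 0) :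
    Ψ.av (fun u v w => lf Y (T.X x y z u v w)) = 0 := by
  obtain ⟨h1, h2, h3, -⟩ := hcAv V e Ψ
  have hB : Continuous (fun z : V × V => T.B z.1 z.2) := (hcB V e Ψ M T).1.continuous
  let F : V → V → V → ℝ := fun u _ _ => inner ℝ Y (T.B u u)
  have c1 : Co3 F := continuous_const.inner (hB.comp (continuous_fst.prodMk continuous_fst))
  have c2 : Co3 (fun u v w => F v w u) := continuous_const.inner
    (hB.comp ((continuous_fst.comp continuous_snd).prodMk (continuous_fst.comp continuous_snd)))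
  have c3 : Co3 (fun u v w => F w u v) := continuous_const.inner
    (hB.comp ((continuous_snd.comp continuous_snd).prodMk (continuous_snd.comp continuous_snd)))
  obtain ⟨-, -, -, -, -, e1, e2⟩ := h1 F c1
  have c4 : Co3 (fun u v w => y * F v w u + z * F w u v) := by
    unfold Co3 at c2 c3 ⊢
    exact (c2.const_mul y).add (c3.const_mul z)
  have h4 : (fun u v w => lf Y (T.X x y z u v w)) =
      fun u v w => x * F u v w + 1 * (y * F v w u + z * F w u v) := by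
    funext u v w
    change inner ℝ Y (x • T.B u u + y • T.B v v + z • T.B w w) =
      x * inner ℝ Y (T.B u u) + 1 * (y * inner ℝ Y (T.B v v) + z * inner ℝ Y (T.B w w))
    rw [inner_add_right, inner_add_right, real_inner_smul_right, real_inner_smul_right,
      real_inner_smul_right]
    ring
  rw [h4, (h2 F _ c1 c4).1 x 1, (h2 _ _ c2 c3).1 y z, e1, e2]
  have : x * Ψ.av F + 1 * (y * Ψ.av F + z * Ψ.av F) = (x + y + z) * Ψ.av F := by ring
  rw [this, hs, zero_mul]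

theorem sum_sq (hcTri : cTri) (hcAv : cAv) (hcB : cB) (x y z : ℝ) (hs : x + y + z = 0) :
    ∑ i, Ψ.av (fun u v w => lf (Yv T Ψ.fr.a Ψ.fr.b Ψ.c i) (T.X x y z u v w) ^ 2) =
      x ^ 2 + y ^ 2 + z ^ 2 := by
  obtain ⟨-, h2, h3, -⟩ := hcAv V e Ψ
  have ht : Ψ.Tri Ψ.fr.a Ψ.fr.b Ψ.c := (hcTri V e Ψ).1
  have hc : ∀ i, Co3 (fun u v w => lf (Yv T Ψ.fr.a Ψ.fr.b Ψ.c i) (T.X x y z u v w) ^ 2) := by
    intro i
    exact (continuous_const.inner (X_cont T hcB x y z)).pow 2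
  obtain ⟨h4, h5⟩ := av_sum (Ψ := Ψ) hcAv _ hc Finset.univ
  have hk : Co3 (fun (_ _ _ : V) => x ^ 2 + y ^ 2 + z ^ 2) := by
    unfold Co3
    exact continuous_const
  rw [← h5, (h2 _ (fun _ _ _ => x ^ 2 + y ^ 2 + z ^ 2) h4 hk).2.2, h3]
  intro u v w huvw
  change ∑ i, (inner ℝ (Yv T Ψ.fr.a Ψ.fr.b Ψ.c i) (T.X x y z u v w) : ℝ) ^ 2 = _
  rw [sumY T _ _ _ ht, prX T hcTri hcB u v w huvw x y z hs]

theorem sum_av_gS (hcTri : cTri) (hcAv : cAv) (hcB : cB) (hcPt : cPt) (x y z x' y' z' : ℝ)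
    (hs : x' + y' + z' = 0) (hq : x' ^ 2 + y' ^ 2 + z' ^ 2 = 1) :
    ∑ i, Ψ.av (T.gS (lf (Yv T Ψ.fr.a Ψ.fr.b Ψ.c i)) x y z x' y' z') = 3 * ((e : ℝ) + 1) + 1 := by
  obtain ⟨-, h2, h3, -⟩ := hcAv V e Ψ
  have ht : Ψ.Tri Ψ.fr.a Ψ.fr.b Ψ.c := (hcTri V e Ψ).1
  have hc : ∀ i, Co3 (T.gS (lf (Yv T Ψ.fr.a Ψ.fr.b Ψ.c i)) x y z x' y' z') := by
    intro i
    exact ((hcPt V e Ψ M T _ (lf_C1 _)).2.1 x y z x' y' z' hs hq).1
  obtain ⟨h4, h5⟩ := av_sum (Ψ := Ψ) hcAv _ hc Finset.univ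
  have hk : Co3 (fun (_ _ _ : V) => 3 * ((e : ℝ) + 1) + 1) := by
    unfold Co3
    exact continuous_const
  rw [← h5, (h2 _ (fun _ _ _ => 3 * ((e : ℝ) + 1) + 1) h4 hk).2.2, h3]
  intro u v w huvw
  exact sum_gS T hcTri hcB _ _ _ u v w ht huvw x y z x' y' z' hs hq

variable (P : Profile (e + 1))

omit [CompleteSpace V] in
theorem w_cont : Continuous P.w := by
  have hx := P.x_C2.continuous
  have hy := P.y_C2.continuous
  have hz := P.z_C2.continuous
  unfold Profile.w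
  exact (((hx.sub hy).mul (hx.sub hz)).mul (hy.sub hz)).pow _

theorem main (hcTri : cTri) (hcAv : cAv) (hcB : cB) (hcPt : cPt) (hcVol : cVol) (hcThm : cThm) :
    ∃ f : M → ℝ, ContDiff ℝ 1 f ∧ bd T P f = 0 ∧ 0 < bd T P (fun X => f X ^ 2) ∧
      en T P f = bd T P (fun X => f X ^ 2) := by
  obtain ⟨-, -, -, v4, -, -, -, -, -, v10, v11, v12⟩ := hcVol (e + 1) P (by omega)
  let Y := Yv T Ψ.fr.a Ψ.fr.b Ψ.c
  have hb0 : ∀ i, bd T P (lf (Y i)) = 0 := by
    intro i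
    unfold bd
    rw [av_lf T hcAv hcB _ _ _ _ (P.trace P.L), av_lf T hcAv hcB _ _ _ _ (P.trace 0)]
    ring
  have hbs : ∑ i, bd T P (fun X => lf (Y i) X ^ 2) = P.w P.L + P.w 0 := by
    unfold bd
    rw [Finset.sum_add_distrib, ← Finset.sum_mul, ← Finset.sum_mul,
      sum_sq T hcTri hcAv hcB _ _ _ (P.trace P.L), sum_sq T hcTri hcAv hcB _ _ _ (P.trace 0),
      P.final.2.2.1, one_mul]
    congr 1
    rcases P.initial with h | h | h
    · rw [h.2.2.1, one_mul]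
    · have : P.w 0 = 0 := by
        unfold Profile.w
        rw [h.2.1, sub_self, mul_zero, zero_pow (by omega)]
      rw [this, mul_zero]
    · have : P.w 0 = 0 := by
        unfold Profile.w
        rw [h.2.1, sub_self, zero_mul, zero_mul, zero_pow (by omega)]
      rw [this, mul_zero]
  have hes : ∑ i, en T P (lf (Y i)) = P.w P.L + P.w 0 := by
    unfold en
    rw [← intervalIntegral.integral_finsetSum]
    · rw [← v12]
      have h1 : ∀ s ∈ uIcc 0 P.L, (∑ i, Ψ.av (T.gS (lf (Y i)) (P.x s) (P.y s) (P.z s)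
          (deriv P.x s) (deriv P.y s) (deriv P.z s)) * P.w s) =
          (3 * ((e + 1 : ℕ) : ℝ) + 1) * P.w s := by
        intro s hs
        rw [uIcc_of_le P.L_pos.le] at hs
        rw [← Finset.sum_mul, sum_av_gS T hcTri hcAv hcB hcPt _ _ _ _ _ _ (v4 s)
          (P.arclength s hs)]
        push_cast
        ring
      rw [intervalIntegral.integral_congr h1, intervalIntegral.integral_const_mul]
    · intro i _
      have h2 := ((hcPt V e Ψ M T _ (lf_C1 (Y i))).2.2 P.x P.y P.z P.x_C2 P.y_C2 P.z_C2).2.2.2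
      exact (h2.mul (w_cont P)).intervalIntegrable _ _
  have hle : ∀ i ∈ Finset.univ, bd T P (fun X => lf (Y i) X ^ 2) ≤ en T P (lf (Y i)) :=
    fun i _ => hcThm V e Ψ M T P _ (lf_C1 _) (hb0 i)
  have heq := (Finset.sum_eq_sum_iff_of_le hle).1 (by rw [hbs, hes])
  have hpos : ∃ i ∈ (Finset.univ : Finset (Fin 2 ⊕ (Fin 3 × Fin (e + 1)))),
      0 < bd T P (fun X => lf (Y i) X ^ 2) := by
    apply Finset.exists_lt_of_sum_lt
    rw [hbs, Finset.sum_const_zero]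
    linarith
  obtain ⟨i, hi, hi2⟩ := hpos
  exact ⟨lf (Y i), lf_C1 _, hb0 i, hi2, (heq i hi).symm⟩

end an

end JLin

theorem prfLin (_hclPair : clPair) (hcTri : cTri) (hcAv : cAv) (hcB : cB) (hcPt : cPt)
    (hcVol : cVol) (hcThm : cThm) : cLin := by
  intro V _ _ _ e Ψ M _ _ _ T P
  exact JLin.main T P hcTri hcAv hcB hcPt hcVol hcThm

end Pool.Agent.Work.MP_408f4b_gt.A2
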