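import Pool.Agent.Work.MP_408f4b_gt.A2.Stmts

set_option autoImplicit false

/-!
# Item Main of block A2: the main inequality on a piece of the curve in the open chamber
-/

namespace Pool.Agent.Work.MP_408f4b_gt.A2

open MeasureTheory Set Filter Topology Pool.Agent.Work.MP_408f4b_gt.Q

namespace JMain

theorem core {α β : ℝ} (hαβ : α < β) {w G I1 I2 I3 I4 : ℝ → ℝ}
    (hw : ContinuousOn w (Icc α β)) (hw0 : ∀ s ∈ Icc α β, 0 ≤ w s)
    (hG : ContinuousOn G (Icc α β)) (h1 : ContinuousOn I1 (Icc α β))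
    (h2 : ContinuousOn I2 (Icc α β)) (h3 : ContinuousOn I3 (Icc α β))
    (h4 : ContinuousOn I4 (Icc α β))
    (hle : ∀ s ∈ Icc α β, 3 / 2 * I1 s + I2 s + I3 s + I4 s ≤ G s) :
    3 / 2 * (∫ s in α..β, I1 s * w s) + (∫ s in α..β, I2 s * w s) + (∫ s in α..β, I3 s * w s)
      + (∫ s in α..β, I4 s * w s) ≤ ∫ s in α..β, G s * w s := by
  have hi : ∀ F : ℝ → ℝ, ContinuousOn F (Icc α β) →
      IntervalIntegrable (fun s => F s * w s) volume α β := by
    intro F hF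
    apply ContinuousOn.intervalIntegrable
    rw [uIcc_of_le hαβ.le]
    exact hF.mul hw
  rw [← intervalIntegral.integral_const_mul,
    ← intervalIntegral.integral_add ((hi _ h1).const_mul (3 / 2)) (hi _ h2),
    ← intervalIntegral.integral_add (((hi _ h1).const_mul (3 / 2)).add (hi _ h2)) (hi _ h3),
    ← intervalIntegral.integral_add ((((hi _ h1).const_mul (3 / 2)).add (hi _ h2)).add (hi _ h3))
      (hi _ h4)]
  apply intervalIntegral.integral_mono_on hαβ.le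
    (((((hi _ h1).const_mul (3 / 2)).add (hi _ h2)).add (hi _ h3)).add (hi _ h4)) (hi _ hG)
  intro s hs
  have h6 := mul_le_mul_of_nonneg_right (hle s hs) (hw0 s hs)
  linarith [h6]

section cm

set_option linter.unusedSectionVars false

variable {M : Type} [NormedAddCommGroup M] [InnerProductSpace ℝ M] [CompleteSpace M]

def CM (Θ : ℝ → M → M → M → ℝ) : Prop :=
  Continuous (fun p : ℝ × M × M × M => Θ p.1 p.2.1 p.2.2.1 p.2.2.2)

theorem cm_pX {Θ : ℝ → M → M → M → ℝ} (hΘ : CM Θ) : CM (fun s => pX (Θ s)) := by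
  obtain ⟨G, hG⟩ : ∃ G : ℝ × M × M × M → ℝ, G = fun p => Θ p.1 p.2.1 p.2.2.1 p.2.2.2 := ⟨_, rfl⟩
  have hG' : Continuous G := hG ▸ hΘ
  have h : ∀ s X Y Z, Θ s X Y Z = G (s, X, Y, Z) := by intros; rw [hG]
  unfold CM
  simp only [pX, h]
  fun_prop

theorem cm_pY {Θ : ℝ → M → M → M → ℝ} (hΘ : CM Θ) : CM (fun s => pY (Θ s)) := by
  obtain ⟨G, hG⟩ : ∃ G : ℝ × M × M × M → ℝ, G = fun p => Θ p.1 p.2.1 p.2.2.1 p.2.2.2 := ⟨_, rfl⟩
  have hG' : Continuous G := hG ▸ hΘ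
  have h : ∀ s X Y Z, Θ s X Y Z = G (s, X, Y, Z) := by intros; rw [hG]
  unfold CM
  simp only [pY, h]
  fun_prop

theorem cm_pN {Θ : ℝ → M → M → M → ℝ} (hΘ : CM Θ) : CM (fun s => pN (Θ s)) := by
  obtain ⟨G, hG⟩ : ∃ G : ℝ × M × M × M → ℝ, G = fun p => Θ p.1 p.2.1 p.2.2.1 p.2.2.2 := ⟨_, rfl⟩
  have hG' : Continuous G := hG ▸ hΘ
  have h : ∀ s X Y Z, Θ s X Y Z = G (s, X, Y, Z) := by intros; rw [hG]
  unfold CM
  simp only [pN, h]
  fun_prop

theorem cm_pS {Θ : ℝ → M → M → M → ℝ} (hΘ : CM Θ) : CM (fun s => pS (Θ s)) := by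
  obtain ⟨G, hG⟩ : ∃ G : ℝ × M × M × M → ℝ, G = fun p => Θ p.1 p.2.1 p.2.2.1 p.2.2.2 := ⟨_, rfl⟩
  have hG' : Continuous G := hG ▸ hΘ
  have h : ∀ s X Y Z, Θ s X Y Z = G (s, X, Y, Z) := by intros; rw [hG]
  unfold CM
  simp only [pS, h]
  fun_prop

variable {Θ Θ' : ℝ → M → M → M → ℝ}

theorem hd_pX (h : ∀ s X Y Z, HasDerivAt (fun t => Θ t X Y Z) (Θ' s X Y Z) s) (s : ℝ)
    (X Y Z : M) : HasDerivAt (fun t => pX (Θ t) X Y Z) (pX (Θ' s) X Y Z) s := by
  have h1 := h s X Y Z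
  have h2 := h s X Z Y
  have h3 := h s Y Z X
  have h4 := h s Z Y X
  have h5 := h s Y X Z
  have h6 := h s Z X Y
  have a := (h1.add h2).div_const 3
  have b := (h5.add h6).div_const 3
  have c := (h3.add h4).div_const 3
  exact ((a.sub c).div_const 2).add (((a.sub (b.const_mul 2)).add c).div_const (2 * √3))

theorem hd_pY (h : ∀ s X Y Z, HasDerivAt (fun t => Θ t X Y Z) (Θ' s X Y Z) s) (s : ℝ)
    (X Y Z : M) : HasDerivAt (fun t => pY (Θ t) X Y Z) (pY (Θ' s) X Y Z) s := by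
  have h1 := h s X Y Z
  have h2 := h s X Z Y
  have h3 := h s Y Z X
  have h4 := h s Z Y X
  have h5 := h s Y X Z
  have h6 := h s Z X Y
  have a := (h1.add h2).div_const 3
  have b := (h5.add h6).div_const 3
  have c := (h3.add h4).div_const 3
  exact ((a.sub c).div_const 2).sub (((a.sub (b.const_mul 2)).add c).div_const (2 * √3))

theorem hd_pN (h : ∀ s X Y Z, HasDerivAt (fun t => Θ t X Y Z) (Θ' s X Y Z) s) (s : ℝ)
    (X Y Z : M) : HasDerivAt (fun t => pN (Θ t) X Y Z) (pN (Θ' s) X Y Z) s := by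
  exact ((((((h s X Y Z).add (h s Y Z X)).add (h s Z X Y)).sub (h s X Z Y)).sub
    (h s Y X Z)).sub (h s Z Y X)).div_const 6

theorem hd_pS (h : ∀ s X Y Z, HasDerivAt (fun t => Θ t X Y Z) (Θ' s X Y Z) s) (s : ℝ)
    (X Y Z : M) : HasDerivAt (fun t => pS (Θ t) X Y Z) (pS (Θ' s) X Y Z) s := by
  exact ((((((h s X Y Z).add (h s Y Z X)).add (h s Z X Y)).add (h s X Z Y)).add
    (h s Y X Z)).add (h s Z Y X)).div_const 6

end cm

theorem e12 (a b : ℝ) : e1 a b - e2 a b = d1 a b := by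
  have h3 : √3 ≠ 0 := by positivity
  have h : √3 * √3 = 3 := Real.mul_self_sqrt (by norm_num)
  unfold e1 e2 d1
  field_simp
  linear_combination (-(a - b)) * h

theorem e13 (a b : ℝ) : e1 a b - e3 a b = a + b := by
  unfold e1 e3
  ring

theorem e23 (a b : ℝ) : e2 a b - e3 a b = d3 a b := by
  have h3 : √3 ≠ 0 := by positivity
  have h : √3 * √3 = 3 := Real.mul_self_sqrt (by norm_num)
  unfold e2 e3 d3
  field_simp
  linear_combination (-(b - a)) * h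

theorem esum (a b : ℝ) : e1 a b + e2 a b + e3 a b = 0 := by
  have h3 : √3 ≠ 0 := by positivity
  unfold e1 e2 e3
  field_simp
  ring

theorem esq (a b : ℝ) : e1 a b ^ 2 + e2 a b ^ 2 + e3 a b ^ 2 = a ^ 2 + b ^ 2 := by
  have h3 : √3 ≠ 0 := by positivity
  have h : √3 ^ 2 = 3 := Real.sq_sqrt (by norm_num)
  unfold e1 e2 e3
  field_simp
  ring_nf
  rw [h]
  ring

theorem dsq (a b : ℝ) : (d1 a b ^ 2 + (a + b) ^ 2 + d3 a b ^ 2) / 3 = a ^ 2 + b ^ 2 := by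
  have h : √3 ^ 2 = 3 := Real.sq_sqrt (by norm_num)
  unfold d1 d3
  ring_nf
  rw [h]
  ring

theorem dsum (a b : ℝ) : d1 a b + d3 a b = a + b := by
  unfold d1 d3
  ring

end JMain

open JMain in
theorem prfMain (hcEqn : cEqn) (hcSecV : cSecV) (hcSecR : cSecR) (hcSecP : cSecP) (hcAv : cAv)
    (hcInt : cInt) (hcB : cB) (hcPar : cPar) (hcFix : cFix) (hcPt : cPt) : cMain := by
  intro V _ _ _ e Ψ M _ _ _ T f α β x y hf hαβ hc
  have hm : 1 ≤ e + 1 := by omega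
  obtain ⟨hx, hy, hcc⟩ := hc
  have hcr : Crv3 (e + 1) α β x y := ⟨hx, hy, hcc⟩
  have hxd : ∀ s, HasDerivAt x (deriv x s) s := fun s =>
    ((hx.differentiable (by norm_num)) s).hasDerivAt
  have hyd : ∀ s, HasDerivAt y (deriv y s) s := fun s =>
    ((hy.differentiable (by norm_num)) s).hasDerivAt
  have hxc : Continuous (deriv x) := hx.continuous_deriv (by norm_num)
  have hyc : Continuous (deriv y) := hy.continuous_deriv (by norm_num)
  have hE1 : ContDiff ℝ 2 (fun s => e1 (x s) (y s)) := by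
    unfold e1; fun_prop
  have hE2 : ContDiff ℝ 2 (fun s => e2 (x s) (y s)) := by
    unfold e2; fun_prop
  have hE3 : ContDiff ℝ 2 (fun s => e3 (x s) (y s)) := by
    unfold e3; fun_prop
  have dE1 : ∀ s, deriv (fun s => e1 (x s) (y s)) s = e1 (deriv x s) (deriv y s) := fun s =>
    ((((hxd s).add (hyd s)).div_const 2).add
      (((hxd s).sub (hyd s)).div_const (2 * √3))).deriv
  have dE2 : ∀ s, deriv (fun s => e2 (x s) (y s)) s = e2 (deriv x s) (deriv y s) := fun s =>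
    (((hyd s).sub (hxd s)).div_const √3).deriv
  have dE3 : ∀ s, deriv (fun s => e3 (x s) (y s)) s = e3 (deriv x s) (deriv y s) := fun s =>
    (((((hxd s).add (hyd s)).neg).div_const 2).add
      (((hxd s).sub (hyd s)).div_const (2 * √3))).deriv
  obtain ⟨hCi, hgS, hcur⟩ := hcPt V e Ψ M T f hf
  obtain ⟨hder, hcU, hcV, hcG⟩ := hcur _ _ _ hE1 hE2 hE3
  simp only [dE1, dE2, dE3] at hder hcV hcG
  set U : ℝ → M → M → M → ℝ := fun s => Us f x y s with hU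
  set D : ℝ → M → M → M → ℝ := fun s => Vs f x y s with hD
  have hder' : ∀ s X Y Z, HasDerivAt (fun t => U t X Y Z) (D s X Y Z) s := hder
  have cU : CM U := hcU
  have cD : CM D := hcV
  have cG : Continuous (fun s => Gs T f x y s) := hcG
  -- the map B
  have hBc : Continuous (fun z : V × V => T.B z.1 z.2) := (hcB V e Ψ M T).1.continuous
  have cev : ∀ Θ : ℝ → M → M → M → ℝ, CM Θ →
      Continuous (fun z : ℝ × V × V × V => T.ev (Θ z.1) z.2.1 z.2.2.1 z.2.2.2) := by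
    intro Θ hΘ
    have h1 : Continuous (fun z : ℝ × V × V × V =>
        (z.1, T.B z.2.1 z.2.1, T.B z.2.2.1 z.2.2.1, T.B z.2.2.2 z.2.2.2)) := by
      have h2 : Continuous (fun z : ℝ × V × V × V => T.B z.2.1 z.2.1) :=
        hBc.comp (by fun_prop : Continuous (fun z : ℝ × V × V × V => (z.2.1, z.2.1)))
      have h3 : Continuous (fun z : ℝ × V × V × V => T.B z.2.2.1 z.2.2.1) :=
        hBc.comp (by fun_prop : Continuous (fun z : ℝ × V × V × V => (z.2.2.1, z.2.2.1)))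
      have h4 : Continuous (fun z : ℝ × V × V × V => T.B z.2.2.2 z.2.2.2) :=
        hBc.comp (by fun_prop : Continuous (fun z : ℝ × V × V × V => (z.2.2.2, z.2.2.2)))
      exact continuous_fst.prodMk (h2.prodMk (h3.prodMk h4))
    exact Continuous.comp (g := fun p : ℝ × M × M × M => Θ p.1 p.2.1 p.2.2.1 p.2.2.2) hΘ h1
  have hAvc := (hcAv V e Ψ).2.2.2.2
  have Exc : ∀ Θ : ℝ → M → M → M → ℝ, CM Θ → Continuous (fun s => T.Ex (Θ s)) := by
    intro Θ hΘ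
    exact hAvc ℝ (fun s => T.ev (Θ s)) (cev Θ hΘ)
  have Exd : ∀ Θ Θ' : ℝ → M → M → M → ℝ, CM Θ → CM Θ' →
      (∀ s X Y Z, HasDerivAt (fun t => Θ t X Y Z) (Θ' s X Y Z) s) →
      ∀ s, HasDerivAt (fun t => T.Ex (Θ t)) (T.Ex (Θ' s)) s := by
    intro Θ Θ' h1 h2 h3 s
    exact (hcInt V e Ψ (fun s => T.ev (Θ s)) (fun s => T.ev (Θ' s)) (cev Θ h1) (cev Θ' h2)
      (fun s u v w => h3 s _ _ _)).1 s
  have Co : ∀ Θ : ℝ → M → M → M → ℝ, CM Θ → ∀ s, Co3 (Θ s) := by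
    intro Θ hΘ s
    have h1 : Continuous (fun z : M × M × M => (s, z)) := by fun_prop
    exact Continuous.comp (g := fun p : ℝ × M × M × M => Θ p.1 p.2.1 p.2.2.1 p.2.2.2) hΘ h1
  have csq : ∀ Θ : ℝ → M → M → M → ℝ, CM Θ → CM (fun s X Y Z => Θ s X Y Z ^ 2) := fun Θ h =>
    h.pow 2
  have cXU := cm_pX cU
  have cXD := cm_pX cD
  have cYU := cm_pY cU
  have cYD := cm_pY cD
  have cNU := cm_pN cU
  have cND := cm_pN cD
  have cSU := cm_pS cU
  have cSD := cm_pS cD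
  have cMU := Exc U cU
  have cMD := Exc D cD
  have cSU' : CM (fun s X Y Z => pS (U s) X Y Z - T.Ex (U s)) :=
    cSU.sub (cMU.comp continuous_fst)
  have cSD' : CM (fun s X Y Z => pS (D s) X Y Z - T.Ex (D s)) :=
    cSD.sub (cMD.comp continuous_fst)
  have dS : ∀ s X Y Z, HasDerivAt (fun t => pS (U t) X Y Z - T.Ex (U t))
      (pS (D s) X Y Z - T.Ex (D s)) s := fun s X Y Z =>
    (hd_pS hder' s X Y Z).sub (Exd U D cU cD hder' s)
  -- positivity
  have pd1 : ∀ s ∈ Icc α β, 0 < d1 (x s) (y s) := fun s hs => (hcc s hs).1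
  have pd3 : ∀ s ∈ Icc α β, 0 < d3 (x s) (y s) := fun s hs => (hcc s hs).2.1
  have ps : ∀ s ∈ Icc α β, 0 < x s + y s := fun s hs => by
    rw [← dsum]; exact add_pos (pd1 s hs) (pd3 s hs)
  have px : ∀ s ∈ Icc α β, 0 < x s := fun s hs => (hcEqn (e + 1) α β x y hm hαβ hcr s hs).1
  have py : ∀ s ∈ Icc α β, 0 < y s := fun s hs => (hcEqn (e + 1) α β x y hm hαβ hcr s hs).2.1
  have pw : ∀ s ∈ Icc α β, 0 < w3 (e + 1) x y s := fun s hs =>
    (hcEqn (e + 1) α β x y hm hαβ hcr s hs).2.2.1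
  have cx : Continuous x := hx.continuous
  have cy : Continuous y := hy.continuous
  have cd1 : Continuous (fun s => d1 (x s) (y s)) := by unfold d1; fun_prop
  have cd3 : Continuous (fun s => d3 (x s) (y s)) := by unfold d3; fun_prop
  have hw : ContinuousOn (w3 (e + 1) x y) (Icc α β) := by
    unfold w3
    exact (((cd1.mul (cx.add cy)).mul cd3).pow (e + 1)).continuousOn
  have n1 : ∀ s ∈ Icc α β, d1 (x s) (y s) ^ 2 ≠ 0 := fun s hs => (pow_pos (pd1 s hs) 2).ne'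
  have n3 : ∀ s ∈ Icc α β, d3 (x s) (y s) ^ 2 ≠ 0 := fun s hs => (pow_pos (pd3 s hs) 2).ne'
  have n2 : ∀ s ∈ Icc α β, (x s + y s) ^ 2 ≠ 0 := fun s hs => (pow_pos (ps s hs) 2).ne'
  have nr : ∀ s ∈ Icc α β, x s ^ 2 + y s ^ 2 ≠ 0 := fun s hs => by
    have := px s hs
    positivity
  have i1 : ∀ c : ℝ, ContinuousOn (fun s => c / d1 (x s) (y s) ^ 2) (Icc α β) := fun c =>
    continuousOn_const.div (cd1.pow 2).continuousOn n1
  have i3 : ∀ c : ℝ, ContinuousOn (fun s => c / d3 (x s) (y s) ^ 2) (Icc α β) := fun c =>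
    continuousOn_const.div (cd3.pow 2).continuousOn n3
  have i2 : ∀ c : ℝ, ContinuousOn (fun s => c / (x s + y s) ^ 2) (Icc α β) := fun c =>
    continuousOn_const.div ((cx.add cy).pow 2).continuousOn n2
  have k11 : ContinuousOn (p11 (e + 1) x y) (Icc α β) :=
    continuousOn_const.mul (((i2 1).add (i1 _)).add (i3 _))
  have k22 : ContinuousOn (p22 (e + 1) x y) (Icc α β) :=
    continuousOn_const.mul (((i2 1).add (i1 _)).add (i3 _))
  have k12 : ContinuousOn (p12 (e + 1) x y) (Icc α β) :=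
    continuousOn_const.mul ((i2 1).sub (((i1 1).add (i3 1)).div_const 2))
  set qP : ℝ → ℝ := fun s => 2 * ((e + 1 : ℕ) : ℝ) *
      (1 / d1 (x s) (y s) ^ 2 + 1 / (x s + y s) ^ 2 + 1 / d3 (x s) (y s) ^ 2) with hqP
  set qR : ℝ → ℝ := fun s => (3 * ((e + 1 : ℕ) : ℝ) + 1) / (x s ^ 2 + y s ^ 2) with hqR
  have kP : ContinuousOn qP (Icc α β) :=
    continuousOn_const.mul (((i1 1).add (i2 1)).add (i3 1))
  have kR : ContinuousOn qR (Icc α β) :=
    continuousOn_const.div ((cx.pow 2).add (cy.pow 2)).continuousOn nr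
  -- the sectors
  have sV := (hcInt V e Ψ (fun s => T.ev (pX (U s))) (fun s => T.ev (pX (D s)))
    (cev _ cXU) (cev _ cXD) (fun s u v w => hd_pX hder' s _ _ _)).2.2
    (fun s => T.ev (pY (U s))) (fun s => T.ev (pY (D s))) (cev _ cYU) (cev _ cYD)
    (fun s u v w => hd_pY hder' s _ _ _) α β (w3 (e + 1) x y) _ _ _ _ _ _ _ hαβ hw k11 k12 k22
    (hcSecV (e + 1) α β x y hm hαβ hcr)
  have sN := (hcInt V e Ψ (fun s => T.ev (pN (U s))) (fun s => T.ev (pN (D s)))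
    (cev _ cNU) (cev _ cND) (fun s u v w => hd_pN hder' s _ _ _)).2.1 α β (w3 (e + 1) x y) qP
    _ _ hαβ hw kP (hcSecP (e + 1) α β x y hm hαβ hcr)
  have sS := (hcInt V e Ψ (fun s => T.ev (fun X Y Z => pS (U s) X Y Z - T.Ex (U s)))
    (fun s => T.ev (fun X Y Z => pS (D s) X Y Z - T.Ex (D s)))
    (cev _ cSU') (cev _ cSD') (fun s u v w => dS s _ _ _)).2.1 α β (w3 (e + 1) x y) qR
    _ _ hαβ hw kR (hcSecR (e + 1) α β x y hm hαβ hcr)
  -- the linear combinations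
  have lin := (hcAv V e Ψ).2.1
  have Coe : ∀ Θ : M → M → M → ℝ, Co3 Θ → Co3 (T.ev Θ) := by
    intro Θ hΘ
    have h1 := cev (fun _ => Θ) (by
      have h1 : Continuous (fun p : ℝ × M × M × M => p.2) := by fun_prop
      exact Continuous.comp (g := fun p : M × M × M => Θ p.1 p.2.1 p.2.2) hΘ h1)
    exact h1.comp (by fun_prop : Continuous (fun z : V × V × V => ((0 : ℝ), z)))
  have ExLin : ∀ (Θ Ξ : M → M → M → ℝ), Co3 Θ → Co3 Ξ → ∀ c d : ℝ,
      T.Ex (fun X Y Z => c * Θ X Y Z + d * Ξ X Y Z) = c * T.Ex Θ + d * T.Ex Ξ := by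
    intro Θ Ξ h1 h2 c d
    exact (lin (T.ev Θ) (T.ev Ξ) (Coe Θ h1) (Coe Ξ h2)).1 c d
  -- the mixed term
  have cXY : CM (fun s X Y Z => pX (U s) X Y Z * pY (U s) X Y Z) := cXU.mul cYU
  have mixed : ∀ a b c : ℝ, ∀ s, T.Ex (fun X Y Z => a * pX (U s) X Y Z ^ 2 +
      b * (pX (U s) X Y Z * pY (U s) X Y Z) + c * pY (U s) X Y Z ^ 2) =
      a * T.Ex (fun X Y Z => pX (U s) X Y Z ^ 2) +
        b * T.Ex (fun X Y Z => pX (U s) X Y Z * pY (U s) X Y Z) +
        c * T.Ex (fun X Y Z => pY (U s) X Y Z ^ 2) := by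
    intro a b c s
    have c1 : Co3 (fun X Y Z => pX (U s) X Y Z ^ 2) := Co _ (csq _ cXU) s
    have c2 : Co3 (fun X Y Z => pX (U s) X Y Z * pY (U s) X Y Z) := Co _ cXY s
    have c3 : Co3 (fun X Y Z => pY (U s) X Y Z ^ 2) := Co _ (csq _ cYU) s
    have c4 : Co3 (fun X Y Z => a * pX (U s) X Y Z ^ 2 +
        b * (pX (U s) X Y Z * pY (U s) X Y Z)) :=
      (continuous_const.mul c1).add (continuous_const.mul c2)
    have l1 := ExLin _ _ c1 c2 a b
    have l2 := ExLin _ _ c4 c3 1 c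
    simp only [one_mul] at l2
    rw [l2, l1]
  have sqd : ∀ (F : ℝ → ℝ → ℝ) (a b c : ℝ), (∀ X Y, F X Y ^ 2 = a * X ^ 2 + b * (X * Y) + c * Y ^ 2) →
      ∀ s, T.Ex (fun X Y Z => F (pX (U s) X Y Z) (pY (U s) X Y Z) ^ 2) =
      a * T.Ex (fun X Y Z => pX (U s) X Y Z ^ 2) +
        b * T.Ex (fun X Y Z => pX (U s) X Y Z * pY (U s) X Y Z) +
        c * T.Ex (fun X Y Z => pY (U s) X Y Z ^ 2) := by
    intro F a b c hF s
    rw [← mixed a b c s]
    congr 1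
    funext X Y Z
    exact hF _ _
  have h3 : √3 ^ 2 = 3 := Real.sq_sqrt (by norm_num)
  have q1 := sqd d1 (1 + √3 / 2) (-1) (1 - √3 / 2) (by
    intro X Y
    unfold d1
    ring_nf
    rw [h3]
    ring)
  have q3 := sqd d3 (1 - √3 / 2) (-1) (1 + √3 / 2) (by
    intro X Y
    unfold d3
    ring_nf
    rw [h3]
    ring)
  have q2 := sqd (fun X Y => X + Y) 1 2 1 (by intro X Y; ring)
  -- the pointwise inequality
  have key : ∀ s ∈ Icc α β,
      3 / 2 * (T.Ex (fun X Y Z => pX (D s) X Y Z ^ 2) + T.Ex (fun X Y Z => pY (D s) X Y Z ^ 2) +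
        T.Ex (fun X Y Z => p11 (e + 1) x y s * pX (U s) X Y Z ^ 2 +
          2 * p12 (e + 1) x y s * (pX (U s) X Y Z * pY (U s) X Y Z) +
          p22 (e + 1) x y s * pY (U s) X Y Z ^ 2)) +
      (T.Ex (fun X Y Z => pN (D s) X Y Z ^ 2) + qP s * T.Ex (fun X Y Z => pN (U s) X Y Z ^ 2)) +
      (T.Ex (fun X Y Z => (pS (D s) X Y Z - T.Ex (D s)) ^ 2) +
        qR s * T.Ex (fun X Y Z => (pS (U s) X Y Z - T.Ex (U s)) ^ 2)) +
      T.Ex (D s) ^ 2 ≤ Gs T f x y s := by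
    intro s hs
    obtain ⟨a1, -, -, a4, -, -, -⟩ := hcPar V e Ψ M T (D s) (Co _ cD s)
    obtain ⟨-, -, -, b4, b5, b6, b7⟩ := hcPar V e Ψ M T (U s) (Co _ cU s)
    have g1 := (hgS (e1 (x s) (y s)) (e2 (x s) (y s)) (e3 (x s) (y s)) (e1 (deriv x s) (deriv y s))
      (e2 (deriv x s) (deriv y s)) (e3 (deriv x s) (deriv y s)) (esum _ _) (by
        rw [esq]; exact (hcc s hs).2.2.1)).2.2 (by
        rw [ne_eq, ← sub_eq_zero, e12]; exact (pd1 s hs).ne') (by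
        rw [ne_eq, ← sub_eq_zero, e13]; exact (ps s hs).ne') (by
        rw [ne_eq, ← sub_eq_zero, e23]; exact (pd3 s hs).ne')
    rw [e12, e13, e23] at g1
    have g2 : Gs T f x y s = T.Ex (fun X Y Z => D s X Y Z ^ 2) +
        T.Orb (d1 (x s) (y s)) (x s + y s) (d3 (x s) (y s)) (U s) := g1
    have g3 := hcFix V e Ψ M T (U s) (d1 (x s) (y s)) (x s + y s) (d3 (x s) (y s))
      (hCi _ _ _) (pd1 s hs) (pd3 s hs) (dsum _ _).symm
    rw [dsq, b5, b6, b7, q1 s, q3 s] at g3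
    rw [q2 s] at g3
    rw [g2, a1, mixed, a4, b4]
    simp only [hqP, hqR, p11, p12, p22]
    push_cast at g3 ⊢
    have hd : ∀ (A B : ℝ), A / B = A * (1 / B) := fun A B => by ring
    rw [hd (2 * ((e : ℝ) + 1)) (d1 (x s) (y s) ^ 2), hd (2 * ((e : ℝ) + 1)) ((x s + y s) ^ 2),
      hd (2 * ((e : ℝ) + 1)) (d3 (x s) (y s) ^ 2)] at g3
    rw [hd (1 + √3 / 2) (d1 (x s) (y s) ^ 2), hd (1 - √3 / 2) (d3 (x s) (y s) ^ 2),
      hd (1 - √3 / 2) (d1 (x s) (y s) ^ 2), hd (1 + √3 / 2) (d3 (x s) (y s) ^ 2)]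
    generalize 1 / d1 (x s) (y s) ^ 2 = u1 at g3 ⊢
    generalize 1 / d3 (x s) (y s) ^ 2 = u3 at g3 ⊢
    generalize 1 / (x s + y s) ^ 2 = u2 at g3 ⊢
    linarith [g3]
  -- integration
  have hfin := core hαβ hw (fun s hs => (pw s hs).le) (G := fun s => Gs T f x y s) cG.continuousOn
    (I1 := fun s => T.Ex (fun X Y Z => pX (D s) X Y Z ^ 2) +
        T.Ex (fun X Y Z => pY (D s) X Y Z ^ 2) +
        T.Ex (fun X Y Z => p11 (e + 1) x y s * pX (U s) X Y Z ^ 2 +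
          2 * p12 (e + 1) x y s * (pX (U s) X Y Z * pY (U s) X Y Z) +
          p22 (e + 1) x y s * pY (U s) X Y Z ^ 2))
    (by
      simp only [mixed]
      exact ((Exc _ (csq _ cXD)).continuousOn.add (Exc _ (csq _ cYD)).continuousOn).add
        (((k11.mul (Exc _ (csq _ cXU)).continuousOn).add
          ((continuousOn_const.mul k12).mul (Exc _ cXY).continuousOn)).add
          (k22.mul (Exc _ (csq _ cYU)).continuousOn)))
    (I2 := fun s => T.Ex (fun X Y Z => pN (D s) X Y Z ^ 2) +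
      qP s * T.Ex (fun X Y Z => pN (U s) X Y Z ^ 2))
    ((Exc _ (csq _ cND)).continuousOn.add (kP.mul (Exc _ (csq _ cNU)).continuousOn))
    (I3 := fun s => T.Ex (fun X Y Z => (pS (D s) X Y Z - T.Ex (D s)) ^ 2) +
        qR s * T.Ex (fun X Y Z => (pS (U s) X Y Z - T.Ex (U s)) ^ 2))
    ((Exc _ (csq _ cSD')).continuousOn.add (kR.mul (Exc _ (csq _ cSU')).continuousOn))
    (I4 := fun s => T.Ex (D s) ^ 2)
    (cMD.continuousOn.pow 2) key
  have hBt : ∀ s, Bt3 T f x y s =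
      3 / 2 * (T.Ex (fun X Y Z => pX (U s) X Y Z ^ 2) * (deriv x s / x s * w3 (e + 1) x y s) +
        T.Ex (fun X Y Z => pY (U s) X Y Z ^ 2) * (deriv y s / y s * w3 (e + 1) x y s)) +
      T.Ex (fun X Y Z => pN (U s) X Y Z ^ 2) *
        ((deriv x s + deriv y s) / (x s + y s) * w3 (e + 1) x y s) +
      T.Ex (fun X Y Z => (pS (U s) X Y Z - T.Ex (U s)) ^ 2) *
        ((x s * deriv x s + y s * deriv y s) / (x s ^ 2 + y s ^ 2) * w3 (e + 1) x y s) := by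
    intro s
    rw [(hcPar V e Ψ M T (U s) (Co _ cU s)).2.2.2.1]
    unfold Bt3
    simp only [hU]
    ring
  rw [hBt β, hBt α]
  refine le_trans ?_ hfin
  have sV' : (T.Ex (fun X Y Z => pX (U β) X Y Z ^ 2) * (deriv x β / x β * w3 (e + 1) x y β) +
        T.Ex (fun X Y Z => pY (U β) X Y Z ^ 2) * (deriv y β / y β * w3 (e + 1) x y β)) -
      (T.Ex (fun X Y Z => pX (U α) X Y Z ^ 2) * (deriv x α / x α * w3 (e + 1) x y α) +
        T.Ex (fun X Y Z => pY (U α) X Y Z ^ 2) * (deriv y α / y α * w3 (e + 1) x y α)) ≤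
      ∫ s in α..β, (T.Ex (fun X Y Z => pX (D s) X Y Z ^ 2) +
        T.Ex (fun X Y Z => pY (D s) X Y Z ^ 2) +
        T.Ex (fun X Y Z => p11 (e + 1) x y s * pX (U s) X Y Z ^ 2 +
          2 * p12 (e + 1) x y s * (pX (U s) X Y Z * pY (U s) X Y Z) +
          p22 (e + 1) x y s * pY (U s) X Y Z ^ 2)) * w3 (e + 1) x y s := sV
  have sN' : T.Ex (fun X Y Z => pN (U β) X Y Z ^ 2) *
        ((deriv x β + deriv y β) / (x β + y β) * w3 (e + 1) x y β) -
      T.Ex (fun X Y Z => pN (U α) X Y Z ^ 2) *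
        ((deriv x α + deriv y α) / (x α + y α) * w3 (e + 1) x y α) ≤
      ∫ s in α..β, (T.Ex (fun X Y Z => pN (D s) X Y Z ^ 2) +
        qP s * T.Ex (fun X Y Z => pN (U s) X Y Z ^ 2)) * w3 (e + 1) x y s := sN
  have sS' : T.Ex (fun X Y Z => (pS (U β) X Y Z - T.Ex (U β)) ^ 2) *
        ((x β * deriv x β + y β * deriv y β) / (x β ^ 2 + y β ^ 2) * w3 (e + 1) x y β) -
      T.Ex (fun X Y Z => (pS (U α) X Y Z - T.Ex (U α)) ^ 2) *
        ((x α * deriv x α + y α * deriv y α) / (x α ^ 2 + y α ^ 2) * w3 (e + 1) x y α) ≤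
      ∫ s in α..β, (T.Ex (fun X Y Z => (pS (D s) X Y Z - T.Ex (D s)) ^ 2) +
        qR s * T.Ex (fun X Y Z => (pS (U s) X Y Z - T.Ex (U s)) ^ 2)) * w3 (e + 1) x y s := sS
  change _ + ∫ s in α..β, T.Ex (D s) ^ 2 * w3 (e + 1) x y s ≤ _
  linarith [sV', sN', sS']

end Pool.Agent.Work.MP_408f4b_gt.A2
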