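import Pool.Agent.Work.MP_408f4b_gt.A2.Stmts
import Pool.Agent.Work.MP_408f4b_gt.A2.I.KF

set_option autoImplicit false

/-!
# Item N: the energies in terms of functions of pairs
-/

namespace Pool.Agent.Work.MP_408f4b_gt.A2

open MeasureTheory Set Filter Topology Pool.Agent.Work.MP_408f4b_gt.Q

namespace JN

section grad

variable {M : Type} [NormedAddCommGroup M] [InnerProductSpace ℝ M] [CompleteSpace M]

/-- The function on the product. -/
def hat (Θ : M → M → M → ℝ) (z : M × M × M) : ℝ := Θ z.1 z.2.1 z.2.2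

/-- The first partial gradient. -/
noncomputable def pg1 (Θ : M → M → M → ℝ) (X Y Z : M) : M := gradient (fun X' => Θ X' Y Z) X

theorem in1 {Θ : M → M → M → ℝ} (h : Ci3 Θ) (X Y Z k : M) :
    inner ℝ (pg1 Θ X Y Z) k = fderiv ℝ (hat Θ) (X, Y, Z) (k, 0, 0) := by
  have hd : Differentiable ℝ (hat Θ) := h.differentiable (by norm_num)
  have h1 : HasFDerivAt (fun X' : M => ((X', Y, Z) : M × M × M))
      (ContinuousLinearMap.inl ℝ M (M × M)) X := hasFDerivAt_prodMk_left X (Y, Z)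
  have h2 := (hd (X, Y, Z)).hasFDerivAt.comp X h1
  have h3 : fderiv ℝ (fun X' => Θ X' Y Z) X = (fderiv ℝ (hat Θ) (X, Y, Z)).comp
      (ContinuousLinearMap.inl ℝ M (M × M)) := h2.fderiv
  unfold pg1 gradient
  rw [InnerProductSpace.toDual_symm_apply, h3]
  rfl

theorem fd2 {Θ : M → M → M → ℝ} (h : Ci3 Θ) (X Y Z : M) :
    fderiv ℝ (fun Y' => Θ X Y' Z) Y = (fderiv ℝ (hat Θ) (X, Y, Z)).comp
      ((ContinuousLinearMap.inr ℝ M (M × M)).comp (ContinuousLinearMap.inl ℝ M M)) := by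
  have hd : Differentiable ℝ (hat Θ) := h.differentiable (by norm_num)
  have h1 : HasFDerivAt (fun Y' : M => ((X, Y', Z) : M × M × M))
      ((ContinuousLinearMap.inr ℝ M (M × M)).comp (ContinuousLinearMap.inl ℝ M M)) Y :=
    (hasFDerivAt_prodMk_right X (Y, Z)).comp Y (hasFDerivAt_prodMk_left Y Z)
  have h2 := (hd (X, Y, Z)).hasFDerivAt.comp Y h1
  exact h2.fderiv

theorem fd3 {Θ : M → M → M → ℝ} (h : Ci3 Θ) (X Y Z : M) :
    fderiv ℝ (fun Z' => Θ X Y Z') Z = (fderiv ℝ (hat Θ) (X, Y, Z)).comp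
      ((ContinuousLinearMap.inr ℝ M (M × M)).comp (ContinuousLinearMap.inr ℝ M M)) := by
  have hd : Differentiable ℝ (hat Θ) := h.differentiable (by norm_num)
  have h1 : HasFDerivAt (fun Z' : M => ((X, Y, Z') : M × M × M))
      ((ContinuousLinearMap.inr ℝ M (M × M)).comp (ContinuousLinearMap.inr ℝ M M)) Z :=
    (hasFDerivAt_prodMk_right X (Y, Z)).comp Z (hasFDerivAt_prodMk_right Y Z)
  have h2 := (hd (X, Y, Z)).hasFDerivAt.comp Z h1
  exact h2.fderiv

theorem in2 {Θ : M → M → M → ℝ} (h : Ci3 Θ) (X Y Z k : M) :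
    inner ℝ (pg2 Θ X Y Z) k = fderiv ℝ (hat Θ) (X, Y, Z) (0, k, 0) := by
  unfold pg2 gradient
  rw [InnerProductSpace.toDual_symm_apply, fd2 h]
  rfl

theorem in3 {Θ : M → M → M → ℝ} (h : Ci3 Θ) (X Y Z k : M) :
    inner ℝ (pg3 Θ X Y Z) k = fderiv ℝ (hat Θ) (X, Y, Z) (0, 0, k) := by
  unfold pg3 gradient
  rw [InnerProductSpace.toDual_symm_apply, fd3 h]
  rfl

theorem ct2 {Θ : M → M → M → ℝ} (h : Ci3 Θ) :
    Continuous (fun z : M × M × M => pg2 Θ z.1 z.2.1 z.2.2) := by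
  have hc : Continuous (fderiv ℝ (hat Θ)) := h.continuous_fderiv (by norm_num)
  have h1 : (fun z : M × M × M => pg2 Θ z.1 z.2.1 z.2.2) = fun z =>
      (InnerProductSpace.toDual ℝ M).symm ((fderiv ℝ (hat Θ) z).comp
      ((ContinuousLinearMap.inr ℝ M (M × M)).comp (ContinuousLinearMap.inl ℝ M M))) := by
    funext z
    unfold pg2 gradient
    rw [fd2 h]
  rw [h1]
  exact (LinearIsometryEquiv.continuous _).comp (hc.clm_comp continuous_const)

theorem ct3 {Θ : M → M → M → ℝ} (h : Ci3 Θ) :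
    Continuous (fun z : M × M × M => pg3 Θ z.1 z.2.1 z.2.2) := by
  have hc : Continuous (fderiv ℝ (hat Θ)) := h.continuous_fderiv (by norm_num)
  have h1 : (fun z : M × M × M => pg3 Θ z.1 z.2.1 z.2.2) = fun z =>
      (InnerProductSpace.toDual ℝ M).symm ((fderiv ℝ (hat Θ) z).comp
      ((ContinuousLinearMap.inr ℝ M (M × M)).comp (ContinuousLinearMap.inr ℝ M M))) := by
    funext z
    unfold pg3 gradient
    rw [fd3 h]
  rw [h1]
  exact (LinearIsometryEquiv.continuous _).comp (hc.clm_comp continuous_const)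

end grad

section two

variable {V : Type} [NormedAddCommGroup V] [InnerProductSpace ℝ V] [CompleteSpace V] {e : ℕ}
  {Ψ : Fr3 V e} {M : Type} [NormedAddCommGroup M] [InnerProductSpace ℝ M] [CompleteSpace M]
  (T : Hrm Ψ M)

theorem lineB (hB : cB) (u h : V) :
    HasDerivAt (fun t : ℝ => T.B (u + t • h) (u + t • h)) ((2 : ℝ) • T.B u h) 0 := by
  obtain ⟨-, hadd, hsmul, -⟩ := hB V e Ψ M T
  have h1 : (fun t : ℝ => T.B (u + t • h) (u + t • h)) =
      fun t : ℝ => T.B u u + (2 * t) • T.B u h + (t ^ 2) • T.B h h := by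
    funext t
    rw [T.add_l, hadd, hadd, T.smul_l, hsmul, hsmul, T.smul_l, T.symm h u, smul_smul, two_mul,
      add_smul, pow_two]
    abel
  rw [h1]
  have h2 : HasDerivAt (fun t : ℝ => (2 * t)) 2 0 := by
    simpa using (hasDerivAt_id (0 : ℝ)).const_mul 2
  have h3 : HasDerivAt (fun t : ℝ => t ^ 2) 0 0 := by
    simpa using hasDerivAt_pow 2 (0 : ℝ)
  have h4 : HasDerivAt (fun t : ℝ => T.B u u + (2 * t) • T.B u h + (t ^ 2) • T.B h h)
      (0 + (2 : ℝ) • T.B u h + (0 : ℝ) • T.B h h) 0 :=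
    ((hasDerivAt_const (0 : ℝ) (T.B u u)).add (h2.smul_const (T.B u h))).add
      (h3.smul_const (T.B h h))
  rw [zero_smul, zero_add, add_zero] at h4
  exact h4

/-- The derivative of a function on the line. -/
theorem line {g : V → ℝ} {u : V} (hg : DifferentiableAt ℝ g u) (h : V) :
    HasDerivAt (fun t : ℝ => g (u + t • h)) (inner ℝ (gradient g u) h) 0 := by
  have h1 : HasDerivAt (fun t : ℝ => u + t • h) h 0 := by
    simpa using ((hasDerivAt_id (0 : ℝ)).smul_const h).const_add u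
  have h2 : HasFDerivAt g (fderiv ℝ g u) (u + (0 : ℝ) • h) := by
    rw [zero_smul, add_zero]; exact hg.hasFDerivAt
  have h3 := h2.comp_hasDerivAt (0 : ℝ) h1
  unfold gradient
  rw [InnerProductSpace.toDual_symm_apply]
  exact h3

variable {Θ : M → M → M → ℝ} (hΘ : Ci3 Θ)

include hΘ

theorem pfC (hB : cB) : ContDiff ℝ 1 (fun z : V × V => T.pf Θ z.1 z.2) := by
  obtain ⟨hB1, -⟩ := hB V e Ψ M T
  have h1 : ContDiff ℝ 1 (fun z : V × V => T.B z.1 z.1) :=
    hB1.comp (contDiff_fst.prodMk contDiff_fst)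
  have h2 : ContDiff ℝ 1 (fun z : V × V => T.B z.2 z.2) :=
    hB1.comp (contDiff_snd.prodMk contDiff_snd)
  have h3 : ContDiff ℝ 1 (fun z : V × V => T.one - T.B z.1 z.1 - T.B z.2 z.2) :=
    (contDiff_const.sub h1).sub h2
  have h4 : ContDiff ℝ 1 (fun z : V × V =>
      ((T.B z.1 z.1, T.B z.2 z.2, T.one - T.B z.1 z.1 - T.B z.2 z.2) : M × M × M)) :=
    h1.prodMk (h2.prodMk h3)
  exact hΘ.comp h4

theorem g1 (hB : cB) (u v h : V) : inner ℝ (gr1 (T.pf Θ) u v) h =
    2 * inner ℝ (pg1 Θ (T.B u u) (T.B v v) (T.one - T.B u u - T.B v v) -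
      pg3 Θ (T.B u u) (T.B v v) (T.one - T.B u u - T.B v v)) (T.B u h) := by
  have hd : Differentiable ℝ (hat Θ) := hΘ.differentiable (by norm_num)
  have hp : DifferentiableAt ℝ (fun z : V × V => T.pf Θ z.1 z.2) (u, v) :=
    (pfC T hΘ hB).differentiable (by norm_num) (u, v)
  have hm : HasFDerivAt (fun v' : V => ((v', v) : V × V)) (ContinuousLinearMap.inl ℝ V V) u :=
    hasFDerivAt_prodMk_left u v
  have hg0 := HasFDerivAt.comp (g := fun z : V × V => T.pf Θ z.1 z.2)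
    (f := fun v' : V => ((v', v) : V × V)) u hp.hasFDerivAt hm
  have hg : DifferentiableAt ℝ (fun v' => T.pf Θ v' v) u := hg0.differentiableAt
  have h1 := line hg h
  have h2 := lineB T hB u h
  have h3 : HasDerivAt (fun t : ℝ => ((T.B (u + t • h) (u + t • h), T.B v v,
      T.one - T.B (u + t • h) (u + t • h) - T.B v v) : M × M × M))
      ((2 : ℝ) • T.B u h, 0, -((2 : ℝ) • T.B u h)) 0 := by
    refine h2.prodMk ((hasDerivAt_const _ _).prodMk ?_)
    have := (h2.const_sub T.one).sub_const (T.B v v)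
    exact this
  have h4 : HasFDerivAt (hat Θ) (fderiv ℝ (hat Θ) (T.B u u, T.B v v,
      T.one - T.B u u - T.B v v)) (T.B (u + (0 : ℝ) • h) (u + (0 : ℝ) • h), T.B v v,
      T.one - T.B (u + (0 : ℝ) • h) (u + (0 : ℝ) • h) - T.B v v) := by
    rw [zero_smul, add_zero]; exact (hd _).hasFDerivAt
  have h5 := h4.comp_hasDerivAt (0 : ℝ) h3
  have h6 := h1.unique h5
  have h7 : ((2 : ℝ) • T.B u h, (0 : M), -((2 : ℝ) • T.B u h)) =
      (2 : ℝ) • (T.B u h, (0 : M), (0 : M)) - (2 : ℝ) • ((0 : M), (0 : M), T.B u h) := by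
    ext <;> simp
  rw [h7, map_sub, map_smul, map_smul, ← in1 hΘ, ← in3 hΘ] at h6
  rw [inner_sub_left, mul_sub]
  exact h6

theorem g2 (hB : cB) (u v h : V) : inner ℝ (gr2 (T.pf Θ) u v) h =
    2 * inner ℝ (pg2 Θ (T.B u u) (T.B v v) (T.one - T.B u u - T.B v v) -
      pg3 Θ (T.B u u) (T.B v v) (T.one - T.B u u - T.B v v)) (T.B v h) := by
  have hd : Differentiable ℝ (hat Θ) := hΘ.differentiable (by norm_num)
  have hp : DifferentiableAt ℝ (fun z : V × V => T.pf Θ z.1 z.2) (u, v) :=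
    (pfC T hΘ hB).differentiable (by norm_num) (u, v)
  have hm : HasFDerivAt (fun v' : V => ((u, v') : V × V)) (ContinuousLinearMap.inr ℝ V V) v :=
    hasFDerivAt_prodMk_right u v
  have hg0 := HasFDerivAt.comp (g := fun z : V × V => T.pf Θ z.1 z.2)
    (f := fun v' : V => ((u, v') : V × V)) v hp.hasFDerivAt hm
  have hg : DifferentiableAt ℝ (fun v' => T.pf Θ u v') v := hg0.differentiableAt
  have h1 := line hg h
  have h2 := lineB T hB v h
  have h3 : HasDerivAt (fun t : ℝ => ((T.B u u, T.B (v + t • h) (v + t • h),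
      T.one - T.B u u - T.B (v + t • h) (v + t • h)) : M × M × M))
      (0, (2 : ℝ) • T.B v h, -((2 : ℝ) • T.B v h)) 0 := by
    refine (hasDerivAt_const _ _).prodMk (h2.prodMk ?_)
    have := h2.const_sub (T.one - T.B u u)
    exact this
  have h4 : HasFDerivAt (hat Θ) (fderiv ℝ (hat Θ) (T.B u u, T.B v v,
      T.one - T.B u u - T.B v v)) (T.B u u, T.B (v + (0 : ℝ) • h) (v + (0 : ℝ) • h),
      T.one - T.B u u - T.B (v + (0 : ℝ) • h) (v + (0 : ℝ) • h)) := by
    rw [zero_smul, add_zero]; exact (hd _).hasFDerivAt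
  have h5 := h4.comp_hasDerivAt (0 : ℝ) h3
  have h6 := h1.unique h5
  have h7 : ((0 : M), (2 : ℝ) • T.B v h, -((2 : ℝ) • T.B v h)) =
      (2 : ℝ) • ((0 : M), T.B v h, (0 : M)) - (2 : ℝ) • ((0 : M), (0 : M), T.B v h) := by
    ext <;> simp
  rw [h7, map_sub, map_smul, map_smul, ← in2 hΘ, ← in3 hΘ] at h6
  rw [inner_sub_left, mul_sub]
  exact h6

end two

/-- The sum over the units of the squares of an expression which vanishes except for `q = 0`. -/
theorem one_term {e : ℕ} (f : Fin (e + 1) → ℝ) (h : ∀ q, q ≠ 0 → f q = 0) :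
    ∑ q, f q ^ 2 = f 0 ^ 2 := by
  rw [Finset.sum_eq_single (0 : Fin (e + 1))]
  · intro q _ hq
    rw [h q hq]; norm_num
  · intro h; exact absurd (Finset.mem_univ _) h

end JN

open JN in
theorem prfN (_hclPair : clPair) (_hcTri : cTri) (hcB : cB) : cN := by
  intro V _ _ _ e Ψ M _ _ _ T Θ hΘ
  obtain ⟨hB1, hadd, hsmul, hJJ, hJs, hJ0, hneg, hJu, hinn, htri⟩ := hcB V e Ψ M T
  have hBc : Continuous (fun z : V × V => T.B z.1 z.2) := hB1.continuous
  have hd : Continuous (hat Θ) := hΘ.continuous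
  have hbb : Continuous (fun z : V × V × V =>
      ((T.B z.1 z.1, T.B z.2.1 z.2.1, T.B z.2.2 z.2.2) : M × M × M)) := by
    refine Continuous.prodMk ?_ (Continuous.prodMk ?_ ?_)
    · exact hBc.comp (continuous_fst.prodMk continuous_fst)
    · exact hBc.comp ((continuous_fst.comp continuous_snd).prodMk
        (continuous_fst.comp continuous_snd))
    · exact hBc.comp ((continuous_snd.comp continuous_snd).prodMk
        (continuous_snd.comp continuous_snd))
  refine ⟨pfC T hΘ hcB, ?_, ?_, ?_, ?_⟩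
  · intro u v
    unfold Hrm.pf
    rw [hneg, hneg]
    exact ⟨rfl, rfl⟩
  · exact hd.comp hbb
  · intro q
    unfold Co3 Hrm.dd
    refine continuous_const.mul (Continuous.inner ?_ ?_)
    · exact ((ct2 hΘ).comp hbb).sub ((ct3 hΘ).comp hbb)
    · exact hBc.comp ((continuous_fst.comp continuous_snd).prodMk
        ((Ψ.fr.J q).continuous.comp (continuous_snd.comp continuous_snd)))
  · intro u v w h
    have hs : T.one - T.B u u - T.B v v = T.B w w := by
      rw [← T.sum u v w h]; abel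
    have hB0 : ∀ z, T.B z (Ψ.fr.J 0 z) = T.B z z := fun z => by rw [Ψ.fr.J0]
    refine ⟨?_, ?_, ?_, ?_⟩
    · unfold Hrm.pf Hrm.ev
      rw [hs]
    · unfold Frm.n2
      rw [JKF.parseval Ψ h (gr2 (T.pf Θ) u v)]
      have h1 : ∑ q, (inner ℝ (gr2 (T.pf Θ) u v) (Ψ.fr.J q v)) ^ 2 =
          (inner ℝ (gr2 (T.pf Θ) u v) v) ^ 2 := by
        rw [one_term (fun q => inner ℝ (gr2 (T.pf Θ) u v) (Ψ.fr.J q v))]
        · simp only [Ψ.fr.J0]
        · intro q hq
          rw [g2 T hΘ hcB, hJ0 q hq, inner_zero_right, mul_zero]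
      have h2 : ∑ q, (inner ℝ (gr2 (T.pf Θ) u v) (Ψ.fr.J q w)) ^ 2 =
          ∑ q, T.dd q Θ u v w ^ 2 := by
        refine Finset.sum_congr rfl fun q _ => ?_
        rw [g2 T hΘ hcB, hs]
        rfl
      rw [h1, h2]
      ring
    · unfold Frm.n1
      rw [JKF.parseval Ψ h (gr1 (T.pf Θ) u v)]
      have h1 : ∑ q, (inner ℝ (gr1 (T.pf Θ) u v) (Ψ.fr.J q u)) ^ 2 =
          (inner ℝ (gr1 (T.pf Θ) u v) u) ^ 2 := by
        rw [one_term (fun q => inner ℝ (gr1 (T.pf Θ) u v) (Ψ.fr.J q u))]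
        · simp only [Ψ.fr.J0]
        · intro q hq
          rw [g1 T hΘ hcB, hJ0 q hq, inner_zero_right, mul_zero]
      have h2 : ∑ q, (inner ℝ (gr1 (T.pf Θ) u v) (Ψ.fr.J q w)) ^ 2 =
          ∑ q, T.dd q (s12 Θ) v u w ^ 2 := by
        refine Finset.sum_congr rfl fun q _ => ?_
        rw [g1 T hΘ hcB, hs]
        rfl
      rw [h1, h2]
      ring
    · refine Finset.sum_congr rfl fun q _ => ?_
      have h1 : T.B v (Ψ.fr.Js q u) = T.B u (Ψ.fr.J q v) := by
        rw [hJs, T.symm]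
      have h2 : (inner ℝ (pg2 Θ (T.B u u) (T.B v v) (T.B w w) -
          pg1 Θ (T.B u u) (T.B v v) (T.B w w)) (T.B v (Ψ.fr.J q u)) : ℝ) ^ 2 =
          (inner ℝ (pg2 Θ (T.B u u) (T.B v v) (T.B w w) -
          pg1 Θ (T.B u u) (T.B v v) (T.B w w)) (T.B u (Ψ.fr.J q v))) ^ 2 := by
        by_cases hq : q = 0
        · rw [hq, Ψ.fr.J0, Ψ.fr.J0, T.symm v u]
        · have h3 : T.B v (Ψ.fr.J q u) = -T.B u (Ψ.fr.J q v) := by
            rw [← h1]
            unfold Frm.Js
            rw [if_neg hq]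
            have := hsmul (-1) v (Ψ.fr.J q u)
            rw [neg_smul, one_smul, neg_smul, one_smul] at this
            rw [this, neg_neg]
          rw [h3, inner_neg_right, neg_sq]
      have h4 : T.dd q (s13 Θ) w v u = 2 * inner ℝ (pg2 Θ (T.B u u) (T.B v v) (T.B w w) -
          pg1 Θ (T.B u u) (T.B v v) (T.B w w)) (T.B v (Ψ.fr.J q u)) := rfl
      have h5 : Ψ.fr.om q (T.pf Θ) u v = -(2 * inner ℝ (pg2 Θ (T.B u u) (T.B v v) (T.B w w) -
          pg1 Θ (T.B u u) (T.B v v) (T.B w w)) (T.B u (Ψ.fr.J q v))) := by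
        unfold Frm.om
        rw [g1 T hΘ hcB, g2 T hΘ hcB, hs, h1, inner_sub_left, inner_sub_left, inner_sub_left]
        ring
      rw [h4, h5, neg_sq, mul_pow, mul_pow, h2]

end Pool.Agent.Work.MP_408f4b_gt.A2
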