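import Pool.Agent.Work.MP_408f4b_gt.A2.Stmts

set_option autoImplicit false

/-!
# The nearest point to the origin; reversal of chords
-/

namespace Pool.Agent.Work.MP_408f4b_gt.A2

open MeasureTheory Set Filter Topology Pool.Agent.Work.MP_408f4b_gt.Q

namespace JNear

theorem main {m : ℕ} {L : ℝ} {x y : ℝ → ℝ} (hE : cEqn) (hm : 1 ≤ m) (hL : 0 < L)
    (hcrv : Crv3 m 0 L x y) (hc0 : x 0 * deriv x 0 + y 0 * deriv y 0 = -1)
    (hcL : x L * deriv x L + y L * deriv y L = 1) :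
    ∃ s₀ ∈ Ioo 0 L, x s₀ * deriv x s₀ + y s₀ * deriv y s₀ = 0 ∧
    (∀ s ∈ Ico 0 s₀, x s * deriv x s + y s * deriv y s < 0) ∧
    (∀ s ∈ Ioc s₀ L, 0 < x s * deriv x s + y s * deriv y s) ∧
    (x s₀ * deriv y s₀ - y s₀ * deriv x s₀) ^ 2 = x s₀ ^ 2 + y s₀ ^ 2 := by
  have h0 : (0 : ℝ) ∈ Icc 0 L := ⟨le_refl _, hL.le⟩
  have h1 : L ∈ Icc 0 L := ⟨hL.le, le_refl _⟩
  have hwt : ∀ s ∈ Icc 0 L, 0 < w3 m x y s := fun s hs =>
    (hE m 0 L x y hm hL hcrv s hs).2.2.1
  have hder : ∀ s ∈ Icc 0 L,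
      HasDerivAt (fun t => w3 m x y t * (x t * deriv x t + y t * deriv y t))
        ((3 * (m : ℝ) + 1) * w3 m x y s) s := fun s hs =>
    (hE m 0 L x y hm hL hcrv s hs).2.2.2.2.2.2.2.2.1
  set F : ℝ → ℝ := fun t => w3 m x y t * (x t * deriv x t + y t * deriv y t) with hF
  have hpq : (0 : ℝ) < 3 * (m : ℝ) + 1 := by positivity
  have hcont : ContinuousOn F (Icc 0 L) := fun s hs =>
    (hder s hs).continuousAt.continuousWithinAt
  have hmono : StrictMonoOn F (Icc 0 L) := by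
    apply strictMonoOn_of_deriv_pos (convex_Icc 0 L) hcont
    intro s hs
    have hs' : s ∈ Icc 0 L := interior_subset hs
    rw [(hder s hs').deriv]
    exact mul_pos hpq (hwt s hs')
  have hF0 : F 0 < 0 := by
    have := hwt 0 h0
    change w3 m x y 0 * (x 0 * deriv x 0 + y 0 * deriv y 0) < 0
    rw [hc0]; linarith
  have hFL : 0 < F L := by
    have := hwt L h1
    change 0 < w3 m x y L * (x L * deriv x L + y L * deriv y L)
    rw [hcL]; linarith
  obtain ⟨s₀, hs₀, hFs⟩ := intermediate_value_Ioo hL.le hcont ⟨hF0, hFL⟩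
  have hs₀' : s₀ ∈ Icc 0 L := Ioo_subset_Icc_self hs₀
  have hzero : x s₀ * deriv x s₀ + y s₀ * deriv y s₀ = 0 := by
    have hw := hwt s₀ hs₀'
    have h2 : w3 m x y s₀ * (x s₀ * deriv x s₀ + y s₀ * deriv y s₀) = 0 := hFs
    rcases mul_eq_zero.1 h2 with h3 | h3
    · exact absurd h3 hw.ne'
    · exact h3
  refine ⟨s₀, hs₀, hzero, ?_, ?_, ?_⟩
  · intro s hs
    have hs' : s ∈ Icc 0 L := ⟨hs.1, hs.2.le.trans hs₀'.2⟩
    have h2 : F s < F s₀ := hmono hs' hs₀' hs.2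
    rw [hFs] at h2
    have hw := hwt s hs'
    by_contra hcon
    have h3 : 0 ≤ w3 m x y s * (x s * deriv x s + y s * deriv y s) :=
      mul_nonneg hw.le (not_lt.1 hcon)
    exact absurd h2 (not_lt.2 h3)
  · intro s hs
    have hs' : s ∈ Icc 0 L := ⟨hs₀'.1.trans hs.1.le, hs.2⟩
    have h2 : F s₀ < F s := hmono hs₀' hs' hs.1
    rw [hFs] at h2
    have hw := hwt s hs'
    by_contra hcon
    have h3 : w3 m x y s * (x s * deriv x s + y s * deriv y s) ≤ 0 :=
      mul_nonpos_of_nonneg_of_nonpos hw.le (not_lt.1 hcon)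
    exact absurd h2 (not_lt.2 h3)
  · have hu : deriv x s₀ ^ 2 + deriv y s₀ ^ 2 = 1 := (hcrv.2.2 s₀ hs₀').2.2.1
    have h2 : (x s₀ * deriv y s₀ - y s₀ * deriv x s₀) ^ 2 =
        (x s₀ ^ 2 + y s₀ ^ 2) * (deriv x s₀ ^ 2 + deriv y s₀ ^ 2) -
          (x s₀ * deriv x s₀ + y s₀ * deriv y s₀) ^ 2 := by ring
    rw [h2, hu, hzero]
    ring

theorem deriv_rev (L : ℝ) (x : ℝ → ℝ) (s : ℝ) :
    deriv (fun t => x (L - t)) s = -deriv x (L - s) := deriv_comp_const_sub x L s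

theorem deriv2_rev (L : ℝ) (x : ℝ → ℝ) (s : ℝ) :
    deriv (deriv (fun t => x (L - t))) s = deriv (deriv x) (L - s) := by
  have h : deriv (fun t => x (L - t)) = fun s => -deriv x (L - s) := by
    funext s
    exact deriv_rev L x s
  have h2 : deriv (fun s => -deriv x (L - s)) s = -deriv (fun s => deriv x (L - s)) s :=
    deriv.fun_neg
  rw [h, h2, deriv_comp_const_sub (deriv x) L s, neg_neg]

theorem k3_rev (m : ℕ) (L : ℝ) (x y : ℝ → ℝ) (s : ℝ) :
    k3 m (fun t => x (L - t)) (fun t => y (L - t)) s = -k3 m x y (L - s) := by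
  unfold k3
  rw [deriv_rev, deriv_rev]
  ring

theorem crv_rev {m : ℕ} {L : ℝ} {x y : ℝ → ℝ} (h : Crv3 m 0 L x y) :
    Crv3 m 0 L (fun s => x (L - s)) (fun s => y (L - s)) := by
  refine ⟨h.1.comp (contDiff_const.sub contDiff_id), h.2.1.comp (contDiff_const.sub contDiff_id),
    fun s hs => ?_⟩
  obtain ⟨h1, h2, h3, h4⟩ := h.2.2 (L - s) ⟨by linarith [hs.2], by linarith [hs.1]⟩
  refine ⟨h1, h2, ?_, ?_⟩
  · rw [deriv_rev, deriv_rev, neg_sq, neg_sq]
    exact h3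
  · rw [k3_rev, deriv_rev, deriv_rev, deriv2_rev, deriv2_rev]
    linarith

theorem chd_rev {m : ℕ} {L : ℝ} {x y : ℝ → ℝ} (h : Chd3 m L x y) :
    Chd3 m L (fun s => x (L - s)) (fun s => y (L - s)) where
  L_pos := h.L_pos
  curve := crv_rev h.curve
  injOn := by
    intro s hs t ht hst
    have h1 : L - s ∈ Icc 0 L := ⟨by linarith [hs.2], by linarith [hs.1]⟩
    have h2 : L - t ∈ Icc 0 L := ⟨by linarith [ht.2], by linarith [ht.1]⟩
    have h3 := h.injOn h1 h2 hst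
    linarith
  final := by
    obtain ⟨h1, h2, h3⟩ := h.initial
    rw [deriv_rev, deriv_rev]
    simp only [sub_self]
    exact ⟨h1, by rw [h2, neg_neg], by rw [h3, neg_neg]⟩
  initial := by
    obtain ⟨h1, h2, h3⟩ := h.final
    rw [deriv_rev, deriv_rev]
    simp only [sub_zero]
    exact ⟨h1, by rw [h2], by rw [h3]⟩

end JNear

/-- The nearest point to the origin is unique; a chord can be reversed. -/
theorem prfNear (hcEqn : cEqn) : cNear := by
  refine ⟨?_, fun _ _ _ _ h => JNear.chd_rev h⟩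
  intro m L x y hm hC
  refine JNear.main hcEqn hm hC.L_pos hC.curve ?_ ?_
  · rw [hC.initial.2.1, hC.initial.2.2]
    linarith [hC.initial.1]
  · rw [hC.final.2.1, hC.final.2.2]
    linarith [hC.final.1]

end Pool.Agent.Work.MP_408f4b_gt.A2
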