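import Pool.Agent.Work.MP_408f4b_gt.A2.Stmts

set_option autoImplicit false

/-!
# Curves with one boundary component
-/

namespace Pool.Agent.Work.MP_408f4b_gt.A2

open MeasureTheory Set Filter Topology Pool.Agent.Work.MP_408f4b_gt.Q

namespace JOne

theorem cont_w3 {m : ℕ} {x y : ℝ → ℝ} (hx : Continuous x) (hy : Continuous y) :
    Continuous (w3 m x y) := by
  unfold w3 d1 d3
  fun_prop

theorem w3_pos {m : ℕ} {x y : ℝ → ℝ} {s : ℝ} (h1 : 0 < d1 (x s) (y s)) (h3 : 0 < d3 (x s) (y s)) :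
    0 < w3 m x y s := by
  have h : x s + y s = d1 (x s) (y s) + d3 (x s) (y s) := by
    unfold d1 d3
    ring
  unfold w3
  rw [h]
  have h' : 0 < d1 (x s) (y s) + d3 (x s) (y s) := by linarith
  positivity

theorem e_sum (a b : ℝ) : e1 a b + e2 a b + e3 a b = 0 := by
  unfold e1 e2 e3
  have h : √3 ≠ 0 := by positivity
  field_simp
  ring

theorem e_sq (a b : ℝ) : e1 a b ^ 2 + e2 a b ^ 2 + e3 a b ^ 2 = a ^ 2 + b ^ 2 := by
  have h : √3 ≠ 0 := by positivity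
  have h3 : √3 ^ 2 = 3 := Real.sq_sqrt (by norm_num)
  have h1 : e1 a b ^ 2 + e2 a b ^ 2 + e3 a b ^ 2 =
      (a + b) ^ 2 / 2 + (a - b) ^ 2 * (3 / (2 * √3 ^ 2)) := by
    unfold e1 e2 e3
    field_simp
    ring
  rw [h1, h3]
  ring

theorem deriv_e1 {x y : ℝ → ℝ} (hx : ContDiff ℝ 2 x) (hy : ContDiff ℝ 2 y) (s : ℝ) :
    deriv (fun t => e1 (x t) (y t)) s = e1 (deriv x s) (deriv y s) := by
  have h1 : HasDerivAt x (deriv x s) s := (hx.differentiable (by norm_num) s).hasDerivAt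
  have h2 : HasDerivAt y (deriv y s) s := (hy.differentiable (by norm_num) s).hasDerivAt
  unfold e1
  exact (((h1.add h2).div_const 2).add ((h1.sub h2).div_const (2 * √3))).deriv

theorem deriv_e2 {x y : ℝ → ℝ} (hx : ContDiff ℝ 2 x) (hy : ContDiff ℝ 2 y) (s : ℝ) :
    deriv (fun t => e2 (x t) (y t)) s = e2 (deriv x s) (deriv y s) := by
  have h1 : HasDerivAt x (deriv x s) s := (hx.differentiable (by norm_num) s).hasDerivAt
  have h2 : HasDerivAt y (deriv y s) s := (hy.differentiable (by norm_num) s).hasDerivAt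
  unfold e2
  exact ((h2.sub h1).div_const √3).deriv

theorem deriv_e3 {x y : ℝ → ℝ} (hx : ContDiff ℝ 2 x) (hy : ContDiff ℝ 2 y) (s : ℝ) :
    deriv (fun t => e3 (x t) (y t)) s = e3 (deriv x s) (deriv y s) := by
  have h1 : HasDerivAt x (deriv x s) s := (hx.differentiable (by norm_num) s).hasDerivAt
  have h2 : HasDerivAt y (deriv y s) s := (hy.differentiable (by norm_num) s).hasDerivAt
  unfold e3
  exact (((h1.add h2).neg.div_const 2).add ((h1.sub h2).div_const (2 * √3))).deriv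

theorem cd_e1 {x y : ℝ → ℝ} (hx : ContDiff ℝ 2 x) (hy : ContDiff ℝ 2 y) :
    ContDiff ℝ 2 (fun t => e1 (x t) (y t)) := by
  unfold e1
  exact ((hx.add hy).div_const 2).add ((hx.sub hy).div_const (2 * √3))

theorem cd_e2 {x y : ℝ → ℝ} (hx : ContDiff ℝ 2 x) (hy : ContDiff ℝ 2 y) :
    ContDiff ℝ 2 (fun t => e2 (x t) (y t)) := by
  unfold e2
  exact (hy.sub hx).div_const √3

theorem cd_e3 {x y : ℝ → ℝ} (hx : ContDiff ℝ 2 x) (hy : ContDiff ℝ 2 y) :
    ContDiff ℝ 2 (fun t => e3 (x t) (y t)) := by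
  unfold e3
  exact ((hx.add hy).neg.div_const 2).add ((hx.sub hy).div_const (2 * √3))

section cont

variable {V : Type} [NormedAddCommGroup V] [InnerProductSpace ℝ V] [CompleteSpace V] {e : ℕ}
  {Ψ : Fr3 V e} {M : Type} [NormedAddCommGroup M] [InnerProductSpace ℝ M] [CompleteSpace M]
  (T : Hrm Ψ M)

/-- continuity of the averages with respect to a parameter -/
theorem cont_Ex (hcAv : cAv) (hcB : cB) (Θ : ℝ → M → M → M → ℝ)
    (hΘ : Continuous (fun p : ℝ × M × M × M => Θ p.1 p.2.1 p.2.2.1 p.2.2.2)) :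
    Continuous (fun s => T.Ex (Θ s)) := by
  obtain ⟨hB, -⟩ := hcB V e Ψ M T
  have hBc : Continuous (fun z : V × V => T.B z.1 z.2) := hB.continuous
  obtain ⟨-, -, -, -, h⟩ := hcAv V e Ψ
  have h1 : ∀ g : ℝ × V × V × V → V, Continuous g → Continuous (fun z => T.B (g z) (g z)) :=
    fun g hg => hBc.comp (hg.prodMk hg)
  refine h ℝ (fun s => T.ev (Θ s)) ?_
  have h2 := h1 (fun z => z.2.1) (by fun_prop)
  have h3 := h1 (fun z => z.2.2.1) (by fun_prop)
  have h4 := h1 (fun z => z.2.2.2) (by fun_prop)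
  have h5 : Continuous (fun z : ℝ × V × V × V => z.1) := continuous_fst
  exact hΘ.comp (h5.prodMk (h2.prodMk (h3.prodMk h4)))

variable {Θ : ℝ → M → M → M → ℝ}
  (hΘ : Continuous (fun p : ℝ × M × M × M => Θ p.1 p.2.1 p.2.2.1 p.2.2.2))

include hΘ

omit [InnerProductSpace ℝ M] [CompleteSpace M] in
theorem cont_perm {g1 g2 g3 : ℝ × M × M × M → M} (h1 : Continuous g1) (h2 : Continuous g2)
    (h3 : Continuous g3) :
    Continuous (fun p : ℝ × M × M × M => Θ p.1 (g1 p) (g2 p) (g3 p)) :=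
  hΘ.comp (continuous_fst.prodMk (h1.prodMk (h2.prodMk h3)))

theorem cont_pX : Continuous (fun p : ℝ × M × M × M => pX (Θ p.1) p.2.1 p.2.2.1 p.2.2.2 ^ 2) := by
  have a1 : Continuous (fun p : ℝ × M × M × M => p.2.1) := by fun_prop
  have a2 : Continuous (fun p : ℝ × M × M × M => p.2.2.1) := by fun_prop
  have a3 : Continuous (fun p : ℝ × M × M × M => p.2.2.2) := by fun_prop
  have b1 := cont_perm hΘ a1 a2 a3
  have b2 := cont_perm hΘ a1 a3 a2
  have b3 := cont_perm hΘ a2 a1 a3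
  have b4 := cont_perm hΘ a2 a3 a1
  have b5 := cont_perm hΘ a3 a1 a2
  have b6 := cont_perm hΘ a3 a2 a1
  unfold pX
  fun_prop

theorem cont_pY : Continuous (fun p : ℝ × M × M × M => pY (Θ p.1) p.2.1 p.2.2.1 p.2.2.2 ^ 2) := by
  have a1 : Continuous (fun p : ℝ × M × M × M => p.2.1) := by fun_prop
  have a2 : Continuous (fun p : ℝ × M × M × M => p.2.2.1) := by fun_prop
  have a3 : Continuous (fun p : ℝ × M × M × M => p.2.2.2) := by fun_prop
  have b1 := cont_perm hΘ a1 a2 a3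
  have b2 := cont_perm hΘ a1 a3 a2
  have b3 := cont_perm hΘ a2 a1 a3
  have b4 := cont_perm hΘ a2 a3 a1
  have b5 := cont_perm hΘ a3 a1 a2
  have b6 := cont_perm hΘ a3 a2 a1
  unfold pY
  fun_prop

theorem cont_pN : Continuous (fun p : ℝ × M × M × M => pN (Θ p.1) p.2.1 p.2.2.1 p.2.2.2 ^ 2) := by
  have a1 : Continuous (fun p : ℝ × M × M × M => p.2.1) := by fun_prop
  have a2 : Continuous (fun p : ℝ × M × M × M => p.2.2.1) := by fun_prop
  have a3 : Continuous (fun p : ℝ × M × M × M => p.2.2.2) := by fun_prop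
  have b1 := cont_perm hΘ a1 a2 a3
  have b2 := cont_perm hΘ a1 a3 a2
  have b3 := cont_perm hΘ a2 a1 a3
  have b4 := cont_perm hΘ a2 a3 a1
  have b5 := cont_perm hΘ a3 a1 a2
  have b6 := cont_perm hΘ a3 a2 a1
  unfold pN
  fun_prop

theorem cont_pS : Continuous (fun p : ℝ × M × M × M => pS (Θ p.1) p.2.1 p.2.2.1 p.2.2.2 ^ 2) := by
  have a1 : Continuous (fun p : ℝ × M × M × M => p.2.1) := by fun_prop
  have a2 : Continuous (fun p : ℝ × M × M × M => p.2.2.1) := by fun_prop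
  have a3 : Continuous (fun p : ℝ × M × M × M => p.2.2.2) := by fun_prop
  have b1 := cont_perm hΘ a1 a2 a3
  have b2 := cont_perm hΘ a1 a3 a2
  have b3 := cont_perm hΘ a2 a1 a3
  have b4 := cont_perm hΘ a2 a3 a1
  have b5 := cont_perm hΘ a3 a1 a2
  have b6 := cont_perm hΘ a3 a2 a1
  unfold pS
  fun_prop

end cont

/-- the boundary terms tend to zero -/
theorem Bt3_lim (hcAv : cAv) (hcB : cB) {V : Type} [NormedAddCommGroup V] [InnerProductSpace ℝ V]
    [CompleteSpace V] {e : ℕ} {Ψ : Fr3 V e} {M : Type} [NormedAddCommGroup M]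
    [InnerProductSpace ℝ M] [CompleteSpace M] (T : Hrm Ψ M) (f : M → ℝ) (x y : ℝ → ℝ)
    (hU : Continuous (fun p : ℝ × M × M × M => Us f x y p.1 p.2.1 p.2.2.1 p.2.2.2))
    (hx : ContDiff ℝ 2 x) (hy : ContDiff ℝ 2 y) (hx0 : 0 < x 0) (hy0 : 0 < y 0)
    (hw0 : w3 (e + 1) x y 0 = 0) : Tendsto (Bt3 T f x y) (𝓝[>] 0) (𝓝 0) := by
  have hxc : ContinuousAt x 0 := hx.continuous.continuousAt
  have hyc : ContinuousAt y 0 := hy.continuous.continuousAt
  have hdxc : ContinuousAt (deriv x) 0 := (hx.continuous_deriv (by norm_num)).continuousAt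
  have hdyc : ContinuousAt (deriv y) 0 := (hy.continuous_deriv (by norm_num)).continuousAt
  have hwc : ContinuousAt (w3 (e + 1) x y) 0 :=
    (cont_w3 hx.continuous hy.continuous).continuousAt
  have k1 : ContinuousAt (fun s => T.Ex (fun X Y Z => pX (Us f x y s) X Y Z ^ 2)) 0 :=
    (cont_Ex T hcAv hcB (fun s X Y Z => pX (Us f x y s) X Y Z ^ 2) (cont_pX hU)).continuousAt
  have k2 : ContinuousAt (fun s => T.Ex (fun X Y Z => pY (Us f x y s) X Y Z ^ 2)) 0 :=
    (cont_Ex T hcAv hcB (fun s X Y Z => pY (Us f x y s) X Y Z ^ 2) (cont_pY hU)).continuousAt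
  have k3 : ContinuousAt (fun s => T.Ex (fun X Y Z => pN (Us f x y s) X Y Z ^ 2)) 0 :=
    (cont_Ex T hcAv hcB (fun s X Y Z => pN (Us f x y s) X Y Z ^ 2) (cont_pN hU)).continuousAt
  have k4 : ContinuousAt (fun s => T.Ex (fun X Y Z => pS (Us f x y s) X Y Z ^ 2)) 0 :=
    (cont_Ex T hcAv hcB (fun s X Y Z => pS (Us f x y s) X Y Z ^ 2) (cont_pS hU)).continuousAt
  have k5 : ContinuousAt (fun s => T.Ex (Us f x y s)) 0 :=
    (cont_Ex T hcAv hcB (Us f x y) hU).continuousAt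
  have hc : ContinuousAt (Bt3 T f x y) 0 := by
    unfold Bt3
    refine hwc.mul (((ContinuousAt.mul continuousAt_const
      (((hdxc.div hxc hx0.ne').mul k1).add ((hdyc.div hyc hy0.ne').mul k2))).add
      (((hdxc.add hdyc).div (hxc.add hyc) (add_pos hx0 hy0).ne').mul k3)).add
      ((((hxc.mul hdxc).add (hyc.mul hdyc)).div ((hxc.pow 2).add (hyc.pow 2))
        (add_pos (pow_pos hx0 2) (pow_pos hy0 2)).ne').mul
        (k4.sub (k5.pow 2))))
  have h0 : Bt3 T f x y 0 = 0 := by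
    unfold Bt3
    rw [hw0, zero_mul]
  have h := hc.tendsto
  rw [h0] at h
  exact h.mono_left nhdsWithin_le_nhds

end JOne

open JOne in
theorem prfOne (_hcEqn : cEqn) (hcAv : cAv) (_hcInt : cInt) (hcB : cB) (_hcPar : cPar) (hcPt : cPt)
    (hcMain : cMain) (hcBt : cBt) : cOne := by
  intro V _ _ _ e Ψ M _ _ _ T f L x y hf hL0 hx hy hc hc1 hdx hdy hx0 hy0 hd hEx
  -- facts on the curve
  have hcur : ∀ s ∈ Ioc 0 L, 0 < d1 (x s) (y s) ∧ 0 < d3 (x s) (y s) ∧
      deriv x s ^ 2 + deriv y s ^ 2 = 1 := by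
    intro s hs
    obtain ⟨-, -, h⟩ := hc (s / 2) ⟨by linarith [hs.1], by linarith [hs.1, hs.2]⟩
    obtain ⟨h1, h2, h3, -⟩ := h s ⟨by linarith [hs.1], hs.2⟩
    exact ⟨h1, h2, h3⟩
  have hwpos : ∀ s ∈ Ioc 0 L, 0 < w3 (e + 1) x y s := fun s hs =>
    w3_pos (hcur s hs).1 (hcur s hs).2.1
  have hw0 : w3 (e + 1) x y 0 = 0 := by
    unfold w3
    rcases hd with h | h
    · rw [h, zero_mul, zero_mul, zero_pow (Nat.succ_ne_zero e)]
    · rw [h, mul_zero, zero_pow (Nat.succ_ne_zero e)]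
  have hwc : Continuous (w3 (e + 1) x y) := cont_w3 hx.continuous hy.continuous
  obtain ⟨-, hP2, hP3⟩ := hcPt V e Ψ M T f hf
  obtain ⟨-, hUc, -, hGc⟩ := hP3 (fun t => e1 (x t) (y t)) (fun t => e2 (x t) (y t))
    (fun t => e3 (x t) (y t)) (cd_e1 hx hy) (cd_e2 hx hy) (cd_e3 hx hy)
  simp only [deriv_e1 hx hy, deriv_e2 hx hy, deriv_e3 hx hy] at hGc
  have hFc : Continuous (Gs T f x y) := hGc
  have hF0 : ∀ s ∈ Ioc 0 L, 0 ≤ Gs T f x y s := by
    intro s hs
    exact (hP2 (e1 (x s) (y s)) (e2 (x s) (y s)) (e3 (x s) (y s)) (e1 (deriv x s) (deriv y s))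
      (e2 (deriv x s) (deriv y s)) (e3 (deriv x s) (deriv y s)) (e_sum _ _)
      (by rw [e_sq]; exact (hcur s hs).2.2)).2.1
  have hFw : Continuous fun s => Gs T f x y s * w3 (e + 1) x y s := hFc.mul hwc
  have hFw0 : ∀ s ∈ Icc 0 L, 0 ≤ Gs T f x y s * w3 (e + 1) x y s := by
    intro s hs
    rcases hs.1.eq_or_lt with h | h
    · rw [← h, hw0, mul_zero]
    · exact mul_nonneg (hF0 s ⟨h, hs.2⟩) (hwpos s ⟨h, hs.2⟩).le
  -- the inequality on pieces
  have key : ∀ α ∈ Ioo 0 L, Bt3 T f x y L ≤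
      (∫ s in (0 : ℝ)..L, Gs T f x y s * w3 (e + 1) x y s) + Bt3 T f x y α := by
    intro α hα
    have h1 := hcMain V e Ψ M T f α L x y hf hα.2 (hc α hα)
    have h2 : 0 ≤ ∫ s in α..L, T.Ex (Vs f x y s) ^ 2 * w3 (e + 1) x y s :=
      intervalIntegral.integral_nonneg hα.2.le fun s hs =>
        mul_nonneg (sq_nonneg _) (hwpos s ⟨hα.1.trans_le hs.1, hs.2⟩).le
    have h3 : ∫ s in α..L, Gs T f x y s * w3 (e + 1) x y s ≤
        ∫ s in (0 : ℝ)..L, Gs T f x y s * w3 (e + 1) x y s := by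
      rw [← intervalIntegral.integral_add_adjacent_intervals
        (hFw.intervalIntegrable 0 α) (hFw.intervalIntegrable α L)]
      have h6 : 0 ≤ ∫ s in (0 : ℝ)..α, Gs T f x y s * w3 (e + 1) x y s :=
        intervalIntegral.integral_nonneg hα.1.le fun s hs =>
          hFw0 s ⟨hs.1, hs.2.trans hα.2.le⟩
      linarith
    linarith
  -- the limit
  have hlim : Tendsto (Bt3 T f x y) (𝓝[>] 0) (𝓝 0) :=
    Bt3_lim hcAv hcB T f x y hUc hx hy hx0 hy0 hw0
  have hlim2 : Tendsto (fun α => (∫ s in (0 : ℝ)..L, Gs T f x y s * w3 (e + 1) x y s) +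
      Bt3 T f x y α) (𝓝[>] 0)
      (𝓝 ((∫ s in (0 : ℝ)..L, Gs T f x y s * w3 (e + 1) x y s) + 0)) :=
    tendsto_const_nhds.add hlim
  have h := ge_of_tendsto hlim2 (by
    filter_upwards [Ioo_mem_nhdsGT hL0] with α hα
    exact key α hα)
  rw [add_zero] at h
  -- the boundary term
  have hLc := hcur L ⟨hL0, le_refl L⟩
  have hxy : 0 < x L ∧ 0 < y L := by
    obtain ⟨h1, h3, -⟩ := hLc
    have hs : 0 < √3 := by positivity
    have hs3 : √3 ^ 2 = 3 := Real.sq_sqrt (by norm_num)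
    have hs1 : 1 < √3 := by nlinarith
    have e1' : 2 * √3 * x L = (1 + √3) * d1 (x L) (y L) + (√3 - 1) * d3 (x L) (y L) := by
      unfold d1 d3
      ring_nf
    have e2' : 2 * √3 * y L = (√3 - 1) * d1 (x L) (y L) + (1 + √3) * d3 (x L) (y L) := by
      unfold d1 d3
      ring_nf
    have p1 : 0 < 2 * √3 * x L := by
      rw [e1']
      have : 0 < √3 - 1 := by linarith
      positivity
    have p2 : 0 < 2 * √3 * y L := by
      rw [e2']
      have : 0 < √3 - 1 := by linarith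
      positivity
    have p3 : 0 < 2 * √3 := by positivity
    exact ⟨(mul_pos_iff_of_pos_left p3).1 p1, (mul_pos_iff_of_pos_left p3).1 p2⟩
  have hBL := hcBt V e Ψ M T f 1 L x y hf hxy.1 hxy.2 hc1
    (by rw [one_mul]; exact hdx) (by rw [one_mul]; exact hdy)
  rw [hBL, hEx] at h
  have h9 : T.Ex (fun X Y Z => Us f x y L X Y Z ^ 2) * w3 (e + 1) x y L =
      1 * (w3 (e + 1) x y L * (T.Ex (fun X Y Z => Us f x y L X Y Z ^ 2) - 0 ^ 2)) := by ring
  rw [h9]
  exact h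

end Pool.Agent.Work.MP_408f4b_gt.A2
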