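import Pool.Agent.Work.MP_408f4b_gt.A2.Stmts

set_option autoImplicit false

/-!
# Block A2, item Par: decomposition of the norm
-/

namespace Pool.Agent.Work.MP_408f4b_gt.A2

open MeasureTheory Set Filter Topology Pool.Agent.Work.MP_408f4b_gt.Q

namespace JPar

section

variable {V : Type} [NormedAddCommGroup V] [InnerProductSpace ℝ V] [CompleteSpace V]
  {e : ℕ} {Ψ : Fr3 V e} {M : Type} [NormedAddCommGroup M] [InnerProductSpace ℝ M]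
  [CompleteSpace M]

theorem ev_co (hcB : cB) (T : Hrm Ψ M) {Φ : M → M → M → ℝ} (h : Co3 Φ) : Co3 (T.ev Φ) := by
  have hB : Continuous (fun z : V × V => T.B z.1 z.2) := (hcB V e Ψ M T).1.continuous
  have h1 : Continuous (fun u : V => T.B u u) := hB.comp (continuous_id.prodMk continuous_id)
  have h2 : Continuous (fun z : V × V × V =>
      ((T.B z.1 z.1, T.B z.2.1 z.2.1, T.B z.2.2 z.2.2) : M × M × M)) :=
    (h1.comp continuous_fst).prodMk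
      ((h1.comp (continuous_fst.comp continuous_snd)).prodMk
        (h1.comp (continuous_snd.comp continuous_snd)))
  exact h.comp h2

theorem Ex_lin (hcAv : cAv) (hcB : cB) (T : Hrm Ψ M) {Φ Ξ : M → M → M → ℝ} (h : Co3 Φ)
    (h' : Co3 Ξ) (c d : ℝ) :
    T.Ex (fun X Y Z => c * Φ X Y Z + d * Ξ X Y Z) = c * T.Ex Φ + d * T.Ex Ξ :=
  ((hcAv V e Ψ).2.1 _ _ (ev_co hcB T h) (ev_co hcB T h')).1 c d

theorem Ex_mono (hcAv : cAv) (hcB : cB) (T : Hrm Ψ M) {Φ Ξ : M → M → M → ℝ} (h : Co3 Φ)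
    (h' : Co3 Ξ) (hle : ∀ X Y Z, Φ X Y Z ≤ Ξ X Y Z) : T.Ex Φ ≤ T.Ex Ξ :=
  ((hcAv V e Ψ).2.1 _ _ (ev_co hcB T h) (ev_co hcB T h')).2.1 fun _ _ _ _ => hle _ _ _

theorem Ex_const (hcAv : cAv) (T : Hrm Ψ M) (c : ℝ) : T.Ex (fun _ _ _ => c) = c :=
  (hcAv V e Ψ).2.2.1 c

theorem Ex_23 (hcAv : cAv) (hcB : cB) (T : Hrm Ψ M) {Φ : M → M → M → ℝ} (h : Co3 Φ) :
    T.Ex (fun X Y Z => Φ X Z Y) = T.Ex Φ :=
  ((hcAv V e Ψ).1 _ (ev_co hcB T h)).2.2.1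

theorem Ex_12 (hcAv : cAv) (hcB : cB) (T : Hrm Ψ M) {Φ : M → M → M → ℝ} (h : Co3 Φ) :
    T.Ex (fun X Y Z => Φ Y X Z) = T.Ex Φ :=
  ((hcAv V e Ψ).1 _ (ev_co hcB T h)).2.2.2.1

theorem Ex_13 (hcAv : cAv) (hcB : cB) (T : Hrm Ψ M) {Φ : M → M → M → ℝ} (h : Co3 Φ) :
    T.Ex (fun X Y Z => Φ Z Y X) = T.Ex Φ :=
  ((hcAv V e Ψ).1 _ (ev_co hcB T h)).2.2.2.2.1

theorem Ex_c1 (hcAv : cAv) (hcB : cB) (T : Hrm Ψ M) {Φ : M → M → M → ℝ} (h : Co3 Φ) :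
    T.Ex (fun X Y Z => Φ Y Z X) = T.Ex Φ :=
  ((hcAv V e Ψ).1 _ (ev_co hcB T h)).2.2.2.2.2.1

theorem Ex_c2 (hcAv : cAv) (hcB : cB) (T : Hrm Ψ M) {Φ : M → M → M → ℝ} (h : Co3 Φ) :
    T.Ex (fun X Y Z => Φ Z X Y) = T.Ex Φ :=
  ((hcAv V e Ψ).1 _ (ev_co hcB T h)).2.2.2.2.2.2

theorem co23 {Φ : M → M → M → ℝ} (h : Co3 Φ) : Co3 (fun X Y Z => Φ X Z Y) :=
  h.comp (continuous_fst.prodMk ((continuous_snd.comp continuous_snd).prodMk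
    (continuous_fst.comp continuous_snd)))

theorem co12 {Φ : M → M → M → ℝ} (h : Co3 Φ) : Co3 (fun X Y Z => Φ Y X Z) :=
  h.comp ((continuous_fst.comp continuous_snd).prodMk (continuous_fst.prodMk
    (continuous_snd.comp continuous_snd)))

theorem co_c1 {Φ : M → M → M → ℝ} (h : Co3 Φ) : Co3 (fun X Y Z => Φ Y Z X) := co12 (co23 h)

theorem co_c2 {Φ : M → M → M → ℝ} (h : Co3 Φ) : Co3 (fun X Y Z => Φ Z X Y) := co23 (co12 h)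

theorem co13 {Φ : M → M → M → ℝ} (h : Co3 Φ) : Co3 (fun X Y Z => Φ Z Y X) := co23 (co_c1 h)

theorem co_mul {Φ Ξ : M → M → M → ℝ} (h : Co3 Φ) (h' : Co3 Ξ) :
    Co3 (fun X Y Z => Φ X Y Z * Ξ X Y Z) := Continuous.mul h h'

theorem co_lin {Φ Ξ : M → M → M → ℝ} (h : Co3 Φ) (h' : Co3 Ξ) (c d : ℝ) :
    Co3 (fun X Y Z => c * Φ X Y Z + d * Ξ X Y Z) :=
  (continuous_const.mul h).add (continuous_const.mul h')

theorem co_zero : Co3 (fun _ _ _ : M => (0 : ℝ)) := continuous_const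

theorem co_sum {ι : Type} (s : Finset ι) (c : ι → ℝ) (f : ι → M → M → M → ℝ)
    (hf : ∀ i, Co3 (f i)) : Co3 (fun X Y Z => ∑ i ∈ s, c i * f i X Y Z) := by
  classical
  induction s using Finset.induction_on with
  | empty => simpa using (co_zero (M := M))
  | insert i s hi ih =>
    simp only [Finset.sum_insert hi]
    simpa using co_lin (hf i) ih (c i) 1

theorem Ex_sum (hcAv : cAv) (hcB : cB) (T : Hrm Ψ M) {ι : Type} (s : Finset ι) (c : ι → ℝ)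
    (f : ι → M → M → M → ℝ) (hf : ∀ i, Co3 (f i)) :
    T.Ex (fun X Y Z => ∑ i ∈ s, c i * f i X Y Z) = ∑ i ∈ s, c i * T.Ex (f i) := by
  classical
  induction s using Finset.induction_on with
  | empty => simpa using Ex_const hcAv T 0
  | insert i s hi ih =>
    simp only [Finset.sum_insert hi]
    have := Ex_lin hcAv hcB T (hf i) (co_sum s c f hf) (c i) 1
    rw [one_mul, ih] at this
    rw [← this]
    congr 1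
    funext X Y Z
    rw [one_mul]

/-- The six permutations of the arguments. -/
def a6 (Θ : M → M → M → ℝ) (i : Fin 6) (X Y Z : M) : ℝ :=
  ![Θ X Y Z, Θ X Z Y, Θ Y X Z, Θ Y Z X, Θ Z X Y, Θ Z Y X] i

theorem co_a6 {Θ : M → M → M → ℝ} (h : Co3 Θ) (i : Fin 6) : Co3 (a6 Θ i) := by
  fin_cases i
  · exact h
  · exact co23 h
  · exact co12 h
  · exact co_c1 h
  · exact co_c2 h
  · exact co13 h

theorem main (hcAv : cAv) (hcB : cB) (T : Hrm Ψ M) {Θ : M → M → M → ℝ} (h : Co3 Θ) :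
    ∃ β t23 t12 t13 γ : ℝ, ∀ l1 l2 l3 l4 l5 l6 : ℝ,
      T.Ex (fun X Y Z => (l1 * Θ X Y Z + l2 * Θ X Z Y + l3 * Θ Y X Z + l4 * Θ Y Z X +
        l5 * Θ Z X Y + l6 * Θ Z Y X) ^ 2) =
      β * (l1 ^ 2 + l2 ^ 2 + l3 ^ 2 + l4 ^ 2 + l5 ^ 2 + l6 ^ 2) +
      2 * t23 * (l1 * l2 + l3 * l4 + l5 * l6) + 2 * t12 * (l1 * l3 + l2 * l5 + l4 * l6) +
      2 * t13 * (l1 * l6 + l2 * l4 + l3 * l5) +
      2 * γ * (l1 * l4 + l4 * l5 + l5 * l1 + l2 * l6 + l6 * l3 + l3 * l2) := by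
  have hβ := co_mul h h
  have h23 := co_mul h (co23 h)
  have h12 := co_mul h (co12 h)
  have h13 := co_mul h (co13 h)
  have hγ := co_mul h (co_c1 h)
  refine ⟨T.Ex (fun X Y Z => Θ X Y Z * Θ X Y Z), T.Ex (fun X Y Z => Θ X Y Z * Θ X Z Y),
    T.Ex (fun X Y Z => Θ X Y Z * Θ Y X Z), T.Ex (fun X Y Z => Θ X Y Z * Θ Z Y X),
    T.Ex (fun X Y Z => Θ X Y Z * Θ Y Z X), ?_⟩
  intro l1 l2 l3 l4 l5 l6
  have key := Ex_sum hcAv hcB T (Finset.univ : Finset (Fin 6 × Fin 6))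
    (fun p => ![l1, l2, l3, l4, l5, l6] p.1 * ![l1, l2, l3, l4, l5, l6] p.2)
    (fun p X Y Z => a6 Θ p.1 X Y Z * a6 Θ p.2 X Y Z)
    (fun p => co_mul (co_a6 h p.1) (co_a6 h p.2))
  have hfun : (fun X Y Z => (l1 * Θ X Y Z + l2 * Θ X Z Y + l3 * Θ Y X Z + l4 * Θ Y Z X +
        l5 * Θ Z X Y + l6 * Θ Z Y X) ^ 2) = (fun X Y Z => ∑ p : Fin 6 × Fin 6,
        (![l1, l2, l3, l4, l5, l6] p.1 * ![l1, l2, l3, l4, l5, l6] p.2) *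
          (a6 Θ p.1 X Y Z * a6 Θ p.2 X Y Z)) := by
    funext X Y Z
    rw [Fintype.sum_prod_type]
    simp only [Fin.sum_univ_six, a6, Fin.isValue, Matrix.cons_val]
    ring
  rw [hfun, key, Fintype.sum_prod_type]
  simp only [Fin.sum_univ_six, a6, Fin.isValue, Matrix.cons_val]
  -- the table
  have c : ∀ Φ Ξ : M → M → M → ℝ, T.Ex (fun X Y Z => Φ X Y Z * Ξ X Y Z) =
      T.Ex (fun X Y Z => Ξ X Y Z * Φ X Y Z) := by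
    intro Φ Ξ
    congr 1
    funext X Y Z
    ring
  have e22 : T.Ex (fun X Y Z => Θ X Z Y * Θ X Z Y) = T.Ex (fun X Y Z => Θ X Y Z * Θ X Y Z) :=
    Ex_23 hcAv hcB T hβ
  have e33 : T.Ex (fun X Y Z => Θ Y X Z * Θ Y X Z) = T.Ex (fun X Y Z => Θ X Y Z * Θ X Y Z) :=
    Ex_12 hcAv hcB T hβ
  have e44 : T.Ex (fun X Y Z => Θ Y Z X * Θ Y Z X) = T.Ex (fun X Y Z => Θ X Y Z * Θ X Y Z) :=
    Ex_c1 hcAv hcB T hβ
  have e55 : T.Ex (fun X Y Z => Θ Z X Y * Θ Z X Y) = T.Ex (fun X Y Z => Θ X Y Z * Θ X Y Z) :=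
    Ex_c2 hcAv hcB T hβ
  have e66 : T.Ex (fun X Y Z => Θ Z Y X * Θ Z Y X) = T.Ex (fun X Y Z => Θ X Y Z * Θ X Y Z) :=
    Ex_13 hcAv hcB T hβ
  -- t23
  have e21 : T.Ex (fun X Y Z => Θ X Z Y * Θ X Y Z) = T.Ex (fun X Y Z => Θ X Y Z * Θ X Z Y) :=
    c (fun X Y Z => Θ X Z Y) Θ
  have e34 : T.Ex (fun X Y Z => Θ Y X Z * Θ Y Z X) = T.Ex (fun X Y Z => Θ X Y Z * Θ X Z Y) :=
    Ex_12 hcAv hcB T h23
  have e43 : T.Ex (fun X Y Z => Θ Y Z X * Θ Y X Z) = T.Ex (fun X Y Z => Θ X Y Z * Θ X Z Y) :=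
    Ex_c1 hcAv hcB T h23
  have e56 : T.Ex (fun X Y Z => Θ Z X Y * Θ Z Y X) = T.Ex (fun X Y Z => Θ X Y Z * Θ X Z Y) :=
    Ex_c2 hcAv hcB T h23
  have e65 : T.Ex (fun X Y Z => Θ Z Y X * Θ Z X Y) = T.Ex (fun X Y Z => Θ X Y Z * Θ X Z Y) :=
    Ex_13 hcAv hcB T h23
  -- t12
  have e31 : T.Ex (fun X Y Z => Θ Y X Z * Θ X Y Z) = T.Ex (fun X Y Z => Θ X Y Z * Θ Y X Z) :=
    Ex_12 hcAv hcB T h12
  have e25 : T.Ex (fun X Y Z => Θ X Z Y * Θ Z X Y) = T.Ex (fun X Y Z => Θ X Y Z * Θ Y X Z) :=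
    Ex_23 hcAv hcB T h12
  have e52 : T.Ex (fun X Y Z => Θ Z X Y * Θ X Z Y) = T.Ex (fun X Y Z => Θ X Y Z * Θ Y X Z) :=
    Ex_c2 hcAv hcB T h12
  have e46 : T.Ex (fun X Y Z => Θ Y Z X * Θ Z Y X) = T.Ex (fun X Y Z => Θ X Y Z * Θ Y X Z) :=
    Ex_c1 hcAv hcB T h12
  have e64 : T.Ex (fun X Y Z => Θ Z Y X * Θ Y Z X) = T.Ex (fun X Y Z => Θ X Y Z * Θ Y X Z) :=
    Ex_13 hcAv hcB T h12
  -- t13
  have e61 : T.Ex (fun X Y Z => Θ Z Y X * Θ X Y Z) = T.Ex (fun X Y Z => Θ X Y Z * Θ Z Y X) :=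
    Ex_13 hcAv hcB T h13
  have e24 : T.Ex (fun X Y Z => Θ X Z Y * Θ Y Z X) = T.Ex (fun X Y Z => Θ X Y Z * Θ Z Y X) :=
    Ex_23 hcAv hcB T h13
  have e42 : T.Ex (fun X Y Z => Θ Y Z X * Θ X Z Y) = T.Ex (fun X Y Z => Θ X Y Z * Θ Z Y X) :=
    Ex_c1 hcAv hcB T h13
  have e35 : T.Ex (fun X Y Z => Θ Y X Z * Θ Z X Y) = T.Ex (fun X Y Z => Θ X Y Z * Θ Z Y X) :=
    Ex_12 hcAv hcB T h13
  have e53 : T.Ex (fun X Y Z => Θ Z X Y * Θ Y X Z) = T.Ex (fun X Y Z => Θ X Y Z * Θ Z Y X) :=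
    Ex_c2 hcAv hcB T h13
  -- the cycles
  have e41 : T.Ex (fun X Y Z => Θ Y Z X * Θ X Y Z) = T.Ex (fun X Y Z => Θ X Y Z * Θ Y Z X) :=
    c (fun X Y Z => Θ Y Z X) Θ
  have e45 : T.Ex (fun X Y Z => Θ Y Z X * Θ Z X Y) = T.Ex (fun X Y Z => Θ X Y Z * Θ Y Z X) :=
    Ex_c1 hcAv hcB T hγ
  have e54 : T.Ex (fun X Y Z => Θ Z X Y * Θ Y Z X) = T.Ex (fun X Y Z => Θ X Y Z * Θ Y Z X) :=
    (c (fun X Y Z => Θ Z X Y) (fun X Y Z => Θ Y Z X)).trans e45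
  have e51 : T.Ex (fun X Y Z => Θ Z X Y * Θ X Y Z) = T.Ex (fun X Y Z => Θ X Y Z * Θ Y Z X) :=
    Ex_c2 hcAv hcB T hγ
  have e15 : T.Ex (fun X Y Z => Θ X Y Z * Θ Z X Y) = T.Ex (fun X Y Z => Θ X Y Z * Θ Y Z X) :=
    (c Θ (fun X Y Z => Θ Z X Y)).trans e51
  have e26 : T.Ex (fun X Y Z => Θ X Z Y * Θ Z Y X) = T.Ex (fun X Y Z => Θ X Y Z * Θ Y Z X) :=
    Ex_23 hcAv hcB T hγ
  have e62 : T.Ex (fun X Y Z => Θ Z Y X * Θ X Z Y) = T.Ex (fun X Y Z => Θ X Y Z * Θ Y Z X) :=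
    (c (fun X Y Z => Θ Z Y X) (fun X Y Z => Θ X Z Y)).trans e26
  have e63 : T.Ex (fun X Y Z => Θ Z Y X * Θ Y X Z) = T.Ex (fun X Y Z => Θ X Y Z * Θ Y Z X) :=
    Ex_13 hcAv hcB T hγ
  have e36 : T.Ex (fun X Y Z => Θ Y X Z * Θ Z Y X) = T.Ex (fun X Y Z => Θ X Y Z * Θ Y Z X) :=
    (c (fun X Y Z => Θ Y X Z) (fun X Y Z => Θ Z Y X)).trans e63
  have e32 : T.Ex (fun X Y Z => Θ Y X Z * Θ X Z Y) = T.Ex (fun X Y Z => Θ X Y Z * Θ Y Z X) :=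
    Ex_12 hcAv hcB T hγ
  have e23 : T.Ex (fun X Y Z => Θ X Z Y * Θ Y X Z) = T.Ex (fun X Y Z => Θ X Y Z * Θ Y Z X) :=
    (c (fun X Y Z => Θ X Z Y) (fun X Y Z => Θ Y X Z)).trans e32
  rw [e22, e33, e44, e55, e66, e21, e34, e43, e56, e65, e31, e25, e52, e46, e64, e61, e24, e42,
    e35, e53, e41, e45, e54, e51, e15, e26, e62, e63, e36, e32, e23]
  ring

end

end JPar

theorem prfPar (hcAv : cAv) (hcB : cB) : cPar := by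
  intro V _ _ _ e Ψ M _ _ _ T Θ h
  obtain ⟨β, t23, t12, t13, γ, hm⟩ := JPar.main hcAv hcB T h
  have hs : √3 ^ 2 = (3 : ℝ) := Real.sq_sqrt (by norm_num)
  have hs' : (1 : ℝ) / (2 * √3) = √3 / 6 := by
    have : √3 ≠ 0 := by positivity
    field_simp
    nlinarith [hs]
  have hco : Co3 (pS Θ) := by
    have h1 := JPar.co_lin h (JPar.co23 h) (1 / 6) (1 / 6)
    have h2 := JPar.co_lin (JPar.co12 h) (JPar.co_c1 h) (1 / 6) (1 / 6)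
    have h3 := JPar.co_lin (JPar.co_c2 h) (JPar.co13 h) (1 / 6) (1 / 6)
    have h4 := JPar.co_lin (JPar.co_lin h1 h2 1 1) h3 1 1
    convert h4 using 4 with X Y Z
    unfold pS
    ring
  have hES : T.Ex (pS Θ) = T.Ex Θ := by
    have h1 := JPar.Ex_lin hcAv hcB T h (JPar.co23 h) (1 / 6) (1 / 6)
    have h2 := JPar.Ex_lin hcAv hcB T (JPar.co12 h) (JPar.co_c1 h) (1 / 6) (1 / 6)
    have h3 := JPar.Ex_lin hcAv hcB T (JPar.co_c2 h) (JPar.co13 h) (1 / 6) (1 / 6)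
    have h4 := JPar.Ex_lin hcAv hcB T
      (JPar.co_lin h (JPar.co23 h) (1 / 6) (1 / 6))
      (JPar.co_lin (JPar.co12 h) (JPar.co_c1 h) (1 / 6) (1 / 6)) 1 1
    have h5 := JPar.Ex_lin hcAv hcB T
      (JPar.co_lin (JPar.co_lin h (JPar.co23 h) (1 / 6) (1 / 6))
      (JPar.co_lin (JPar.co12 h) (JPar.co_c1 h) (1 / 6) (1 / 6)) 1 1)
      (JPar.co_lin (JPar.co_c2 h) (JPar.co13 h) (1 / 6) (1 / 6)) 1 1
    rw [h4, h3, h2, h1, JPar.Ex_23 hcAv hcB T h, JPar.Ex_12 hcAv hcB T h,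
      JPar.Ex_c1 hcAv hcB T h, JPar.Ex_c2 hcAv hcB T h, JPar.Ex_13 hcAv hcB T h] at h5
    refine Eq.trans (congrArg T.Ex ?_) (h5.trans (by ring))
    funext X Y Z
    unfold pS
    ring
  have hvar : T.Ex (fun X Y Z => (pS Θ X Y Z - T.Ex Θ) ^ 2) =
      T.Ex (fun X Y Z => pS Θ X Y Z ^ 2) - T.Ex Θ ^ 2 := by
    set E := T.Ex Θ with hE
    have hc1 : Co3 (fun _ _ _ : M => (1 : ℝ)) := continuous_const
    have hsq : Co3 (fun X Y Z => pS Θ X Y Z ^ 2) := Continuous.pow hco 2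
    have h1 := JPar.Ex_lin hcAv hcB T hco hc1 (-2 * E) (E ^ 2)
    have h2 := JPar.Ex_lin hcAv hcB T hsq (JPar.co_lin hco hc1 (-2 * E) (E ^ 2)) 1 1
    rw [h1, JPar.Ex_const hcAv T 1, hES] at h2
    refine Eq.trans (congrArg T.Ex ?_) (h2.trans (by ring))
    funext X Y Z
    ring
  have hpos : 0 ≤ T.Ex (fun X Y Z => (pS Θ X Y Z - T.Ex Θ) ^ 2) := by
    have hc0 : Co3 (fun _ _ _ : M => (0 : ℝ)) := continuous_const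
    have hc2 : Co3 (fun X Y Z => (pS Θ X Y Z - T.Ex Θ) ^ 2) :=
      Continuous.pow (Continuous.sub hco continuous_const) 2
    have := JPar.Ex_mono hcAv hcB T hc0 hc2 (fun X Y Z => sq_nonneg _)
    rwa [JPar.Ex_const hcAv T 0] at this
  -- the quadratic forms
  have gen : ∀ (F : M → M → M → ℝ) (l1 l2 l3 l4 l5 l6 : ℝ),
      (∀ X Y Z, F X Y Z = (l1 * Θ X Y Z + l2 * Θ X Z Y + l3 * Θ Y X Z + l4 * Θ Y Z X +
        l5 * Θ Z X Y + l6 * Θ Z Y X) ^ 2) → T.Ex F =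
      β * (l1 ^ 2 + l2 ^ 2 + l3 ^ 2 + l4 ^ 2 + l5 ^ 2 + l6 ^ 2) +
      2 * t23 * (l1 * l2 + l3 * l4 + l5 * l6) + 2 * t12 * (l1 * l3 + l2 * l5 + l4 * l6) +
      2 * t13 * (l1 * l6 + l2 * l4 + l3 * l5) +
      2 * γ * (l1 * l4 + l4 * l5 + l5 * l1 + l2 * l6 + l6 * l3 + l3 * l2) := by
    intro F l1 l2 l3 l4 l5 l6 hF
    rw [← hm l1 l2 l3 l4 l5 l6]
    congr 1
    funext X Y Z
    exact hF X Y Z
  have hX : ∀ X Y Z, pX Θ X Y Z =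
      (1 / 6 + √3 / 18) * Θ X Y Z + (1 / 6 + √3 / 18) * Θ X Z Y + (-(√3 / 9)) * Θ Y X Z +
      (-(1 / 6) + √3 / 18) * Θ Y Z X + (-(√3 / 9)) * Θ Z X Y +
      (-(1 / 6) + √3 / 18) * Θ Z Y X := by
    intro X Y Z
    unfold pX
    rw [div_eq_mul_one_div _ (2 * √3), hs']
    ring
  have hY : ∀ X Y Z, pY Θ X Y Z =
      (1 / 6 - √3 / 18) * Θ X Y Z + (1 / 6 - √3 / 18) * Θ X Z Y + (√3 / 9) * Θ Y X Z +
      (-(1 / 6) - √3 / 18) * Θ Y Z X + (√3 / 9) * Θ Z X Y +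
      (-(1 / 6) - √3 / 18) * Θ Z Y X := by
    intro X Y Z
    unfold pY
    rw [div_eq_mul_one_div _ (2 * √3), hs']
    ring
  have q0 := gen (fun X Y Z => Θ X Y Z ^ 2) 1 0 0 0 0 0 (fun X Y Z => by ring)
  have qX := gen (fun X Y Z => pX Θ X Y Z ^ 2) _ _ _ _ _ _ (fun X Y Z => by rw [hX])
  have qY := gen (fun X Y Z => pY Θ X Y Z ^ 2) _ _ _ _ _ _ (fun X Y Z => by rw [hY])
  have qN := gen (fun X Y Z => pN Θ X Y Z ^ 2) (1 / 6) (-1 / 6) (-1 / 6) (1 / 6) (1 / 6) (-1 / 6)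
    (fun X Y Z => by unfold pN; ring)
  have qS := gen (fun X Y Z => pS Θ X Y Z ^ 2) (1 / 6) (1 / 6) (1 / 6) (1 / 6) (1 / 6) (1 / 6)
    (fun X Y Z => by unfold pS; ring)
  have q23 := gen (fun X Y Z => ((Θ X Y Z - Θ X Z Y) / 2) ^ 2) (1 / 2) (-1 / 2) 0 0 0 0
    (fun X Y Z => by ring)
  have q12 := gen (fun X Y Z => ((Θ X Y Z - Θ Y X Z) / 2) ^ 2) (1 / 2) 0 (-1 / 2) 0 0 0
    (fun X Y Z => by ring)
  have q13 := gen (fun X Y Z => ((Θ X Y Z - Θ Z Y X) / 2) ^ 2) (1 / 2) 0 0 0 0 (-1 / 2)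
    (fun X Y Z => by ring)
  have hd3 : ∀ X Y Z, d3 (pX Θ X Y Z) (pY Θ X Y Z) =
      0 * Θ X Y Z + 0 * Θ X Z Y + (1 / 3) * Θ Y X Z +
      (-(1 / 3)) * Θ Y Z X + (1 / 3) * Θ Z X Y + (-(1 / 3)) * Θ Z Y X := by
    intro X Y Z
    unfold d3
    rw [hX, hY]
    linear_combination (-(1 / 18) * Θ X Y Z - (1 / 18) * Θ X Z Y + (1 / 9) * Θ Y X Z -
      (1 / 18) * Θ Y Z X + (1 / 9) * Θ Z X Y - (1 / 18) * Θ Z Y X) * hs
  have hd1 : ∀ X Y Z, d1 (pX Θ X Y Z) (pY Θ X Y Z) =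
      (1 / 3) * Θ X Y Z + (1 / 3) * Θ X Z Y + (-(1 / 3)) * Θ Y X Z +
      0 * Θ Y Z X + (-(1 / 3)) * Θ Z X Y + 0 * Θ Z Y X := by
    intro X Y Z
    unfold d1
    rw [hX, hY]
    linear_combination ((1 / 18) * Θ X Y Z + (1 / 18) * Θ X Z Y - (1 / 9) * Θ Y X Z +
      (1 / 18) * Θ Y Z X - (1 / 9) * Θ Z X Y + (1 / 18) * Θ Z Y X) * hs
  have hd2 : ∀ X Y Z, pX Θ X Y Z + pY Θ X Y Z =
      (1 / 3) * Θ X Y Z + (1 / 3) * Θ X Z Y + 0 * Θ Y X Z +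
      (-(1 / 3)) * Θ Y Z X + 0 * Θ Z X Y + (-(1 / 3)) * Θ Z Y X := by
    intro X Y Z
    rw [hX, hY]
    ring
  have r3 := gen (fun X Y Z => d3 (pX Θ X Y Z) (pY Θ X Y Z) ^ 2) _ _ _ _ _ _
    (fun X Y Z => by rw [hd3])
  have r1 := gen (fun X Y Z => d1 (pX Θ X Y Z) (pY Θ X Y Z) ^ 2) _ _ _ _ _ _
    (fun X Y Z => by rw [hd1])
  have r2 := gen (fun X Y Z => (pX Θ X Y Z + pY Θ X Y Z) ^ 2) _ _ _ _ _ _
    (fun X Y Z => by rw [hd2])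
  refine ⟨?_, hES, ?_, hvar, ?_, ?_, ?_⟩
  · rw [q0, qX, qY, qN, qS]
    ring_nf
    rw [hs]
    ring
  · linarith
  · rw [q23, r3, qN]
    ring
  · rw [q12, r1, qN]
    ring
  · rw [q13, r2, qN]
    ring

end Pool.Agent.Work.MP_408f4b_gt.A2
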