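import Pool.Agent.Work.MP_408f4b_gt.A2.Stmts

set_option autoImplicit false

/-!
# The averaging operator over the orthogonal vectors: path argument (item Path of block A2)
-/

namespace Pool.Agent.Work.MP_408f4b_gt.A2

open MeasureTheory Set Filter Topology Pool.Agent.Work.MP_408f4b_gt.Q

namespace JPath

variable {V : Type} [NormedAddCommGroup V] [InnerProductSpace ℝ V] [CompleteSpace V] {n e : ℕ}

/-- The average over the first vector does not change if the vector is moved by an element of the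
group. -/
theorem avA (hU : clUnif) (hS : clSig) (Φ : Frm V n e) (φ : V → ℝ) (hφ : Continuous φ)
    (g : Φ.G) : ∫ g', φ (Φ.A g (Φ.A g' Φ.a)) ∂Φ.μ = ∫ g', φ (Φ.A g' Φ.a) ∂Φ.μ := by
  have h1 := hU V n e Φ (fun v => φ (Φ.A g v)) (hφ.comp (Φ.A g).continuous)
  have h2 := hU V n e Φ φ hφ
  have h3 := hS n (Φ.L.symm.toLinearIsometry.comp ((Φ.A g).comp Φ.L.toLinearIsometry))
    (fun x => φ (Φ.L x)) (hφ.comp Φ.L.continuous)
  simp only [Frm.av] at h1 h2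
  rw [h1, h2]
  congr 1
  simpa using h3

/-- Continuous functions on the group are integrable. -/
theorem integ (Φ : Frm V n e) {f : Φ.G → ℝ} (hf : Continuous f) : Integrable f Φ.μ :=
  hf.integrable_of_hasCompactSupport (HasCompactSupport.of_compactSpace f)

theorem integ2 (Φ : Frm V n e) {f : Φ.G × Φ.G → ℝ} (hf : Continuous f) :
    Integrable f (Φ.μ.prod Φ.μ) :=
  hf.integrable_of_hasCompactSupport (HasCompactSupport.of_compactSpace f)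

theorem iadd (Φ : Frm V n e) {f g : Φ.G → ℝ} (hf : Continuous f) (hg : Continuous g) :
    ∫ x, (f x + g x) ∂Φ.μ = ∫ x, f x ∂Φ.μ + ∫ x, g x ∂Φ.μ :=
  integral_add (integ Φ hf) (integ Φ hg)

theorem sqe (Φ : Frm V n e) {f g : Φ.G → ℝ} (hf : Continuous f) (hg : Continuous g) :
    ∫ x, (f x - g x) ^ 2 ∂Φ.μ =
      ∫ x, f x ^ 2 ∂Φ.μ + ∫ x, g x ^ 2 ∂Φ.μ - 2 * ∫ x, f x * g x ∂Φ.μ := by
  have e1 : (fun x => (f x - g x) ^ 2) = fun x => (f x ^ 2 + g x ^ 2) + (-2) * (f x * g x) := by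
    funext x
    ring
  rw [e1, iadd Φ (by fun_prop) (by fun_prop), iadd Φ (by fun_prop) (by fun_prop),
    integral_const_mul]
  ring

theorem contA (Φ : Frm V n e) (v : V) : Continuous (fun g : Φ.G => Φ.A g v) :=
  Φ.cont.comp (Continuous.prodMk continuous_id continuous_const)

end JPath

open JPath in
theorem prfPath (_hclPair : clPair) (hclSig : clSig) (hclAv : clAv) (hclUnif : clUnif)
    (hcTri : cTri) : cPath := by
  intro V _ _ _ e Ψ h hh h0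
  obtain ⟨-, -, -, -, htri⟩ := hcTri V e Ψ
  obtain ⟨hav, -, -⟩ := hclAv V (3 * (e + 1)) e Ψ.fr
  set Φ := Ψ.fr with hΦ
  have ha : ‖Φ.a‖ = 1 := Φ.ha
  have hA : ∀ (g : Φ.G) (v : V), ‖Φ.A g v‖ = ‖v‖ := fun g v => (Φ.A g).norm_map v
  -- the pair
  have hab : Φ.Pair Φ.a Φ.b := ⟨Φ.ha, Φ.hb, Φ.hab⟩
  have hc : ∀ v : V, Continuous (fun g : Φ.G => h (Φ.A g v)) := fun v => hh.comp (contA Φ v)
  -- the squares
  set S : ℝ := ∫ g, h (Φ.A g Φ.a) ^ 2 ∂Φ.μ with hS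
  set R : ℝ := ∫ g, h (Φ.A g Φ.a) * h (Φ.A g Φ.b) ∂Φ.μ with hR
  have hunit : ∀ y : V, ‖y‖ = 1 → ∫ g, h (Φ.A g y) ^ 2 ∂Φ.μ = S := by
    intro y hy
    obtain ⟨z, -, hyz⟩ := htri y y hy hy
    exact (hav (fun u _ => h u ^ 2) (by fun_prop)).2 y z hyz
  -- `D`
  set D : ℝ := 2 * (S - R) with hD
  have hpair : ∀ v w : V, Φ.Pair v w → ∫ g, (h (Φ.A g v) - h (Φ.A g w)) ^ 2 ∂Φ.μ = D := by
    intro v w hvw
    have h1 : ∫ g, h (Φ.A g v) * h (Φ.A g w) ∂Φ.μ = R :=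
      (hav (fun u u' => h u * h u') (by fun_prop)).2 v w hvw
    have h2 := hunit v hvw.1
    have h3 := hunit w hvw.2.1
    rw [sqe Φ (hc v) (hc w), h1, h2, h3, hD]
    ring
  -- paths of length two
  have hpath : ∀ y : V, ‖y‖ = 1 → ∫ g, (h (Φ.A g Φ.a) - h (Φ.A g y)) ^ 2 ∂Φ.μ ≤ 4 * D := by
    intro y hy
    obtain ⟨z, haz, hyz⟩ := htri Φ.a y ha hy
    have h1 := hpair _ _ haz
    have h2 := hpair _ _ hyz
    calc ∫ g, (h (Φ.A g Φ.a) - h (Φ.A g y)) ^ 2 ∂Φ.μ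
        ≤ ∫ g, (2 * (h (Φ.A g Φ.a) - h (Φ.A g z)) ^ 2 +
            2 * (h (Φ.A g y) - h (Φ.A g z)) ^ 2) ∂Φ.μ := by
          refine integral_mono (integ Φ (((hc _).sub (hc _)).pow 2))
            (((integ Φ (((hc _).sub (hc _)).pow 2)).const_mul 2).add
              ((integ Φ (((hc _).sub (hc _)).pow 2)).const_mul 2)) fun g => ?_
          show (h (Φ.A g Φ.a) - h (Φ.A g y)) ^ 2 ≤ 2 * (h (Φ.A g Φ.a) - h (Φ.A g z)) ^ 2 +
            2 * (h (Φ.A g y) - h (Φ.A g z)) ^ 2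
          nlinarith [sq_nonneg ((h (Φ.A g Φ.a) - h (Φ.A g z)) + (h (Φ.A g y) - h (Φ.A g z)))]
      _ = 4 * D := by
          rw [iadd Φ (f := fun g => 2 * (h (Φ.A g Φ.a) - h (Φ.A g z)) ^ 2)
            (g := fun g => 2 * (h (Φ.A g y) - h (Φ.A g z)) ^ 2)
            (continuous_const.mul (((hc _).sub (hc _)).pow 2))
            (continuous_const.mul (((hc _).sub (hc _)).pow 2)), integral_const_mul,
            integral_const_mul, h1, h2]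
          ring
  -- the double integral
  have hcc : Continuous (fun p : Φ.G × Φ.G => h (Φ.A p.2 (Φ.A p.1 Φ.a))) := by
    refine hh.comp (Φ.cont.comp (Continuous.prodMk continuous_snd ?_))
    exact (contA Φ Φ.a).comp continuous_fst
  have hca : Continuous (fun p : Φ.G × Φ.G => h (Φ.A p.2 Φ.a)) := (hc Φ.a).comp continuous_snd
  have hI : ∫ g', (∫ g, (h (Φ.A g Φ.a) - h (Φ.A g (Φ.A g' Φ.a))) ^ 2 ∂Φ.μ) ∂Φ.μ ≤ 4 * D := by
    have hint : Integrable (fun g' => ∫ g, (h (Φ.A g Φ.a) - h (Φ.A g (Φ.A g' Φ.a))) ^ 2 ∂Φ.μ)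
        Φ.μ := (integ2 Φ (f := fun p => (h (Φ.A p.2 Φ.a) - h (Φ.A p.2 (Φ.A p.1 Φ.a))) ^ 2)
          ((hca.sub hcc).pow 2)).integral_prod_left
    calc ∫ g', (∫ g, (h (Φ.A g Φ.a) - h (Φ.A g (Φ.A g' Φ.a))) ^ 2 ∂Φ.μ) ∂Φ.μ
        ≤ ∫ _g', 4 * D ∂Φ.μ := integral_mono hint (integrable_const _) fun g' =>
          hpath _ (by rw [hA]; exact ha)
      _ = 4 * D := by simp
  have hswap : ∫ g', (∫ g, (h (Φ.A g Φ.a) - h (Φ.A g (Φ.A g' Φ.a))) ^ 2 ∂Φ.μ) ∂Φ.μ =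
      ∫ g, (∫ g', (h (Φ.A g Φ.a) - h (Φ.A g (Φ.A g' Φ.a))) ^ 2 ∂Φ.μ) ∂Φ.μ := by
    refine integral_integral_swap ?_
    exact integ2 Φ (f := fun p => (h (Φ.A p.2 Φ.a) - h (Φ.A p.2 (Φ.A p.1 Φ.a))) ^ 2)
      ((hca.sub hcc).pow 2)
  have hinner : ∀ g, ∫ g', (h (Φ.A g Φ.a) - h (Φ.A g (Φ.A g' Φ.a))) ^ 2 ∂Φ.μ =
      h (Φ.A g Φ.a) ^ 2 + S := by
    intro g
    have c1 : Continuous (fun g' : Φ.G => h (Φ.A g (Φ.A g' Φ.a))) :=
      hh.comp ((Φ.A g).continuous.comp (contA Φ Φ.a))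
    have z0 : ∫ g', h (Φ.A g (Φ.A g' Φ.a)) ∂Φ.μ = 0 := by
      rw [avA hclUnif hclSig Φ h hh g]
      exact h0
    have z2 : ∫ g', h (Φ.A g (Φ.A g' Φ.a)) ^ 2 ∂Φ.μ = S :=
      avA hclUnif hclSig Φ (fun v => h v ^ 2) (hh.pow 2) g
    rw [sqe Φ (f := fun _ => h (Φ.A g Φ.a)) continuous_const c1, z2, integral_const_mul, z0]
    simp
  have hfin : ∫ g, (∫ g', (h (Φ.A g Φ.a) - h (Φ.A g (Φ.A g' Φ.a))) ^ 2 ∂Φ.μ) ∂Φ.μ = 2 * S := by
    simp_rw [hinner]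
    rw [iadd Φ (f := fun g => h (Φ.A g Φ.a) ^ 2) (g := fun _ => S) ((hc _).pow 2)
      continuous_const]
    simp
    rw [← hS]
    ring
  show R ≤ 3 / 4 * S
  rw [hswap, hfin, hD] at hI
  linarith

end Pool.Agent.Work.MP_408f4b_gt.A2
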