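import Pool.Agent.Work.MP_408f4b_gt.A2.Stmts

set_option autoImplicit false

/-! Item Pt of block A2: pointwise facts. -/

namespace Pool.Agent.Work.MP_408f4b_gt.A2

open MeasureTheory Set Filter Topology Pool.Agent.Work.MP_408f4b_gt.Q

namespace JPt

section one

variable {M : Type} [NormedAddCommGroup M] [InnerProductSpace ℝ M] [CompleteSpace M]

lemma cont_gradient {f : M → ℝ} (hf : ContDiff ℝ 1 f) : Continuous (gradient f) := by
  unfold gradient
  exact (InnerProductSpace.toDual ℝ M).symm.continuous.comp (hf.continuous_fderiv one_ne_zero)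

lemma gr_aff {f : M → ℝ} (hf : Differentiable ℝ f) (r : ℝ) (g : M → M) (p : M)
    (hg : HasFDerivAt g (r • ContinuousLinearMap.id ℝ M) p) :
    gradient (fun Y => f (g Y)) p = r • gradient f (g p) := by
  have h1 : HasFDerivAt (fun Y => f (g Y)) ((fderiv ℝ f (g p)).comp
      (r • ContinuousLinearMap.id ℝ M)) p := (hf (g p)).hasFDerivAt.comp p hg
  apply ext_inner_right ℝ
  intro h
  rw [real_inner_smul_left, gradient, gradient, InnerProductSpace.toDual_symm_apply,
    InnerProductSpace.toDual_symm_apply, h1.fderiv]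
  simp

lemma grU1 {f : M → ℝ} (hf : Differentiable ℝ f) (x y z : ℝ) (X Y Z : M) :
    gradient (fun X' => Uf f x y z X' Y Z) X = x • gradient f (x • X + y • Y + z • Z) :=
  gr_aff hf x (fun X' => x • X' + y • Y + z • Z) X
    ((((hasFDerivAt_id X).const_smul x).add_const (y • Y)).add_const (z • Z))

lemma grU2 {f : M → ℝ} (hf : Differentiable ℝ f) (x y z : ℝ) (X Y Z : M) :
    gradient (fun Y' => Uf f x y z X Y' Z) Y = y • gradient f (x • X + y • Y + z • Z) :=
  gr_aff hf y (fun Y' => x • X + y • Y' + z • Z) Y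
    ((((hasFDerivAt_id Y).const_smul y).const_add (x • X)).add_const (z • Z))

lemma grU3 {f : M → ℝ} (hf : Differentiable ℝ f) (x y z : ℝ) (X Y Z : M) :
    gradient (fun Z' => Uf f x y z X Y Z') Z = z • gradient f (x • X + y • Y + z • Z) :=
  gr_aff hf z (fun Z' => x • X + y • Y + z • Z') Z
    (((hasFDerivAt_id Z).const_smul z).const_add (x • X + y • Y))

lemma ci_U {f : M → ℝ} (hf : ContDiff ℝ 1 f) (x y z : ℝ) : Ci3 (Uf f x y z) := by
  unfold Ci3 Uf
  exact hf.comp (((contDiff_fst.const_smul x).add ((contDiff_fst.comp contDiff_snd).const_smul y)).add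
    ((contDiff_snd.comp contDiff_snd).const_smul z))

lemma ci_12 {Θ : M → M → M → ℝ} (h : Ci3 Θ) : Ci3 (s12 Θ) := by
  unfold Ci3 s12
  exact ContDiff.comp (g := fun z : M × M × M => Θ z.1 z.2.1 z.2.2) h
    ((contDiff_fst.comp contDiff_snd).prodMk (contDiff_fst.prodMk (contDiff_snd.comp contDiff_snd)))

lemma ci_13 {Θ : M → M → M → ℝ} (h : Ci3 Θ) : Ci3 (s13 Θ) := by
  unfold Ci3 s13
  exact ContDiff.comp (g := fun z : M × M × M => Θ z.1 z.2.1 z.2.2) h
    ((contDiff_snd.comp contDiff_snd).prodMk ((contDiff_fst.comp contDiff_snd).prodMk contDiff_fst))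

end one

section two

variable {M : Type} [NormedAddCommGroup M] [InnerProductSpace ℝ M] [CompleteSpace M]
  {V : Type} [NormedAddCommGroup V] [InnerProductSpace ℝ V] [CompleteSpace V] {e : ℕ}
  {Ψ : Fr3 V e} (T : Hrm Ψ M)

lemma dd_U {f : M → ℝ} (hf : Differentiable ℝ f) (x y z : ℝ) (q : Fin (e + 1)) (u v w : V) :
    T.dd q (Uf f x y z) u v w =
      2 * (y - z) * inner ℝ (gradient f (T.X x y z u v w)) (T.B v (Ψ.fr.J q w)) := by
  unfold Hrm.dd
  rw [show pg2 (Uf f x y z) (T.B u u) (T.B v v) (T.B w w) =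
    y • gradient f (T.X x y z u v w) from grU2 hf x y z _ _ _,
    show pg3 (Uf f x y z) (T.B u u) (T.B v v) (T.B w w) =
    z • gradient f (T.X x y z u v w) from grU3 hf x y z _ _ _, ← sub_smul, real_inner_smul_left]
  ring

lemma dd_12 {f : M → ℝ} (hf : Differentiable ℝ f) (x y z : ℝ) (q : Fin (e + 1)) (u v w : V) :
    T.dd q (s12 (Uf f x y z)) v u w =
      2 * (x - z) * inner ℝ (gradient f (T.X x y z u v w)) (T.B u (Ψ.fr.J q w)) := by
  unfold Hrm.dd
  rw [show pg2 (s12 (Uf f x y z)) (T.B v v) (T.B u u) (T.B w w) =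
    x • gradient f (T.X x y z u v w) from grU1 hf x y z _ _ _,
    show pg3 (s12 (Uf f x y z)) (T.B v v) (T.B u u) (T.B w w) =
    z • gradient f (T.X x y z u v w) from grU3 hf x y z _ _ _, ← sub_smul, real_inner_smul_left]
  ring

lemma dd_13 {f : M → ℝ} (hf : Differentiable ℝ f) (x y z : ℝ) (q : Fin (e + 1)) (u v w : V) :
    T.dd q (s13 (Uf f x y z)) w v u =
      2 * (y - x) * inner ℝ (gradient f (T.X x y z u v w)) (T.B v (Ψ.fr.J q u)) := by
  unfold Hrm.dd
  rw [show pg2 (s13 (Uf f x y z)) (T.B w w) (T.B v v) (T.B u u) =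
    y • gradient f (T.X x y z u v w) from grU2 hf x y z _ _ _,
    show pg3 (s13 (Uf f x y z)) (T.B w w) (T.B v v) (T.B u u) =
    x • gradient f (T.X x y z u v w) from grU1 hf x y z _ _ _, ← sub_smul, real_inner_smul_left]
  ring

lemma inner_X (Y : M) (p q r : ℝ) (u v w : V) : inner ℝ Y (T.X p q r u v w) =
    p * inner ℝ Y (T.B u u) + q * inner ℝ Y (T.B v v) + r * inner ℝ Y (T.B w w) := by
  unfold Hrm.X
  rw [inner_add_right, inner_add_right, real_inner_smul_right, real_inner_smul_right,
    real_inner_smul_right]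

lemma alg (a b c x y z : ℝ) (h0 : x + y + z = 0) (h1 : x ^ 2 + y ^ 2 + z ^ 2 = 1) :
    a ^ 2 + b ^ 2 + c ^ 2 - (a + b + c) ^ 2 / 3 -
      ((y - z) / √3 * a + (z - x) / √3 * b + (x - y) / √3 * c) ^ 2 =
      (x * a + y * b + z * c) ^ 2 := by
  have hz : z = -x - y := by linarith
  subst hz
  have hs : x ^ 2 + x * y + y ^ 2 = 1 / 2 := by nlinarith
  have h3 : (√3 : ℝ) ^ 2 = 3 := Real.sq_sqrt (by norm_num)
  have h4 : (√3 : ℝ) ≠ 0 := by positivity
  have h5 : ((y - (-x - y)) / √3 * a + ((-x - y) - x) / √3 * b + (x - y) / √3 * c) ^ 2 =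
      ((y - (-x - y)) * a + ((-x - y) - x) * b + (x - y) * c) ^ 2 / 3 := by
    rw [show (y - (-x - y)) / √3 * a + ((-x - y) - x) / √3 * b + (x - y) / √3 * c =
      ((y - (-x - y)) * a + ((-x - y) - x) * b + (x - y) * c) / √3 by field_simp, div_pow, h3]
  rw [h5]
  linear_combination (-4 / 3 * (a ^ 2 + b ^ 2 + c ^ 2 - a * b - b * c - c * a)) * hs

/-- The tangential gradient on a triple. -/
lemma gS_eq (f : M → ℝ) (x y z x' y' z' : ℝ) (h0 : x' + y' + z' = 0)
    (h1 : x' ^ 2 + y' ^ 2 + z' ^ 2 = 1) (u v w : V) (ht : Ψ.Tri u v w) :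
    T.gS f x y z x' y' z' u v w =
      Vf f x y z x' y' z' (T.B u u) (T.B v v) (T.B w w) ^ 2 +
      2 * ∑ q, ((inner ℝ (gradient f (T.X x y z u v w)) (T.B u (Ψ.fr.J q v))) ^ 2 +
        (inner ℝ (gradient f (T.X x y z u v w)) (T.B u (Ψ.fr.J q w))) ^ 2 +
        (inner ℝ (gradient f (T.X x y z u v w)) (T.B v (Ψ.fr.J q w))) ^ 2) := by
  have e1 : Vf f x y z x' y' z' (T.B u u) (T.B v v) (T.B w w) =
      inner ℝ (gradient f (T.X x y z u v w)) (T.X x' y' z' u v w) := rfl
  unfold Hrm.gS
  rw [e1, inner_X, inner_X, T.pars u v w ht,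
    ← alg (inner ℝ (gradient f (T.X x y z u v w)) (T.B u u))
      (inner ℝ (gradient f (T.X x y z u v w)) (T.B v v))
      (inner ℝ (gradient f (T.X x y z u v w)) (T.B w w)) x' y' z' h0 h1]
  ring

lemma cont_X (hB : Continuous fun z : V × V => T.B z.1 z.2) :
    Continuous (fun z : (ℝ × ℝ × ℝ) × V × V × V =>
      T.X z.1.1 z.1.2.1 z.1.2.2 z.2.1 z.2.2.1 z.2.2.2) := by
  have hd : Continuous fun v : V => T.B v v := hB.comp (continuous_id.prodMk continuous_id)
  have h1 : Continuous fun z : (ℝ × ℝ × ℝ) × V × V × V => T.B z.2.1 z.2.1 :=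
    hd.comp (continuous_fst.comp continuous_snd)
  have h2 : Continuous fun z : (ℝ × ℝ × ℝ) × V × V × V => T.B z.2.2.1 z.2.2.1 :=
    hd.comp (continuous_fst.comp (continuous_snd.comp continuous_snd))
  have h3 : Continuous fun z : (ℝ × ℝ × ℝ) × V × V × V => T.B z.2.2.2 z.2.2.2 :=
    hd.comp (continuous_snd.comp (continuous_snd.comp continuous_snd))
  have k1 : Continuous fun z : (ℝ × ℝ × ℝ) × V × V × V => z.1.1 :=
    continuous_fst.comp continuous_fst
  have k2 : Continuous fun z : (ℝ × ℝ × ℝ) × V × V × V => z.1.2.1 :=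
    continuous_fst.comp (continuous_snd.comp continuous_fst)
  have k3 : Continuous fun z : (ℝ × ℝ × ℝ) × V × V × V => z.1.2.2 :=
    continuous_snd.comp (continuous_snd.comp continuous_fst)
  unfold Hrm.X
  exact ((k1.smul h1).add (k2.smul h2)).add (k3.smul h3)

/-- Joint continuity of `gS`. -/
lemma cont_gS {f : M → ℝ} (hf : ContDiff ℝ 1 f) (hB : Continuous fun z : V × V => T.B z.1 z.2)
    {P : Type} [TopologicalSpace P] {x y z x' y' z' : P → ℝ} (hx : Continuous x)
    (hy : Continuous y) (hz : Continuous z) (hx' : Continuous x') (hy' : Continuous y')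
    (hz' : Continuous z') :
    Continuous (fun p : P × V × V × V =>
      T.gS f (x p.1) (y p.1) (z p.1) (x' p.1) (y' p.1) (z' p.1) p.2.1 p.2.2.1 p.2.2.2) := by
  have c1 : Continuous (fun p : P × V × V × V =>
      T.X (x p.1) (y p.1) (z p.1) p.2.1 p.2.2.1 p.2.2.2) :=
    (cont_X T hB).comp (((hx.comp continuous_fst).prodMk
      ((hy.comp continuous_fst).prodMk (hz.comp continuous_fst))).prodMk continuous_snd)
  have c2 : Continuous (fun p : P × V × V × V =>
      T.X ((y' p.1 - z' p.1) / √3) ((z' p.1 - x' p.1) / √3) ((x' p.1 - y' p.1) / √3)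
        p.2.1 p.2.2.1 p.2.2.2) :=
    (cont_X T hB).comp ((((hy'.sub hz').div_const _ |>.comp continuous_fst).prodMk
      (((hz'.sub hx').div_const _ |>.comp continuous_fst).prodMk
        ((hx'.sub hy').div_const _ |>.comp continuous_fst))).prodMk continuous_snd)
  have c3 := (cont_gradient hf).comp c1
  unfold Hrm.gS
  exact ((T.pr.continuous.comp c3).norm.pow 2).sub ((c3.inner c2).pow 2)

lemma co_gS {f : M → ℝ} (hf : ContDiff ℝ 1 f) (hB : Continuous fun z : V × V => T.B z.1 z.2)
    (x y z x' y' z' : ℝ) : Co3 (T.gS f x y z x' y' z') := by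
  have h := cont_gS (P := ℝ) T hf hB (x := fun _ => x) (y := fun _ => y) (z := fun _ => z)
    (x' := fun _ => x') (y' := fun _ => y') (z' := fun _ => z') continuous_const
    continuous_const continuous_const continuous_const continuous_const continuous_const
  have h2 : Continuous fun p : V × V × V => ((0 : ℝ), p) := by fun_prop
  unfold Co3
  exact Continuous.comp (g := fun p : ℝ × V × V × V =>
    T.gS f x y z x' y' z' p.2.1 p.2.2.1 p.2.2.2) (f := fun p : V × V × V => ((0 : ℝ), p)) h h2

end two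

end JPt

open JPt in
theorem prfPt (hclPair : clPair) (hcTri : cTri) (hcAv : cAv) (hcB : cB) (hcN : cN) : cPt := by
  have _h1 := hclPair
  have _h2 := hcTri
  intro V _ _ _ e Ψ M _ _ _ T f hf
  obtain ⟨hB1, hB2, hB3, hB4, hB5, -⟩ := hcB V e Ψ M T
  obtain ⟨hA1, hA2, hA3, -, hA5⟩ := hcAv V e Ψ
  have hBc : Continuous fun z : V × V => T.B z.1 z.2 := hB1.continuous
  have hfd : Differentiable ℝ f := hf.differentiable (by norm_num)
  have hco := co_gS T hf hBc
  refine ⟨ci_U hf, ?_, ?_⟩
  · intro x y z x' y' z' h0 h1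
    refine ⟨hco x y z x' y' z', ?_, ?_⟩
    · have hc0 : Co3 (fun _ _ _ : V => (0 : ℝ)) := continuous_const
      have h := (hA2 _ _ hc0 (hco x y z x' y' z')).2.1 (fun u v w ht => by
        rw [gS_eq T f x y z x' y' z' h0 h1 u v w ht]
        positivity)
      rwa [hA3 0] at h
    · intro hxy hxz hyz
      have hU := ci_U hf x y z
      have hU12 := ci_12 hU
      have hU13 := ci_13 hU
      obtain ⟨-, -, -, hd, -⟩ := hcN V e Ψ M T _ hU
      obtain ⟨-, -, -, hd12, -⟩ := hcN V e Ψ M T _ hU12
      obtain ⟨-, -, -, hd13, -⟩ := hcN V e Ψ M T _ hU13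
      -- the three energies as averages
      let P23 : V → V → V → ℝ := fun u v w =>
        ∑ q, T.dd q (Uf f x y z) u v w * T.dd q (Uf f x y z) u v w
      let P12 : V → V → V → ℝ := fun u v w =>
        ∑ q, T.dd q (s12 (Uf f x y z)) u v w * T.dd q (s12 (Uf f x y z)) u v w
      let P13 : V → V → V → ℝ := fun u v w =>
        ∑ q, T.dd q (s13 (Uf f x y z)) u v w * T.dd q (s13 (Uf f x y z)) u v w
      let FV : V → V → V → ℝ := T.ev (fun X Y Z => Vf f x y z x' y' z' X Y Z ^ 2)
      have cP23 : Co3 P23 := continuous_finsetSum _ fun q _ => (hd q).mul (hd q)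
      have cP12 : Co3 P12 := continuous_finsetSum _ fun q _ => (hd12 q).mul (hd12 q)
      have cP13 : Co3 P13 := continuous_finsetSum _ fun q _ => (hd13 q).mul (hd13 q)
      have cP12' : Co3 (s12 P12) := by
        have h2 : Continuous fun p : V × V × V => (p.2.1, p.1, p.2.2) := by fun_prop
        exact Continuous.comp (g := fun p : V × V × V => P12 p.1 p.2.1 p.2.2)
          (f := fun p : V × V × V => (p.2.1, p.1, p.2.2)) cP12 h2
      have cP13' : Co3 (s13 P13) := by
        have h2 : Continuous fun p : V × V × V => (p.2.2, p.2.1, p.1) := by fun_prop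
        exact Continuous.comp (g := fun p : V × V × V => P13 p.1 p.2.1 p.2.2)
          (f := fun p : V × V × V => (p.2.2, p.2.1, p.1)) cP13 h2
      have cFV : Co3 FV := by
        have c1 : Continuous (fun p : V × V × V => T.X x y z p.1 p.2.1 p.2.2) := by
          have h2 : Continuous fun p : V × V × V => ((x, y, z), p) := by fun_prop
          exact Continuous.comp (g := fun z : (ℝ × ℝ × ℝ) × V × V × V =>
            T.X z.1.1 z.1.2.1 z.1.2.2 z.2.1 z.2.2.1 z.2.2.2)
            (f := fun p : V × V × V => ((x, y, z), p)) (cont_X T hBc) h2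
        have c2 : Continuous (fun p : V × V × V => T.X x' y' z' p.1 p.2.1 p.2.2) := by
          have h2 : Continuous fun p : V × V × V => ((x', y', z'), p) := by fun_prop
          exact Continuous.comp (g := fun z : (ℝ × ℝ × ℝ) × V × V × V =>
            T.X z.1.1 z.1.2.1 z.1.2.2 z.2.1 z.2.2.1 z.2.2.2)
            (f := fun p : V × V × V => ((x', y', z'), p)) (cont_X T hBc) h2
        have c3 : Continuous (fun p : V × V × V => gradient f (T.X x y z p.1 p.2.1 p.2.2)) :=
          (cont_gradient hf).comp c1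
        exact (c3.inner c2).pow 2
      have a12 : Ψ.av (s12 P12) = Ψ.av P12 := (hA1 P12 cP12).2.2.2.1
      have a13 : Ψ.av (s13 P13) = Ψ.av P13 := (hA1 P13 cP13).2.2.2.2.1
      have hj : ∀ (Y : M) q u v, inner ℝ Y (T.B v (Ψ.fr.J q u)) ^ 2 =
          inner ℝ Y (T.B u (Ψ.fr.J q v)) ^ 2 := by
        intro Y q u v
        rw [hB5 q v u, T.symm]
        unfold Frm.Js
        split_ifs with h
        · rw [h, Ψ.fr.J0]
        · have h2 : T.B u (-(Ψ.fr.J q v)) = -T.B u (Ψ.fr.J q v) := by
            have := hB3 (-1) u (Ψ.fr.J q v)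
            rwa [neg_one_smul, neg_one_smul] at this
          rw [h2, inner_neg_right, neg_sq]
      have hpt : ∀ u v w, Ψ.Tri u v w → T.gS f x y z x' y' z' u v w =
          1 * (fun u v w => 1 * FV u v w + (1 / (2 * (x - y) ^ 2)) * s13 P13 u v w) u v w +
          1 * (fun u v w => (1 / (2 * (x - z) ^ 2)) * s12 P12 u v w +
            (1 / (2 * (y - z) ^ 2)) * P23 u v w) u v w := by
        intro u v w ht
        rw [gS_eq T f x y z x' y' z' h0 h1 u v w ht]
        have k1 : x - y ≠ 0 := sub_ne_zero.2 hxy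
        have k2 : x - z ≠ 0 := sub_ne_zero.2 hxz
        have k3 : y - z ≠ 0 := sub_ne_zero.2 hyz
        have e23 : (1 / (2 * (y - z) ^ 2)) * P23 u v w =
            2 * ∑ q, (inner ℝ (gradient f (T.X x y z u v w)) (T.B v (Ψ.fr.J q w))) ^ 2 := by
          simp only [P23, dd_U T hfd, Finset.mul_sum]
          refine Finset.sum_congr rfl fun q _ => ?_
          field_simp
        have e12 : (1 / (2 * (x - z) ^ 2)) * s12 P12 u v w =
            2 * ∑ q, (inner ℝ (gradient f (T.X x y z u v w)) (T.B u (Ψ.fr.J q w))) ^ 2 := by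
          simp only [P12, s12, Finset.mul_sum]
          refine Finset.sum_congr rfl fun q _ => ?_
          rw [dd_12 T hfd x y z q u v w]
          field_simp
        have e13 : (1 / (2 * (x - y) ^ 2)) * s13 P13 u v w =
            2 * ∑ q, (inner ℝ (gradient f (T.X x y z u v w)) (T.B u (Ψ.fr.J q v))) ^ 2 := by
          simp only [P13, s13, Finset.mul_sum]
          refine Finset.sum_congr rfl fun q _ => ?_
          rw [dd_13 T hfd x y z q u v w, ← hj _ q u v]
          field_simp
          ring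
        show _ = 1 * (1 * FV u v w + (1 / (2 * (x - y) ^ 2)) * s13 P13 u v w) +
          1 * ((1 / (2 * (x - z) ^ 2)) * s12 P12 u v w + (1 / (2 * (y - z) ^ 2)) * P23 u v w)
        rw [e23, e12, e13, Finset.sum_add_distrib, Finset.sum_add_distrib]
        show Vf f x y z x' y' z' (T.B u u) (T.B v v) (T.B w w) ^ 2 + _ =
          1 * (1 * Vf f x y z x' y' z' (T.B u u) (T.B v v) (T.B w w) ^ 2 + _) + _
        ring
      have cG1 : Co3 (fun u v w => 1 * FV u v w + (1 / (2 * (x - y) ^ 2)) * s13 P13 u v w) :=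
        (continuous_const.mul cFV).add (continuous_const.mul cP13')
      have cG2 : Co3 (fun u v w => (1 / (2 * (x - z) ^ 2)) * s12 P12 u v w +
            (1 / (2 * (y - z) ^ 2)) * P23 u v w) :=
        (continuous_const.mul cP12').add (continuous_const.mul cP23)
      have cG : Co3 (fun u v w =>
          1 * (fun u v w => 1 * FV u v w + (1 / (2 * (x - y) ^ 2)) * s13 P13 u v w) u v w +
          1 * (fun u v w => (1 / (2 * (x - z) ^ 2)) * s12 P12 u v w +
            (1 / (2 * (y - z) ^ 2)) * P23 u v w) u v w) :=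
        (continuous_const.mul cG1).add (continuous_const.mul cG2)
      rw [(hA2 _ _ (hco x y z x' y' z') cG).2.2 hpt, (hA2 _ _ cG1 cG2).1 1 1,
        (hA2 _ _ cFV cP13').1 1 (1 / (2 * (x - y) ^ 2)),
        (hA2 _ _ cP12' cP23).1 (1 / (2 * (x - z) ^ 2)) (1 / (2 * (y - z) ^ 2)), a12, a13]
      show 1 * (1 * Ψ.av FV + (1 / (2 * (x - y) ^ 2)) * Ψ.av P13) +
        1 * ((1 / (2 * (x - z) ^ 2)) * Ψ.av P12 + (1 / (2 * (y - z) ^ 2)) * Ψ.av P23) =
        Ψ.av FV + (Ψ.av P13 / (2 * (x - y) ^ 2) + Ψ.av P12 / (2 * (x - z) ^ 2) +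
          Ψ.av P23 / (2 * (y - z) ^ 2))
      ring
  · intro x y z hx hy hz
    have hdx : Differentiable ℝ x := hx.differentiable (by norm_num)
    have hdy : Differentiable ℝ y := hy.differentiable (by norm_num)
    have hdz : Differentiable ℝ z := hz.differentiable (by norm_num)
    have cdx : Continuous (deriv x) := hx.continuous_deriv (by norm_num)
    have cdy : Continuous (deriv y) := hy.continuous_deriv (by norm_num)
    have cdz : Continuous (deriv z) := hz.continuous_deriv (by norm_num)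
    have cx := hx.continuous
    have cy := hy.continuous
    have cz := hz.continuous
    have c1 : Continuous (fun p : ℝ × M × M × M =>
        x p.1 • p.2.1 + y p.1 • p.2.2.1 + z p.1 • p.2.2.2) := by fun_prop
    have c2 : Continuous (fun p : ℝ × M × M × M =>
        deriv x p.1 • p.2.1 + deriv y p.1 • p.2.2.1 + deriv z p.1 • p.2.2.2) :=
      (((cdx.comp continuous_fst).smul (continuous_fst.comp continuous_snd)).add
        ((cdy.comp continuous_fst).smul (continuous_fst.comp
          (continuous_snd.comp continuous_snd)))).add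
        ((cdz.comp continuous_fst).smul (continuous_snd.comp
          (continuous_snd.comp continuous_snd)))
    refine ⟨?_, hf.continuous.comp c1, ?_, ?_⟩
    · intro s X Y Z
      have h1 : HasDerivAt (fun t => x t • X + y t • Y + z t • Z)
          (deriv x s • X + deriv y s • Y + deriv z s • Z) s :=
        (((hdx s).hasDerivAt.smul_const X).add ((hdy s).hasDerivAt.smul_const Y)).add
          ((hdz s).hasDerivAt.smul_const Z)
      have h2 : HasGradientAt f (gradient f (x s • X + y s • Y + z s • Z))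
          (x s • X + y s • Y + z s • Z) := (hfd _).hasGradientAt
      have h3 := h2.hasFDerivAt.comp_hasDerivAt s h1
      rw [InnerProductSpace.toDual_apply_apply] at h3
      exact h3
    · exact ((cont_gradient hf).comp c1).inner c2
    · exact hA5 ℝ _ (cont_gS T hf hBc cx cy cz cdx cdy cdz)

end Pool.Agent.Work.MP_408f4b_gt.A2
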