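import Pool.Agent.Work.MP_408f4b_gt.A2.Stmts

set_option autoImplicit false
set_option linter.unusedSectionVars false

/-!
# Block A2, item Rot: the spheres in the orbits
-/

namespace Pool.Agent.Work.MP_408f4b_gt.A2

open MeasureTheory Set Filter Topology Pool.Agent.Work.MP_408f4b_gt.Q

namespace JRot

section frame

variable {V : Type} [NormedAddCommGroup V] [InnerProductSpace ℝ V] [CompleteSpace V] {n e : ℕ}
  (Φ : Frm V n e)

/-- the sign of the adjoint -/
def sgn {e : ℕ} (q : Fin (e + 1)) : ℝ := if q = 0 then 1 else -1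

theorem sgn_sq {e : ℕ} (q : Fin (e + 1)) : sgn q * sgn q = 1 := by
  unfold sgn; split_ifs <;> norm_num

theorem Js_eq (q : Fin (e + 1)) (v : V) : Φ.Js q v = sgn q • Φ.J q v := by
  unfold Frm.Js sgn
  split_ifs with h
  · subst h; rw [Φ.J0, one_smul]
  · rw [neg_one_smul]

/-- right multiplication by a general element -/
noncomputable def Ja (a : Fin (e + 1) → ℝ) (v : V) : V := ∑ q, a q • Φ.J q v

theorem inner_JJ (p q : Fin (e + 1)) (v : V) :
    (inner ℝ (Φ.J p v) (Φ.J q v) : ℝ) = if p = q then ‖v‖ ^ 2 else 0 := by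
  split_ifs with h
  · subst h; rw [real_inner_self_eq_norm_sq, (Φ.J p).norm_map]
  · exact Φ.Jorth v p q h

theorem inner_Ja_J (a : Fin (e + 1) → ℝ) (q : Fin (e + 1)) (v : V) :
    (inner ℝ (Ja Φ a v) (Φ.J q v) : ℝ) = a q * ‖v‖ ^ 2 := by
  unfold Ja
  rw [sum_inner, Finset.sum_eq_single q]
  · rw [real_inner_smul_left, inner_JJ, if_pos rfl]
  · intro p _ hp
    rw [real_inner_smul_left, inner_JJ, if_neg hp, mul_zero]
  · intro h; exact absurd (Finset.mem_univ q) h

theorem inner_Ja_Ja (a b : Fin (e + 1) → ℝ) (v : V) :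
    (inner ℝ (Ja Φ a v) (Ja Φ b v) : ℝ) = (∑ q, a q * b q) * ‖v‖ ^ 2 := by
  conv_lhs => rw [Ja.eq_def Φ b v]
  rw [inner_sum, Finset.sum_mul]
  refine Finset.sum_congr rfl fun q _ => ?_
  rw [real_inner_smul_right, inner_Ja_J]
  ring

/-- `J q` is the adjoint of `Js q` -/
theorem adj (hP : clPair) (q : Fin (e + 1)) (x y : V) :
    (inner ℝ x (Φ.J q y) : ℝ) = sgn q * inner ℝ (Φ.J q x) y := by
  have h1 := (hP V n e Φ).2.1 q x
  rw [← real_inner_smul_left, ← Js_eq, ← (Φ.J q).inner_map_map (Φ.Js q x) y, h1.1]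

theorem orth2 (hP : clPair) {x y : V} (h : ∀ q, (inner ℝ x (Φ.J q y) : ℝ) = 0)
    (p q : Fin (e + 1)) : (inner ℝ x (Φ.J p (Φ.J q y)) : ℝ) = 0 := by
  rw [adj Φ hP, Φ.orthC x y h p q, mul_zero]

theorem orth3 (hP : clPair) {x y : V} (h : ∀ q, (inner ℝ x (Φ.J q y) : ℝ) = 0)
    (p q r : Fin (e + 1)) : (inner ℝ (Φ.J p x) (Φ.J q (Φ.J r y)) : ℝ) = 0 :=
  Φ.orthC x (Φ.J r y) (fun q => orth2 Φ hP h q r) p q

theorem J_Ja (a : Fin (e + 1) → ℝ) (q : Fin (e + 1)) (v : V) :
    Φ.J q (Ja Φ a v) = ∑ r, a r • Φ.J q (Φ.J r v) := by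
  unfold Ja
  rw [map_sum]
  refine Finset.sum_congr rfl fun r _ => ?_
  rw [map_smul]

theorem orth_xJa (hP : clPair) {x y : V} (h : ∀ q, (inner ℝ x (Φ.J q y) : ℝ) = 0)
    (a : Fin (e + 1) → ℝ) (q : Fin (e + 1)) : (inner ℝ x (Φ.J q (Ja Φ a y)) : ℝ) = 0 := by
  rw [J_Ja, inner_sum]
  refine Finset.sum_eq_zero fun r _ => ?_
  rw [real_inner_smul_right, orth2 Φ hP h, mul_zero]

theorem orth_Jax {x y : V} (h : ∀ q, (inner ℝ x (Φ.J q y) : ℝ) = 0)
    (a : Fin (e + 1) → ℝ) (q : Fin (e + 1)) : (inner ℝ (Ja Φ a x) (Φ.J q y) : ℝ) = 0 := by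
  unfold Ja
  rw [sum_inner]
  refine Finset.sum_eq_zero fun r _ => ?_
  rw [real_inner_smul_left, Φ.orthC x y h, mul_zero]

theorem orth_JaJa (hP : clPair) {x y : V} (h : ∀ q, (inner ℝ x (Φ.J q y) : ℝ) = 0)
    (a b : Fin (e + 1) → ℝ) (q : Fin (e + 1)) :
    (inner ℝ (Ja Φ a x) (Φ.J q (Ja Φ b y)) : ℝ) = 0 :=
  orth_Jax Φ (fun q => orth_xJa Φ hP h b q) a q

theorem inner_v_JJa (hP : clPair) (b : Fin (e + 1) → ℝ) (q : Fin (e + 1)) (v : V) :
    (inner ℝ v (Φ.J q (Ja Φ b v)) : ℝ) = sgn q * b q * ‖v‖ ^ 2 := by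
  rw [adj Φ hP, real_inner_comm, inner_Ja_J, mul_assoc]

/-- The rotated pair. -/
theorem pair_rot (hP : clPair) {u v w : V} (huv : Φ.Pair u v) (huw : Φ.Pair u w)
    (hvw : Φ.Pair v w) (a : Fin (e + 1) → ℝ) (ha : ∑ q, a q ^ 2 = 1) (t : ℝ) :
    Φ.Pair u (Real.cos t • v + Real.sin t • Ja Φ a w) ∧
    Φ.Pair u (Real.cos t • w - Real.sin t • Ja Φ (fun q => sgn q * a q) v) ∧
    Φ.Pair (Real.cos t • v + Real.sin t • Ja Φ a w)
      (Real.cos t • w - Real.sin t • Ja Φ (fun q => sgn q * a q) v) := by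
  have hcs := Real.cos_sq_add_sin_sq t
  have hwv : Φ.Pair w v := ((hP V n e Φ).2.2.1 v w hvw).1
  have hu1 := huv.1
  have hv1 := hvw.1
  have hw1 := hvw.2.1
  have h1 : ∀ q, (inner ℝ v (Φ.J q w) : ℝ) = 0 := hvw.2.2
  have h2 : ∀ q, (inner ℝ w (Φ.J q v) : ℝ) = 0 := hwv.2.2
  have haa : ∑ q, a q * a q = 1 := by rw [← ha]; exact Finset.sum_congr rfl fun q _ => by ring
  have hbb : ∑ q, (sgn q * a q) * (sgn q * a q) = 1 := by
    rw [← ha]
    refine Finset.sum_congr rfl fun q _ => ?_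
    have := sgn_sq q
    linear_combination (a q) ^ 2 * this
  have hn1 : ‖Real.cos t • v + Real.sin t • Ja Φ a w‖ = 1 := by
    have h3 : ‖Real.cos t • v + Real.sin t • Ja Φ a w‖ ^ 2 = 1 := by
      rw [← real_inner_self_eq_norm_sq]
      simp only [inner_add_left, inner_add_right, real_inner_smul_left, real_inner_smul_right]
      have h4 : (inner ℝ v (Ja Φ a w) : ℝ) = 0 := by
        have := orth_xJa Φ hP h1 a 0
        rwa [Φ.J0] at this
      have h5 : (inner ℝ (Ja Φ a w) v : ℝ) = 0 := by rw [real_inner_comm]; exact h4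
      rw [h4, h5, inner_Ja_Ja, haa, real_inner_self_eq_norm_sq, hv1, hw1]
      linear_combination hcs
    have h6 := norm_nonneg (Real.cos t • v + Real.sin t • Ja Φ a w)
    nlinarith
  have hn2 : ‖Real.cos t • w - Real.sin t • Ja Φ (fun q => sgn q * a q) v‖ = 1 := by
    have h3 : ‖Real.cos t • w - Real.sin t • Ja Φ (fun q => sgn q * a q) v‖ ^ 2 = 1 := by
      rw [← real_inner_self_eq_norm_sq]
      simp only [inner_sub_left, inner_sub_right, real_inner_smul_left, real_inner_smul_right]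
      have h4 : (inner ℝ w (Ja Φ (fun q => sgn q * a q) v) : ℝ) = 0 := by
        have := orth_xJa Φ hP h2 (fun q => sgn q * a q) 0
        rwa [Φ.J0] at this
      have h5 : (inner ℝ (Ja Φ (fun q => sgn q * a q) v) w : ℝ) = 0 := by
        rw [real_inner_comm]; exact h4
      rw [h4, h5, inner_Ja_Ja, hbb, real_inner_self_eq_norm_sq, hv1, hw1]
      linear_combination hcs
    have h6 := norm_nonneg (Real.cos t • w - Real.sin t • Ja Φ (fun q => sgn q * a q) v)
    nlinarith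
  refine ⟨⟨hu1, hn1, fun q => ?_⟩, ⟨hu1, hn2, fun q => ?_⟩, hn1, hn2, fun q => ?_⟩
  · rw [map_add, map_smul, map_smul, inner_add_right, real_inner_smul_right,
      real_inner_smul_right, huv.2.2 q, orth_xJa Φ hP huw.2.2]
    ring
  · rw [map_sub, map_smul, map_smul, inner_sub_right, real_inner_smul_right,
      real_inner_smul_right, huw.2.2 q, orth_xJa Φ hP huv.2.2]
    ring
  · rw [map_sub, map_smul, map_smul]
    simp only [inner_add_left, inner_sub_right, real_inner_smul_left, real_inner_smul_right]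
    rw [h1 q, inner_v_JJa Φ hP, inner_Ja_J, orth_JaJa Φ hP h2, hv1, hw1]
    have := sgn_sq q
    linear_combination (-Real.cos t * Real.sin t * a q) * this

end frame

section tensor

variable {V : Type} [NormedAddCommGroup V] [InnerProductSpace ℝ V] [CompleteSpace V] {e : ℕ}
  {Ψ : Fr3 V e} {M : Type} [NormedAddCommGroup M] [InnerProductSpace ℝ M] [CompleteSpace M]
  (T : Hrm Ψ M)

/-- `B` is linear in the first variable. -/
def Bl (w : V) : V →ₗ[ℝ] M where
  toFun v := T.B v w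
  map_add' v v' := T.add_l v v' w
  map_smul' r v := T.smul_l r v w

theorem B_Ja_l (a : Fin (e + 1) → ℝ) (w z : V) :
    T.B (Ja Ψ.fr a w) z = ∑ q, a q • T.B (Ψ.fr.J q w) z := by
  have h : T.B (Ja Ψ.fr a w) z = Bl T z (Ja Ψ.fr a w) := rfl
  rw [h]
  unfold Ja
  rw [map_sum]
  refine Finset.sum_congr rfl fun q _ => ?_
  rw [map_smul]
  rfl

theorem B_Ja_r (a : Fin (e + 1) → ℝ) (w z : V) :
    T.B z (Ja Ψ.fr a w) = ∑ q, a q • T.B z (Ψ.fr.J q w) := by
  rw [T.symm, B_Ja_l]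
  exact Finset.sum_congr rfl fun q _ => by rw [T.symm]

theorem B_Ja_Ja (a : Fin (e + 1) → ℝ) (w : V) :
    T.B (Ja Ψ.fr a w) (Ja Ψ.fr a w) = (∑ q, a q * a q) • T.B w w := by
  rw [B_Ja_l, Finset.sum_smul]
  refine Finset.sum_congr rfl fun q _ => ?_
  rw [B_Ja_r, Finset.sum_eq_single q]
  · rw [T.jj, if_pos rfl, smul_smul]
  · intro p _ hp
    rw [T.jj, if_neg (Ne.symm hp), smul_zero]
  · intro h; exact absurd (Finset.mem_univ q) h

theorem B_lin (x y : ℝ) (v z : V) :
    T.B (x • v + y • z) (x • v + y • z) =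
      (x ^ 2) • T.B v v + (2 * (x * y)) • T.B v z + (y ^ 2) • T.B z z := by
  have h1 : ∀ w : V, T.B (x • v + y • z) w = x • T.B v w + y • T.B z w := by
    intro w
    rw [T.add_l, T.smul_l, T.smul_l]
  rw [h1, T.symm v (x • v + y • z), T.symm z (x • v + y • z), h1, h1, T.symm z v]
  module

end tensor

/-- The angle and the direction. -/
theorem polar {e : ℕ} (c0 : ℝ) (c : Fin (e + 1) → ℝ) (h : c0 ^ 2 + ∑ q, c q ^ 2 = 1) :
    ∃ (t : ℝ) (a : Fin (e + 1) → ℝ), ∑ q, a q ^ 2 = 1 ∧ Real.cos t ^ 2 - Real.sin t ^ 2 = c0 ∧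
      ∀ q, 2 * (Real.cos t * Real.sin t) * a q = c q := by
  have hs : 0 ≤ ∑ q, c q ^ 2 := Finset.sum_nonneg fun q _ => sq_nonneg _
  have h1 : c0 ^ 2 ≤ 1 := by linarith
  have h2 : -1 ≤ c0 ∧ c0 ≤ 1 := by
    constructor <;> nlinarith
  set θ := Real.arccos c0 with hθ
  have hcos : Real.cos θ = c0 := Real.cos_arccos h2.1 h2.2
  have hsin : Real.sin θ = √(1 - c0 ^ 2) := Real.sin_arccos c0
  have h3 : Real.cos (θ / 2) ^ 2 - Real.sin (θ / 2) ^ 2 = c0 := by
    rw [← hcos, ← Real.cos_two_mul' (θ / 2)]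
    congr 1
    ring
  have h4 : 2 * (Real.cos (θ / 2) * Real.sin (θ / 2)) = √(1 - c0 ^ 2) := by
    rw [← hsin]
    have := Real.sin_two_mul (θ / 2)
    rw [show 2 * (θ / 2) = θ by ring] at this
    rw [this]
    ring
  have h5 : 1 - c0 ^ 2 = ∑ q, c q ^ 2 := by linarith
  rw [h5] at h4
  by_cases hz : ∑ q, c q ^ 2 = 0
  · refine ⟨θ / 2, fun q => if q = 0 then 1 else 0, ?_, h3, fun q => ?_⟩
    · rw [Finset.sum_eq_single 0]
      · simp
      · intro q _ hq; simp [hq]
      · intro h; exact absurd (Finset.mem_univ _) h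
    · rw [h4, hz, Real.sqrt_zero, zero_mul]
      have := (Finset.sum_eq_zero_iff_of_nonneg (fun q _ => sq_nonneg (c q))).1 hz q
        (Finset.mem_univ q)
      exact (pow_eq_zero_iff two_ne_zero).1 this |>.symm
  · have hpos : 0 < ∑ q, c q ^ 2 := lt_of_le_of_ne hs (Ne.symm hz)
    have hr : 0 < √(∑ q, c q ^ 2) := Real.sqrt_pos.2 hpos
    refine ⟨θ / 2, fun q => c q / √(∑ q, c q ^ 2), ?_, h3, fun q => ?_⟩
    · simp only [div_pow]
      rw [← Finset.sum_div, Real.sq_sqrt hs, div_self hz]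
    · rw [h4]
      field_simp

end JRot

open JRot in
theorem prfRot (hclPair : clPair) (hcTri : cTri) (hcB : cB) : cRot := by
  intro V _ _ _ e Ψ M _ _ _ T
  obtain ⟨hB1, hB2, hB3, hB4, hB5, hB6, hB7, hB8, hB9, hB10⟩ := hcB V e Ψ M T
  obtain ⟨hT1, hT2, hT3, hT4, hT5⟩ := hcTri V e Ψ
  refine ⟨?_, ?_, ?_, ?_⟩
  · have hBc : Continuous (fun z : V × V => T.B z.1 z.2) := hB1.continuous
    have h1 : Continuous (fun z : V × V × E (e + 2) => T.B z.1 z.1) :=
      hBc.comp (f := fun z : V × V × E (e + 2) => (z.1, z.1)) (by fun_prop)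
    have h2 : Continuous (fun z : V × V × E (e + 2) => T.B z.2.1 z.2.1) :=
      hBc.comp (f := fun z : V × V × E (e + 2) => (z.2.1, z.2.1)) (by fun_prop)
    have h3 : ∀ q, Continuous (fun z : V × V × E (e + 2) => T.B z.1 (Ψ.fr.J q z.2.1)) := by
      intro q
      exact hBc.comp (f := fun z : V × V × E (e + 2) => (z.1, Ψ.fr.J q z.2.1))
        (continuous_fst.prodMk ((Ψ.fr.J q).continuous.comp (by fun_prop)))
    have h4 : ∀ i, Continuous (fun z : V × V × E (e + 2) => z.2.2 i) := by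
      intro i
      fun_prop
    unfold Hrm.sg
    exact ((h4 0).smul (h1.sub h2)).add
      (Continuous.const_smul (continuous_finsetSum _ fun q _ => (h4 q.succ).smul (h3 q)) 2)
  · intro v w c c' r
    unfold Hrm.sg
    simp only [PiLp.add_apply, PiLp.smul_apply, smul_eq_mul, add_smul, Finset.sum_add_distrib,
      mul_smul, ← Finset.smul_sum]
    module
  · intro u v w h c
    obtain ⟨h1, h2, h3, h4, h5, h6⟩ := hB10 u v w h
    have hvw := (hT2 u v w h).2.2.2.1
    have hwu := (hT2 u v w h).2.2.2.2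
    obtain ⟨k1, k2, -⟩ := hB10 v w u hvw
    obtain ⟨l1, -⟩ := hB10 w u v hwu
    have e1 : (inner ℝ (T.B v v) (T.B v v) : ℝ) = 1 := by
      rw [real_inner_self_eq_norm_sq, k1]; norm_num
    have e2 : (inner ℝ (T.B w w) (T.B w w) : ℝ) = 1 := by
      rw [real_inner_self_eq_norm_sq, l1]; norm_num
    have e3 : (inner ℝ (T.B w w) (T.B v v) : ℝ) = 0 := by rw [real_inner_comm]; exact k2
    have hD : (inner ℝ (T.B v v - T.B w w) (T.B v v - T.B w w) : ℝ) = 2 := by
      simp only [inner_sub_left, inner_sub_right, e1, e2, e3, k2]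
      norm_num
    have hS : (inner ℝ (T.B v v - T.B w w)
        (∑ q : Fin (e + 1), c q.succ • T.B v (Ψ.fr.J q w)) : ℝ) = 0 := by
      rw [inner_sum]
      refine Finset.sum_eq_zero fun q _ => ?_
      rw [real_inner_smul_right, inner_sub_left, h4, h5]
      ring
    have hQ : (inner ℝ (∑ q : Fin (e + 1), c q.succ • T.B v (Ψ.fr.J q w))
        (∑ q : Fin (e + 1), c q.succ • T.B v (Ψ.fr.J q w)) : ℝ) =
        (∑ q : Fin (e + 1), c q.succ ^ 2) / 2 := by
      rw [sum_inner, Finset.sum_div]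
      refine Finset.sum_congr rfl fun p _ => ?_
      rw [inner_sum, Finset.sum_eq_single p]
      · rw [real_inner_smul_left, real_inner_smul_right, h6, if_pos rfl]
        ring
      · intro q _ hq
        rw [real_inner_smul_left, real_inner_smul_right, h6, if_neg (Ne.symm hq)]
        ring
      · intro h; exact absurd (Finset.mem_univ _) h
    have hc : ‖c‖ ^ 2 = c 0 ^ 2 + ∑ q : Fin (e + 1), c q.succ ^ 2 := by
      rw [EuclideanSpace.real_norm_sq_eq, Fin.sum_univ_succ]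
    rw [← real_inner_self_eq_norm_sq, hc]
    unfold Hrm.sg
    simp only [inner_add_left, inner_add_right, real_inner_smul_left, real_inner_smul_right]
    rw [hD, hQ, real_inner_comm (T.B v v - T.B w w)
      (∑ q : Fin (e + 1), c q.succ • T.B v (Ψ.fr.J q w)), hS]
    ring
  · intro u v w h c hc
    have hc' : c 0 ^ 2 + ∑ q : Fin (e + 1), c q.succ ^ 2 = 1 := by
      have : ‖c‖ ^ 2 = c 0 ^ 2 + ∑ q : Fin (e + 1), c q.succ ^ 2 := by
        rw [EuclideanSpace.real_norm_sq_eq, Fin.sum_univ_succ]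
      rw [← this, hc]
      norm_num
    obtain ⟨t, a, ha, ht, hta⟩ := polar (c 0) (fun q => c q.succ) hc'
    have hcs := Real.cos_sq_add_sin_sq t
    have haa : ∑ q : Fin (e + 1), a q * a q = 1 := by
      rw [← ha]; exact Finset.sum_congr rfl fun q _ => by ring
    have hbb : ∑ q : Fin (e + 1), (sgn q * a q) * (sgn q * a q) = 1 := by
      rw [← ha]
      refine Finset.sum_congr rfl fun q _ => ?_
      have := sgn_sq q
      linear_combination (a q) ^ 2 * this
    obtain ⟨hp1, hp2, hp3⟩ := pair_rot Ψ.fr hclPair h.1 h.2.1 h.2.2 a ha t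
    set S : M := ∑ q : Fin (e + 1), a q • T.B v (Ψ.fr.J q w) with hS
    have hsg : T.sg v w c = (Real.cos t ^ 2 - Real.sin t ^ 2) • (T.B v v - T.B w w) +
        (2 : ℝ) • (2 * (Real.cos t * Real.sin t)) • S := by
      have hsum : (∑ q : Fin (e + 1), c q.succ • T.B v (Ψ.fr.J q w)) =
          (2 * (Real.cos t * Real.sin t)) • S := by
        rw [hS, Finset.smul_sum]
        refine Finset.sum_congr rfl fun q _ => ?_
        rw [smul_smul, hta q]
      unfold Hrm.sg
      rw [ht, hsum]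
    have hv' : T.B (Real.cos t • v + Real.sin t • Ja Ψ.fr a w)
        (Real.cos t • v + Real.sin t • Ja Ψ.fr a w) =
        (Real.cos t ^ 2) • T.B v v + (2 * (Real.cos t * Real.sin t)) • S +
          (Real.sin t ^ 2) • T.B w w := by
      rw [B_lin, B_Ja_Ja, haa, one_smul, B_Ja_r]
    have hw' : T.B (Real.cos t • w - Real.sin t • Ja Ψ.fr (fun q => sgn q * a q) v)
        (Real.cos t • w - Real.sin t • Ja Ψ.fr (fun q => sgn q * a q) v) =
        (Real.cos t ^ 2) • T.B w w - (2 * (Real.cos t * Real.sin t)) • S +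
          (Real.sin t ^ 2) • T.B v v := by
      rw [sub_eq_add_neg, ← neg_smul, B_lin, B_Ja_Ja, hbb, one_smul, B_Ja_r]
      have h7 : ∑ q : Fin (e + 1), (sgn q * a q) • T.B w (Ψ.fr.J q v) = S := by
        rw [hS]
        refine Finset.sum_congr rfl fun q _ => ?_
        rw [hB5 q v w, Js_eq, T.smul_l, T.symm (Ψ.fr.J q v) w, smul_smul]
        congr 1
        ring
      rw [h7]
      module
    refine ⟨_, _, ⟨hp1, hp2, hp3⟩, ?_, ?_, ?_⟩
    · rw [hv', hsg]
      have h8 : Real.cos t ^ 2 = 1 - Real.sin t ^ 2 := by linarith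
      rw [h8]
      module
    · rw [hw', hsg]
      have h8 : Real.cos t ^ 2 = 1 - Real.sin t ^ 2 := by linarith
      rw [h8]
      module
    · rw [hv', hw', hsg]
      module

end Pool.Agent.Work.MP_408f4b_gt.A2
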