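import Pool.Agent.Work.MP_408f4b_gt.A2.Stmts

set_option autoImplicit false

namespace Pool.Agent.Work.MP_408f4b_gt.A2

open MeasureTheory Set Filter Topology Pool.Agent.Work.MP_408f4b_gt.Q

namespace JSecRP

variable {m : ℕ} {α β : ℝ} {x y : ℝ → ℝ}

theorem contW (h : cEqn) (hm : 1 ≤ m) (hαβ : α < β) (hC : Crv3 m α β x y) :
    ContinuousOn (w3 m x y) (Icc α β) := fun s hs =>
  ((h m α β x y hm hαβ hC s hs).2.2.2.2.2.1).continuousAt.continuousWithinAt

theorem d1_add_d3 (a b : ℝ) : d1 a b + d3 a b = a + b := by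
  unfold d1 d3
  ring

theorem secR (h0 : clSec0) (h : cEqn) : cSecR := by
  intro m α β x y hm hαβ hC
  have hE := h m α β x y hm hαβ hC
  have hx : Continuous x := hC.1.continuous
  have hy : Continuous y := hC.2.1.continuous
  have hx' : Continuous (deriv x) := hC.1.continuous_deriv (by norm_num)
  have hy' : Continuous (deriv y) := hC.2.1.continuous_deriv (by norm_num)
  have hw := contW h hm hαβ hC
  have hR : ∀ s ∈ Icc α β, 0 < x s ^ 2 + y s ^ 2 := fun s hs => by
    have := (hE s hs).2.1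
    positivity
  have hr : ∀ s ∈ Icc α β, 0 < Real.sqrt (x s ^ 2 + y s ^ 2) := fun s hs => Real.sqrt_pos.2 (hR s hs)
  have hrc : Continuous (fun s => Real.sqrt (x s ^ 2 + y s ^ 2)) :=
    ((hx.pow 2).add (hy.pow 2)).sqrt
  have hdr : ∀ s ∈ Icc α β, HasDerivAt (fun t => Real.sqrt (x t ^ 2 + y t ^ 2))
      ((x s * deriv x s + y s * deriv y s) / Real.sqrt (x s ^ 2 + y s ^ 2)) s := by
    intro s hs
    have h1 := ((hC.1.differentiable (by norm_num)) s).hasDerivAt
    have h2 := ((hC.2.1.differentiable (by norm_num)) s).hasDerivAt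
    have h3 : HasDerivAt (fun t => Real.sqrt (x t ^ 2 + y t ^ 2))
        ((((2 : ℕ) : ℝ) * x s ^ (2 - 1) * deriv x s + ((2 : ℕ) : ℝ) * y s ^ (2 - 1) * deriv y s) /
          (2 * Real.sqrt (x s ^ 2 + y s ^ 2))) s :=
      ((h1.pow 2).add (h2.pow 2)).sqrt (hR s hs).ne'
    convert h3 using 1
    have := (hr s hs).ne'
    norm_num
    field_simp
  have key := h0 α β (w3 m x y) (fun s => (3 * (m : ℝ) + 1) / (x s ^ 2 + y s ^ 2))
    (fun s => Real.sqrt (x s ^ 2 + y s ^ 2))
    (fun s => (x s * deriv x s + y s * deriv y s) / Real.sqrt (x s ^ 2 + y s ^ 2))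
    (fun s => ((3 * (m : ℝ) + 1) * w3 m x y s * Real.sqrt (x s ^ 2 + y s ^ 2) -
      w3 m x y s * (x s * deriv x s + y s * deriv y s) *
      ((x s * deriv x s + y s * deriv y s) / Real.sqrt (x s ^ 2 + y s ^ 2))) /
      Real.sqrt (x s ^ 2 + y s ^ 2) ^ 2) hαβ hw
    (fun s hs => (hE s hs).2.2.1) ?_ hr hdr ?_ ?_ ?_
  · have e : ∀ s ∈ Icc α β, (x s * deriv x s + y s * deriv y s) / Real.sqrt (x s ^ 2 + y s ^ 2) /
        Real.sqrt (x s ^ 2 + y s ^ 2) = (x s * deriv x s + y s * deriv y s) /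
        (x s ^ 2 + y s ^ 2) := by
      intro s hs
      rw [div_div, Real.mul_self_sqrt (hR s hs).le]
    simp only [e α (left_mem_Icc.2 hαβ.le), e β (right_mem_Icc.2 hαβ.le)] at key
    exact key
  · exact continuousOn_const.div ((hx.pow 2).add (hy.pow 2)).continuousOn
      (fun s hs => (hR s hs).ne')
  · have hg : Continuous (fun s => x s * deriv x s + y s * deriv y s) :=
      (hx.mul hx').add (hy.mul hy')
    exact (((continuousOn_const.mul hw).mul hrc.continuousOn).sub
      ((hw.mul hg.continuousOn).mul (hg.continuousOn.div hrc.continuousOn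
        fun s hs => (hr s hs).ne'))).div (hrc.pow 2).continuousOn
      (fun s hs => (pow_pos (hr s hs) 2).ne')
  · intro s hs
    have h1 := (hE s hs).2.2.2.2.2.2.2.2.1
    have h2 := h1.div (hdr s hs) (hr s hs).ne'
    refine h2.congr_of_eventuallyEq (Filter.Eventually.of_forall fun t => ?_)
    simp only [Pi.div_apply]
    rw [mul_div_assoc]
  · intro s hs
    have h1 := (hE s hs).2.2.1
    have h2 := hr s hs
    have h3 : Real.sqrt (x s ^ 2 + y s ^ 2) ^ 2 = x s ^ 2 + y s ^ 2 := Real.sq_sqrt (hR s hs).le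
    have h4 : 0 ≤ w3 m x y s * (x s * deriv x s + y s * deriv y s) *
        ((x s * deriv x s + y s * deriv y s) / Real.sqrt (x s ^ 2 + y s ^ 2)) := by
      have : w3 m x y s * (x s * deriv x s + y s * deriv y s) *
          ((x s * deriv x s + y s * deriv y s) / Real.sqrt (x s ^ 2 + y s ^ 2)) =
          w3 m x y s * ((x s * deriv x s + y s * deriv y s) ^ 2 /
            Real.sqrt (x s ^ 2 + y s ^ 2)) := by ring
      rw [this]
      positivity
    show ((3 * (m : ℝ) + 1) * w3 m x y s * Real.sqrt (x s ^ 2 + y s ^ 2) -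
      w3 m x y s * (x s * deriv x s + y s * deriv y s) *
      ((x s * deriv x s + y s * deriv y s) / Real.sqrt (x s ^ 2 + y s ^ 2))) /
      Real.sqrt (x s ^ 2 + y s ^ 2) ^ 2 ≤
      w3 m x y s * ((3 * (m : ℝ) + 1) / (x s ^ 2 + y s ^ 2)) *
        Real.sqrt (x s ^ 2 + y s ^ 2)
    rw [h3]
    have h5 : w3 m x y s * ((3 * (m : ℝ) + 1) / (x s ^ 2 + y s ^ 2)) *
        Real.sqrt (x s ^ 2 + y s ^ 2) = ((3 * (m : ℝ) + 1) * w3 m x y s *
        Real.sqrt (x s ^ 2 + y s ^ 2)) / (x s ^ 2 + y s ^ 2) := by ring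
    rw [h5]
    exact div_le_div_of_nonneg_right (by linarith) (hR s hs).le

theorem secP (h0 : clSec0) (h : cEqn) : cSecP := by
  intro m α β x y hm hαβ hC
  have hE := h m α β x y hm hαβ hC
  have hx : Continuous x := hC.1.continuous
  have hy : Continuous y := hC.2.1.continuous
  have hw := contW h hm hαβ hC
  have hd1c : Continuous (fun s => d1 (x s) (y s)) := by
    unfold d1
    fun_prop
  have hd3c : Continuous (fun s => d3 (x s) (y s)) := by
    unfold d3
    fun_prop
  have hd1 : ∀ s ∈ Icc α β, 0 < d1 (x s) (y s) := fun s hs => (hC.2.2 s hs).1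
  have hd3 : ∀ s ∈ Icc α β, 0 < d3 (x s) (y s) := fun s hs => (hC.2.2 s hs).2.1
  have hP : ∀ s ∈ Icc α β, 0 < x s + y s := fun s hs => by
    have h1 := (hE s hs).1
    have h2 := (hE s hs).2.1
    linarith
  refine h0 α β (w3 m x y) (fun s => 2 * (m : ℝ) *
      (1 / d1 (x s) (y s) ^ 2 + 1 / (x s + y s) ^ 2 + 1 / d3 (x s) (y s) ^ 2))
    (fun s => x s + y s) (fun s => deriv x s + deriv y s)
    (fun s => w3 m x y s * (m * (2 / (x s + y s) + 1 / d1 (x s) (y s) + 1 / d3 (x s) (y s))))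
    hαβ hw (fun s hs => (hE s hs).2.2.1) ?_ hP ?_ ?_ ?_ ?_
  · exact continuousOn_const.mul (((continuousOn_const.div (hd1c.pow 2).continuousOn
      fun s hs => (pow_pos (hd1 s hs) 2).ne').add
      (continuousOn_const.div ((hx.add hy).pow 2).continuousOn
      fun s hs => (pow_pos (hP s hs) 2).ne')).add
      (continuousOn_const.div (hd3c.pow 2).continuousOn
      fun s hs => (pow_pos (hd3 s hs) 2).ne'))
  · intro s _
    exact ((hC.1.differentiable (by norm_num)) s).hasDerivAt.add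
      ((hC.2.1.differentiable (by norm_num)) s).hasDerivAt
  · exact hw.mul (continuousOn_const.mul (((continuousOn_const.div (hx.add hy).continuousOn
      fun s hs => (hP s hs).ne').add (continuousOn_const.div hd1c.continuousOn
      fun s hs => (hd1 s hs).ne')).add (continuousOn_const.div hd3c.continuousOn
      fun s hs => (hd3 s hs).ne')))
  · intro s hs
    have h1 := (hE s hs).2.2.2.2.2.2.1
    have h2 := (hE s hs).2.2.2.2.2.2.2.1
    have h3 := h1.add h2
    have e1' := (hd1 s hs).ne'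
    have e3' := (hd3 s hs).ne'
    have eP := (hP s hs).ne'
    refine (h3.congr_of_eventuallyEq (Filter.Eventually.of_forall fun t => ?_)).congr_deriv ?_
    · simp only [Pi.add_apply]
      ring
    · field_simp
      ring
  · intro s hs
    have h1 := (hE s hs).2.2.1
    have p1 := hd1 s hs
    have p3 := hd3 s hs
    have pP := hP s hs
    have hsum := d1_add_d3 (x s) (y s)
    have hm0 : (0 : ℝ) ≤ m := Nat.cast_nonneg m
    have q : ∀ d : ℝ, 0 < d → d ≤ x s + y s → 1 / d ≤ 2 * (x s + y s) * (1 / d ^ 2) := by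
      intro d hd hle
      have : 1 / d = d * (1 / d ^ 2) := by field_simp
      rw [this]
      exact mul_le_mul_of_nonneg_right (by linarith) (by positivity)
    have q1 := q _ p1 (by linarith)
    have q3 := q _ p3 (by linarith)
    have q2 : 2 / (x s + y s) = 2 * (x s + y s) * (1 / (x s + y s) ^ 2) := by
      have := pP.ne'
      field_simp
    show w3 m x y s * (m * (2 / (x s + y s) + 1 / d1 (x s) (y s) + 1 / d3 (x s) (y s))) ≤
      w3 m x y s * (2 * (m : ℝ) *
      (1 / d1 (x s) (y s) ^ 2 + 1 / (x s + y s) ^ 2 + 1 / d3 (x s) (y s) ^ 2)) * (x s + y s)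
    have e : w3 m x y s * (2 * (m : ℝ) *
        (1 / d1 (x s) (y s) ^ 2 + 1 / (x s + y s) ^ 2 + 1 / d3 (x s) (y s) ^ 2)) * (x s + y s) =
        w3 m x y s * (m * (2 * (x s + y s) * (1 / (x s + y s) ^ 2) +
          2 * (x s + y s) * (1 / d1 (x s) (y s) ^ 2) +
          2 * (x s + y s) * (1 / d3 (x s) (y s) ^ 2))) := by ring
    rw [e]
    exact mul_le_mul_of_nonneg_left (mul_le_mul_of_nonneg_left (by linarith) hm0) h1.le

end JSecRP

theorem prfSecRP (hclSec0 : clSec0) (hcEqn : cEqn) : cSecR ∧ cSecP :=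
  ⟨JSecRP.secR hclSec0 hcEqn, JSecRP.secP hclSec0 hcEqn⟩

end Pool.Agent.Work.MP_408f4b_gt.A2
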