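import Pool.Agent.Work.MP_408f4b_gt.A2.Stmts

set_option autoImplicit false

/-!
# Item SecV: the inequality of Picone for the sector of standard type
-/

namespace Pool.Agent.Work.MP_408f4b_gt.A2

open MeasureTheory Set Filter Topology Pool.Agent.Work.MP_408f4b_gt.Q

namespace JSecV

/-- The pointwise identity. -/
theorem algId (P Q R x y w u u' v v' x' y' : ℝ) (hx : x ≠ 0) (hy : y ≠ 0) :
    (u' ^ 2 + v' ^ 2 + P * u ^ 2 + 2 * Q * (u * v) + R * v ^ 2) * w -
      ((2 * u * u' * (w * x') / x + u ^ 2 * (w * (P * x + Q * y) / x - w * x' ^ 2 / x ^ 2)) +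
        (2 * v * v' * (w * y') / y + v ^ 2 * (w * (Q * x + R * y) / y - w * y' ^ 2 / y ^ 2))) =
      w * (u' - u * x' / x) ^ 2 + w * (v' - v * y' / y) ^ 2 +
        w * ((-Q) * ((u * y - v * x) ^ 2 / (x * y))) := by
  field_simp
  ring

theorem sq3 : √3 ^ 2 = (3 : ℝ) := Real.sq_sqrt (by norm_num)

theorem eqX (m x y t : ℝ) (ht : t ^ 2 = 3) (h1 : ((1 + t) * x + (1 - t) * y) / 2 ≠ 0)
    (h3 : ((1 - t) * x + (1 + t) * y) / 2 ≠ 0) (hs : x + y ≠ 0) :
    m * (1 / (x + y) + (1 + t) / (2 * (((1 + t) * x + (1 - t) * y) / 2)) +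
      (1 - t) / (2 * (((1 - t) * x + (1 + t) * y) / 2))) =
    m * (1 / (x + y) ^ 2 + (1 + t / 2) / (((1 + t) * x + (1 - t) * y) / 2) ^ 2 +
      (1 - t / 2) / (((1 - t) * x + (1 + t) * y) / 2) ^ 2) * x +
    m * (1 / (x + y) ^ 2 - (1 / (((1 + t) * x + (1 - t) * y) / 2) ^ 2 +
      1 / (((1 - t) * x + (1 + t) * y) / 2) ^ 2) / 2) * y := by
  have e1 : (1 + t) / (2 * (((1 + t) * x + (1 - t) * y) / 2)) =
      ((1 + t / 2) * x - y / 2) / (((1 + t) * x + (1 - t) * y) / 2) ^ 2 := by
    rw [div_eq_div_iff (mul_ne_zero two_ne_zero h1) (pow_ne_zero 2 h1)]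
    linear_combination ((1 + t) * x + (1 - t) * y) / 4 * (x - y) * ht
  have e3 : (1 - t) / (2 * (((1 - t) * x + (1 + t) * y) / 2)) =
      ((1 - t / 2) * x - y / 2) / (((1 - t) * x + (1 + t) * y) / 2) ^ 2 := by
    rw [div_eq_div_iff (mul_ne_zero two_ne_zero h3) (pow_ne_zero 2 h3)]
    linear_combination ((1 - t) * x + (1 + t) * y) / 4 * (x - y) * ht
  have e2 : 1 / (x + y) = (x + y) / (x + y) ^ 2 := by
    field_simp
  rw [e1, e3, e2]
  ring

end JSecV

theorem prfSecV (hcEqn : cEqn) : cSecV := by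
  intro m α β x y hm hαβ hC u u' v v' hu hu' hv hv'
  have hE := hcEqn m α β x y hm hαβ hC
  have hx : Continuous x := hC.1.continuous
  have hy : Continuous y := hC.2.1.continuous
  have hw : ContinuousOn (w3 m x y) (Icc α β) := fun s hs =>
    ((hE s hs).2.2.2.2.2.1).continuousAt.continuousWithinAt
  have hxp : ∀ s ∈ Icc α β, 0 < x s := fun s hs => (hE s hs).1
  have hyp : ∀ s ∈ Icc α β, 0 < y s := fun s hs => (hE s hs).2.1
  have hd1 : ∀ s ∈ Icc α β, 0 < d1 (x s) (y s) := fun s hs => (hC.2.2 s hs).1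
  have hd3 : ∀ s ∈ Icc α β, 0 < d3 (x s) (y s) := fun s hs => (hC.2.2 s hs).2.1
  have hxy' : ∀ s ∈ Icc α β, 0 < x s + y s := fun s hs => add_pos (hxp s hs) (hyp s hs)
  have hsum : ∀ s, d1 (x s) (y s) + d3 (x s) (y s) = x s + y s := fun s => by
    simp only [d1, d3]
    ring
  have hP : ∀ s ∈ Icc α β, (m : ℝ) * (1 / (x s + y s) + (1 + √3) / (2 * d1 (x s) (y s)) +
      (1 - √3) / (2 * d3 (x s) (y s))) = p11 m x y s * x s + p12 m x y s * y s := fun s hs =>
    JSecV.eqX m (x s) (y s) (√3) JSecV.sq3 (hd1 s hs).ne' (hd3 s hs).ne' (hxy' s hs).ne'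
  have hR : ∀ s ∈ Icc α β, (m : ℝ) * (1 / (x s + y s) + (1 - √3) / (2 * d1 (x s) (y s)) +
      (1 + √3) / (2 * d3 (x s) (y s))) = p12 m x y s * x s + p22 m x y s * y s := fun s hs => by
    have h := JSecV.eqX m (y s) (x s) (√3) JSecV.sq3
      (by have := (hd3 s hs).ne'; simp only [d3] at this; rwa [add_comm] at this)
      (by have := (hd1 s hs).ne'; simp only [d1] at this; rwa [add_comm] at this)
      (by rw [add_comm]; exact (hxy' s hs).ne')
    simp only [p12, p22, d1, d3]
    rw [add_comm (y s) (x s), add_comm ((1 + √3) * y s), add_comm ((1 - √3) * y s)] at h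
    linear_combination h
  have hG : ∀ s ∈ Icc α β, HasDerivAt
      (fun t => u t ^ 2 * (w3 m x y t * deriv x t) / x t +
        v t ^ 2 * (w3 m x y t * deriv y t) / y t)
      ((2 * u s * u' s * (w3 m x y s * deriv x s) / x s + u s ^ 2 *
          (w3 m x y s * (p11 m x y s * x s + p12 m x y s * y s) / x s -
            w3 m x y s * deriv x s ^ 2 / x s ^ 2)) +
        (2 * v s * v' s * (w3 m x y s * deriv y s) / y s + v s ^ 2 *
          (w3 m x y s * (p12 m x y s * x s + p22 m x y s * y s) / y s -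
            w3 m x y s * deriv y s ^ 2 / y s ^ 2))) s := by
    intro s hs
    have hx0 : x s ≠ 0 := (hxp s hs).ne'
    have hy0 : y s ≠ 0 := (hyp s hs).ne'
    have hdx := ((hC.1.differentiable (by norm_num)) s).hasDerivAt
    have hdy := ((hC.2.1.differentiable (by norm_num)) s).hasDerivAt
    have hwx := (hE s hs).2.2.2.2.2.2.1
    have hwy := (hE s hs).2.2.2.2.2.2.2.1
    rw [hP s hs] at hwx
    rw [hR s hs] at hwy
    have h1 := (((hu s hs).pow 2).mul hwx).div hdx hx0
    have h2 := (((hv s hs).pow 2).mul hwy).div hdy hy0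
    refine (h1.add h2).congr_deriv ?_
    simp only [Pi.mul_apply, Pi.pow_apply]
    generalize p11 m x y s * x s + p12 m x y s * y s = P
    generalize p12 m x y s * x s + p22 m x y s * y s = Q
    push_cast
    field_simp
    ring
  have hcu : ContinuousOn u (Icc α β) := fun s hs => (hu s hs).continuousAt.continuousWithinAt
  have hcv : ContinuousOn v (Icc α β) := fun s hs => (hv s hs).continuousAt.continuousWithinAt
  have cd1 : Continuous (fun s => d1 (x s) (y s)) := by
    simp only [d1]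
    fun_prop
  have cd3 : Continuous (fun s => d3 (x s) (y s)) := by
    simp only [d3]
    fun_prop
  have cs : ∀ c : ℝ, ContinuousOn (fun s => c / (x s + y s) ^ 2) (Icc α β) := fun c =>
    continuousOn_const.div ((hx.add hy).pow 2).continuousOn
      (fun s hs => (pow_pos (hxy' s hs) 2).ne')
  have c1 : ∀ c : ℝ, ContinuousOn (fun s => c / d1 (x s) (y s) ^ 2) (Icc α β) := fun c =>
    continuousOn_const.div (cd1.pow 2).continuousOn (fun s hs => (pow_pos (hd1 s hs) 2).ne')
  have c3 : ∀ c : ℝ, ContinuousOn (fun s => c / d3 (x s) (y s) ^ 2) (Icc α β) := fun c =>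
    continuousOn_const.div (cd3.pow 2).continuousOn (fun s hs => (pow_pos (hd3 s hs) 2).ne')
  have q11 : ContinuousOn (p11 m x y) (Icc α β) :=
    continuousOn_const.mul (((cs 1).add (c1 _)).add (c3 _))
  have q22 : ContinuousOn (p22 m x y) (Icc α β) :=
    continuousOn_const.mul (((cs 1).add (c1 _)).add (c3 _))
  have q12 : ContinuousOn (p12 m x y) (Icc α β) :=
    continuousOn_const.mul ((cs 1).sub (((c1 1).add (c3 1)).div_const 2))
  have hcont : ContinuousOn
      (fun s => (u' s ^ 2 + v' s ^ 2 + p11 m x y s * u s ^ 2 +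
        2 * p12 m x y s * (u s * v s) + p22 m x y s * v s ^ 2) * w3 m x y s) (Icc α β) :=
    (((((hu'.pow 2).add (hv'.pow 2)).add (q11.mul (hcu.pow 2))).add
      ((continuousOn_const.mul q12).mul (hcu.mul hcv))).add (q22.mul (hcv.pow 2))).mul hw
  have key := intervalIntegral.sub_le_integral_of_hasDeriv_right_of_le hαβ.le
    (fun s hs => (hG s hs).continuousAt.continuousWithinAt)
    (fun s hs => (hG s (Ioo_subset_Icc_self hs)).hasDerivWithinAt)
    (hcont.integrableOn_Icc) (fun s hs => by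
      have hs' := Ioo_subset_Icc_self hs
      have hid := JSecV.algId (p11 m x y s) (p12 m x y s) (p22 m x y s) (x s) (y s)
        (w3 m x y s) (u s) (u' s) (v s) (v' s) (deriv x s) (deriv y s) (hxp s hs').ne'
        (hyp s hs').ne'
      have hw0 := (hE s hs').2.2.1
      have h3 : 0 ≤ w3 m x y s * (u' s - u s * deriv x s / x s) ^ 2 :=
        mul_nonneg hw0.le (sq_nonneg _)
      have h4 : 0 ≤ w3 m x y s * (v' s - v s * deriv y s / y s) ^ 2 :=
        mul_nonneg hw0.le (sq_nonneg _)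
      have h5 : p12 m x y s ≤ 0 := by
        have k1 : 1 / (x s + y s) ^ 2 ≤ 1 / d1 (x s) (y s) ^ 2 := by
          refine one_div_le_one_div_of_le (pow_pos (hd1 s hs') 2) ?_
          refine pow_le_pow_left₀ (hd1 s hs').le ?_ 2
          have := hsum s
          have := hd3 s hs'
          linarith
        have k3 : 1 / (x s + y s) ^ 2 ≤ 1 / d3 (x s) (y s) ^ 2 := by
          refine one_div_le_one_div_of_le (pow_pos (hd3 s hs') 2) ?_
          refine pow_le_pow_left₀ (hd3 s hs').le ?_ 2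
          have := hsum s
          have := hd1 s hs'
          linarith
        refine mul_nonpos_of_nonneg_of_nonpos (Nat.cast_nonneg m) ?_
        linarith
      have h6 : 0 ≤ w3 m x y s * ((-p12 m x y s) *
          ((u s * y s - v s * x s) ^ 2 / (x s * y s))) :=
        mul_nonneg hw0.le (mul_nonneg (neg_nonneg.2 h5)
          (div_nonneg (sq_nonneg _) (mul_pos (hxp s hs') (hyp s hs')).le))
      linarith)
  refine le_trans (le_of_eq ?_) key
  ring

end Pool.Agent.Work.MP_408f4b_gt.A2
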