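import Pool.Agent.Work.MP_408f4b_gt.A2.Stmts

set_option autoImplicit false

/-!
# Block A2, item Stek: the theorem for one algebra
-/

namespace Pool.Agent.Work.MP_408f4b_gt.A2

open MeasureTheory Set Filter Topology Pool.Agent.Work.MP_408f4b_gt.Q

theorem prfStek (hclBas : clBas) (hcB : cB) (hcPt : cPt) (hcThm : cThm) (hcLin : cLin)
    (hcFr : cFr) (hcHm : cHm) : cStek := by
  intro F _ _ _ _ _
  obtain ⟨e, he, u, hu⟩ := hclBas F
  obtain ⟨Ψ, hΨJ, hΨ⟩ := hcFr F e u hu
  obtain ⟨T, hTB, hTpr⟩ := hcHm F e u hu Ψ hΨJ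
  unfold SteklovOne
  rw [← he]
  intro P
  -- continuity of the points
  have hBc : Continuous (fun z : Vec F 3 × Vec F 3 => T.B z.1 z.2) :=
    (hcB _ _ Ψ _ T).1.continuous
  have hXc : ∀ x y z : ℝ, Continuous (fun p : Vec F 3 × Vec F 3 × Vec F 3 =>
      T.X x y z p.1 p.2.1 p.2.2) := by
    intro x y z
    have h1 : Continuous (fun p : Vec F 3 × Vec F 3 × Vec F 3 => T.B p.1 p.1) :=
      hBc.comp (f := fun p : Vec F 3 × Vec F 3 × Vec F 3 => (p.1, p.1)) (by fun_prop)
    have h2 : Continuous (fun p : Vec F 3 × Vec F 3 × Vec F 3 => T.B p.2.1 p.2.1) :=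
      hBc.comp (f := fun p : Vec F 3 × Vec F 3 × Vec F 3 => (p.2.1, p.2.1)) (by fun_prop)
    have h3 : Continuous (fun p : Vec F 3 × Vec F 3 × Vec F 3 => T.B p.2.2 p.2.2) :=
      hBc.comp (f := fun p : Vec F 3 × Vec F 3 × Vec F 3 => (p.2.2, p.2.2)) (by fun_prop)
    unfold Hrm.X
    exact ((h1.const_smul x).add (h2.const_smul y)).add (h3.const_smul z)
  have hpt : ∀ s r v w, P.pt s r v w = T.X (P.x s) (P.y s) (P.z s) r v w := by
    intro s r v w
    simp only [Profile.pt, Hrm.X, hTB]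
  have hnu : ∀ s r v w, P.nu s r v w = T.X ((deriv P.y s - deriv P.z s) / √3)
      ((deriv P.z s - deriv P.x s) / √3) ((deriv P.x s - deriv P.y s) / √3) r v w := by
    intro s r v w
    simp only [Profile.nu, Hrm.X, hTB]
  have hgs : ∀ f s, P.gradSq f s =
      T.gS f (P.x s) (P.y s) (P.z s) (deriv P.x s) (deriv P.y s) (deriv P.z s) := by
    intro f s
    funext r v w
    simp only [Profile.gradSq, Hrm.gS, hpt, hnu, hTpr]
  have hdsum : ∀ s, deriv P.x s + deriv P.y s + deriv P.z s = 0 := by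
    intro s
    have hx := ((P.x_C2.differentiable (by norm_num)) s).hasDerivAt
    have hy := ((P.y_C2.differentiable (by norm_num)) s).hasDerivAt
    have hz := ((P.z_C2.differentiable (by norm_num)) s).hasDerivAt
    have h1 := (hx.add hy).add hz
    have h2 : (P.x + P.y + P.z) = fun _ => (0 : ℝ) := by
      funext t
      exact P.trace t
    rw [h2] at h1
    exact h1.unique (hasDerivAt_const s (0 : ℝ))
  have hden : ∀ f : Mat3 F → ℝ, ContDiff ℝ 1 f → P.energy f = en T P f := by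
    intro f hf
    unfold Profile.energy en
    apply intervalIntegral.integral_congr
    intro s hs
    rw [uIcc_of_le P.L_pos.le] at hs
    show avg F (P.gradSq f s) * P.w s = _
    rw [hgs]
    congr 1
    apply hΨ
    exact ((hcPt _ _ Ψ _ T f hf).2.1 (P.x s) (P.y s) (P.z s) (deriv P.x s) (deriv P.y s)
      (deriv P.z s) (hdsum s) (P.arclength s hs)).1
  have hbd : ∀ f : Mat3 F → ℝ, Continuous f → P.bdry f = bd T P f := by
    intro f hf
    have h6 : ∀ s, avg F (fun r v w => f (P.pt s r v w)) =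
        Ψ.av (fun r v w => f (T.X (P.x s) (P.y s) (P.z s) r v w)) := by
      intro s
      simp only [hpt]
      exact hΨ _ (hf.comp (hXc _ _ _))
    unfold Profile.bdry bd
    rw [h6, h6]
  constructor
  · -- 1 is attained
    obtain ⟨f, hfC, h1, h2, h3⟩ := hcLin _ _ Ψ _ T P
    have h4 : P.bdry (fun X => f X ^ 2) = bd T P (fun X => f X ^ 2) :=
      hbd (fun X => f X ^ 2) (hfC.continuous.pow 2)
    refine ⟨f, hfC, ?_, ?_, ?_⟩
    · rw [hbd _ hfC.continuous]; exact h1
    · rw [h4]; exact h2.ne'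
    · rw [h4, hden f hfC, h3, div_self h2.ne']
  · rintro R ⟨f, hfC, h1, h2, rfl⟩
    have h4 : P.bdry (fun X => f X ^ 2) = bd T P (fun X => f X ^ 2) :=
      hbd (fun X => f X ^ 2) (hfC.continuous.pow 2)
    rw [hbd _ hfC.continuous] at h1
    have h5 := hcThm _ _ Ψ _ T P f hfC h1
    rw [← h4, ← hden f hfC] at h5
    have hw : ∀ s, P.z s ≤ P.y s → P.y s ≤ P.x s → 0 ≤ P.w s := by
      intro s h6 h7
      unfold Profile.w
      have h8 : 0 ≤ P.x s - P.y s := sub_nonneg.2 h7
      have h9 : 0 ≤ P.x s - P.z s := sub_nonneg.2 (h6.trans h7)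
      have h10 : 0 ≤ P.y s - P.z s := sub_nonneg.2 h6
      positivity
    have hwL : 0 ≤ P.w P.L := hw _ P.final.1.le P.final.2.1.le
    have hw0 : 0 ≤ P.w 0 := by
      rcases P.initial with h | h | h
      · exact hw _ h.1.le h.2.1.le
      · exact hw _ h.2.1.le h.1.le
      · exact hw _ h.1.le h.2.1.le
    have hpos : 0 ≤ P.bdry (fun X => f X ^ 2) := by
      rw [h4]
      have hE0 : ∀ U : Vec F 3 → Vec F 3 → Vec F 3 → ℝ,
          0 ≤ Ψ.av (fun r v w => U r v w ^ 2) := by
        intro U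
        exact integral_nonneg fun g => sq_nonneg _
      exact add_nonneg (mul_nonneg (hE0 _) hwL) (mul_nonneg (hE0 _) hw0)
    rw [le_div_iff₀ (lt_of_le_of_ne hpos (Ne.symm h2)), one_mul]
    exact h5

end Pool.Agent.Work.MP_408f4b_gt.A2
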