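import Pool.Agent.Work.MP_408f4b_gt.A2.Stmts

set_option autoImplicit false

/-!
# The supersolution `|Q3|^(1/3)`
-/

namespace Pool.Agent.Work.MP_408f4b_gt.A2

open MeasureTheory Set Filter Topology Pool.Agent.Work.MP_408f4b_gt.Q

namespace JSuper

variable {m : ℕ} {α β ε : ℝ} {x y : ℝ → ℝ}

/-- the derivative of `Q3` in the first variable -/
noncomputable def Qx (u v : ℝ) : ℝ := 3 * u ^ 2 + 6 * u * v - 3 * v ^ 2

/-- the derivative of `Q3` in the second variable -/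
noncomputable def Qy (u v : ℝ) : ℝ := 3 * u ^ 2 - 6 * u * v - 3 * v ^ 2

/-- the second derivative of `Q3` in the direction `(p, q)` -/
noncomputable def QH (u v p q : ℝ) : ℝ :=
  6 * (u + v) * p ^ 2 + 12 * (u - v) * (p * q) - 6 * (u + v) * q ^ 2

/-- the derivative of `ε * Q3` along the curve -/
noncomputable def D1 (ε : ℝ) (x y : ℝ → ℝ) (s : ℝ) : ℝ :=
  ε * (Qx (x s) (y s) * deriv x s + Qy (x s) (y s) * deriv y s)

theorem key1 (u v p q : ℝ) :
    3 * (((u - v) * (u ^ 2 + 4 * u * v + v ^ 2)) * QH u v p q) -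
      2 * (Qx u v * p + Qy u v * q) ^ 2 = -(36 * ((u ^ 2 + v ^ 2) * (u * q - v * p) ^ 2)) := by
  unfold QH Qx Qy
  ring

theorem key3 {u v : ℝ} (hu : 0 < u) (hv : 0 < v) (h1 : 0 < d1 u v) (h3 : 0 < d3 u v) :
    Qx u v * (1 / (u + v) + (1 + √3) / (2 * d1 u v) + (1 - √3) / (2 * d3 u v)) +
      Qy u v * (1 / (u + v) + (1 - √3) / (2 * d1 u v) + (1 + √3) / (2 * d3 u v)) = 0 := by
  have ht : (√3 : ℝ) ^ 2 = 3 := Real.sq_sqrt (by norm_num)
  have huv : u + v ≠ 0 := (add_pos hu hv).ne'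
  have hp : d1 u v * d3 u v = (4 * u * v - u ^ 2 - v ^ 2) / 2 := by
    unfold d1 d3
    linear_combination (-(u ^ 2 + v ^ 2) / 4 + u * v / 2) * ht
  have hp0 : (4 * u * v - u ^ 2 - v ^ 2) ≠ 0 := by
    have := mul_pos h1 h3
    rw [hp] at this
    intro h
    rw [h] at this
    norm_num at this
  have e1 : (1 + √3) / (2 * d1 u v) + (1 - √3) / (2 * d3 u v) =
      (4 * v - 2 * u) / (4 * u * v - u ^ 2 - v ^ 2) := by
    have h4 : (1 + √3) / (2 * d1 u v) + (1 - √3) / (2 * d3 u v) =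
        ((1 + √3) * d3 u v + (1 - √3) * d1 u v) / (2 * (d1 u v * d3 u v)) := by
      field_simp
    have h5 : (1 + √3) * d3 u v + (1 - √3) * d1 u v = 4 * v - 2 * u := by
      unfold d1 d3
      linear_combination (v - u) * ht
    rw [h4, hp, h5]
    congr 1
    ring
  have e2 : (1 - √3) / (2 * d1 u v) + (1 + √3) / (2 * d3 u v) =
      (4 * u - 2 * v) / (4 * u * v - u ^ 2 - v ^ 2) := by
    have h4 : (1 - √3) / (2 * d1 u v) + (1 + √3) / (2 * d3 u v) =
        ((1 - √3) * d3 u v + (1 + √3) * d1 u v) / (2 * (d1 u v * d3 u v)) := by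
      field_simp
    have h5 : (1 - √3) * d3 u v + (1 + √3) * d1 u v = 4 * u - 2 * v := by
      unfold d1 d3
      linear_combination (u - v) * ht
    rw [h4, hp, h5]
    congr 1
    ring
  rw [add_assoc, add_assoc, e1, e2]
  unfold Qx Qy
  obtain ⟨P, hP⟩ : ∃ P, P = 4 * u * v - u ^ 2 - v ^ 2 := ⟨_, rfl⟩
  rw [← hP] at hp0 ⊢
  field_simp
  rw [hP]
  ring

theorem hasDerivAt_x (hx : ContDiff ℝ 2 x) (s : ℝ) : HasDerivAt x (deriv x s) s :=
  (hx.differentiable (by norm_num)).differentiableAt.hasDerivAt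

/-- the derivative of `ε * Q3` -/
theorem hasDerivAt_D (hx : ContDiff ℝ 2 x) (hy : ContDiff ℝ 2 y) (s : ℝ) :
    HasDerivAt (fun t => ε * Q3 x y t) (D1 ε x y s) s := by
  have h1 := hasDerivAt_x hx s
  have h2 := hasDerivAt_x hy s
  have h3 := ((h1.sub h2).mul (((h1.pow 2).add ((h1.mul h2).const_mul 4)).add
    (h2.pow 2))).const_mul ε
  have h4 : (fun t => ε * Q3 x y t) = fun t => ε * ((x - y) * ((x ^ 2 + fun t => 4 * (x * y) t) +
      y ^ 2)) t := by
    funext t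
    simp only [Q3, Pi.sub_apply, Pi.pow_apply, Pi.mul_apply, Pi.add_apply]
    ring
  rw [h4]
  refine HasDerivAt.congr_deriv h3 ?_
  simp only [Pi.sub_apply, Pi.pow_apply, Pi.mul_apply, Pi.add_apply, D1, Qx, Qy]
  push_cast
  ring

theorem cont_D1 (hx : ContDiff ℝ 2 x) (hy : ContDiff ℝ 2 y) : Continuous (D1 ε x y) := by
  have h1 : Continuous (deriv x) := hx.continuous_deriv (by norm_num)
  have h2 : Continuous (deriv y) := hy.continuous_deriv (by norm_num)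
  have h3 := hx.continuous
  have h4 := hy.continuous
  unfold D1 Qx Qy
  fun_prop

theorem cont_wq (hx : ContDiff ℝ 2 x) (hy : ContDiff ℝ 2 y) : Continuous (w3 m x y) := by
  have h3 := hx.continuous
  have h4 := hy.continuous
  unfold w3 d1 d3
  fun_prop

/-- the derivative of `w D'` -/
theorem hasDerivAt_M (hE : cEqn) (hm : 1 ≤ m) (hab : α < β)
    (hC : Crv3 m α β x y) {s : ℝ} (hs : s ∈ Icc α β) :
    HasDerivAt (fun t => w3 m x y t * D1 ε x y t)
      (w3 m x y s * (ε * QH (x s) (y s) (deriv x s) (deriv y s))) s := by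
  obtain ⟨hx0, hy0, -, -, -, -, h3, h4, -, -⟩ := hE m α β x y hm hab hC s hs
  obtain ⟨hd1, hd3, -, -⟩ := hC.2.2 s hs
  have h1 := hasDerivAt_x hC.1 s
  have h2 := hasDerivAt_x hC.2.1 s
  have hA := (((h1.pow 2).const_mul 3).add ((h1.mul h2).const_mul 6)).sub ((h2.pow 2).const_mul 3)
  have hB := (((h1.pow 2).const_mul 3).sub ((h1.mul h2).const_mul 6)).sub ((h2.pow 2).const_mul 3)
  have h5 := ((hA.mul h3).add (hB.mul h4)).const_mul ε
  refine HasDerivAt.congr_of_eventuallyEq (HasDerivAt.congr_deriv h5 ?_)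
    (Filter.Eventually.of_forall fun t => ?_)
  · have hk := key3 hx0 hy0 hd1 hd3
    simp only [Pi.sub_apply, Pi.pow_apply, Pi.mul_apply, Pi.add_apply, Pi.neg_apply]
    unfold Qx Qy at hk
    unfold QH
    push_cast
    linear_combination (ε * w3 m x y s * m) * hk
  · simp only [Pi.sub_apply, Pi.pow_apply, Pi.mul_apply, Pi.add_apply, Pi.neg_apply]
    unfold D1 Qx Qy
    ring

/-- the derivative of `F = D^(1/3)` -/
theorem hasDerivAt_F (hx : ContDiff ℝ 2 x) (hy : ContDiff ℝ 2 y) {s : ℝ}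
    (hD : 0 < ε * Q3 x y s) :
    HasDerivAt (fun t => (ε * Q3 x y t) ^ (1 / 3 : ℝ))
      (D1 ε x y s / (3 * ((ε * Q3 x y s) ^ (1 / 3 : ℝ)) ^ 2)) s := by
  have h1 := (hasDerivAt_D (ε := ε) hx hy s).rpow_const
    (p := (1 / 3 : ℝ)) (Or.inl hD.ne')
  refine HasDerivAt.congr_deriv h1 ?_
  have h2 : (ε * Q3 x y s) ^ ((1 / 3 : ℝ) - 1) =
      (((ε * Q3 x y s) ^ (1 / 3 : ℝ)) ^ 2)⁻¹ := by
    rw [← Real.rpow_natCast, ← Real.rpow_mul hD.le, ← Real.rpow_neg hD.le]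
    norm_num
  rw [h2]
  have h3 : 0 < (ε * Q3 x y s) ^ (1 / 3 : ℝ) := Real.rpow_pos_of_pos hD _
  field_simp

theorem F_pow {D : ℝ} (hD : 0 < D) : (D ^ (1 / 3 : ℝ)) ^ 3 = D := by
  rw [← Real.rpow_natCast, ← Real.rpow_mul hD.le]
  norm_num

/-- the derivative of `G = w F'` -/
theorem hasDerivAt_G (hE : cEqn) (hε : ε = 1 ∨ ε = -1) (hm : 1 ≤ m) (hab : α < β)
    (hC : Crv3 m α β x y) {s : ℝ} (hs : s ∈ Icc α β) (hD : 0 < ε * Q3 x y s) :
    HasDerivAt (fun t => w3 m x y t * D1 ε x y t /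
        (3 * ((ε * Q3 x y t) ^ (1 / 3 : ℝ)) ^ 2))
      (-(4 * (w3 m x y s * ((x s ^ 2 + y s ^ 2) * (x s * deriv y s - y s * deriv x s) ^ 2))) /
        ((ε * Q3 x y s) ^ (1 / 3 : ℝ)) ^ 5) s := by
  have h1 := hasDerivAt_M (ε := ε) hE hm hab hC hs
  have h2 := ((hasDerivAt_F (ε := ε) hC.1 hC.2.1 hD).pow 2).const_mul 3
  have hF : 0 < (ε * Q3 x y s) ^ (1 / 3 : ℝ) := Real.rpow_pos_of_pos hD _
  have h3 := h1.div h2 (by simp only [Pi.pow_apply]; positivity)
  refine HasDerivAt.congr_deriv h3 ?_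
  have hF4 := F_pow hD
  simp only [Pi.pow_apply]
  set F := (ε * Q3 x y s) ^ (1 / 3 : ℝ) with hFdef
  have hk := key1 (x s) (y s) (deriv x s) (deriv y s)
  have he : ε * ε = 1 := by rcases hε with rfl | rfl <;> norm_num
  have hQ : F ^ 3 = ε * ((x s - y s) * (x s ^ 2 + 4 * x s * y s + y s ^ 2)) := hF4
  have key : 3 * (F ^ 3 * (ε * QH (x s) (y s) (deriv x s) (deriv y s))) -
      2 * D1 ε x y s ^ 2 =
      -(36 * ((x s ^ 2 + y s ^ 2) * (x s * deriv y s - y s * deriv x s) ^ 2)) := by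
    rw [← hk, hQ]
    unfold D1
    linear_combination (3 * (((x s - y s) * (x s ^ 2 + 4 * x s * y s + y s ^ 2)) *
      QH (x s) (y s) (deriv x s) (deriv y s)) - 2 * (Qx (x s) (y s) * deriv x s +
        Qy (x s) (y s) * deriv y s) ^ 2) * he
  have hF0 : F ≠ 0 := hF.ne'
  push_cast
  field_simp
  linear_combination (w3 m x y s) * key

end JSuper

open JSuper in
theorem prfSuper (h : cEqn) : cSuper := by
  intro m α β ε x y hm hab hε hC hD hxb hyb
  have hE := h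
  have hder : ∀ s ∈ Ioc α β, deriv (fun t => (ε * Q3 x y t) ^ (1 / 3 : ℝ)) s =
      D1 ε x y s / (3 * ((ε * Q3 x y s) ^ (1 / 3 : ℝ)) ^ 2) := fun s hs =>
    (hasDerivAt_F hC.1 hC.2.1 (hD s hs)).deriv
  have hw : ∀ s ∈ Icc α β, 0 < w3 m x y s := fun s hs =>
    (hE m α β x y hm hab hC s hs).2.2.1
  have hbI : β ∈ Icc α β := ⟨hab.le, le_rfl⟩
  have hDb : 0 < ε * Q3 x y β := hD β ⟨hab, le_rfl⟩
  have hFb : 0 < (ε * Q3 x y β) ^ (1 / 3 : ℝ) := Real.rpow_pos_of_pos hDb _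
  have hwb := hw β hbI
  set G : ℝ → ℝ := fun t => w3 m x y t * D1 ε x y t /
    (3 * ((ε * Q3 x y t) ^ (1 / 3 : ℝ)) ^ 2) with hG
  have hGb : G β = w3 m x y β * (ε * Q3 x y β) ^ (1 / 3 : ℝ) := by
    have h1 : D1 ε x y β = 3 * (ε * Q3 x y β) := by
      unfold D1 Q3 Qx Qy
      rw [hxb, hyb]
      ring
    have h2 := F_pow hDb
    rw [hG]
    simp only
    rw [h1]
    nth_rw 1 [← h2]
    field_simp
  have hanti : ∀ s ∈ Ioc α β, G β ≤ G s := by
    intro s hs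
    have hI : ∀ t ∈ Icc s β, t ∈ Icc α β ∧ 0 < ε * Q3 x y t := fun t ht =>
      ⟨⟨hs.1.le.trans ht.1, ht.2⟩, hD t ⟨hs.1.trans_le ht.1, ht.2⟩⟩
    have hA : AntitoneOn G (Icc s β) := by
      refine antitoneOn_of_deriv_nonpos (convex_Icc s β) ?_ ?_ ?_
      · intro t ht
        exact (hasDerivAt_G hE hε hm hab hC (hI t ht).1
          (hI t ht).2).continuousAt.continuousWithinAt
      · intro t ht
        rw [interior_Icc] at ht
        have ht' := hI t ⟨ht.1.le, ht.2.le⟩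
        exact (hasDerivAt_G hE hε hm hab hC ht'.1
          ht'.2).differentiableAt.differentiableWithinAt
      · intro t ht
        rw [interior_Icc] at ht
        have ht' := hI t ⟨ht.1.le, ht.2.le⟩
        rw [(hasDerivAt_G hE hε hm hab hC ht'.1 ht'.2).deriv]
        have h1 := hw t ht'.1
        have h3 : 0 < (ε * Q3 x y t) ^ (1 / 3 : ℝ) := Real.rpow_pos_of_pos ht'.2 _
        refine div_nonpos_of_nonpos_of_nonneg (neg_nonpos.2 ?_) (by positivity)
        positivity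
    exact hA ⟨le_rfl, hs.2⟩ ⟨hs.2, le_rfl⟩ hs.2
  have hfirst : ∀ s ∈ Ioc α β, w3 m x y β * (ε * Q3 x y β) ^ (1 / 3 : ℝ) ≤
      w3 m x y s * deriv (fun t => (ε * Q3 x y t) ^ (1 / 3 : ℝ)) s := by
    intro s hs
    rw [hder s hs, ← hGb, ← mul_div_assoc]
    exact hanti s hs
  refine ⟨hfirst, ?_⟩
  have hwc : ContinuousOn (fun s => (w3 m x y s)⁻¹) (Icc α β) :=
    (cont_wq hC.1 hC.2.1).continuousOn.inv₀ fun s hs => (hw s hs).ne'
  -- the estimate on `[s, β]`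
  have hest : ∀ s ∈ Ioo α β, ∫ t in s..β, (w3 m x y t)⁻¹ ≤ (w3 m x y β)⁻¹ := by
    intro s hs
    have hI : ∀ t ∈ Icc s β, t ∈ Ioc α β := fun t ht => ⟨hs.1.trans_le ht.1, ht.2⟩
    have hsub : Icc s β ⊆ Icc α β := Icc_subset_Icc_left hs.1.le
    have hF' : ∀ t ∈ uIcc s β, HasDerivAt (fun t => (ε * Q3 x y t) ^ (1 / 3 : ℝ))
        (D1 ε x y t / (3 * ((ε * Q3 x y t) ^ (1 / 3 : ℝ)) ^ 2)) t := by
      intro t ht
      rw [uIcc_of_le hs.2.le] at ht
      exact hasDerivAt_F hC.1 hC.2.1 (hD t (hI t ht))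
    have hcF : ContinuousOn (fun t => D1 ε x y t /
        (3 * ((ε * Q3 x y t) ^ (1 / 3 : ℝ)) ^ 2)) (Icc s β) := by
      refine (cont_D1 hC.1 hC.2.1).continuousOn.div
        (continuousOn_const.mul (ContinuousOn.pow (fun t ht =>
          (hF' t (by rwa [uIcc_of_le hs.2.le])).continuousAt.continuousWithinAt) 2))
        fun t ht => ?_
      have := Real.rpow_pos_of_pos (hD t (hI t ht)) (1 / 3 : ℝ)
      positivity
    have hint1 : IntervalIntegrable (fun t => D1 ε x y t /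
        (3 * ((ε * Q3 x y t) ^ (1 / 3 : ℝ)) ^ 2)) volume s β :=
      (hcF.mono (by rw [uIcc_of_le hs.2.le])).intervalIntegrable
    have hint2 : IntervalIntegrable (fun t => (w3 m x y t)⁻¹) volume s β :=
      ((hwc.mono hsub).mono (by rw [uIcc_of_le hs.2.le])).intervalIntegrable
    have h1 := intervalIntegral.integral_eq_sub_of_hasDerivAt hF' hint1
    have h2 : ∫ t in s..β, w3 m x y β * (ε * Q3 x y β) ^ (1 / 3 : ℝ) *
        (w3 m x y t)⁻¹ ≤ ∫ t in s..β, D1 ε x y t /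
        (3 * ((ε * Q3 x y t) ^ (1 / 3 : ℝ)) ^ 2) := by
      refine intervalIntegral.integral_mono_on hs.2.le (hint2.const_mul _) hint1 fun t ht => ?_
      have h3 := hfirst t (hI t ht)
      rw [hder t (hI t ht)] at h3
      have h4 := hw t (hsub ht)
      rw [← div_eq_mul_inv, div_le_iff₀ h4]
      linarith
    rw [h1, intervalIntegral.integral_const_mul] at h2
    have h5 : 0 ≤ (ε * Q3 x y s) ^ (1 / 3 : ℝ) :=
      (Real.rpow_pos_of_pos (hD s (hI s ⟨le_rfl, hs.2.le⟩)) _).le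
    have h6 : w3 m x y β * (ε * Q3 x y β) ^ (1 / 3 : ℝ) *
        ∫ t in s..β, (w3 m x y t)⁻¹ ≤ (ε * Q3 x y β) ^ (1 / 3 : ℝ) := by linarith
    have h7 : w3 m x y β * (∫ t in s..β, (w3 m x y t)⁻¹) ≤ 1 := by
      have h8 : (ε * Q3 x y β) ^ (1 / 3 : ℝ) *
          (w3 m x y β * ∫ t in s..β, (w3 m x y t)⁻¹) ≤
          (ε * Q3 x y β) ^ (1 / 3 : ℝ) * 1 := by linarith
      exact le_of_mul_le_mul_left h8 hFb
    rw [← one_div, le_div_iff₀ hwb]
    linarith
  -- the limit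
  obtain ⟨C, hCb⟩ := isCompact_Icc.exists_bound_of_continuousOn hwc
  by_contra hcon
  push Not at hcon
  set δ := (∫ s in α..β, (w3 m x y s)⁻¹) - (w3 m x y β)⁻¹ with hδ
  have hδ0 : 0 < δ := by linarith
  have hC0 : 0 ≤ C := (norm_nonneg _).trans (hCb β hbI)
  set η := min ((β - α) / 2) (δ / (2 * (C + 1))) with hη
  have hη0 : 0 < η := lt_min (by linarith) (by positivity)
  have hη1 : η ≤ (β - α) / 2 := min_le_left _ _
  have hη2 : η ≤ δ / (2 * (C + 1)) := min_le_right _ _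
  have hs : α + η ∈ Ioo α β := ⟨by linarith, by linarith⟩
  have h1 := hest _ hs
  have hi1 : IntervalIntegrable (fun t => (w3 m x y t)⁻¹) volume α (α + η) :=
    (hwc.mono (by rw [uIcc_of_le hs.1.le]; exact Icc_subset_Icc_right hs.2.le)).intervalIntegrable
  have hi2 : IntervalIntegrable (fun t => (w3 m x y t)⁻¹) volume (α + η) β :=
    (hwc.mono (by rw [uIcc_of_le hs.2.le]; exact Icc_subset_Icc_left hs.1.le)).intervalIntegrable
  have h2 := intervalIntegral.integral_add_adjacent_intervals hi1 hi2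
  have h3 : ‖∫ t in α..(α + η), (w3 m x y t)⁻¹‖ ≤ C * |α + η - α| := by
    refine intervalIntegral.norm_integral_le_of_norm_le_const fun t ht => ?_
    rw [uIoc_of_le hs.1.le] at ht
    exact hCb t ⟨ht.1.le, ht.2.trans hs.2.le⟩
  rw [Real.norm_eq_abs, add_sub_cancel_left, abs_of_pos hη0] at h3
  have h4 := (abs_le.1 h3).2
  have h5 : C * η ≤ δ / 2 := by
    have h6 : (C + 1) * η ≤ (C + 1) * (δ / (2 * (C + 1))) :=
      mul_le_mul_of_nonneg_left hη2 (by linarith)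
    have h7 : (C + 1) * (δ / (2 * (C + 1))) = δ / 2 := by
      field_simp
    linarith
  linarith

end Pool.Agent.Work.MP_408f4b_gt.A2
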