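import Pool.Agent.Work.MP_408f4b_gt.A2.Stmts

set_option autoImplicit false

/-!
# The symmetric functions
-/

namespace Pool.Agent.Work.MP_408f4b_gt.A2

open MeasureTheory Set Filter Topology Pool.Agent.Work.MP_408f4b_gt.Q

namespace JSym

section one

variable {V : Type} [NormedAddCommGroup V] [InnerProductSpace ℝ V] [CompleteSpace V] {e : ℕ}
  (Ψ : Fr3 V e)

/-- Averages depend only on the values at the triples. -/
lemma av_congr (hcTri : cTri) (F G : V → V → V → ℝ)
    (h : ∀ u v w, Ψ.Tri u v w → F u v w = G u v w) : Ψ.av F = Ψ.av G := by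
  obtain ⟨h0, -, h1, -⟩ := hcTri V e Ψ
  unfold Fr3.av
  exact integral_congr_ae (ae_of_all _ fun g => h _ _ _ (h1 _ _ _ h0 g))

lemma av_nonneg (F : V → V → V → ℝ) (h : ∀ u v w, 0 ≤ F u v w) : 0 ≤ Ψ.av F := by
  unfold Fr3.av
  exact integral_nonneg fun g => h _ _ _

lemma av_lin (hcAv : cAv) {F G : V → V → V → ℝ} (hF : Co3 F) (hG : Co3 G) (c d : ℝ) :
    Ψ.av (fun u v w => c * F u v w + d * G u v w) = c * Ψ.av F + d * Ψ.av G :=
  ((hcAv V e Ψ).2.1 F G hF hG).1 c d

lemma av_add (hcAv : cAv) {F G : V → V → V → ℝ} (hF : Co3 F) (hG : Co3 G) :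
    Ψ.av (fun u v w => F u v w + G u v w) = Ψ.av F + Ψ.av G := by
  have := av_lin Ψ hcAv hF hG 1 1
  simpa using this

lemma av_mul (hcAv : cAv) {F : V → V → V → ℝ} (hF : Co3 F) (c : ℝ) :
    Ψ.av (fun u v w => c * F u v w) = c * Ψ.av F := by
  have := av_lin Ψ hcAv hF hF c 0
  simpa using this

/-- The quadratic form of the three translates of a function of one vector. -/
lemma cube (hcAv : cAv) (h : V → ℝ) (hh : Continuous h) (f : V → V → V → ℝ) (hf : Co3 f)
    (μ H2 c : ℝ) (h0 : Ψ.fr.av (fun u _ => h u) = 0)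
    (hH : Ψ.fr.av (fun u _ => h u ^ 2) = H2) (hc : Ψ.fr.av (fun u v => h u * h v) = c)
    (hμ : Ψ.av f = μ) (f12 : ∀ u v w, f v u w = f u v w) (f13 : ∀ u v w, f w v u = f u v w)
    (hfh : Ψ.av (fun u v w => f u v w * h u) = H2) :
    Ψ.av (fun u v w => (f u v w - μ - 2 / 5 * (h u + h v + h w)) ^ 2) =
      Ψ.av (fun u v w => f u v w ^ 2) - μ ^ 2 - 12 / 5 * H2 + 4 / 25 * (3 * H2 + 6 * c) := by
  have hA := (hcAv V e Ψ).1
  have hk := (hcAv V e Ψ).2.2.2.1
  have hconst := (hcAv V e Ψ).2.2.1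
  have hf' : Continuous (fun z : V × V × V => f z.1 z.2.1 z.2.2) := hf
  -- one vector
  have c1 : Co3 (fun u (_ _ : V) => h u) := by unfold Co3; fun_prop
  have a1 : Ψ.av (fun u _ _ => h u) = 0 := by rw [hk (fun u _ => h u)]; exact h0
  have a2 : Ψ.av (fun _ v _ => h v) = 0 := by
    have := (hA _ c1).2.2.2.1
    rw [a1] at this; exact this
  have a3 : Ψ.av (fun _ _ w => h w) = 0 := by
    have := (hA _ c1).2.2.2.2.1
    rw [a1] at this; exact this
  have d1 : Co3 (fun u (_ _ : V) => h u ^ 2) := by unfold Co3; fun_prop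
  have b1 : Ψ.av (fun u _ _ => h u ^ 2) = H2 := by rw [hk (fun u _ => h u ^ 2)]; exact hH
  have b2 : Ψ.av (fun _ v _ => h v ^ 2) = H2 := by
    have := (hA _ d1).2.2.2.1
    rw [b1] at this; exact this
  have b3 : Ψ.av (fun _ _ w => h w ^ 2) = H2 := by
    have := (hA _ d1).2.2.2.2.1
    rw [b1] at this; exact this
  -- two vectors
  have e1 : Co3 (fun u v (_ : V) => h u * h v) := by unfold Co3; fun_prop
  have e12 : Ψ.av (fun u v _ => h u * h v) = c := by rw [hk (fun u v => h u * h v)]; exact hc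
  have e13 : Ψ.av (fun u _ w => h u * h w) = c := by
    have := (hA _ e1).2.2.1
    rw [e12] at this; exact this
  have e23 : Ψ.av (fun _ v w => h v * h w) = c := by
    have := (hA _ e1).2.2.2.2.2.1
    rw [e12] at this; exact this
  -- products with f
  have k1 : Co3 (fun u v w => f u v w * h u) := by unfold Co3; fun_prop
  have g2 : Ψ.av (fun u v w => f u v w * h v) = H2 := by
    have := (hA _ k1).2.2.2.1
    rw [hfh] at this
    rw [← this]
    congr 1; funext u v w
    simp only [s12]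
    rw [f12]
  have g3 : Ψ.av (fun u v w => f u v w * h w) = H2 := by
    have := (hA _ k1).2.2.2.2.1
    rw [hfh] at this
    rw [← this]
    congr 1; funext u v w
    simp only [s13]
    rw [f13]
  have hexp : (fun u v w => (f u v w - μ - 2 / 5 * (h u + h v + h w)) ^ 2) =
      fun u v w => f u v w ^ 2 + ((-2 * μ) * f u v w + (μ ^ 2 + ((-4 / 5) * (f u v w * h u) +
        ((-4 / 5) * (f u v w * h v) + ((-4 / 5) * (f u v w * h w) + ((4 / 5 * μ) * h u +
        ((4 / 5 * μ) * h v + ((4 / 5 * μ) * h w + (4 / 25 * h u ^ 2 + (4 / 25 * h v ^ 2 +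
        (4 / 25 * h w ^ 2 + (8 / 25 * (h u * h v) + (8 / 25 * (h u * h w) +
        8 / 25 * (h v * h w)))))))))))))) := by
    funext u v w; ring
  rw [hexp]
  rw [av_add Ψ hcAv (by unfold Co3; fun_prop) (by unfold Co3; fun_prop),
    av_add Ψ hcAv (by unfold Co3; fun_prop) (by unfold Co3; fun_prop),
    av_add Ψ hcAv (by unfold Co3; fun_prop) (by unfold Co3; fun_prop),
    av_add Ψ hcAv (by unfold Co3; fun_prop) (by unfold Co3; fun_prop),
    av_add Ψ hcAv (by unfold Co3; fun_prop) (by unfold Co3; fun_prop),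
    av_add Ψ hcAv (by unfold Co3; fun_prop) (by unfold Co3; fun_prop),
    av_add Ψ hcAv (by unfold Co3; fun_prop) (by unfold Co3; fun_prop),
    av_add Ψ hcAv (by unfold Co3; fun_prop) (by unfold Co3; fun_prop),
    av_add Ψ hcAv (by unfold Co3; fun_prop) (by unfold Co3; fun_prop),
    av_add Ψ hcAv (by unfold Co3; fun_prop) (by unfold Co3; fun_prop),
    av_add Ψ hcAv (by unfold Co3; fun_prop) (by unfold Co3; fun_prop),
    av_add Ψ hcAv (by unfold Co3; fun_prop) (by unfold Co3; fun_prop),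
    av_add Ψ hcAv (by unfold Co3; fun_prop) (by unfold Co3; fun_prop),
    av_add Ψ hcAv (by unfold Co3; fun_prop) (by unfold Co3; fun_prop)]
  have m0 := av_mul Ψ hcAv hf (-2 * μ)
  have m1 := av_mul Ψ hcAv k1 (-4 / 5)
  have m2 := av_mul Ψ hcAv (F := fun u v w => f u v w * h v) (by unfold Co3; fun_prop) (-4 / 5)
  have m3 := av_mul Ψ hcAv (F := fun u v w => f u v w * h w) (by unfold Co3; fun_prop) (-4 / 5)
  have m4 := av_mul Ψ hcAv c1 (4 / 5 * μ)
  have m5 := av_mul Ψ hcAv (F := fun (_ : V) v (_ : V) => h v) (by unfold Co3; fun_prop) (4 / 5 * μ)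
  have m6 := av_mul Ψ hcAv (F := fun (_ _ : V) w => h w) (by unfold Co3; fun_prop) (4 / 5 * μ)
  have m7 := av_mul Ψ hcAv d1 (4 / 25)
  have m8 := av_mul Ψ hcAv (F := fun (_ : V) v (_ : V) => h v ^ 2) (by unfold Co3; fun_prop)
    (4 / 25)
  have m9 := av_mul Ψ hcAv (F := fun (_ _ : V) w => h w ^ 2) (by unfold Co3; fun_prop) (4 / 25)
  have m10 := av_mul Ψ hcAv e1 (8 / 25)
  have m11 := av_mul Ψ hcAv (F := fun u (_ : V) w => h u * h w) (by unfold Co3; fun_prop) (8 / 25)
  have m12 := av_mul Ψ hcAv (F := fun (_ : V) v w => h v * h w) (by unfold Co3; fun_prop) (8 / 25)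
  rw [m0, m1, m2, m3, m4, m5, m6, m7, m8, m9, m10, m11, m12, hconst, hμ, hfh, g2, g3, a1, a2, a3,
    b1, b2, b3, e12, e13, e23]
  ring

omit [CompleteSpace V] in
/-- Multiplication by a function of the first vector. -/
lemma P2_mul {n : ℕ} (Φ : Frm V n e) (F : V → V → ℝ) (k : V → ℝ) (v : V) :
    Φ.P2 (fun v w => F v w * k v) v = Φ.P2 F v * k v := by
  unfold Frm.P2
  rw [mul_assoc, ← integral_mul_const]
  congr 1
  refine integral_congr_ae (ae_of_all _ fun u => ?_)
  simp only [psi]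
  ring

end one

end JSym

/-- The symmetric functions. -/
theorem prfSym (hclPair : clPair) (hclAv : clAv) (hclP2F : clP2F) (hcTri : cTri) (hcAv : cAv)
    (hcPath : cPath) (hcB2 : cB2) (hcB : cB) (hcN : cN) (hcEb : cEb) (hcFib : cFib)
    (hcCP : cCP) : cSym := by
  intro V _ _ _ e Ψ M _ _ _ T Θ hΘ h23 h12
  have _ := hclPair
  have _ := hclAv
  have _ := hcB
  obtain ⟨hpf, -, hev, hdd, hTr⟩ := hcN V e Ψ M T Θ hΘ
  have heven := (hcN V e Ψ M T Θ hΘ).2.1
  have hk := (hcAv V e Ψ).2.2.2.1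
  set F : V → V → ℝ := T.pf Θ with hF
  have hFc : Continuous (fun z : V × V => F z.1 z.2) := hpf.continuous
  obtain ⟨-, hPc, -, hPav, -⟩ := hclP2F V (3 * (e + 1)) e Ψ.fr F hFc
  -- the averages of the function and of its square
  have hEx : T.Ex Θ = Ψ.fr.av F := by
    rw [← hk F]
    exact JSym.av_congr Ψ hcTri _ _ fun u v w h => (hTr u v w h).1.symm
  have hs12 : s12 Θ = Θ := by funext X Y Z; exact h12 X Y Z
  have hs13 : s13 Θ = Θ := by
    funext X Y Z
    calc Θ Z Y X = Θ Z X Y := h23 Z X Y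
      _ = Θ X Z Y := h12 X Z Y
      _ = Θ X Y Z := h23 X Y Z
  have hE0 : 0 ≤ T.Eb Θ Θ := ((hcEb V e Ψ M T).1 Θ Θ hΘ hΘ).2.2
  have h1 := (hcFib V e Ψ M T Θ hΘ).2.2.1 h23
  have h2 := hcCP V e Ψ M T Θ hΘ
  rw [← hF] at h2
  set S2 : ℝ := T.Ex (fun X Y Z => Θ X Y Z ^ 2) with hS2
  set μ : ℝ := T.Ex Θ with hμ
  set E : ℝ := T.Eb Θ Θ with hE
  set K : ℝ := Ψ.fr.av (fun u _ => Ψ.fr.P2 F u ^ 2) with hK
  have h3 : 8 * ((e : ℝ) + 2) * (S2 - K) ≤ E := by
    refine le_trans ?_ h1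
    have : (0 : ℝ) ≤ 8 * ((e : ℝ) + 2) := by positivity
    exact mul_le_mul_of_nonneg_left (by linarith) this
  rcases Nat.eq_zero_or_pos e with he | he
  · -- the case `e = 0`
    have hH : S2 - μ ^ 2 ≥ 6 / 5 * (K - μ ^ 2) := by
      set h : V → ℝ := fun u => Ψ.fr.P2 F u - μ with hh
      have hhc : Continuous h := hPc.sub continuous_const
      have hconst := (hcAv V e Ψ).2.2.1
      -- averages of `P2 F`
      have p1 : Ψ.av (fun u _ _ => Ψ.fr.P2 F u) = μ := by
        rw [hk (fun u _ => Ψ.fr.P2 F u), ← hPav, ← hEx]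
      have p2 : Ψ.av (fun u _ _ => Ψ.fr.P2 F u ^ 2) = K := hk (fun u _ => Ψ.fr.P2 F u ^ 2)
      have cP : Co3 (fun u (_ _ : V) => Ψ.fr.P2 F u) := by unfold Co3; fun_prop
      have cP2 : Co3 (fun u (_ _ : V) => Ψ.fr.P2 F u ^ 2) := by unfold Co3; fun_prop
      have cc : ∀ c : ℝ, Co3 (fun (_ _ _ : V) => c) := fun c => by unfold Co3; fun_prop
      have q1 : Ψ.fr.av (fun u _ => h u) = 0 := by
        rw [← hk (fun u _ => h u)]
        have : (fun u (_ _ : V) => h u) = fun u (_ _ : V) =>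
            1 * Ψ.fr.P2 F u + (-μ) * (1 : ℝ) := by
          funext u v w; simp only [hh]; ring
        rw [this, JSym.av_lin Ψ hcAv cP (cc 1), p1, hconst]
        ring
      have q2 : Ψ.fr.av (fun u _ => h u ^ 2) = K - μ ^ 2 := by
        rw [← hk (fun u _ => h u ^ 2)]
        have : (fun u (_ _ : V) => h u ^ 2) = fun u (_ _ : V) =>
            1 * Ψ.fr.P2 F u ^ 2 + 1 * ((-2 * μ) * Ψ.fr.P2 F u + μ ^ 2 * (1 : ℝ)) := by
          funext u v w; simp only [hh]; ring
        rw [this, JSym.av_lin Ψ hcAv cP2 (by unfold Co3; fun_prop),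
          JSym.av_lin Ψ hcAv cP (cc 1), p1, p2, hconst]
        ring
      have q3 := hcPath V e Ψ h hhc q1
      rw [q2] at q3
      have q4 : Ψ.av (fun u v w => T.ev Θ u v w * h u) = K - μ ^ 2 := by
        have s1 : Ψ.av (fun u v w => T.ev Θ u v w * h u) = Ψ.fr.av (fun u v => F u v * h u) := by
          rw [← hk (fun u v => F u v * h u)]
          refine JSym.av_congr Ψ hcTri _ _ fun u v w ht => ?_
          rw [(hTr u v w ht).1]
        have s2 : Continuous (fun z : V × V => F z.1 z.2 * h z.1) := by fun_prop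
        obtain ⟨-, -, -, s3, -⟩ := hclP2F V (3 * (e + 1)) e Ψ.fr (fun u v => F u v * h u) s2
        rw [s1, s3, ← q2]
        rw [← hk (fun u _ => Ψ.fr.P2 (fun u v => F u v * h u) u), ← hk (fun u _ => h u ^ 2)]
        have s4 : (fun u (_ _ : V) => Ψ.fr.P2 (fun u v => F u v * h u) u) =
            fun u (_ _ : V) => 1 * h u ^ 2 + μ * h u := by
          funext u v w
          rw [JSym.P2_mul]
          simp only [hh]; ring
        rw [s4, JSym.av_lin Ψ hcAv (by unfold Co3; fun_prop) (by unfold Co3; fun_prop),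
          hk (fun u _ => h u), q1]
        ring
      have q5 := JSym.cube Ψ hcAv h hhc (T.ev Θ) hev μ (K - μ ^ 2)
        (Ψ.fr.av (fun u v => h u * h v)) q1 q2 rfl rfl
        (fun u v w => by
          have := congrFun (congrFun (congrFun hs12 (T.B u u)) (T.B v v)) (T.B w w)
          exact this)
        (fun u v w => by
          have := congrFun (congrFun (congrFun hs13 (T.B u u)) (T.B v v)) (T.B w w)
          exact this) q4
      have q6 := JSym.av_nonneg Ψ (fun u v w => (T.ev Θ u v w - μ - 2 / 5 * (h u + h v + h w)) ^ 2)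
        (fun u v w => sq_nonneg _)
      rw [q5] at q6
      have q7 : Ψ.av (fun u v w => T.ev Θ u v w ^ 2) = S2 := rfl
      rw [q7] at q6
      linarith
    subst he
    norm_num at h3 ⊢
    linarith
  · -- the case `e ≥ 1`
    have hB := hcB2 V (3 * (e + 1)) e Ψ.fr F hpf (fun v w => (heven v w).1)
      (fun v w => (heven v w).2)
    have hen : Ψ.fr.av (fun v w => Ψ.fr.n1 F v w + ∑ q, Ψ.fr.om q F v w ^ 2) = 2 * E := by
      rw [← hk (fun v w => Ψ.fr.n1 F v w + ∑ q, Ψ.fr.om q F v w ^ 2)]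
      have t1 : Ψ.av (fun v w _ => Ψ.fr.n1 F v w + ∑ q, Ψ.fr.om q F v w ^ 2) =
          Ψ.av (fun u v w => ∑ q, T.dd q Θ v u w ^ 2 + ∑ q, T.dd q Θ w v u ^ 2) := by
        refine JSym.av_congr Ψ hcTri _ _ fun u v w ht => ?_
        obtain ⟨-, -, t2, t3⟩ := hTr u v w ht
        rw [t2, t3, hs12, hs13]
      have hdc : ∀ q, Continuous (fun z : V × V × V => T.dd q Θ z.1 z.2.1 z.2.2) := hdd
      have cS : Co3 (fun u v w => ∑ q, T.dd q Θ u v w ^ 2) := by
        unfold Co3
        exact continuous_finsetSum _ fun q _ => (hdc q).pow 2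
      have hswap : Continuous (fun z : V × V × V => (z.2.1, z.1, z.2.2)) := by fun_prop
      have hswap' : Continuous (fun z : V × V × V => (z.2.2, z.2.1, z.1)) := by fun_prop
      have cS1 : Co3 (fun u v w => ∑ q, T.dd q Θ v u w ^ 2) := by
        unfold Co3
        exact continuous_finsetSum _ fun q _ => ((hdc q).comp hswap).pow 2
      have cS2 : Co3 (fun u v w => ∑ q, T.dd q Θ w v u ^ 2) := by
        unfold Co3
        exact continuous_finsetSum _ fun q _ => ((hdc q).comp hswap').pow 2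
      rw [t1, JSym.av_add Ψ hcAv cS1 cS2]
      have u1 := ((hcAv V e Ψ).1 _ cS).2.2.2.1
      have u2 := ((hcAv V e Ψ).1 _ cS).2.2.2.2.1
      have u3 : Ψ.av (fun u v w => ∑ q, T.dd q Θ u v w ^ 2) = E := by
        rw [hE]
        unfold Hrm.Eb
        congr 1
        funext u v w
        exact Finset.sum_congr rfl fun q _ => sq _
      rw [u3] at u1 u2
      have u4 : Ψ.av (fun u v w => ∑ q, T.dd q Θ v u w ^ 2) = E := u1
      have u5 : Ψ.av (fun u v w => ∑ q, T.dd q Θ w v u ^ 2) = E := u2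
      rw [u4, u5]
      ring
    rw [hen, ← hEx, ← hK] at hB
    have he' : (1 : ℝ) ≤ e := by exact_mod_cast he
    push_cast at hB
    have hpos : (0 : ℝ) < 3 * ((e : ℝ) + 1) := by positivity
    have hB' : 3 * ((e : ℝ) + 1) * (K - μ ^ 2) ≤ E := by
      have : 2 * E / (2 * (3 * ((e : ℝ) + 1))) = E / (3 * ((e : ℝ) + 1)) := by
        field_simp
      rw [this, le_div_iff₀ hpos] at hB
      linarith
    -- multiply out
    set m : ℝ := (e : ℝ) + 1 with hm
    have hm2 : 2 ≤ m := by rw [hm]; linarith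
    have h3' : 8 * (m + 1) * (S2 - K) ≤ E := by
      have : (e : ℝ) + 2 = m + 1 := by rw [hm]; ring
      rw [← this]; exact h3
    have i1 : 3 * m * (8 * (m + 1)) * (S2 - μ ^ 2) ≤ (3 * m + 8 * (m + 1)) * E := by
      have a1 := mul_le_mul_of_nonneg_left h3' (by positivity : (0 : ℝ) ≤ 3 * m)
      have a2 := mul_le_mul_of_nonneg_left hB' (by positivity : (0 : ℝ) ≤ 8 * (m + 1))
      nlinarith
    have i2 : 2 / 3 * (3 * m + 1) * (3 * m + 8 * (m + 1)) ≤ 3 * m * (8 * (m + 1)) := by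
      nlinarith
    have i3 : (0 : ℝ) < 3 * m * (8 * (m + 1)) := by positivity
    have i4 : 2 / 3 * (3 * m + 1) * (3 * m * (8 * (m + 1)) * (S2 - μ ^ 2)) ≤
        3 * m * (8 * (m + 1)) * E := by
      calc 2 / 3 * (3 * m + 1) * (3 * m * (8 * (m + 1)) * (S2 - μ ^ 2))
          ≤ 2 / 3 * (3 * m + 1) * ((3 * m + 8 * (m + 1)) * E) :=
            mul_le_mul_of_nonneg_left i1 (by positivity)
        _ = (2 / 3 * (3 * m + 1) * (3 * m + 8 * (m + 1))) * E := by ring
        _ ≤ 3 * m * (8 * (m + 1)) * E := mul_le_mul_of_nonneg_right i2 hE0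
    have i5 : 3 * m * (8 * (m + 1)) * (2 / 3 * (3 * m + 1) * (S2 - μ ^ 2)) ≤
        3 * m * (8 * (m + 1)) * E := by
      calc _ = 2 / 3 * (3 * m + 1) * (3 * m * (8 * (m + 1)) * (S2 - μ ^ 2)) := by ring
        _ ≤ _ := i4
    exact le_of_mul_le_mul_left i5 i3

end Pool.Agent.Work.MP_408f4b_gt.A2
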