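import Pool.Agent.Work.MP_408f4b_gt.A2.Stmts

set_option autoImplicit false

/-!
# Item Two of block A2: curves with two boundary components
-/

namespace Pool.Agent.Work.MP_408f4b_gt.A2

open MeasureTheory Set Filter Topology Pool.Agent.Work.MP_408f4b_gt.Q

namespace JTwo

theorem cd1 {x y : ℝ → ℝ} (hx : ContDiff ℝ 2 x) (hy : ContDiff ℝ 2 y) :
    ContDiff ℝ 2 (fun s => e1 (x s) (y s)) ∧ ContDiff ℝ 2 (fun s => e2 (x s) (y s)) ∧
      ContDiff ℝ 2 (fun s => e3 (x s) (y s)) := by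
  unfold e1 e2 e3
  refine ⟨?_, ?_, ?_⟩ <;> fun_prop

theorem de {x y : ℝ → ℝ} (hx : Differentiable ℝ x) (hy : Differentiable ℝ y) :
    (deriv (fun s => e1 (x s) (y s)) = fun s => e1 (deriv x s) (deriv y s)) ∧
      (deriv (fun s => e2 (x s) (y s)) = fun s => e2 (deriv x s) (deriv y s)) ∧
      (deriv (fun s => e3 (x s) (y s)) = fun s => e3 (deriv x s) (deriv y s)) := by
  have h1 : ∀ s, HasDerivAt x (deriv x s) s := fun s => (hx s).hasDerivAt
  have h2 : ∀ s, HasDerivAt y (deriv y s) s := fun s => (hy s).hasDerivAt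
  unfold e1 e2 e3
  refine ⟨?_, ?_, ?_⟩
  · funext s
    exact ((((h1 s).add (h2 s)).div_const 2).add (((h1 s).sub (h2 s)).div_const (2 * √3))).deriv
  · funext s
    exact (((h2 s).sub (h1 s)).div_const (√3)).deriv
  · funext s
    exact (((((h1 s).add (h2 s)).neg).div_const 2).add
      (((h1 s).sub (h2 s)).div_const (2 * √3))).deriv

end JTwo

theorem prfTwo (hclInvF : clInvF) (hcEqn : cEqn) (hcInv : cInv) (hcAv : cAv) (hcInt : cInt)
    (hcB : cB) (hcPt : cPt) (hcMain : cMain) (hcBt : cBt) : cTwo := by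
  intro V _ _ _ e Ψ M _ _ _ T f L x y hf hch hzero
  have hb : 1 ≤ e + 1 := by omega
  obtain ⟨hx2, hy2, hcrv⟩ := hch.curve
  have hL := hch.L_pos
  have hxd : Differentiable ℝ x := hx2.differentiable (by norm_num)
  have hyd : Differentiable ℝ y := hy2.differentiable (by norm_num)
  have hx0 : Continuous x := hx2.continuous
  have hy0 : Continuous y := hy2.continuous
  -- the main inequality and the boundary terms
  have h1 := hcMain V e Ψ M T f 0 L x y hf hL hch.curve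
  have cL := hcEqn (e + 1) 0 L x y hb hL hch.curve L ⟨hL.le, le_rfl⟩
  have c0 := hcEqn (e + 1) 0 L x y hb hL hch.curve 0 ⟨le_rfl, hL.le⟩
  have hBL := hcBt V e Ψ M T f 1 L x y hf cL.1 cL.2.1 hch.final.1
    (by rw [hch.final.2.1, one_mul]) (by rw [hch.final.2.2, one_mul])
  have hB0 := hcBt V e Ψ M T f (-1) 0 x y hf c0.1 c0.2.1 hch.initial.1
    (by rw [hch.initial.2.1]; ring) (by rw [hch.initial.2.2]; ring)
  -- the average
  obtain ⟨hce1, hce2, hce3⟩ := JTwo.cd1 hx2 hy2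
  obtain ⟨hde1, hde2, hde3⟩ := JTwo.de hxd hyd
  obtain ⟨_, _, hPt⟩ := hcPt V e Ψ M T f hf
  obtain ⟨hder, hcU, hcV, _⟩ := hPt (fun s => e1 (x s) (y s)) (fun s => e2 (x s) (y s))
    (fun s => e3 (x s) (y s)) hce1 hce2 hce3
  simp only [hde1, hde2, hde3] at hder hcV
  obtain ⟨hBc, _⟩ := hcB V e Ψ M T
  have hBB : Continuous (fun v : V => T.B v v) :=
    hBc.continuous.comp (continuous_id.prodMk continuous_id)
  have hmap : Continuous (fun z : ℝ × V × V × V =>
      ((z.1, T.B z.2.1 z.2.1, T.B z.2.2.1 z.2.2.1, T.B z.2.2.2 z.2.2.2) : ℝ × M × M × M)) := by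
    refine continuous_fst.prodMk ((hBB.comp (continuous_fst.comp continuous_snd)).prodMk
      ((hBB.comp (continuous_fst.comp (continuous_snd.comp continuous_snd))).prodMk
        (hBB.comp (continuous_snd.comp (continuous_snd.comp continuous_snd)))))
  have hU : Continuous (fun z : ℝ × V × V × V => T.ev (Us f x y z.1) z.2.1 z.2.2.1 z.2.2.2) :=
    hcU.comp hmap
  have hV : Continuous (fun z : ℝ × V × V × V => T.ev (Vs f x y z.1) z.2.1 z.2.2.1 z.2.2.2) :=
    hcV.comp hmap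
  obtain ⟨hMd, _⟩ := hcInt V e Ψ (fun s => T.ev (Us f x y s)) (fun s => T.ev (Vs f x y s)) hU hV
    (fun s u v w => hder s (T.B u u) (T.B v v) (T.B w w))
  obtain ⟨_, _, _, _, hAvc⟩ := hcAv V e Ψ
  have hMc : Continuous (fun s : ℝ => Ψ.av (T.ev (Vs f x y s))) :=
    hAvc ℝ (fun s => T.ev (Vs f x y s)) hV
  have hwc : Continuous (w3 (e + 1) x y) := by
    unfold w3 d1 d3
    fun_prop
  have hwp : ∀ s ∈ Icc 0 L, 0 < w3 (e + 1) x y s := fun s hs =>
    (hcEqn (e + 1) 0 L x y hb hL hch.curve s hs).2.2.1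
  have h2 := hclInvF L (w3 (e + 1) x y) (fun s => T.Ex (Us f x y s)) (fun s => T.Ex (Vs f x y s))
    hL hwc.continuousOn hwp (hcInv (e + 1) L x y hb hch) (fun s _ => hMd s) hMc.continuousOn
    (by simpa [add_comm] using hzero)
  rw [hBL, hB0] at h1
  linarith

end Pool.Agent.Work.MP_408f4b_gt.A2
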