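import Pool.Agent.Work.MP_408f4b_gt.A2.Stmts
import Pool.Agent.Work.MP_408f4b_gt.Q.I.Vol

set_option autoImplicit false

/-!
# Identities for the profiles
-/

namespace Pool.Agent.Work.MP_408f4b_gt.A2

open MeasureTheory Set Filter Topology Pool.Agent.Work.MP_408f4b_gt.Q

namespace JVol

theorem s3 : √3 * √3 = 3 := Real.mul_self_sqrt (by norm_num)

theorem s3pos : 0 < √3 := Real.sqrt_pos.2 (by norm_num)

theorem s3lt : √3 < 2 := by
  have h1 := s3
  have h2 := s3pos
  nlinarith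

variable {m : ℕ} (P : Profile m)

theorem zeq (s : ℝ) : P.z s = -P.x s - P.y s := by linarith [P.trace s]

theorem zfun : P.z = fun s => -P.x s - P.y s := funext (zeq P)

theorem hx (s : ℝ) : HasDerivAt P.x (deriv P.x s) s :=
  (P.x_C2.differentiable (by norm_num) s).hasDerivAt

theorem hy (s : ℝ) : HasDerivAt P.y (deriv P.y s) s :=
  (P.y_C2.differentiable (by norm_num) s).hasDerivAt

theorem hx1 (s : ℝ) : HasDerivAt (deriv P.x) (deriv (deriv P.x) s) s :=
  ((Q.JVol.cd1 P.x_C2).differentiable (by norm_num) s).hasDerivAt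

theorem hy1 (s : ℝ) : HasDerivAt (deriv P.y) (deriv (deriv P.y) s) s :=
  ((Q.JVol.cd1 P.y_C2).differentiable (by norm_num) s).hasDerivAt

theorem dz (s : ℝ) : deriv P.z s = -deriv P.x s - deriv P.y s := by
  rw [zfun P]
  exact ((hx P s).neg.sub (hy P s)).deriv

theorem cxe (s : ℝ) : P.cx s = (2 * P.x s + P.y s - √3 * P.y s) / 2 := by
  unfold Profile.cx
  rw [zeq P s]
  ring

theorem cye (s : ℝ) : P.cy s = (2 * P.x s + P.y s + √3 * P.y s) / 2 := by
  unfold Profile.cy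
  rw [zeq P s]
  ring

theorem cxf : P.cx = fun s => (2 * P.x s + P.y s - √3 * P.y s) / 2 := funext (cxe P)

theorem cyf : P.cy = fun s => (2 * P.x s + P.y s + √3 * P.y s) / 2 := funext (cye P)

theorem dcx (s : ℝ) : deriv P.cx s = (2 * deriv P.x s + deriv P.y s - √3 * deriv P.y s) / 2 := by
  rw [cxf P]
  exact ((((hx P s).const_mul 2).add (hy P s)).sub ((hy P s).const_mul √3)).div_const 2 |>.deriv

theorem dcy (s : ℝ) : deriv P.cy s = (2 * deriv P.x s + deriv P.y s + √3 * deriv P.y s) / 2 := by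
  rw [cyf P]
  exact ((((hx P s).const_mul 2).add (hy P s)).add ((hy P s).const_mul √3)).div_const 2 |>.deriv

theorem ddcx (s : ℝ) : deriv (deriv P.cx) s =
    (2 * deriv (deriv P.x) s + deriv (deriv P.y) s - √3 * deriv (deriv P.y) s) / 2 := by
  rw [show deriv P.cx = fun s => (2 * deriv P.x s + deriv P.y s - √3 * deriv P.y s) / 2 from
    funext (dcx P)]
  exact ((((hx1 P s).const_mul 2).add (hy1 P s)).sub ((hy1 P s).const_mul √3)).div_const 2 |>.deriv

theorem ddcy (s : ℝ) : deriv (deriv P.cy) s =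
    (2 * deriv (deriv P.x) s + deriv (deriv P.y) s + √3 * deriv (deriv P.y) s) / 2 := by
  rw [show deriv P.cy = fun s => (2 * deriv P.x s + deriv P.y s + √3 * deriv P.y s) / 2 from
    funext (dcy P)]
  exact ((((hx1 P s).const_mul 2).add (hy1 P s)).add ((hy1 P s).const_mul √3)).div_const 2 |>.deriv

theorem d1e (p q : ℝ) :
    d1 ((2 * p + q - √3 * q) / 2) ((2 * p + q + √3 * q) / 2) = p - q := by
  unfold d1
  linear_combination (-q / 2) * s3

theorem d3e (p q : ℝ) :
    d3 ((2 * p + q - √3 * q) / 2) ((2 * p + q + √3 * q) / 2) = p + 2 * q := by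
  unfold d3
  linear_combination (q / 2) * s3

theorem se (p q : ℝ) :
    (2 * p + q - √3 * q) / 2 + (2 * p + q + √3 * q) / 2 = 2 * p + q := by ring

theorem e1e (p q : ℝ) :
    e1 ((2 * p + q - √3 * q) / 2) ((2 * p + q + √3 * q) / 2) = p := by
  unfold e1
  have h := s3pos.ne'
  field_simp
  ring

theorem e2e (p q : ℝ) :
    e2 ((2 * p + q - √3 * q) / 2) ((2 * p + q + √3 * q) / 2) = q := by
  unfold e2
  have h := s3pos.ne'
  field_simp
  ring

theorem e3e (p q : ℝ) :
    e3 ((2 * p + q - √3 * q) / 2) ((2 * p + q + √3 * q) / 2) = -p - q := by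
  unfold e3
  have h := s3pos.ne'
  field_simp
  ring

theorem d1s (s : ℝ) : d1 (P.cx s) (P.cy s) = P.x s - P.y s := by
  rw [cxe P s, cye P s, d1e]

theorem d3s (s : ℝ) : d3 (P.cx s) (P.cy s) = P.y s - P.z s := by
  rw [cxe P s, cye P s, d3e, zeq P s]
  ring

theorem ss (s : ℝ) : P.cx s + P.cy s = P.x s - P.z s := by
  rw [cxe P s, cye P s, se, zeq P s]
  ring

theorem sq (p q : ℝ) :
    ((2 * p + q - √3 * q) / 2) ^ 2 + ((2 * p + q + √3 * q) / 2) ^ 2 =
      p ^ 2 + q ^ 2 + (-p - q) ^ 2 := by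
  linear_combination (q ^ 2 / 2) * s3

theorem sqs (s : ℝ) : P.cx s ^ 2 + P.cy s ^ 2 = P.x s ^ 2 + P.y s ^ 2 + P.z s ^ 2 := by
  rw [cxe P s, cye P s, sq, zeq P s]

theorem sqd (s : ℝ) : deriv P.cx s ^ 2 + deriv P.cy s ^ 2 =
    deriv P.x s ^ 2 + deriv P.y s ^ 2 + deriv P.z s ^ 2 := by
  rw [dcx P s, dcy P s, sq, dz P s]

theorem cur (s : ℝ) : deriv P.cx s * deriv (deriv P.cy) s - deriv P.cy s * deriv (deriv P.cx) s =
    √3 * (deriv P.x s * deriv (deriv P.y) s - deriv P.y s * deriv (deriv P.x) s) := by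
  rw [dcx P s, dcy P s, ddcx P s, ddcy P s]
  ring

theorem k3e (s : ℝ) : k3 m P.cx P.cy s =
    √3 * (m * (deriv P.x s / (P.y s - P.z s) - deriv P.y s / (P.x s - P.z s) +
      deriv P.z s / (P.x s - P.y s))) := by
  unfold k3
  rw [d1s P s, d3s P s, ss P s, dcx P s, dcy P s, dz P s]
  have h1 : (2 * deriv P.x s + deriv P.y s - √3 * deriv P.y s) / 2 -
      (2 * deriv P.x s + deriv P.y s + √3 * deriv P.y s) / 2 = √3 * (-deriv P.y s) := by ring
  have h2 : (1 - √3) * ((2 * deriv P.x s + deriv P.y s - √3 * deriv P.y s) / 2) -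
      (1 + √3) * ((2 * deriv P.x s + deriv P.y s + √3 * deriv P.y s) / 2) =
        2 * (√3 * (-deriv P.x s - deriv P.y s)) := by ring
  have h3 : (1 + √3) * ((2 * deriv P.x s + deriv P.y s - √3 * deriv P.y s) / 2) -
      (1 - √3) * ((2 * deriv P.x s + deriv P.y s + √3 * deriv P.y s) / 2) =
        2 * (√3 * deriv P.x s) := by ring
  rw [h1, h2, h3, mul_div_mul_left _ _ (two_ne_zero), mul_div_mul_left _ _ (two_ne_zero)]
  ring

theorem ws (s : ℝ) : P.w s = w3 m P.cx P.cy s := by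
  unfold w3 Profile.w
  rw [d1s P s, d3s P s, ss P s]

theorem cC2 : ContDiff ℝ 2 P.cx := by
  rw [cxf P]
  have h1 := P.x_C2
  have h2 := P.y_C2
  fun_prop

theorem cC2' : ContDiff ℝ 2 P.cy := by
  rw [cyf P]
  have h1 := P.x_C2
  have h2 := P.y_C2
  fun_prop

theorem eqn (s₀ : ℝ) (hs : s₀ ∈ Icc 0 P.L) (h1 : P.z s₀ < P.y s₀) (h2 : P.y s₀ < P.x s₀) :
    deriv P.x s₀ * deriv (deriv P.y) s₀ - deriv P.y s₀ * deriv (deriv P.x) s₀ =
      m * (deriv P.x s₀ / (P.y s₀ - P.z s₀) - deriv P.y s₀ / (P.x s₀ - P.z s₀) +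
        deriv P.z s₀ / (P.x s₀ - P.y s₀)) := by
  have cx : Continuous P.x := P.x_C2.continuous
  have cy : Continuous P.y := P.y_C2.continuous
  have cz : Continuous P.z := P.z_C2.continuous
  have cx1 : Continuous (deriv P.x) := (Q.JVol.cd1 P.x_C2).continuous
  have cy1 : Continuous (deriv P.y) := (Q.JVol.cd1 P.y_C2).continuous
  have cz1 : Continuous (deriv P.z) := (Q.JVol.cd1 P.z_C2).continuous
  have cx2 : Continuous (deriv (deriv P.x)) := (Q.JVol.cd1 P.x_C2).continuous_deriv (by norm_num)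
  have cy2 : Continuous (deriv (deriv P.y)) := (Q.JVol.cd1 P.y_C2).continuous_deriv (by norm_num)
  have ha : P.y s₀ - P.z s₀ ≠ 0 := by linarith |> fun h : 0 < P.y s₀ - P.z s₀ => h.ne'
  have hb : P.x s₀ - P.z s₀ ≠ 0 := by linarith |> fun h : 0 < P.x s₀ - P.z s₀ => h.ne'
  have hc : P.x s₀ - P.y s₀ ≠ 0 := by linarith |> fun h : 0 < P.x s₀ - P.y s₀ => h.ne'
  have h := Q.JVol.ext0 (fun s => deriv P.x s * deriv (deriv P.y) s -
    deriv P.y s * deriv (deriv P.x) s -
    m * (deriv P.x s / (P.y s - P.z s) - deriv P.y s / (P.x s - P.z s) +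
        deriv P.z s / (P.x s - P.y s))) P.L s₀ P.L_pos hs ?_ ?_
  · exact sub_eq_zero.1 h
  · have c1 : ContinuousAt (fun s => deriv P.x s * deriv (deriv P.y) s -
        deriv P.y s * deriv (deriv P.x) s) s₀ := by fun_prop
    refine c1.sub (continuousAt_const.mul ?_)
    refine ContinuousAt.add (ContinuousAt.sub ?_ ?_) ?_
    · exact cx1.continuousAt.div (cy.sub cz).continuousAt ha
    · exact cy1.continuousAt.div (cx.sub cz).continuousAt hb
    · exact cz1.continuousAt.div (cx.sub cy).continuousAt hc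
  · intro s hs'
    exact sub_eq_zero.2 (P.minimal s hs')

theorem crv (α : ℝ) (h0 : 0 ≤ α) (hα : ∀ s ∈ Icc α P.L, P.z s < P.y s ∧ P.y s < P.x s) :
    Crv3 m α P.L P.cx P.cy := by
  refine ⟨cC2 P, cC2' P, fun s hs => ?_⟩
  have hs' : s ∈ Icc 0 P.L := ⟨h0.trans hs.1, hs.2⟩
  have h1 := hα s hs
  refine ⟨?_, ?_, ?_, ?_⟩
  · rw [d1s P s]
    linarith
  · rw [d3s P s]
    linarith
  · rw [sqd P s]
    exact P.arclength s hs'
  · rw [cur P s, k3e P s, eqn P s hs' h1.1 h1.2]

theorem chm (s : ℝ) (hs : s ∈ Ioc 0 P.L) : P.z s < P.y s ∧ P.y s < P.x s := by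
  rcases eq_or_lt_of_le hs.2 with h | h
  · rw [h]
    exact ⟨P.final.1, P.final.2.1⟩
  · exact ⟨(P.interior s ⟨hs.1, h⟩).1, (P.interior s ⟨hs.1, h⟩).2.1⟩

theorem wpos (s : ℝ) (h1 : P.z s < P.y s) (h2 : P.y s < P.x s) : 0 < P.w s := by
  unfold Profile.w
  have h3 : 0 < P.x s - P.y s := by linarith
  have h4 : 0 < P.x s - P.z s := by linarith
  have h5 : 0 < P.y s - P.z s := by linarith
  positivity

end JVol

open JVol in
/-- Identities for the profiles. -/
theorem prfVol (hcEqn : cEqn) : cVol := by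
  intro m P hm
  have hcrv : ∀ α ∈ Ioo 0 P.L, Crv3 m α P.L P.cx P.cy := by
    intro α hα
    exact crv P α hα.1.le (fun s hs => chm P s ⟨hα.1.trans_le hs.1, hs.2⟩)
  have hfin : P.cx P.L ^ 2 + P.cy P.L ^ 2 = 1 ∧ deriv P.cx P.L = P.cx P.L ∧
      deriv P.cy P.L = P.cy P.L := by
    refine ⟨?_, ?_, ?_⟩
    · rw [sqs P P.L]
      exact P.final.2.2.1
    · rw [dcx P P.L, cxe P P.L, P.final.2.2.2.1, P.final.2.2.2.2]
    · rw [dcy P P.L, cye P P.L, P.final.2.2.2.1, P.final.2.2.2.2]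
  have h3p := s3pos
  have h3l := s3lt
  have hini : (Chd3 m P.L P.cx P.cy ∨ (0 < P.cx 0 ∧ 0 < P.cy 0 ∧
      (d1 (P.cx 0) (P.cy 0) = 0 ∨ d3 (P.cx 0) (P.cy 0) = 0) ∧ P.w 0 = 0)) := by
    rcases P.initial with h | h | h
    · left
      refine ⟨P.L_pos, crv P 0 le_rfl ?_, ?_, hfin, ?_⟩
      · intro s hs
        rcases eq_or_lt_of_le hs.1 with h' | h'
        · rw [← h']
          exact ⟨h.1, h.2.1⟩
        · exact chm P s ⟨h', hs.2⟩
      · intro s hs t ht hst
        have h1 : P.cx s = P.cx t := (Prod.ext_iff.1 hst).1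
        have h2 : P.cy s = P.cy t := (Prod.ext_iff.1 hst).2
        refine P.injOn hs ht ?_
        have h3 : P.x s = P.x t := by
          rw [← e1e (P.x s) (P.y s), ← cxe P s, ← cye P s, h1, h2, cxe P t, cye P t, e1e]
        have h4 : P.y s = P.y t := by
          rw [← e2e (P.x s) (P.y s), ← cxe P s, ← cye P s, h1, h2, cxe P t, cye P t, e2e]
        show (P.x s, P.y s) = (P.x t, P.y t)
        rw [h3, h4]
      · refine ⟨?_, ?_, ?_⟩
        · rw [sqs P 0]
          exact h.2.2.1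
        · rw [dcx P 0, cxe P 0, h.2.2.2.1, h.2.2.2.2]
          ring
        · rw [dcy P 0, cye P 0, h.2.2.2.1, h.2.2.2.2]
          ring
    · right
      have h1 := zeq P 0
      have h2 : P.y 0 = -P.x 0 / 2 := by linarith [h.2.1]
      have h3 : 0 < P.x 0 := by linarith [h.1]
      refine ⟨?_, ?_, Or.inr ?_, ?_⟩
      · rw [cxe P 0, h2]
        nlinarith
      · rw [cye P 0, h2]
        nlinarith
      · rw [d3s P 0]
        linarith [h.2.1]
      · unfold Profile.w
        rw [h.2.1, sub_self, mul_zero, zero_pow (by omega)]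
    · right
      have h1 := zeq P 0
      have h2 : P.y 0 = P.x 0 := h.2.1
      have h3 : 0 < P.x 0 := by linarith [h.1]
      refine ⟨?_, ?_, Or.inl ?_, ?_⟩
      · rw [cxe P 0, h2]
        nlinarith
      · rw [cye P 0, h2]
        nlinarith
      · rw [d1s P 0]
        linarith [h.2.1]
      · unfold Profile.w
        rw [h2, sub_self, zero_mul, zero_mul, zero_pow (by omega)]
  have hw0 : 0 ≤ P.w 0 := by
    rcases P.initial with h | h | h
    · exact (wpos P 0 h.1 h.2.1).le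
    · unfold Profile.w
      rw [h.2.1, sub_self, mul_zero, zero_pow (by omega)]
    · unfold Profile.w
      rw [h.2.1, sub_self, zero_mul, zero_mul, zero_pow (by omega)]
  refine ⟨ws P, ?_, ?_, ?_, cC2 P, cC2' P, hcrv, hfin, hini, wpos P P.L P.final.1 P.final.2.1,
    hw0, ?_⟩
  · intro s
    rw [cxe P s, cye P s, e1e, e2e, e3e, zeq P s]
    exact ⟨rfl, rfl, rfl⟩
  · intro s
    rw [dcx P s, dcy P s, e1e, e2e, e3e, dz P s]
    exact ⟨rfl, rfl, rfl⟩
  · intro s
    rw [dz P s]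
    ring
  · have cx : Continuous P.cx := (cC2 P).continuous
    have cy : Continuous P.cy := (cC2' P).continuous
    have cx1 : Continuous (deriv P.cx) := (Q.JVol.cd1 (cC2 P)).continuous
    have cy1 : Continuous (deriv P.cy) := (Q.JVol.cd1 (cC2' P)).continuous
    have cw : Continuous (w3 m P.cx P.cy) := by
      unfold w3 d1 d3
      fun_prop
    have hder : ∀ s ∈ Ioo 0 P.L, HasDerivAt (fun t => w3 m P.cx P.cy t *
        (P.cx t * deriv P.cx t + P.cy t * deriv P.cy t))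
        ((3 * (m : ℝ) + 1) * w3 m P.cx P.cy s) s := by
      intro s hs
      have h1 : s / 2 ∈ Ioo 0 P.L := ⟨by linarith [hs.1], by linarith [hs.1, hs.2]⟩
      exact (hcEqn m (s / 2) P.L P.cx P.cy hm h1.2 (hcrv _ h1) s
        ⟨by linarith [hs.1], hs.2.le⟩).2.2.2.2.2.2.2.2.1
    have h1 := intervalIntegral.integral_eq_sub_of_hasDerivAt_of_le P.L_pos.le
      (f := fun t => w3 m P.cx P.cy t * (P.cx t * deriv P.cx t + P.cy t * deriv P.cy t))
      (f' := fun s => (3 * (m : ℝ) + 1) * w3 m P.cx P.cy s)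
      (by fun_prop) hder (Continuous.intervalIntegrable (by fun_prop) _ _)
    rw [intervalIntegral.integral_const_mul] at h1
    have h2 : w3 m P.cx P.cy P.L * (P.cx P.L * deriv P.cx P.L + P.cy P.L * deriv P.cy P.L) =
        P.w P.L := by
      rw [hfin.2.1, hfin.2.2, ws P P.L]
      have h4 : P.cx P.L * P.cx P.L + P.cy P.L * P.cy P.L = 1 := by linarith [hfin.1]
      rw [h4, mul_one]
    have h5 : w3 m P.cx P.cy 0 * (P.cx 0 * deriv P.cx 0 + P.cy 0 * deriv P.cy 0) = -P.w 0 := by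
      rcases hini with h | h
      · rw [h.initial.2.1, h.initial.2.2, ws P 0]
        have h3 := h.initial.1
        have h4 : P.cx 0 * -P.cx 0 + P.cy 0 * -P.cy 0 = -1 := by linarith
        rw [h4]
        ring
      · have h6 := h.2.2.2
        rw [h6]
        rw [ws P 0] at h6
        rw [h6]
        ring
    have h7 : ∫ s in (0 : ℝ)..P.L, P.w s = ∫ s in (0 : ℝ)..P.L, w3 m P.cx P.cy s := by
      simp only [ws P]
    rw [h7, h1]
    rw [h2, h5]
    ring

end Pool.Agent.Work.MP_408f4b_gt.A2
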