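import Pool.Agent.Work.MP_408f4b_gt.A2.Stmts
import Pool.Agent.Work.MP_408f4b_gt.Q.I.Fib

set_option autoImplicit false

/-!
# Item CP: the two averages
-/

namespace Pool.Agent.Work.MP_408f4b_gt.A2

open MeasureTheory Set Filter Topology Pool.Agent.Work.MP_408f4b_gt.Q

namespace JCP

section gram

variable {V : Type} [NormedAddCommGroup V] [InnerProductSpace ℝ V] [CompleteSpace V] {e : ℕ}
  {Ψ : Fr3 V e} {M : Type} [NormedAddCommGroup M] [InnerProductSpace ℝ M] [CompleteSpace M]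
  (T : Hrm Ψ M)

/-- The Gram matrix of the vectors `B v w` is invariant under the group. -/
theorem innA (hcB : cB) (g : Ψ.fr.G) (u v w z : V) :
    (inner ℝ (T.B (Ψ.fr.A g u) (Ψ.fr.A g v)) (T.B (Ψ.fr.A g w) (Ψ.fr.A g z)) : ℝ) =
      inner ℝ (T.B u v) (T.B w z) := by
  obtain ⟨-, -, -, -, -, -, -, -, h, -⟩ := hcB V e Ψ M T
  rw [h, h]
  have h1 : ∀ (q : Fin (e + 1)) (x y : V),
      (inner ℝ (Ψ.fr.A g x) (Ψ.fr.J q (Ψ.fr.A g y)) : ℝ) = inner ℝ x (Ψ.fr.J q y) := by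
    intro q x y
    rw [← Ψ.fr.comm, LinearIsometry.inner_map_map]
  simp only [h1]

/-- Linear relations between the vectors `B v w` are invariant under the group. -/
theorem relA (hcB : cB) {ι : Type} [Fintype ι] (k : ι → ℝ) (v w : ι → V)
    (h : ∑ i, k i • T.B (v i) (w i) = 0) (g : Ψ.fr.G) :
    ∑ i, k i • T.B (Ψ.fr.A g (v i)) (Ψ.fr.A g (w i)) = 0 := by
  rw [← inner_self_eq_zero (𝕜 := ℝ)]
  have h1 : (inner ℝ (∑ i, k i • T.B (Ψ.fr.A g (v i)) (Ψ.fr.A g (w i)))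
      (∑ i, k i • T.B (Ψ.fr.A g (v i)) (Ψ.fr.A g (w i))) : ℝ) =
      inner ℝ (∑ i, k i • T.B (v i) (w i)) (∑ i, k i • T.B (v i) (w i)) := by
    simp only [sum_inner, inner_sum, real_inner_smul_left, real_inner_smul_right, innA T hcB g]
  rw [h1, h, inner_zero_left]

/-- The relation of `cRot` is invariant under the group. -/
theorem rotA (hcB : cB) (v w x : V) (c : E (e + 2)) (s : ℝ)
    (h : T.B x x = (1 / 2 : ℝ) • (T.B v v + T.B w w + s • T.sg v w c)) (g : Ψ.fr.G) :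
    T.B (Ψ.fr.A g x) (Ψ.fr.A g x) = (1 / 2 : ℝ) • (T.B (Ψ.fr.A g v) (Ψ.fr.A g v) +
      T.B (Ψ.fr.A g w) (Ψ.fr.A g w) + s • T.sg (Ψ.fr.A g v) (Ψ.fr.A g w) c) := by
  have key : ∀ v' w' x' : V,
      ∑ i : Fin 3 ⊕ Fin (e + 1), (Sum.elim ![1, -(1 / 2) - s * c 0 / 2, -(1 / 2) + s * c 0 / 2]
          (fun q => -(s * c q.succ)) i : ℝ) •
        T.B (Sum.elim ![x', v', w'] (fun _ => v') i)
          (Sum.elim ![x', v', w'] (fun q => Ψ.fr.J q w') i) =
      T.B x' x' - (1 / 2 : ℝ) • (T.B v' v' + T.B w' w' + s • T.sg v' w' c) := by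
    intro v' w' x'
    rw [Fintype.sum_sum_type]
    simp only [Sum.elim_inl, Sum.elim_inr, Fin.sum_univ_three, Matrix.cons_val_zero,
      Matrix.cons_val_one, Matrix.cons_val, Hrm.sg]
    have h2 : ∑ q : Fin (e + 1), (-(s * c q.succ)) • T.B v' (Ψ.fr.J q w') =
        -(s • ∑ q : Fin (e + 1), c q.succ • T.B v' (Ψ.fr.J q w')) := by
      rw [Finset.smul_sum, ← Finset.sum_neg_distrib]
      refine Finset.sum_congr rfl fun q _ => ?_
      rw [neg_smul, mul_smul]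
    rw [h2]
    module
  have h1 := relA T hcB (Sum.elim ![1, -(1 / 2) - s * c 0 / 2, -(1 / 2) + s * c 0 / 2]
          (fun q : Fin (e + 1) => -(s * c q.succ)))
        (Sum.elim ![x, v, w] (fun _ => v)) (Sum.elim ![x, v, w] (fun q => Ψ.fr.J q w))
        (by rw [key v w x, h, sub_self]) g
  have h3 := key (Ψ.fr.A g v) (Ψ.fr.A g w) (Ψ.fr.A g x)
  have h4 : ∀ i : Fin 3 ⊕ Fin (e + 1),
      T.B (Ψ.fr.A g (Sum.elim ![x, v, w] (fun _ => v) i))
        (Ψ.fr.A g (Sum.elim ![x, v, w] (fun q => Ψ.fr.J q w) i)) =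
      T.B (Sum.elim ![Ψ.fr.A g x, Ψ.fr.A g v, Ψ.fr.A g w] (fun _ => Ψ.fr.A g v) i)
        (Sum.elim ![Ψ.fr.A g x, Ψ.fr.A g v, Ψ.fr.A g w]
          (fun q => Ψ.fr.J q (Ψ.fr.A g w)) i) := by
    rintro (i | q)
    · fin_cases i <;> rfl
    · simp only [Sum.elim_inr, Ψ.fr.comm]
  simp only [h4] at h1
  rw [h3] at h1
  exact sub_eq_zero.1 h1

end gram

end JCP

open JCP in
theorem prfCP (hclPair : clPair) (hclSig : clSig) (hclP2F : clP2F) (hcTri : cTri) (hcAv : cAv)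
    (hcB : cB) (hcRot : cRot) (hcKF : cKF) (hcN : cN) (hcFib : cFib) : cCP := by
  intro V _ _ _ e Ψ M _ _ _ T Θ hΘ
  obtain ⟨t1, -, t3, t4, -⟩ := hcTri V e Ψ
  obtain ⟨a1, -, -, -, -⟩ := hcAv V e Ψ
  obtain ⟨r1, r2, -, r4⟩ := hcRot V e Ψ M T
  obtain ⟨n1, -, n3, -, n5⟩ := hcN V e Ψ M T Θ hΘ
  obtain ⟨f1, -⟩ := hcFib V e Ψ M T Θ hΘ
  obtain ⟨-, -, -, p4, -⟩ := hclPair V _ e Ψ.fr
  have hpfc : Continuous (fun z : V × V => T.pf Θ z.1 z.2) := n1.continuous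
  obtain ⟨-, q1, q2, -, -⟩ := hclP2F V _ e Ψ.fr (T.pf Θ) hpfc
  have hΘc : Co3 Θ := ContDiff.continuous hΘ
  have hTri : ∀ g, Ψ.Tri (Ψ.fr.A g Ψ.fr.a) (Ψ.fr.A g Ψ.fr.b) (Ψ.fr.A g Ψ.c) := t3 _ _ _ t1
  -- continuity of `at'`
  have hBc : Continuous (fun z : V × V => T.B z.1 z.2) := (hcB V e Ψ M T).1.continuous
  have hatc : Continuous (fun z : (V × V × V) × E (e + 2) =>
      T.at' Θ z.1.1 z.1.2.1 z.1.2.2 z.2) := by
    have h1 : Continuous (fun z : (V × V × V) × E (e + 2) => T.B z.1.1 z.1.1) :=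
      hBc.comp ((continuous_fst.comp continuous_fst).prodMk (continuous_fst.comp continuous_fst))
    have h2 : Continuous (fun z : (V × V × V) × E (e + 2) => T.B z.1.2.1 z.1.2.1) :=
      hBc.comp (((continuous_fst.comp continuous_snd).comp continuous_fst).prodMk
        ((continuous_fst.comp continuous_snd).comp continuous_fst))
    have h3 : Continuous (fun z : (V × V × V) × E (e + 2) => T.B z.1.2.2 z.1.2.2) :=
      hBc.comp (((continuous_snd.comp continuous_snd).comp continuous_fst).prodMk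
        ((continuous_snd.comp continuous_snd).comp continuous_fst))
    have h4 : Continuous (fun z : (V × V × V) × E (e + 2) => T.sg z.1.2.1 z.1.2.2 z.2) :=
      r1.comp ((((continuous_fst.comp continuous_snd).comp continuous_fst)).prodMk
        ((((continuous_snd.comp continuous_snd).comp continuous_fst)).prodMk continuous_snd))
    exact hΘc.comp (h1.prodMk (((h2.add h3).add h4).const_smul (1 / 2 : ℝ) |>.prodMk
      (((h2.add h3).sub h4).const_smul (1 / 2 : ℝ))))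
  -- (i) `CC` depends only on the first vector
  have hi : ∀ u v w v' w', Ψ.Tri u v w → Ψ.Tri u v' w' → T.CC Θ u v' w' = T.CC Θ u v w := by
    intro u v w v' w' h h'
    obtain ⟨O, hO⟩ := hcKF V e Ψ M T u v w v' w' h h'
    have hs : T.B v' v' + T.B w' w' = T.B v v + T.B w w := by
      have h1 := T.sum u v w h
      have h2 := T.sum u v' w' h'
      have h3 : T.B u u + (T.B v' v' + T.B w' w') = T.B u u + (T.B v v + T.B w w) := by
        rw [← add_assoc, ← add_assoc, h1, h2]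
      exact add_left_cancel h3
    have hat : ∀ c : E (e + 2), T.at' Θ u v' w' c = T.at' Θ u v w (O c) := by
      intro c
      unfold Hrm.at'
      rw [hs, hO c]
    unfold Hrm.CC
    congr 1
    have hc : Continuous (fun c : E (e + 2) => T.at' Θ u v w c) := by
      have h5 : Continuous (fun c : E (e + 2) => (((u, v, w) : V × V × V), c)) :=
        continuous_const.prodMk continuous_id
      exact hatc.comp h5
    rw [← hclSig (e + 2) O (fun c => T.at' Θ u v w c) hc]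
    exact integral_congr_ae (Eventually.of_forall fun c => hat c)
  -- the common value
  set c₀ : ℝ := Ψ.av (fun u v w => T.CC Θ u v w * T.ev Θ u v w) with hc₀
  have hKev : Co3 (fun u v w => T.CC Θ u v w * T.ev Θ u v w) := Continuous.mul f1 n3
  have hinv : ∀ u v w, Ψ.Tri u v w →
      ∫ g, T.CC Θ (Ψ.fr.A g u) (Ψ.fr.A g v) (Ψ.fr.A g w) *
        T.ev Θ (Ψ.fr.A g u) (Ψ.fr.A g v) (Ψ.fr.A g w) ∂Ψ.fr.μ = c₀ := fun u v w h =>
    (a1 _ hKev).2.1 u v w h
  have hg : Continuous (fun g : Ψ.fr.G =>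
      ((Ψ.fr.A g Ψ.fr.a, Ψ.fr.A g Ψ.fr.b, Ψ.fr.A g Ψ.c) : V × V × V)) :=
    (Ψ.fr.cont.comp (continuous_id.prodMk continuous_const)).prodMk
      ((Ψ.fr.cont.comp (continuous_id.prodMk continuous_const)).prodMk
        (Ψ.fr.cont.comp (continuous_id.prodMk continuous_const)))
  set K : Ψ.fr.G → ℝ := fun g => T.CC Θ (Ψ.fr.A g Ψ.fr.a) (Ψ.fr.A g Ψ.fr.b) (Ψ.fr.A g Ψ.c) with hK
  have hKc : Continuous K := f1.comp hg
  set H : Ψ.fr.G → ℝ := fun g => Ψ.fr.P2 (T.pf Θ) (Ψ.fr.A g Ψ.fr.a) with hH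
  have hHc : Continuous H := q1.comp (Ψ.fr.cont.comp (continuous_id.prodMk continuous_const))
  -- (ii)
  have hii : ∫ g, K g * K g ∂Ψ.fr.μ = c₀ := by
    have h1 := JFib.swap (μ := Ψ.fr.μ) (n := e + 2) (by omega)
      (fun g u => K g * T.at' Θ (Ψ.fr.A g Ψ.fr.a) (Ψ.fr.A g Ψ.fr.b) (Ψ.fr.A g Ψ.c) u)
      ((hKc.comp continuous_fst).mul (hatc.comp ((hg.comp continuous_fst).prodMk
        (continuous_subtype_val.comp continuous_snd)))) c₀ ?_
    · rw [h1, ← integral_const_mul]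
      refine integral_congr_ae (Eventually.of_forall fun g => ?_)
      change K g * K g = ((sig (e + 2)).real univ)⁻¹ * ∫ u : Sph (e + 2), K g *
        T.at' Θ (Ψ.fr.A g Ψ.fr.a) (Ψ.fr.A g Ψ.fr.b) (Ψ.fr.A g Ψ.c) u ∂sig (e + 2)
      rw [integral_const_mul]
      change K g * (((sig (e + 2)).real univ)⁻¹ * ∫ u : Sph (e + 2),
        T.at' Θ (Ψ.fr.A g Ψ.fr.a) (Ψ.fr.A g Ψ.fr.b) (Ψ.fr.A g Ψ.c) u ∂sig (e + 2)) = _
      ring
    · intro c
      have hc : ‖(c : E (e + 2))‖ = 1 := mem_sphere_zero_iff_norm.1 c.2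
      obtain ⟨v', w', ht', hv', hw', -⟩ := r4 Ψ.fr.a Ψ.fr.b Ψ.c t1 c hc
      rw [← hinv Ψ.fr.a v' w' ht']
      refine integral_congr_ae (Eventually.of_forall fun g => ?_)
      have e1 : K g = T.CC Θ (Ψ.fr.A g Ψ.fr.a) (Ψ.fr.A g v') (Ψ.fr.A g w') :=
        (hi _ _ _ _ _ (hTri g) (t3 _ _ _ ht' g)).symm
      have e2 := rotA T hcB Ψ.fr.b Ψ.c v' c 1 (by rw [one_smul]; exact hv') g
      have e3 := rotA T hcB Ψ.fr.b Ψ.c w' c (-1) (by
        rw [neg_smul, one_smul, ← sub_eq_add_neg]; exact hw') g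
      rw [one_smul] at e2
      rw [neg_smul, one_smul, ← sub_eq_add_neg] at e3
      change K g * Θ _ _ _ = _ * Θ _ _ _
      rw [e1, e2, e3]
  -- (iii)
  have hiii : ∫ g, K g * H g ∂Ψ.fr.μ = c₀ := by
    have hcA : Continuous (fun z : Ψ.fr.G × Sph (3 * (e + 1) - (e + 1)) => Ψ.fr.A z.1 Ψ.fr.a) :=
      Ψ.fr.cont.comp (continuous_fst.prodMk continuous_const)
    have hcI : Continuous (fun z : Ψ.fr.G × Sph (3 * (e + 1) - (e + 1)) =>
        Ψ.fr.A z.1 (Ψ.fr.ι z.2)) :=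
      Ψ.fr.cont.comp (continuous_fst.prodMk (Ψ.fr.ι.continuous.comp
        (continuous_subtype_val.comp continuous_snd)))
    have h1 := JFib.swap (μ := Ψ.fr.μ) (n := 3 * (e + 1) - (e + 1)) (by omega)
      (fun g u => K g * T.pf Θ (Ψ.fr.A g Ψ.fr.a) (Ψ.fr.A g (Ψ.fr.ι u)))
      ((hKc.comp continuous_fst).mul (hpfc.comp (hcA.prodMk hcI))) c₀ ?_
    · rw [h1, ← integral_const_mul]
      refine integral_congr_ae (Eventually.of_forall fun g => ?_)
      change K g * H g = ((sig (3 * (e + 1) - (e + 1))).real univ)⁻¹ *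
        ∫ u : Sph (3 * (e + 1) - (e + 1)), K g *
          T.pf Θ (Ψ.fr.A g Ψ.fr.a) (Ψ.fr.A g (Ψ.fr.ι u)) ∂sig (3 * (e + 1) - (e + 1))
      rw [integral_const_mul, hH]
      simp only
      rw [q2 g]
      ring
    · intro y
      have hy : ‖(y : E (3 * (e + 1) - (e + 1)))‖ = 1 := mem_sphere_zero_iff_norm.1 y.2
      obtain ⟨w, hw⟩ := t4 _ _ (p4 y hy).1
      rw [← hinv Ψ.fr.a (Ψ.fr.ι y) w hw]
      refine integral_congr_ae (Eventually.of_forall fun g => ?_)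
      have e1 : K g = T.CC Θ (Ψ.fr.A g Ψ.fr.a) (Ψ.fr.A g (Ψ.fr.ι y)) (Ψ.fr.A g w) :=
        (hi _ _ _ _ _ (hTri g) (t3 _ _ _ hw g)).symm
      have e2 := (n5 _ _ _ (t3 _ _ _ hw g)).1
      change K g * T.pf Θ _ _ = _
      rw [e1, e2]
  have iK2 : Integrable (fun g => K g * K g) Ψ.fr.μ :=
    (hKc.mul hKc).integrable_of_hasCompactSupport (HasCompactSupport.of_compactSpace _)
  have iKH : Integrable (fun g => K g * H g) Ψ.fr.μ :=
    (hKc.mul hHc).integrable_of_hasCompactSupport (HasCompactSupport.of_compactSpace _)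
  have iH2 : Integrable (fun g => H g ^ 2) Ψ.fr.μ :=
    (hHc.pow 2).integrable_of_hasCompactSupport (HasCompactSupport.of_compactSpace _)
  have h0 : 0 ≤ ∫ g, (K g - H g) ^ 2 ∂Ψ.fr.μ := integral_nonneg fun _ => sq_nonneg _
  have h2 : ∫ g, (K g - H g) ^ 2 ∂Ψ.fr.μ = c₀ - 2 * c₀ + ∫ g, H g ^ 2 ∂Ψ.fr.μ := by
    have e : ∀ g, (K g - H g) ^ 2 = K g * K g - 2 * (K g * H g) + H g ^ 2 := fun g => by ring
    simp_rw [e]
    have i1 : Integrable (fun g => K g * K g - 2 * (K g * H g)) Ψ.fr.μ := iK2.sub (iKH.const_mul 2)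
    rw [integral_add i1 iH2, integral_sub iK2 (iKH.const_mul 2),
      integral_const_mul, hii, hiii]
  have e1 : Ψ.av (fun u v w => T.CC Θ u v w ^ 2) = c₀ := by
    rw [← hii]
    refine integral_congr_ae (Eventually.of_forall fun g => ?_)
    change K g ^ 2 = K g * K g
    ring
  have e2 : Ψ.fr.av (fun u _ => Ψ.fr.P2 (T.pf Θ) u ^ 2) = ∫ g, H g ^ 2 ∂Ψ.fr.μ := rfl
  rw [e1, e2]
  linarith

end Pool.Agent.Work.MP_408f4b_gt.A2
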