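import Pool.Agent.Work.MP_408f4b_gt.A2.Stmts

set_option autoImplicit false

/-!
# The theorem for abstract matrices: the inequality
-/

namespace Pool.Agent.Work.MP_408f4b_gt.A2

open MeasureTheory Set Filter Topology Pool.Agent.Work.MP_408f4b_gt.Q

namespace JThm

section one

variable {V : Type} [NormedAddCommGroup V] [InnerProductSpace ℝ V] [CompleteSpace V] {e : ℕ}
  {Ψ : Fr3 V e} {M : Type} [NormedAddCommGroup M] [InnerProductSpace ℝ M] [CompleteSpace M]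
  (T : Hrm Ψ M) (P : Profile (e + 1)) (f : M → ℝ)

theorem ex_eq (hE : ∀ s, e1 (P.cx s) (P.cy s) = P.x s ∧ e2 (P.cx s) (P.cy s) = P.y s ∧
    e3 (P.cx s) (P.cy s) = P.z s) (s : ℝ) :
    T.Ex (Us f P.cx P.cy s) =
      Ψ.av (fun u v w => f (T.X (P.x s) (P.y s) (P.z s) u v w)) := by
  obtain ⟨h1, h2, h3⟩ := hE s
  unfold Us
  rw [h1, h2, h3]
  rfl

theorem exsq_eq (hE : ∀ s, e1 (P.cx s) (P.cy s) = P.x s ∧ e2 (P.cx s) (P.cy s) = P.y s ∧
    e3 (P.cx s) (P.cy s) = P.z s) (s : ℝ) :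
    T.Ex (fun X Y Z => Us f P.cx P.cy s X Y Z ^ 2) =
      Ψ.av (fun u v w => f (T.X (P.x s) (P.y s) (P.z s) u v w) ^ 2) := by
  obtain ⟨h1, h2, h3⟩ := hE s
  unfold Us
  rw [h1, h2, h3]
  rfl

theorem gs_eq (hE : ∀ s, e1 (P.cx s) (P.cy s) = P.x s ∧ e2 (P.cx s) (P.cy s) = P.y s ∧
    e3 (P.cx s) (P.cy s) = P.z s)
    (hD : ∀ s, e1 (deriv P.cx s) (deriv P.cy s) = deriv P.x s ∧
      e2 (deriv P.cx s) (deriv P.cy s) = deriv P.y s ∧
      e3 (deriv P.cx s) (deriv P.cy s) = deriv P.z s) (s : ℝ) :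
    Gs T f P.cx P.cy s =
      Ψ.av (T.gS f (P.x s) (P.y s) (P.z s) (deriv P.x s) (deriv P.y s) (deriv P.z s)) := by
  obtain ⟨h1, h2, h3⟩ := hE s
  obtain ⟨k1, k2, k3⟩ := hD s
  unfold Gs
  rw [h1, h2, h3, k1, k2, k3]

end one

end JThm

theorem prfThm (hcB : cB) (hcPt : cPt) (hcVol : cVol) (hcTwo : cTwo) (hcOne : cOne) : cThm := by
  have _ := hcB
  have _ := hcPt
  intro V _ _ _ e Ψ M _ _ _ T P f hf hbd
  obtain ⟨hw, hE, hD, -, hcx, hcy, hcrv, hL, h0, hwL, -, -⟩ := hcVol (e + 1) P (by omega)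
  have hen : en T P f = ∫ s in (0 : ℝ)..P.L, Gs T f P.cx P.cy s * w3 (e + 1) P.cx P.cy s := by
    unfold en
    refine intervalIntegral.integral_congr fun s _ => ?_
    show _ = Gs T f P.cx P.cy s * w3 (e + 1) P.cx P.cy s
    rw [JThm.gs_eq T P f hE hD s, hw s]
  have hb1 : bd T P f = T.Ex (Us f P.cx P.cy P.L) * w3 (e + 1) P.cx P.cy P.L +
      T.Ex (Us f P.cx P.cy 0) * w3 (e + 1) P.cx P.cy 0 := by
    unfold bd
    rw [JThm.ex_eq T P f hE, JThm.ex_eq T P f hE, hw, hw]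
  have hb2 : bd T P (fun X => f X ^ 2) =
      T.Ex (fun X Y Z => Us f P.cx P.cy P.L X Y Z ^ 2) * w3 (e + 1) P.cx P.cy P.L +
      T.Ex (fun X Y Z => Us f P.cx P.cy 0 X Y Z ^ 2) * w3 (e + 1) P.cx P.cy 0 := by
    unfold bd
    rw [JThm.exsq_eq T P f hE, JThm.exsq_eq T P f hE, hw, hw]
  rw [hen, hb2]
  rw [hb1] at hbd
  rcases h0 with hchd | ⟨hx0, hy0, hd, hw0⟩
  · exact hcTwo V e Ψ M T f P.L P.cx P.cy hf hchd hbd
  · rw [hw 0] at hw0
    rw [hw P.L] at hwL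
    rw [hw0, mul_zero, add_zero] at hbd
    rw [hw0, mul_zero, add_zero]
    have hEx : T.Ex (Us f P.cx P.cy P.L) = 0 := by
      rcases mul_eq_zero.1 hbd with h | h
      · exact h
      · exact absurd h hwL.ne'
    exact hcOne V e Ψ M T f P.L P.cx P.cy hf P.L_pos hcx hcy hcrv hL.1 hL.2.1 hL.2.2 hx0 hy0 hd hEx

end Pool.Agent.Work.MP_408f4b_gt.A2
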