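import Pool.Agent.Work.MP_408f4b_gt.A2.Stmts

/-!
# Item Tri: elementary facts on triples
-/

set_option autoImplicit false

namespace Pool.Agent.Work.MP_408f4b_gt.A2

open MeasureTheory Set Filter Topology Pool.Agent.Work.MP_408f4b_gt.Q

namespace JTri

variable {V : Type} [NormedAddCommGroup V] [InnerProductSpace ℝ V] {e : ℕ}

/-- A unit vector orthogonal to the lines of two vectors. -/
theorem exists_unit (Φ : Frm V (3 * (e + 1)) e) (u v : V) :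
    ∃ w : V, ‖w‖ = 1 ∧ (∀ q, (inner ℝ w (Φ.J q u) : ℝ) = 0) ∧
      ∀ q, (inner ℝ w (Φ.J q v) : ℝ) = 0 := by
  have : FiniteDimensional ℝ V := Φ.L.toLinearEquiv.finiteDimensional
  let f : Fin (e + 1) ⊕ Fin (e + 1) → V := Sum.elim (fun q => Φ.J q u) (fun q => Φ.J q v)
  have h1 : Module.finrank ℝ (Submodule.span ℝ (Set.range f)) ≤ 2 * (e + 1) := by
    refine (finrank_range_le_card (R := ℝ) f).trans ?_
    rw [Fintype.card_sum, Fintype.card_fin]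
    omega
  have h2 : Module.finrank ℝ V = 3 * (e + 1) := by
    rw [← Φ.L.toLinearEquiv.finrank_eq, finrank_euclideanSpace, Fintype.card_fin]
  have h3 : (Submodule.span ℝ (Set.range f))ᗮ ≠ ⊥ := by
    intro h
    have h4 := Submodule.finrank_add_finrank_orthogonal (Submodule.span ℝ (Set.range f))
    rw [h, finrank_bot, h2] at h4
    omega
  obtain ⟨w, hw, hw0⟩ := Submodule.exists_mem_ne_zero_of_ne_bot h3
  have hin : ∀ i, (inner ℝ w (f i) : ℝ) = 0 := fun i =>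
    Submodule.inner_left_of_mem_orthogonal (Submodule.subset_span (Set.mem_range_self i)) hw
  refine ⟨‖w‖⁻¹ • w, ?_, fun q => ?_, fun q => ?_⟩
  · rw [norm_smul, norm_inv, norm_norm, inv_mul_cancel₀ (norm_ne_zero_iff.2 hw0)]
  · have := hin (Sum.inl q)
    rw [real_inner_smul_left]
    simp only [f, Sum.elim_inl] at this
    rw [this, mul_zero]
  · have := hin (Sum.inr q)
    rw [real_inner_smul_left]
    simp only [f, Sum.elim_inr] at this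
    rw [this, mul_zero]

end JTri

theorem prfTri (hclPair : clPair) : cTri := by
  intro V _ _ _ e Ψ
  obtain ⟨-, -, hP, -⟩ := hclPair V (3 * (e + 1)) e Ψ.fr
  have hs : ∀ {v w : V}, Ψ.fr.Pair v w → Ψ.fr.Pair w v := fun {v w} h => (hP v w h).1
  have hA : ∀ {v w : V}, Ψ.fr.Pair v w → ∀ g, Ψ.fr.Pair (Ψ.fr.A g v) (Ψ.fr.A g w) :=
    fun {v w} h => (hP v w h).2.2.2.2.1
  have h5 : ∀ u v : V, ‖u‖ = 1 → ‖v‖ = 1 → ∃ w, Ψ.fr.Pair u w ∧ Ψ.fr.Pair v w := by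
    intro u v hu hv
    obtain ⟨w, hw, hw1, hw2⟩ := JTri.exists_unit Ψ.fr u v
    exact ⟨w, hs ⟨hw, hu, hw1⟩, hs ⟨hw, hv, hw2⟩⟩
  refine ⟨⟨⟨Ψ.fr.ha, Ψ.fr.hb, Ψ.fr.hab⟩, Ψ.hac, Ψ.hbc⟩, ?_, ?_, ?_, h5⟩
  · rintro u v w ⟨h1, h2, h3⟩
    exact ⟨⟨h2, h1, hs h3⟩, ⟨hs h1, h3, h2⟩, ⟨hs h3, hs h2, hs h1⟩, ⟨h3, hs h1, hs h2⟩,
      ⟨hs h2, hs h3, h1⟩⟩
  · rintro u v w ⟨h1, h2, h3⟩ g
    exact ⟨hA h1 g, hA h2 g, hA h3 g⟩
  · intro u v h
    obtain ⟨w, h1, h2⟩ := h5 u v h.1 h.2.1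
    exact ⟨w, h, h1, h2⟩

end Pool.Agent.Work.MP_408f4b_gt.A2
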